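import Pool.Agent.Work.MP_0d9e46_mp.ClsL

-- merged part: Pool.Agent.Work.MP_0d9e46_mp.Rot0
section
/-! Elementary facts on rotations about coordinate axes. -/

open MeasureTheory Filter Topology FourierTransform
open scoped Real ENNReal

noncomputable section

namespace Pool.Agent.Work.MP_0d9e46_mp

private lemma h14_g3 (k : Fin 3) (y : E3) : gen k (gen k (gen k y)) = -gen k y := by
  ext i
  fin_cases k <;> fin_cases i <;> simp [gen]

private lemma h14_rot (k : Fin 3) (s : ℝ) (y : E3) :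
    rot k s y = y + Real.sin s • gen k y + (1 - Real.cos s) • gen k (gen k y) := by
  simp [rot_apply, rotL]

lemma rot_add (k : Fin 3) (s t : ℝ) (y : E3) : rot k (s + t) y = rot k s (rot k t y) := by
  simp only [h14_rot, map_add, map_smul, h14_g3, map_neg, Real.sin_add, Real.cos_add]
  match_scalars <;> ring

lemma rot_zero (k : Fin 3) (y : E3) : rot k 0 y = y := by
  simp [rot_apply, rotL]

lemma rot_two_pi (k : Fin 3) (y : E3) : rot k (2 * π) y = y := by
  simp [rot_apply, rotL]

lemma rot_neg_rot (k : Fin 3) (t : ℝ) (y : E3) : rot k (-t) (rot k t y) = y := by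
  rw [← rot_add, neg_add_cancel, rot_zero]

lemma rot_rot_neg (k : Fin 3) (t : ℝ) (y : E3) : rot k t (rot k (-t) y) = y := by
  rw [← rot_add, add_neg_cancel, rot_zero]

lemma hasDerivAt_rot (k : Fin 3) (y : E3) (t : ℝ) :
    HasDerivAt (fun s => rot k s y) (gen k (rot k t y)) t := by
  have h1 : HasDerivAt (fun s => y + Real.sin s • gen k y + (1 - Real.cos s) • gen k (gen k y))
      (Real.cos t • gen k y + Real.sin t • gen k (gen k y)) t := by
    have := (((Real.hasDerivAt_sin t).smul_const (gen k y)).const_add y).add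
      (((Real.hasDerivAt_cos t).const_sub 1).smul_const (gen k (gen k y)))
    rw [neg_neg] at this
    exact this
  have h2 : (fun s => rot k s y) =
      fun s => y + Real.sin s • gen k y + (1 - Real.cos s) • gen k (gen k y) := by
    funext s; exact h14_rot k s y
  rw [h2]
  refine h1.congr_deriv ?_
  simp only [h14_rot, map_add, map_smul, h14_g3]
  match_scalars <;> ring

lemma norm_gen_sq (k : Fin 3) (y : E3) : ‖gen k y‖ ^ 2 = ‖y‖ ^ 2 - y k ^ 2 := by
  rw [EuclideanSpace.norm_sq_eq, EuclideanSpace.norm_sq_eq]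
  fin_cases k <;> simp [gen, Fin.sum_univ_three, sq_abs] <;> ring

lemma norm_gen_le (k : Fin 3) (y : E3) : ‖gen k y‖ ≤ ‖y‖ := by
  have := norm_gen_sq k y
  nlinarith [norm_nonneg (gen k y), norm_nonneg y, sq_nonneg (y k)]

lemma norm_rot_sub_sq (k : Fin 3) (t : ℝ) (y : E3) :
    ‖rot k t y - y‖ ^ 2 = 2 * (1 - Real.cos t) * ‖gen k y‖ ^ 2 := by
  have h := Real.sin_sq_add_cos_sq t
  rw [EuclideanSpace.norm_sq_eq, EuclideanSpace.norm_sq_eq]
  fin_cases k <;> simp [rot_apply, rotL, gen, Fin.sum_univ_three, sq_abs]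
  · linear_combination (y 1 ^ 2 + y 2 ^ 2) * h
  · linear_combination (y 0 ^ 2 + y 2 ^ 2) * h
  · linear_combination (y 0 ^ 2 + y 1 ^ 2) * h

lemma exists_axis (x : E3) : ∃ k : Fin 3, ‖x‖ ≤ 2 * ‖gen k x‖ := by
  have h0 := norm_gen_sq 0 x
  have h1 := norm_gen_sq 1 x
  have h : ‖x‖ ^ 2 = x 0 ^ 2 + x 1 ^ 2 + x 2 ^ 2 := by
    rw [EuclideanSpace.norm_sq_eq]; simp [Fin.sum_univ_three, sq_abs]
  by_cases hc : x 0 ^ 2 ≤ x 1 ^ 2
  · refine ⟨0, ?_⟩
    apply le_of_sq_le_sq _ (by positivity) |>.trans le_rfl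
    nlinarith [sq_nonneg (x 2), sq_nonneg (x 0)]
  · refine ⟨1, ?_⟩
    apply le_of_sq_le_sq _ (by positivity) |>.trans le_rfl
    nlinarith [sq_nonneg (x 2), sq_nonneg (x 1)]

end Pool.Agent.Work.MP_0d9e46_mp
end
end

-- merged part: Pool.Agent.Work.MP_0d9e46_mp.Four
section
/-! Fourier basics: the integral and the unitary transform agree, derivatives, symmetries. -/

open MeasureTheory Filter Topology FourierTransform
open scoped Real ENNReal

noncomputable section

namespace Pool.Agent.Work.MP_0d9e46_mp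

variable {F : Type} [NormedAddCommGroup F] [InnerProductSpace ℂ F] [CompleteSpace F]

lemma four_cont_inner : Continuous fun p : E3 × E3 => (-innerₗ E3) p.1 p.2 := by
  simp only [LinearMap.neg_apply, innerₗ_apply_apply]
  fun_prop

omit [CompleteSpace F] in
lemma four_continuous_inv {κ : E3 → F} (h1 : Integrable κ) : Continuous (𝓕⁻ κ) :=
  VectorFourier.fourierIntegral_continuous Real.continuous_fourierChar four_cont_inner h1

omit [CompleteSpace F] in
lemma four_inv_eq (κ : E3 → F) : 𝓕⁻ κ = fun y => 𝓕 κ (-y) :=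
  funext (Real.fourierInv_eq_fourier_neg κ)

omit [CompleteSpace F] [InnerProductSpace ℂ F] in
lemma four_moment {κ : E3 → F} (h1 : Integrable κ) (hs : ∃ r : ℝ, ∀ ξ, r < ‖ξ‖ → κ ξ = 0)
    (n : ℕ) : Integrable fun v => ‖v‖ ^ n * ‖κ v‖ := by
  obtain ⟨r, hr⟩ := hs
  refine (h1.norm.const_mul (|r| ^ n)).mono'
    ((by fun_prop : Continuous fun v : E3 => ‖v‖ ^ n).aestronglyMeasurable.mul
      h1.1.norm) (.of_forall fun v => ?_)
  rw [Real.norm_of_nonneg (by positivity)]
  rcases lt_or_ge r ‖v‖ with h | h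
  · simp [hr v h]
  · have : ‖v‖ ≤ |r| := h.trans (le_abs_self r)
    gcongr

theorem l1l2 {κ : E3 → F} (h1 : Integrable κ) (h2 : MemLp κ 2 volume) :
    (FT F).symm (toL2 κ) =ᵐ[volume] 𝓕⁻ κ := by
  have hc : Continuous (𝓕⁻ κ) := four_continuous_inv h1
  refine ae_eq_of_integral_contDiff_smul_eq ((Lp.memLp _).locallyIntegrable (by norm_num))
    hc.locallyIntegrable fun g hg hgs => ?_
  have hg₁ : HasCompactSupport (Complex.ofRealCLM ∘ g) := hgs.comp_left rfl
  have hg₂ : ContDiff ℝ ((⊤ : ℕ∞) : WithTop ℕ∞) (Complex.ofRealCLM ∘ g) := by fun_prop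
  set φ := hg₁.toSchwartzMap hg₂ with hφ
  have hφa : ∀ x, φ x = (g x : ℂ) := fun x => rfl
  have e1 := congrArg (fun T : TemperedDistribution E3 F => T φ)
    (Lp.fourierInv_toTemperedDistribution_eq (toL2 κ))
  simp only [TemperedDistribution.fourierInv_apply, Lp.toTemperedDistribution_apply] at e1
  have e2 : ∫ x, (𝓕⁻ φ) x • (toL2 κ) x = ∫ x, (𝓕⁻ (φ : E3 → ℂ)) x • κ x := by
    refine integral_congr_ae ?_
    filter_upwards [toL2_ae h2] with x hx
    rw [hx, SchwartzMap.fourierInv_coe]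
  have e3 := VectorFourier.integral_fourierIntegral_smul_eq_flip (e := Real.fourierChar)
    (L := -innerₗ E3) (μ := volume) (ν := volume) (f := (φ : E3 → ℂ)) (g := κ)
    Real.continuous_fourierChar four_cont_inner φ.integrable h1
  have e4 : (-innerₗ E3).flip = -innerₗ E3 := by
    ext x y; simp [real_inner_comm]
  rw [e4] at e3
  have e5 : ∫ x, φ x • (𝓕⁻ (toL2 κ) : L2 F) x = ∫ x, φ x • 𝓕⁻ κ x := by
    rw [← e1, e2]; exact e3
  simp only [hφa, Complex.coe_smul] at e5
  exact e5

theorem eLpNorm_fourierInv {κ : E3 → F} (h1 : Integrable κ) (h2 : MemLp κ 2 volume) :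
    eLpNorm (𝓕⁻ κ) 2 volume = eLpNorm κ 2 volume := by
  rw [← eLpNorm_congr_ae (l1l2 h1 h2), ← eLpNorm_congr_ae (toL2_ae h2), ← Lp.enorm_def,
    ← Lp.enorm_def, ← ofReal_norm, ← ofReal_norm, LinearIsometryEquiv.norm_map]

theorem contDiff_fourierInv {κ : E3 → F} (h1 : Integrable κ)
    (hs : ∃ r : ℝ, ∀ ξ, r < ‖ξ‖ → κ ξ = 0) : ContDiff ℝ 1 (𝓕⁻ κ) := by
  rw [four_inv_eq]
  exact (Real.contDiff_fourier (N := 1) fun n _ => four_moment h1 hs n).comp contDiff_neg

theorem D_fourierInv {κ : E3 → F} (h1 : Integrable κ)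
    (hs : ∃ r : ℝ, ∀ ξ, r < ‖ξ‖ → κ ξ = 0) (v : E3) :
    D v (𝓕⁻ κ) = 𝓕⁻ (fun ξ => (((2 * π * inner ℝ ξ v : ℝ) : ℂ) * Complex.I) • κ ξ) := by
  have hm : Integrable fun v => ‖v‖ * ‖κ v‖ := by simpa using four_moment h1 hs 1
  funext y
  have hd := (Real.hasFDerivAt_fourier h1 hm (-y)).comp y (hasFDerivAt_id y).neg
  have hi : Integrable (VectorFourier.fourierSMulRight (innerSL ℝ) κ) := by
    refine (hm.const_mul (2 * π * ‖innerSL ℝ (E := E3)‖)).mono'
      (h1.1.fourierSMulRight) (.of_forall fun w => ?_)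
    refine (VectorFourier.norm_fourierSMulRight_le _ _ _).trans (le_of_eq ?_)
    ring
  have e : fderiv ℝ (𝓕⁻ κ) y v = 𝓕 (VectorFourier.fourierSMulRight (innerSL ℝ) κ) (-y) (-v) := by
    rw [four_inv_eq]
    exact congrArg (fun L : E3 →L[ℝ] F => L v) hd.fderiv
  rw [D, e, Real.fourier_continuousLinearMap_apply hi, Real.fourierInv_eq_fourier_neg]
  refine congrArg (fun f : E3 → F => 𝓕 f (-y)) (funext fun ξ => ?_)
  have e3 : innerSL ℝ ξ (-v) = -inner ℝ ξ v := inner_neg_right ξ v
  rw [VectorFourier.fourierSMulRight_apply, e3, ← Complex.coe_smul, smul_smul]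
  congr 1
  push_cast
  ring

theorem fourierInv_D {κ : E3 → F} (hκ : ContDiff ℝ 1 κ) (hs : HasCompactSupport κ) (v y : E3) :
    𝓕⁻ (D v κ) y = (((-2 * π * inner ℝ y v : ℝ) : ℂ) * Complex.I) • 𝓕⁻ κ y := by
  have h1 : Integrable κ := hκ.continuous.integrable_of_hasCompactSupport hs
  have h2 : Integrable (fderiv ℝ κ) :=
    (hκ.continuous_fderiv one_ne_zero).integrable_of_hasCompactSupport (hs.fderiv ℝ)
  have e := Real.fourier_fderiv h1 (hκ.differentiable one_ne_zero) h2
  rw [Real.fourierInv_eq_fourier_neg, Real.fourierInv_eq_fourier_neg]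
  have e2 : 𝓕 (D v κ) (-y) = 𝓕 (fderiv ℝ κ) (-y) v :=
    (Real.fourier_continuousLinearMap_apply h2).symm
  have e3 : (-innerSL ℝ : E3 →L[ℝ] E3 →L[ℝ] ℝ) (-y) v = inner ℝ y v := by
    change -inner ℝ (-y) v = _
    rw [inner_neg_left, neg_neg]
  rw [e2, e, VectorFourier.fourierSMulRight_apply, e3, ← Complex.coe_smul, smul_smul]
  congr 1
  push_cast
  ring

theorem fourierInv_wave (κ : E3 → F) (x y : E3) :
    𝓕⁻ (fun ξ => wave x ξ • κ ξ) y = 𝓕⁻ κ (y - x) := by
  rw [Real.fourierInv_eq', Real.fourierInv_eq']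
  congr 1
  funext ξ
  rw [smul_smul, wave, ← Complex.exp_add, inner_sub_right]
  congr 2
  push_cast
  ring

theorem tendsto_fourierInv (κ : E3 → F) : Tendsto (𝓕⁻ κ) (cocompact E3) (𝓝 0) := by
  rw [Real.fourierInv_eq_fourier_comp_neg]
  exact tendsto_integral_exp_inner_smul_cocompact _

theorem norm_wave (x ξ : E3) : ‖wave x ξ‖ = 1 := by
  exact Complex.norm_exp_ofReal_mul_I _

theorem continuous_wave : Continuous fun p : E3 × E3 => wave p.1 p.2 := by
  unfold wave
  fun_prop

/-- Sharp truncation in Fourier space. -/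
theorem integrable_trunc (h : L2 F) (r : ℝ) :
    Integrable ((Metric.closedBall (0 : E3) r).indicator h) := by
  rw [integrable_indicator_iff measurableSet_closedBall]
  exact ((Lp.memLp h).locallyIntegrable (by norm_num)).integrableOn_isCompact
    (isCompact_closedBall 0 r)

theorem memLp_trunc (h : L2 F) (r : ℝ) :
    MemLp ((Metric.closedBall (0 : E3) r).indicator h) 2 volume := by
  exact (Lp.memLp h).indicator measurableSet_closedBall

omit [CompleteSpace F] in
lemma four_norm_sq (f : L2 F) : ‖f‖ ^ 2 = ∫ x, ‖f x‖ ^ 2 := by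
  rw [← inner_self_eq_norm_sq (𝕜 := ℂ), L2.inner_def, ← integral_re (L2.integrable_inner f f)]
  simp only [inner_self_eq_norm_sq]

theorem trunc_tendsto (h : L2 F) :
    Tendsto (fun n : ℕ => toL2 ((Metric.closedBall (0 : E3) n).indicator h)) atTop (𝓝 h) := by
  rw [tendsto_iff_norm_sub_tendsto_zero]
  have hsq : Tendsto (fun n : ℕ => ‖toL2 ((Metric.closedBall (0 : E3) n).indicator h) - h‖ ^ 2)
      atTop (𝓝 0) := by
    have hi : Integrable fun x => ‖h x‖ ^ 2 :=
      (memLp_two_iff_integrable_sq_norm (Lp.aestronglyMeasurable h)).1 (Lp.memLp h)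
    have e : ∀ n : ℕ, ‖toL2 ((Metric.closedBall (0 : E3) n).indicator h) - h‖ ^ 2 =
        ∫ x, (Metric.closedBall (0 : E3) n)ᶜ.indicator (fun x => ‖h x‖ ^ 2) x := by
      intro n
      rw [four_norm_sq]
      refine integral_congr_ae ?_
      filter_upwards [Lp.coeFn_sub (toL2 ((Metric.closedBall (0 : E3) n).indicator h)) h,
        toL2_ae (memLp_trunc h n)] with x h1 h2
      rw [h1, Pi.sub_apply, h2]
      by_cases hx : x ∈ Metric.closedBall (0 : E3) n
      · simp [hx]
      · simp [hx]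
    simp only [e]
    have := tendsto_integral_of_dominated_convergence (μ := (volume : Measure E3))
      (F := fun (n : ℕ) x => (Metric.closedBall (0 : E3) n)ᶜ.indicator (fun x => ‖h x‖ ^ 2) x)
      (f := fun _ => 0) (fun x => ‖h x‖ ^ 2)
      (fun n => hi.1.indicator measurableSet_closedBall.compl) hi
      (fun n => .of_forall fun x => by
        refine (norm_indicator_le_norm_self _ _).trans (le_of_eq ?_)
        exact Real.norm_of_nonneg (by positivity))
      (.of_forall fun x => by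
        refine tendsto_const_nhds.congr' ?_
        filter_upwards [tendsto_natCast_atTop_atTop.eventually_ge_atTop ‖x‖] with n hn
        rw [Set.indicator_of_notMem]
        simpa using hn)
    simpa using this
  have := hsq.sqrt
  simpa using this

theorem FT_symm_comp (A : F →L[ℂ] F) (ρ : E3 ≃ₗᵢ[ℝ] E3) (h : L2 F) :
    (FT F).symm (A.compLpL 2 volume (Lp.compMeasurePreservingₗᵢ ℂ ρ ρ.measurePreserving h)) =
      A.compLpL 2 volume
        (Lp.compMeasurePreservingₗᵢ ℂ ρ ρ.measurePreserving ((FT F).symm h)) := by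
  have key : ∀ κ : E3 → F, Integrable κ → MemLp κ 2 volume →
      (FT F).symm (A.compLpL 2 volume
        (Lp.compMeasurePreservingₗᵢ ℂ ρ ρ.measurePreserving (toL2 κ))) =
      A.compLpL 2 volume
        (Lp.compMeasurePreservingₗᵢ ℂ ρ ρ.measurePreserving ((FT F).symm (toL2 κ))) := by
    intro κ h1 h2
    have hq := ρ.measurePreserving.quasiMeasurePreserving
    have hc : ∀ g : L2 F, A.compLpL 2 volume
        (Lp.compMeasurePreservingₗᵢ ℂ ρ ρ.measurePreserving g) =ᵐ[volume] fun x => A (g (ρ x)) := by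
      intro g
      filter_upwards [A.coeFn_compLpL (Lp.compMeasurePreservingₗᵢ ℂ ρ ρ.measurePreserving g),
        Lp.coeFn_compMeasurePreserving g ρ.measurePreserving] with x hx1 hx2
      rw [hx1]
      exact congrArg A hx2
    have h1' : Integrable (κ ∘ ρ) := ρ.measurePreserving.integrable_comp_of_integrable h1
    have h1'' : Integrable fun x => A (κ (ρ x)) := A.integrable_comp h1'
    have h2'' : MemLp (fun x => A (κ (ρ x))) 2 volume :=
      A.comp_memLp' (h2.comp_measurePreserving ρ.measurePreserving)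
    have e : A.compLpL 2 volume (Lp.compMeasurePreservingₗᵢ ℂ ρ ρ.measurePreserving (toL2 κ)) =
        toL2 fun x => A (κ (ρ x)) := by
      refine (toL2_eq ?_).symm
      filter_upwards [hc (toL2 κ), hq.ae_eq_comp (toL2_ae h2)] with x hx1 hx2
      rw [hx1]
      exact congrArg A hx2.symm
    rw [e]
    refine Lp.ext ?_
    filter_upwards [l1l2 h1'' h2'', hc ((FT F).symm (toL2 κ)), hq.ae_eq_comp (l1l2 h1 h2)]
      with x hx1 hx2 hx3
    have hx4 : (FT F).symm (toL2 κ) (ρ x) = 𝓕⁻ κ (ρ x) := hx3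
    rw [hx1, hx2, hx4, ← Real.fourierInv_comp_linearIsometry, Real.fourierInv_eq_fourier_neg,
      Real.fourierInv_eq_fourier_neg, Real.fourier_eq, Real.fourier_eq,
      ← A.integral_comp_comm ((Real.fourierIntegral_convergent_iff _).2 h1')]
    simp only [Circle.smul_def, map_smul, Function.comp_apply]
  have c1 : Continuous fun g : L2 F => (FT F).symm (A.compLpL 2 volume
      (Lp.compMeasurePreservingₗᵢ ℂ ρ ρ.measurePreserving g)) :=
    (FT F).symm.continuous.comp ((A.compLpL 2 volume).continuous.comp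
      (Lp.compMeasurePreservingₗᵢ ℂ ρ ρ.measurePreserving).continuous)
  have c2 : Continuous fun g : L2 F => A.compLpL 2 volume
      (Lp.compMeasurePreservingₗᵢ ℂ ρ ρ.measurePreserving ((FT F).symm g)) :=
    (A.compLpL 2 volume).continuous.comp
      ((Lp.compMeasurePreservingₗᵢ ℂ ρ ρ.measurePreserving).continuous.comp (FT F).symm.continuous)
  refine tendsto_nhds_unique ((c1.tendsto h).comp (trunc_tendsto h))
    (((c2.tendsto h).comp (trunc_tendsto h)).congr fun n => ?_)
  exact (key _ (integrable_trunc h n) (memLp_trunc h n)).symm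

end Pool.Agent.Work.MP_0d9e46_mp
end
end
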