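import Pool.Agent.Work.MP_0d9e46_mp.ClsL
import Pool.Agent.Work.MP_0d9e46_mp.Rot0

/-! The three operators as instances of the model. -/

open MeasureTheory Filter Topology FourierTransform
open scoped Real ENNReal

noncomputable section

namespace Pool.Agent.Work.MP_0d9e46_mp

/-- The Chandrasekhar operator as a model. -/
def chandraModel {γ : ℝ} (h0 : 0 < γ) (h1 : γ < 1) : Model ℂ where
  γ := γ
  γ_pos := h0
  γ_lt := h1
  B := fun _ => ContinuousLinearMap.id ℂ ℂ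
  B_sa := fun _ _ _ => rfl
  B_sq := fun _ _ => rfl
  KB := 0
  KB_nonneg := le_rfl
  B_cls := fun e _ => ClsAt.const e le_rfl le_rfl
  σ := 0
  hσ := Or.inl rfl
  sh := γ⁻¹ ^ 2
  J := fun _ => Complex.I • ContinuousLinearMap.id ℂ ℂ
  J_skew := fun _ u v => by
    simp only [smul_apply, ContinuousLinearMap.id_apply, inner_smul_left,
      inner_smul_right, Complex.conj_I, neg_mul]
  J_sq := fun _ u => by
    simp only [smul_apply, ContinuousLinearMap.id_apply, smul_smul,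
      Complex.I_mul_I, neg_smul, one_smul]
  J_cov := fun _ _ _ _ => rfl
  n := 1
  b := OrthonormalBasis.singleton (Fin 1) ℂ
  rk := 1
  tr := fun _ => by
    have h : ∀ u : ℂ, (2⁻¹ : ℂ) • (u + u) = u := fun u => by module
    simp only [Finset.univ_unique, Finset.sum_singleton, ContinuousLinearMap.id_apply, h]
    exact (congrArg (· ^ 2) ((OrthonormalBasis.singleton (Fin 1) ℂ).orthonormal.1 default)).trans
      (one_pow 2)

theorem exists_model_chandra {γ : ℝ} (h0 : 0 < γ) (h1 : γ < 1) :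
    ∃ M : Model ℂ, M.T = chandra γ ∧ M.La = (fun _ => ContinuousLinearMap.id ℂ ℂ) ∧
      M.I = Set.Iio 0 ∧ M.rk = 1 := by
  refine ⟨chandraModel h0 h1, ?_, ?_, ?_, rfl⟩
  · funext ξ
    simp only [Model.T, Model.E, chandraModel, chandra, Complex.ofReal_sub]
    module
  · funext ξ
    simp only [Model.La, Model.Pp, chandraModel, Complex.ofReal_zero, zero_smul, add_zero]
    module
  · ext e
    simp [Model.I, Model.c, chandraModel]

/-- The matrix `α·x + m β`. -/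
def dm (x : E3) (m : ℝ) : Matrix (Fin 4) (Fin 4) ℂ :=
  ∑ i : Fin 3, ((x i : ℝ) : ℂ) • alpha i + ((m : ℝ) : ℂ) • beta

/-- Matrices as operators on spinor space. -/
abbrev op (A : Matrix (Fin 4) (Fin 4) ℂ) : C4 →L[ℂ] C4 :=
  Matrix.toEuclideanCLM (n := Fin 4) (𝕜 := ℂ) A

lemma dirac_eq (γ : ℝ) (ξ : E3) : dirac γ ξ = op (dm ((γ⁻¹ * (2 * π)) • ξ) (γ⁻¹ ^ 2)) := by
  simp only [dirac, dm, op, PiLp.smul_apply, smul_eq_mul, mul_assoc]

lemma dm_eq (x : E3) (m : ℝ) : dm x m =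
    !![(m : ℂ), 0, x 2, x 0 - x 1 * Complex.I; 0, m, x 0 + x 1 * Complex.I, -x 2;
      x 2, x 0 - x 1 * Complex.I, -m, 0; x 0 + x 1 * Complex.I, -x 2, 0, -m] := by
  ext i j
  fin_cases i <;> fin_cases j <;> simp [dm, alpha, beta, Fin.sum_univ_three, sub_eq_add_neg]

lemma star_dm (x : E3) (m : ℝ) : star (dm x m) = dm x m := by
  rw [dm_eq]
  ext i j
  fin_cases i <;> fin_cases j <;> simp [sub_eq_add_neg]

lemma dm_mul_self (x : E3) (m : ℝ) :
    dm x m * dm x m = (((‖x‖ ^ 2 + m ^ 2 : ℝ)) : ℂ) • (1 : Matrix (Fin 4) (Fin 4) ℂ) := by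
  have h : ‖x‖ ^ 2 = x 0 ^ 2 + x 1 ^ 2 + x 2 ^ 2 := by
    rw [EuclideanSpace.norm_sq_eq]; simp [Fin.sum_univ_three, sq_abs]
  have hI := Complex.I_sq
  rw [h, dm_eq]
  ext i j
  fin_cases i <;> fin_cases j <;> simp [Matrix.mul_apply, Fin.sum_univ_four] <;>
    first
      | ring1
      | linear_combination (-(x 1 : ℂ) ^ 2) * hI

lemma op_inner (A : Matrix (Fin 4) (Fin 4) ℂ) (u v : C4) :
    inner ℂ (op A u) v = inner ℂ u (op (star A) v) := by
  rw [op, op, map_star, ContinuousLinearMap.star_eq_adjoint,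
    ContinuousLinearMap.adjoint_inner_right]

lemma op_op (A B : Matrix (Fin 4) (Fin 4) ℂ) (u : C4) : op A (op B u) = op (A * B) u := by
  rw [op, op, op, map_mul]; rfl

lemma op_smul_one (a : ℂ) (u : C4) : op (a • (1 : Matrix (Fin 4) (Fin 4) ℂ)) u = a • u := by
  rw [op, map_smul, map_one]; rfl

lemma norm_op_dm_sq (x : E3) (m : ℝ) (u : C4) :
    ‖op (dm x m) u‖ ^ 2 = (‖x‖ ^ 2 + m ^ 2) * ‖u‖ ^ 2 := by
  have h := op_inner (dm x m) u (op (dm x m) u)
  rw [star_dm, op_op, dm_mul_self, op_smul_one, inner_smul_right, inner_self_eq_norm_sq_to_K,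
    inner_self_eq_norm_sq_to_K] at h
  apply Complex.ofReal_injective
  push_cast at h ⊢
  exact h

lemma En_sq (γ : ℝ) (ξ : E3) :
    En γ ξ ^ 2 = ‖(γ⁻¹ * (2 * π)) • ξ‖ ^ 2 + (γ⁻¹ ^ 2) ^ 2 := by
  rw [En, Real.sq_sqrt (by positivity), mul_smul γ⁻¹, norm_smul γ⁻¹, mul_pow, Real.norm_eq_abs,
    sq_abs]
  ring

lemma En_pos {γ : ℝ} (h0 : 0 < γ) (ξ : E3) : 0 < En γ ξ := Real.sqrt_pos.2 (by positivity)

lemma norm_dirac {γ : ℝ} (h0 : 0 < γ) (ξ : E3) (u : C4) : ‖dirac γ ξ u‖ = En γ ξ * ‖u‖ := by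
  have h := En_pos h0 ξ
  refine (sq_eq_sq₀ (norm_nonneg _) (by positivity)).1 ?_
  rw [dirac_eq, norm_op_dm_sq, mul_pow, En_sq]

/-- The kinetic part of the Dirac symbol applied to a fixed spinor. -/
def kin (a : ℝ) (e : C4) : E3 →L[ℝ] C4 :=
  ∑ i : Fin 3, (EuclideanSpace.proj i : E3 →L[ℝ] ℝ).smulRight (a • op (alpha i) e)

lemma kin_apply (a : ℝ) (e : C4) (ξ : E3) : kin a e ξ = op (dm (a • ξ) 0) e := by
  simp only [kin, dm, op, sum_apply, ContinuousLinearMap.smulRight_apply,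
    Complex.ofReal_zero, zero_smul, add_zero, map_sum, map_smul, smul_apply,
    PiLp.smul_apply, smul_eq_mul]
  simp only [Complex.coe_smul, smul_smul, mul_comm a]
  rfl

lemma dirac_apply (γ : ℝ) (ξ : E3) (e : C4) :
    dirac γ ξ e = kin (γ⁻¹ * (2 * π)) e ξ + op (((γ⁻¹ ^ 2 : ℝ) : ℂ) • beta) e := by
  rw [kin_apply, dirac_eq]
  simp only [dm, op, map_add, add_apply, Complex.ofReal_zero, zero_smul,
    add_zero]

lemma cls_dirac {γ : ℝ} (h0 : 0 < γ) (e : C4) (ξ : E3) :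
    ClsAt (fun η => dirac γ η e) (En γ ξ * ‖e‖) 1 ξ := by
  have hf : (fun η => dirac γ η e) =
      fun η => kin (γ⁻¹ * (2 * π)) e η + op (((γ⁻¹ ^ 2 : ℝ) : ℂ) • beta) e :=
    funext fun η => dirac_apply γ η e
  have hD : ∀ v, D v (fun η => dirac γ η e) = fun _ => kin (γ⁻¹ * (2 * π)) e v := fun v => by
    funext η
    rw [hf, D, ((kin (γ⁻¹ * (2 * π)) e).hasFDerivAt.add_const _).fderiv]
  have hE := En_pos h0 ξ
  refine ⟨?_, (norm_dirac h0 ξ e).le, fun v hv => ?_, fun v _ => ?_⟩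
  · rw [hf]
    exact ((kin (γ⁻¹ * (2 * π)) e).contDiff.add contDiff_const).contDiffAt
  · rw [hD, one_mul]
    refine (sq_le_sq₀ (by positivity) (by positivity)).1 ?_
    rw [mul_pow, mul_pow, kin_apply, norm_op_dm_sq, En_sq, norm_smul, norm_smul, ← mul_assoc]
    refine mul_le_mul_of_nonneg_right ?_ (sq_nonneg _)
    have h2 : ‖v‖ ^ 2 ≤ 1 := pow_le_one₀ (norm_nonneg _) hv
    have h3 := mul_le_mul_of_nonneg_left h2 (sq_nonneg (‖γ⁻¹ * (2 * π)‖ * ‖ξ‖))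
    nlinarith [sq_nonneg (γ⁻¹ ^ 2)]
  · rw [hD]
    simp only [D, fderiv_fun_const, Pi.zero_apply, zero_apply, norm_zero,
      mul_zero]
    positivity

lemma cls_En_inv {γ : ℝ} (h0 : 0 < γ) (h1 : γ < 1) (ξ : E3) :
    ClsAt (fun η => (En γ η)⁻¹) (En γ ξ)⁻¹ 12 ξ := by
  have e : ∀ η, (chandraModel h0 h1).t 1 η + γ⁻¹ ^ 2 = En γ η := fun η => by
    simp only [Model.t, Model.E, Model.c, chandraModel]
    ring
  have h := (chandraModel h0 h1).cls_res (R := 1) (m := γ⁻¹ ^ 2) (k := 1) (ξ := ξ) one_pos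
    (by rw [e]; exact En_pos h0 ξ) le_rfl (by rw [one_mul]; exact le_add_of_nonneg_right (sq_nonneg _))
  simpa only [e, mul_one] using h

/-- The spin generator about the axis `k`. -/
def jm (k : Fin 3) : Matrix (Fin 4) (Fin 4) ℂ := alpha (k + 2) * alpha (k + 1)

lemma cliff_anti {R : Type*} [Ring R] {A B : R} (hA : A * A = 1) (hB : B * B = 1)
    (h : (A + B) * (A + B) = 1 + 1) : A * B = -(B * A) := by
  rw [add_mul, mul_add, mul_add, hA, hB] at h
  rw [eq_neg_iff_add_eq_zero, ← add_left_inj (1 + 1 : R), zero_add]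
  refine Eq.trans ?_ h
  abel

lemma cliff_spin {R : Type*} [Ring R] [StarRing R] {A B C b : R} (hB : B * B = 1) (hC : C * C = 1)
    (h1 : B * C = -(C * B)) (h2 : A * B = -(B * A)) (h3 : A * C = -(C * A))
    (h4 : b * B = -(B * b)) (h5 : b * C = -(C * b)) (sB : star B = B) (sC : star C = C) :
    star (C * B) = -(C * B) ∧ C * B * (C * B) = -1 ∧ C * B * B = C ∧ C * B * C = -B ∧
      B * (C * B) = -C ∧ C * (C * B) = B ∧ A * (C * B) = C * B * A ∧
      b * (C * B) = C * B * b := by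
  have e1 : C * B * C = -B := by rw [mul_assoc, h1, mul_neg, ← mul_assoc, hC, one_mul]
  have e2 : C * B * B = C := by rw [mul_assoc, hB, mul_one]
  refine ⟨by rw [star_mul, sB, sC, h1], by rw [← mul_assoc, e1, neg_mul, hB], e2, e1,
    by rw [← mul_assoc, h1, neg_mul, e2], by rw [← mul_assoc, hC, one_mul], ?_, ?_⟩
  · rw [← mul_assoc, h3, neg_mul, mul_assoc, h2, mul_neg, neg_neg, mul_assoc]
  · rw [← mul_assoc, h5, neg_mul, mul_assoc, h4, mul_neg, neg_neg, mul_assoc]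

lemma dm_vec (a b c m : ℝ) : dm (WithLp.toLp 2 ![a, b, c]) m =
    (a : ℂ) • alpha 0 + (b : ℂ) • alpha 1 + (c : ℂ) • alpha 2 + (m : ℂ) • beta := by
  rw [dm, Fin.sum_univ_three]; rfl

lemma cliff_sq (a b c m : ℝ) :
    ((a : ℂ) • alpha 0 + (b : ℂ) • alpha 1 + (c : ℂ) • alpha 2 + (m : ℂ) • beta) *
      ((a : ℂ) • alpha 0 + (b : ℂ) • alpha 1 + (c : ℂ) • alpha 2 + (m : ℂ) • beta) =
      ((a ^ 2 + b ^ 2 + c ^ 2 + m ^ 2 : ℝ) : ℂ) • (1 : Matrix (Fin 4) (Fin 4) ℂ) := by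
  rw [← dm_vec, dm_mul_self, EuclideanSpace.real_norm_sq_eq, Fin.sum_univ_three]; rfl

lemma cliff_star (i : Fin 3) : star (alpha i) = alpha i := by
  have h := fun a b c => star_dm (WithLp.toLp 2 ![a, b, c]) 0
  simp only [dm_vec] at h
  have h0 := h 1 0 0
  have h1 := h 0 1 0
  have h2 := h 0 0 1
  simp only [Complex.ofReal_zero, Complex.ofReal_one, zero_smul, one_smul, add_zero,
    zero_add] at h0 h1 h2
  match i with
  | 0 => exact h0
  | 1 => exact h1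
  | 2 => exact h2

lemma cliff_rel : (alpha 0 * alpha 0 = 1 ∧ alpha 1 * alpha 1 = 1 ∧ alpha 2 * alpha 2 = 1) ∧
    (alpha 0 * alpha 1 = -(alpha 1 * alpha 0) ∧ alpha 0 * alpha 2 = -(alpha 2 * alpha 0) ∧
      alpha 1 * alpha 2 = -(alpha 2 * alpha 1)) ∧
    alpha 0 * beta = -(beta * alpha 0) ∧ alpha 1 * beta = -(beta * alpha 1) ∧
      alpha 2 * beta = -(beta * alpha 2) := by
  have a0 := cliff_sq 1 0 0 0
  have a1 := cliff_sq 0 1 0 0
  have a2 := cliff_sq 0 0 1 0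
  have a3 := cliff_sq 0 0 0 1
  have b0 := cliff_sq 1 1 0 0
  have b1 := cliff_sq 1 0 1 0
  have b2 := cliff_sq 0 1 1 0
  have c0 := cliff_sq 1 0 0 1
  have c1 := cliff_sq 0 1 0 1
  have c2 := cliff_sq 0 0 1 1
  simp only [Complex.ofReal_zero, Complex.ofReal_one, Complex.ofReal_add, zero_smul, one_smul,
    add_smul, add_zero, zero_add, one_pow, zero_pow two_ne_zero] at a0 a1 a2 a3 b0 b1 b2 c0 c1 c2
  exact ⟨⟨a0, a1, a2⟩, ⟨cliff_anti a0 a1 b0, cliff_anti a0 a2 b1, cliff_anti a1 a2 b2⟩,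
    cliff_anti a0 a3 c0, cliff_anti a1 a3 c1, cliff_anti a2 a3 c2⟩

lemma jm_facts (k : Fin 3) : star (jm k) = -jm k ∧ jm k * jm k = -1 ∧
    jm k * alpha (k + 1) = alpha (k + 2) ∧ jm k * alpha (k + 2) = -alpha (k + 1) ∧
    alpha (k + 1) * jm k = -alpha (k + 2) ∧ alpha (k + 2) * jm k = alpha (k + 1) ∧
    alpha k * jm k = jm k * alpha k ∧ beta * jm k = jm k * beta := by
  obtain ⟨⟨a0, a1, a2⟩, ⟨b0, b1, b2⟩, c0, c1, c2⟩ := cliff_rel
  have sw : ∀ {X Y : Matrix (Fin 4) (Fin 4) ℂ}, X = -Y → Y = -X := fun h => by rw [h, neg_neg]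
  match k with
  | 0 => exact cliff_spin a1 a2 b2 b0 b1 (sw c1) (sw c2) (cliff_star 1) (cliff_star 2)
  | 1 => exact cliff_spin a2 a0 (sw b1) b2 (sw b0) (sw c2) (sw c0) (cliff_star 2) (cliff_star 0)
  | 2 => exact cliff_spin a0 a1 b0 (sw b1) (sw b2) (sw c0) (sw c1) (cliff_star 0) (cliff_star 1)

lemma dm_cyc (k : Fin 3) (x : E3) (m : ℝ) : dm x m = ((x k : ℝ) : ℂ) • alpha k +
    ((x (k + 1) : ℝ) : ℂ) • alpha (k + 1) + ((x (k + 2) : ℝ) : ℂ) • alpha (k + 2) +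
      ((m : ℝ) : ℂ) • beta := by
  rw [dm, Fin.sum_univ_three]
  fin_cases k
  · rfl
  · simp only [Fin.mk_one, Fin.isValue, Fin.reduceAdd]
    abel
  · simp only [Fin.reduceFinMk, Fin.isValue, Fin.reduceAdd]
    abel

lemma rot_coord (k : Fin 3) (θ : ℝ) (x : E3) : rot k θ x k = x k ∧
    rot k θ x (k + 1) = Real.cos θ * x (k + 1) - Real.sin θ * x (k + 2) ∧
    rot k θ x (k + 2) = Real.sin θ * x (k + 1) + Real.cos θ * x (k + 2) := by
  refine ⟨?_, ?_, ?_⟩ <;> fin_cases k <;> simp [rot_apply, rotL, gen] <;> ring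

lemma spin_dm (k : Fin 3) (θ : ℝ) (x : E3) (m : ℝ) :
    (((Real.cos (θ / 2) : ℝ) : ℂ) • 1 + ((Real.sin (θ / 2) : ℝ) : ℂ) • jm k) * dm x m =
      dm (rot k θ x) m * (((Real.cos (θ / 2) : ℝ) : ℂ) • 1 + ((Real.sin (θ / 2) : ℝ) : ℂ) • jm k) := by
  obtain ⟨-, -, a1, a2, a3, a4, a5, a6⟩ := jm_facts k
  obtain ⟨r0, r1, r2⟩ := rot_coord k θ x
  have h1 : Real.cos θ * Real.cos (θ / 2) + Real.sin θ * Real.sin (θ / 2) = Real.cos (θ / 2) := by
    rw [← Real.cos_sub]; congr 1; ring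
  have h2 : Real.sin θ * Real.cos (θ / 2) - Real.cos θ * Real.sin (θ / 2) = Real.sin (θ / 2) := by
    rw [← Real.sin_sub]; congr 1; ring
  rw [dm_cyc k, dm_cyc k, r0, r1, r2]
  generalize Real.cos θ = C at *
  generalize Real.sin θ = S at *
  generalize Real.cos (θ / 2) = c at *
  generalize Real.sin (θ / 2) = s at *
  have g1 : (C : ℂ) * c + S * s = c := by exact_mod_cast h1
  have g2 : (S : ℂ) * c - C * s = s := by exact_mod_cast h2
  simp only [mul_add, add_mul, smul_mul_assoc, mul_smul_comm, one_mul, mul_one, a1, a2, a3, a4,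
    a5, a6]
  match_scalars <;>
    first
      | ring1
      | linear_combination (-(x (k + 1) : ℂ)) * g1 + (x (k + 2) : ℂ) * g2
      | linear_combination (-(x (k + 2) : ℂ)) * g1 - (x (k + 1) : ℂ) * g2

lemma spin_op (A : Matrix (Fin 4) (Fin 4) ℂ) (θ : ℝ) : spin (op A) θ =
    op (((Real.cos (θ / 2) : ℝ) : ℂ) • 1 + ((Real.sin (θ / 2) : ℝ) : ℂ) • A) := by
  rw [op, op, map_add, map_smul, map_smul, map_one]; rfl

lemma En_rot (γ : ℝ) (k : Fin 3) (θ : ℝ) (ξ : E3) : En γ (rot k θ ξ) = En γ ξ := by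
  simp only [En, norm_smul, LinearIsometryEquiv.norm_map]

lemma inner_op_basis (A : Matrix (Fin 4) (Fin 4) ℂ) (a : Fin 4) :
    inner ℂ (EuclideanSpace.basisFun (Fin 4) ℂ a) (op A (EuclideanSpace.basisFun (Fin 4) ℂ a)) =
      A a a := by
  simp [op, EuclideanSpace.inner_single_left]

/-- The Dirac operator as a model. -/
def diracModel {γ : ℝ} (h0 : 0 < γ) (h1 : γ < 1) (σ : ℝ) (hσ : σ = 0 ∨ σ = 1) : Model C4 where
  γ := γ
  γ_pos := h0
  γ_lt := h1
  B := fun ξ => (((En γ ξ)⁻¹ : ℝ) : ℂ) • dirac γ ξ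
  B_sa := fun ξ u v => by
    simp only [smul_apply, inner_smul_left, inner_smul_right,
      Complex.conj_ofReal, dirac_eq, op_inner, star_dm]
  B_sq := fun ξ u => by
    have h : (En γ ξ : ℂ) ≠ 0 := by exact_mod_cast (En_pos h0 ξ).ne'
    simp only [smul_apply, map_smul]
    rw [dirac_eq, op_op, dm_mul_self, op_smul_one, ← En_sq, smul_smul, smul_smul, mul_assoc]
    push_cast
    rw [show (En γ ξ : ℂ)⁻¹ * ((En γ ξ : ℂ)⁻¹ * (En γ ξ : ℂ) ^ 2) = 1 by field_simp, one_smul]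
  KB := 12 + 1
  KB_nonneg := by norm_num
  B_cls := fun e ξ => by
    have h := (cls_En_inv h0 h1 ξ).smul (cls_dirac h0 e ξ) (by norm_num) zero_le_one
    rw [inv_mul_cancel_left₀ (En_pos h0 ξ).ne'] at h
    simpa only [smul_apply, Complex.coe_smul] using h
  σ := σ
  hσ := hσ
  sh := 0
  J := fun k => op (jm k)
  J_skew := fun k u v => by
    rw [op_inner, (jm_facts k).1, op, map_neg, neg_apply, inner_neg_right]
  J_sq := fun k u => by
    rw [op_op, (jm_facts k).2.1, op, map_neg, map_one]; rfl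
  J_cov := fun k θ ξ u => by
    simp only [smul_apply, map_smul, En_rot]
    rw [dirac_eq, dirac_eq, spin_op, op_op, op_op, spin_dm, map_smul]
  n := 4
  b := EuclideanSpace.basisFun (Fin 4) ℂ
  rk := 2
  tr := fun ξ => by
    have hE := En_pos h0 ξ
    have hn : ∀ a, ‖EuclideanSpace.basisFun (Fin 4) ℂ a‖ = 1 :=
      (EuclideanSpace.basisFun (Fin 4) ℂ).orthonormal.1
    have h : ∀ a, ‖(2⁻¹ : ℂ) • (EuclideanSpace.basisFun (Fin 4) ℂ a +
        ((((En γ ξ)⁻¹ : ℝ) : ℂ) • dirac γ ξ) (EuclideanSpace.basisFun (Fin 4) ℂ a))‖ ^ 2 =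
        2⁻¹ + 2⁻¹ * (En γ ξ)⁻¹ * (dm ((γ⁻¹ * (2 * π)) • ξ) (γ⁻¹ ^ 2) a a).re := fun a => by
      rw [norm_smul, mul_pow, norm_add_sq (𝕜 := ℂ), smul_apply, norm_smul,
        norm_dirac h0, inner_smul_right, dirac_eq, inner_op_basis, hn, Complex.norm_real,
        Real.norm_of_nonneg (inv_pos.2 hE).le, inv_mul_cancel_left₀ hE.ne']
      simp only [norm_inv, Complex.norm_ofNat, RCLike.re_to_complex, Complex.re_ofReal_mul]
      ring
    simp only [h]
    rw [Fin.sum_univ_four, dm_eq]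
    simp only [Matrix.of_apply, Matrix.cons_val', Matrix.cons_val_zero, Matrix.cons_val_one,
      Matrix.cons_val, Complex.neg_re, Complex.ofReal_re]
    ring

lemma diracModel_T {γ : ℝ} (h0 : 0 < γ) (h1 : γ < 1) (σ : ℝ) (hσ : σ = 0 ∨ σ = 1) :
    (diracModel h0 h1 σ hσ).T = dirac γ := by
  funext ξ
  have h : (En γ ξ : ℂ) ≠ 0 := by exact_mod_cast (En_pos h0 ξ).ne'
  simp only [Model.T, Model.E, diracModel, Complex.ofReal_zero, zero_smul, sub_zero, smul_smul,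
    Complex.ofReal_inv, mul_inv_cancel₀ h, one_smul]

theorem exists_model_brown {γ : ℝ} (h0 : 0 < γ) (h1 : γ < 1) :
    ∃ M : Model C4, M.T = dirac γ ∧ M.La = posProj γ ∧ M.I = Set.Iio (γ⁻¹ ^ 2) ∧ M.rk = 2 := by
  refine ⟨diracModel h0 h1 0 (Or.inl rfl), diracModel_T _ _ _ _, ?_, ?_, rfl⟩
  · funext ξ
    simp only [Model.La, Model.Pp, diracModel, Complex.ofReal_zero, zero_smul, add_zero, posProj]
  · ext e
    simp [Model.I, Model.c, diracModel]

theorem exists_model_furry {γ : ℝ} (h0 : 0 < γ) (h1 : γ < 1) :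
    ∃ M : Model C4, M.T = dirac γ ∧ M.La = (fun _ => ContinuousLinearMap.id ℂ C4) ∧
      M.I = Set.Ioo 0 (γ⁻¹ ^ 2) ∧ M.rk = 2 := by
  refine ⟨diracModel h0 h1 1 (Or.inr rfl), diracModel_T _ _ _ _, ?_, ?_, rfl⟩
  · funext ξ
    simp only [Model.La, Model.Pp, Model.Pm, diracModel, Complex.ofReal_one, one_smul]
    module
  · ext e
    simp [Model.I, Model.c, diracModel, and_comm]

end Pool.Agent.Work.MP_0d9e46_mp
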