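import Pool.Agent.Work.MP_0d9e46_mp.Stmt

-- merged part: Pool.Agent.Work.MP_0d9e46_mp.Defs
section
/-! Working versions of the definitions, on physical space and with linear symbols. -/

open MeasureTheory Filter Topology
open scoped Real

noncomputable section

namespace Pool.Agent.Work.MP_0d9e46_mp

/-- Square integrable functions on physical space with values in `F`. -/
abbrev L2 (F : Type) [NormedAddCommGroup F] : Type := Lp F 2 (volume : Measure E3)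

section general

variable (F : Type) [NormedAddCommGroup F] [InnerProductSpace ℂ F] [CompleteSpace F]

/-- The unitary Fourier transform on `L2 F`. -/
abbrev FT : L2 F ≃ₗᵢ[ℂ] L2 F := Lp.fourierTransformₗᵢ E3 F

variable {F}

/-- The form domain: `ψ` lies in the Sobolev space of order one half and in the range of the
Fourier multiplier `Λ` (a projection). -/
def InForm (Λ : E3 → F →L[ℂ] F) (ψ : L2 F) : Prop :=
  Integrable (fun ξ : E3 => ‖ξ‖ * ‖FT F ψ ξ‖ ^ 2) ∧ ∀ᵐ ξ : E3, Λ ξ (FT F ψ ξ) = FT F ψ ξ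

/-- `ψ` solves the eigenvalue equation with energy `E` for the operator given by the form of
`T(-i∇/2π) - 1/|x|` on the form domain `InForm Λ`. -/
def IsEig (T Λ : E3 → F →L[ℂ] F) (E : ℝ) (ψ : L2 F) : Prop :=
  InForm Λ ψ ∧ ∀ φ : L2 F, InForm Λ φ →
    (∫ ξ : E3, inner ℂ (FT F φ ξ) (T ξ (FT F ψ ξ))) -
      (∫ y : E3, ((‖y‖⁻¹ : ℝ) : ℂ) * inner ℂ (φ y) (ψ y)) = (E : ℂ) * inner ℂ φ ψ

/-- The closed span of all eigenfunctions with energy in `I`. -/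
def eigSpace (T Λ : E3 → F →L[ℂ] F) (I : Set ℝ) : Submodule ℂ (L2 F) :=
  (Submodule.span ℂ {ψ : L2 F | ∃ E ∈ I, IsEig T Λ E ψ}).topologicalClosure

/-- For every orthonormal basis `ψ j` of `S`, the `ψ j` have versions `φ j` that are continuous
outside one ball, the density `q ∑ |φ j x|²` converges there, and `|x|^(3/2)` times the density
tends to `L` as `|x| → ∞`. -/
def DensityLimit (q : ℝ) (S : Submodule ℂ (L2 F)) (L : ℝ) : Prop :=
  ∀ (ι : Type) (ψ : ι → L2 F), Orthonormal ℂ ψ →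
    (Submodule.span ℂ (Set.range ψ)).topologicalClosure = S →
    ∃ (R₀ : ℝ) (φ : ι → E3 → F),
      (∀ j, ContinuousOn (φ j) {x | R₀ < ‖x‖}) ∧
      (∀ j, ∀ᵐ x : E3, R₀ < ‖x‖ → φ j x = ψ j x) ∧
      (∀ x : E3, R₀ < ‖x‖ → Summable fun j => ‖φ j x‖ ^ 2) ∧
      Tendsto (fun x : E3 => ‖x‖ ^ (3 / 2 : ℝ) * (q * ∑' j, ‖φ j x‖ ^ 2)) (cocompact E3) (𝓝 L)

theorem densityTendsto_iff (T Λ : E3 → F →L[ℂ] F) (I : Set ℝ) (q L : ℝ) :
    DensityTendsto (fun ξ u => T ξ u) (fun ξ u => Λ ξ u) I q L ↔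
      DensityLimit q (eigSpace T Λ I) L := Iff.rfl

end general

/-- The symbol of the Chandrasekhar kinetic energy. -/
def chandra (γ : ℝ) (ξ : E3) : ℂ →L[ℂ] ℂ :=
  ((En γ ξ - γ⁻¹ ^ 2 : ℝ) : ℂ) • ContinuousLinearMap.id ℂ ℂ

/-- The symbol `γ⁻¹ α·p + γ⁻² β` of the free Dirac operator at momentum `p = 2πξ`. -/
def dirac (γ : ℝ) (ξ : E3) : C4 →L[ℂ] C4 :=
  Matrix.toEuclideanCLM (n := Fin 4) (𝕜 := ℂ)
    (∑ i : Fin 3, ((γ⁻¹ * (2 * π * ξ i) : ℝ) : ℂ) • alpha i + ((γ⁻¹ ^ 2 : ℝ) : ℂ) • beta)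

/-- The symbol of the projection onto the positive spectral subspace of the free Dirac operator. -/
def posProj (γ : ℝ) (ξ : E3) : C4 →L[ℂ] C4 :=
  (2⁻¹ : ℂ) • (ContinuousLinearMap.id ℂ C4 + (((En γ ξ)⁻¹ : ℝ) : ℂ) • dirac γ ξ)

theorem act_dirac (γ : ℝ) : act (diracM γ) = fun ξ u => dirac γ ξ u := rfl

theorem act_pos (γ : ℝ) : act (posM γ) = fun ξ u => posProj γ ξ u := by
  funext ξ u
  have h : posProj γ ξ = Matrix.toEuclideanCLM (n := Fin 4) (𝕜 := ℂ) (posM γ ξ) := by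
    rw [posM, map_smul, map_add, map_smul, map_one]
    rfl
  rw [h]
  rfl

end Pool.Agent.Work.MP_0d9e46_mp
end
end

-- merged part: Pool.Agent.Work.MP_0d9e46_mp.Setup
section
/-!
The abstract model and the objects used in the proof. Everything lives on the Fourier side.
-/

open MeasureTheory Filter Topology
open scoped Real ENNReal

noncomputable section

namespace Pool.Agent.Work.MP_0d9e46_mp

/-- Directional derivative. -/
def D {A : Type} [NormedAddCommGroup A] [NormedSpace ℝ A] (v : E3) (κ : E3 → A) : E3 → A :=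
  fun ξ => fderiv ℝ κ ξ v

/-- Symbol class at a point: size `b`, and each derivative gains `K / ‖ξ‖`. -/
structure ClsAt {A : Type} [NormedAddCommGroup A] [NormedSpace ℝ A] (κ : E3 → A) (b K : ℝ)
    (ξ : E3) : Prop where
  cd : ContDiffAt ℝ 2 κ ξ
  h0 : ‖κ ξ‖ ≤ b
  h1 : ∀ v : E3, ‖v‖ ≤ 1 → ‖ξ‖ * ‖D v κ ξ‖ ≤ K * b
  h2 : ∀ v : E3, ‖v‖ ≤ 1 → ‖ξ‖ ^ 2 * ‖D v (D v κ) ξ‖ ≤ K ^ 2 * b

/-- Symbol class. -/
def Cls {A : Type} [NormedAddCommGroup A] [NormedSpace ℝ A] (κ : E3 → A) (b : E3 → ℝ) (K : ℝ) :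
    Prop := ∀ ξ, ClsAt κ (b ξ) K ξ

/-- Generator of rotations about the coordinate axis `k`. -/
def gen (k : Fin 3) : E3 →L[ℝ] E3 :=
  (EuclideanSpace.proj (k + 1) : E3 →L[ℝ] ℝ).smulRight (EuclideanSpace.single (k + 2) (1 : ℝ)) -
    (EuclideanSpace.proj (k + 2) : E3 →L[ℝ] ℝ).smulRight (EuclideanSpace.single (k + 1) (1 : ℝ))

/-- Rotation by the angle `θ` about the coordinate axis `k`, as a linear map. -/
def rotL (k : Fin 3) (θ : ℝ) : E3 →L[ℝ] E3 :=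
  ContinuousLinearMap.id ℝ E3 + Real.sin θ • gen k + (1 - Real.cos θ) • (gen k ∘L gen k)

lemma norm_rotL (k : Fin 3) (θ : ℝ) (y : E3) : ‖rotL k θ y‖ = ‖y‖ := by
  have h := Real.sin_sq_add_cos_sq θ
  rw [EuclideanSpace.norm_eq, EuclideanSpace.norm_eq]
  congr 1
  fin_cases k <;> simp [rotL, gen, Fin.sum_univ_three, sq_abs]
  · linear_combination (y 1 ^ 2 + y 2 ^ 2) * h
  · linear_combination (y 0 ^ 2 + y 2 ^ 2) * h
  · linear_combination (y 0 ^ 2 + y 1 ^ 2) * h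

/-- Rotation by the angle `θ` about the coordinate axis `k`. -/
def rot (k : Fin 3) (θ : ℝ) : E3 ≃ₗᵢ[ℝ] E3 :=
  LinearIsometry.toLinearIsometryEquiv ⟨(rotL k θ : E3 →ₗ[ℝ] E3), norm_rotL k θ⟩ rfl

lemma rot_apply (k : Fin 3) (θ : ℝ) (y : E3) : rot k θ y = rotL k θ y := Eq.trans rfl rfl

/-- The plane wave `exp(-2πi x·ξ)`. -/
def wave (x ξ : E3) : ℂ := Complex.exp (((-2 * π * inner ℝ ξ x : ℝ) : ℂ) * Complex.I)

/-- Smooth radial cutoff, one for `ε‖ξ‖ ≤ 1`, zero for `ε²‖ξ‖² ≥ 2`. -/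
def chi (ε : ℝ) (ξ : E3) : ℝ := Real.smoothTransition (2 - ε ^ 2 * ‖ξ‖ ^ 2)

/-- The weight one over `1 + ‖ξ‖` to the power three quarters, cut to `r ≤ ‖ξ‖`. -/
def wt (r : ℝ) (ξ : E3) : ℝ := if r ≤ ‖ξ‖ then (1 + ‖ξ‖) ^ (-(3 / 4) : ℝ) else 0

/-- The `L²` norm of `wt r ξ / ‖ξ‖`. -/
def Xi (r : ℝ) : ℝ := (eLpNorm (fun ξ : E3 => wt r ξ / ‖ξ‖) 2 volume).toReal

variable {F : Type} [NormedAddCommGroup F] [InnerProductSpace ℂ F] [CompleteSpace F]

open Classical in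
/-- The class of a square integrable function (zero otherwise). -/
def toL2 (κ : E3 → F) : L2 F := if h : MemLp κ 2 volume then h.toLp κ else 0

lemma toL2_ae {κ : E3 → F} (h : MemLp κ 2 volume) : toL2 κ =ᵐ[volume] κ := by
  rw [toL2, dif_pos h]; exact h.coeFn_toLp

lemma toL2_eq {κ : E3 → F} {f : L2 F} (h : κ =ᵐ[volume] f) : toL2 κ = f := by
  have hm : MemLp κ 2 volume := (Lp.memLp f).ae_eq h.symm
  exact Lp.ext ((toL2_ae hm).trans h)

lemma norm_toL2 {κ : E3 → F} (h : MemLp κ 2 volume) : ‖toL2 κ‖ = (eLpNorm κ 2 volume).toReal := by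
  rw [Lp.norm_def, eLpNorm_congr_ae (toL2_ae h)]

/-- Multiplication by a bounded operator valued function. -/
def mulOp (m : E3 → F →L[ℂ] F) (hm : MemLp m ⊤ volume) : L2 F →L[ℂ] L2 F :=
  (ContinuousLinearMap.id ℂ (F →L[ℂ] F)).holderL volume ⊤ 2 2 (hm.toLp m)

lemma mulOp_ae (m : E3 → F →L[ℂ] F) (hm : MemLp m ⊤ volume) (h : L2 F) :
    mulOp m hm h =ᵐ[volume] fun ξ => m ξ (h ξ) := by
  have h1 := (ContinuousLinearMap.id ℂ (F →L[ℂ] F)).coeFn_holder (r := 2) (hm.toLp m) h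
  filter_upwards [h1, hm.coeFn_toLp] with ξ h1 h2
  rw [h2] at h1
  exact h1

/-- The spin part of a rotation. -/
def spin (J : F →L[ℂ] F) (θ : ℝ) : F →L[ℂ] F :=
  ((Real.cos (θ / 2) : ℝ) : ℂ) • ContinuousLinearMap.id ℂ F + ((Real.sin (θ / 2) : ℝ) : ℂ) • J

variable (F) in
/-- The abstract model covering the three operators: the free symbol is `E(ξ) B(ξ) - sh`, the
projection is `Λ₊ + σ Λ₋`. -/
structure Model [FiniteDimensional ℂ F] where
  γ : ℝ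
  γ_pos : 0 < γ
  γ_lt : γ < 1
  B : E3 → F →L[ℂ] F
  B_sa : ∀ ξ u v, inner ℂ (B ξ u) v = inner ℂ u (B ξ v)
  B_sq : ∀ ξ u, B ξ (B ξ u) = u
  KB : ℝ
  KB_nonneg : 0 ≤ KB
  B_cls : ∀ e : F, Cls (fun ξ => B ξ e) (fun _ => ‖e‖) KB
  σ : ℝ
  hσ : σ = 0 ∨ σ = 1
  sh : ℝ
  J : Fin 3 → F →L[ℂ] F
  J_skew : ∀ k u v, inner ℂ (J k u) v = -inner ℂ u (J k v)
  J_sq : ∀ k u, J k (J k u) = -u
  J_cov : ∀ k θ ξ u, spin (J k) θ (B ξ u) = B (rot k θ ξ) (spin (J k) θ u)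
  n : ℕ
  b : OrthonormalBasis (Fin n) ℂ F
  rk : ℝ
  tr : ∀ ξ, ∑ a, ‖(2⁻¹ : ℂ) • (b a + B ξ (b a))‖ ^ 2 = rk

variable [FiniteDimensional ℂ F]

namespace Model

variable (M : Model F)

/-- Speed of light. -/
def c : ℝ := M.γ⁻¹

/-- Free energy. -/
def E (ξ : E3) : ℝ := En M.γ ξ

/-- Scaled kinetic energy `R (E - c²)`. -/
def t (R : ℝ) (ξ : E3) : ℝ := R * (M.E ξ - M.c ^ 2)

/-- Positive energy projection. -/
def Pp (ξ : E3) : F →L[ℂ] F := (2⁻¹ : ℂ) • (ContinuousLinearMap.id ℂ F + M.B ξ)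

/-- Negative energy projection. -/
def Pm (ξ : E3) : F →L[ℂ] F := (2⁻¹ : ℂ) • (ContinuousLinearMap.id ℂ F - M.B ξ)

/-- The projection of the model. -/
def La (ξ : E3) : F →L[ℂ] F := M.Pp ξ + (M.σ : ℂ) • M.Pm ξ

/-- The free symbol of the model. -/
def T (ξ : E3) : F →L[ℂ] F := (M.E ξ : ℂ) • M.B ξ - (M.sh : ℂ) • ContinuousLinearMap.id ℂ F

/-- The energies that are counted. -/
def I : Set ℝ := {e | e + M.sh < M.c ^ 2 ∧ (M.σ = 1 → 0 < e + M.sh)}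

/-- The inverse of `E B`. -/
def G (ξ : E3) : F →L[ℂ] F := (((M.E ξ)⁻¹ : ℝ) : ℂ) • M.B ξ

lemma one_lt_c : 1 < M.c := (one_lt_inv₀ M.γ_pos).2 M.γ_lt

lemma c_pos : 0 < M.c := one_pos.trans M.one_lt_c

lemma E_eq (ξ : E3) : M.E ξ = √(4 * π ^ 2 * M.c ^ 2 * ‖ξ‖ ^ 2 + M.c ^ 4) := by
  simp only [E, En, c, norm_smul, Real.norm_eq_abs, mul_pow, sq_abs]
  congr 1; ring

lemma E_sq (ξ : E3) : M.E ξ ^ 2 = 4 * π ^ 2 * M.c ^ 2 * ‖ξ‖ ^ 2 + M.c ^ 4 := by
  rw [E_eq, Real.sq_sqrt (by positivity)]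

lemma csq_le_E (ξ : E3) : M.c ^ 2 ≤ M.E ξ := by
  rw [E_eq]
  apply Real.le_sqrt_of_sq_le
  have : 0 ≤ 4 * π ^ 2 * M.c ^ 2 * ‖ξ‖ ^ 2 := by positivity
  nlinarith

lemma E_pos (ξ : E3) : 0 < M.E ξ := (pow_pos M.c_pos 2).trans_le (M.csq_le_E ξ)

lemma mul_norm_le_E (ξ : E3) : 2 * π * M.c * ‖ξ‖ ≤ M.E ξ := by
  rw [E_eq]
  apply Real.le_sqrt_of_sq_le
  have : 0 ≤ M.c ^ 4 := by positivity
  nlinarith

lemma continuous_E : Continuous M.E := by
  have : M.E = fun ξ => √(4 * π ^ 2 * M.c ^ 2 * ‖ξ‖ ^ 2 + M.c ^ 4) := funext M.E_eq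
  rw [this]; fun_prop

lemma t_nonneg {R : ℝ} (hR : 0 ≤ R) (ξ : E3) : 0 ≤ M.t R ξ :=
  mul_nonneg hR (sub_nonneg.2 (M.csq_le_E ξ))

lemma continuous_B : Continuous M.B :=
  continuous_clm_apply.2 fun e => continuous_iff_continuousAt.2 fun ξ =>
    (M.B_cls e ξ).cd.continuousAt

lemma norm_B_le (ξ : E3) : ‖M.B ξ‖ ≤ 1 :=
  ContinuousLinearMap.opNorm_le_bound _ zero_le_one fun e => by
    simpa using (M.B_cls e ξ).h0

lemma continuous_Pp : Continuous M.Pp :=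
  (continuous_const.add M.continuous_B).const_smul (2⁻¹ : ℂ)

lemma continuous_Pm : Continuous M.Pm :=
  (continuous_const.sub M.continuous_B).const_smul (2⁻¹ : ℂ)

lemma continuous_La : Continuous M.La :=
  M.continuous_Pp.add (M.continuous_Pm.const_smul (M.σ : ℂ))

lemma continuous_G : Continuous M.G :=
  (Complex.continuous_ofReal.comp (M.continuous_E.inv₀ fun ξ => (M.E_pos ξ).ne')).smul
    M.continuous_B

lemma norm_Pp_le (ξ : E3) : ‖M.Pp ξ‖ ≤ 1 := by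
  have h1 := M.norm_B_le ξ
  have h2 : ‖ContinuousLinearMap.id ℂ F‖ ≤ 1 := ContinuousLinearMap.norm_id_le
  have h3 := norm_add_le (ContinuousLinearMap.id ℂ F) (M.B ξ)
  rw [Pp, norm_smul]
  have : ‖(2⁻¹ : ℂ)‖ = 2⁻¹ := by simp
  rw [this]; linarith

lemma norm_Pm_le (ξ : E3) : ‖M.Pm ξ‖ ≤ 1 := by
  have h1 := M.norm_B_le ξ
  have h2 : ‖ContinuousLinearMap.id ℂ F‖ ≤ 1 := ContinuousLinearMap.norm_id_le
  have h3 := norm_sub_le (ContinuousLinearMap.id ℂ F) (M.B ξ)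
  rw [Pm, norm_smul]
  have : ‖(2⁻¹ : ℂ)‖ = 2⁻¹ := by simp
  rw [this]; linarith

lemma abs_σ_le : |M.σ| ≤ 1 := by rcases M.hσ with h | h <;> simp [h]

lemma norm_La_le (ξ : E3) : ‖M.La ξ‖ ≤ 2 := by
  have h1 := M.norm_Pp_le ξ
  have h2 := M.norm_Pm_le ξ
  have h3 := norm_add_le (M.Pp ξ) ((M.σ : ℂ) • M.Pm ξ)
  have h4 : ‖(M.σ : ℂ) • M.Pm ξ‖ ≤ 1 := by
    rw [norm_smul, Complex.norm_real, Real.norm_eq_abs]
    exact mul_le_one₀ M.abs_σ_le (norm_nonneg _) h2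
  rw [La]; linarith

lemma norm_G_le' (ξ : E3) : ‖M.G ξ‖ ≤ (M.E ξ)⁻¹ := by
  rw [G, norm_smul, Complex.norm_real, Real.norm_eq_abs, abs_of_pos (inv_pos.2 (M.E_pos ξ))]
  exact mul_le_of_le_one_right (inv_pos.2 (M.E_pos ξ)).le (M.norm_B_le ξ)

lemma norm_G_le (ξ : E3) : ‖M.G ξ‖ ≤ (M.c ^ 2)⁻¹ :=
  (M.norm_G_le' ξ).trans (inv_anti₀ (pow_pos M.c_pos 2) (M.csq_le_E ξ))

lemma memLp_La : MemLp M.La ⊤ volume :=
  memLp_top_of_bound M.continuous_La.aestronglyMeasurable 2 (.of_forall M.norm_La_le)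

lemma memLp_G : MemLp M.G ⊤ volume :=
  memLp_top_of_bound M.continuous_G.aestronglyMeasurable _ (.of_forall M.norm_G_le)

/-- The projection as an operator. -/
def Lam : L2 F →L[ℂ] L2 F := mulOp M.La M.memLp_La

/-- The free resolvent at energy zero as an operator. -/
def G0 : L2 F →L[ℂ] L2 F := mulOp M.G M.memLp_G

lemma Lam_ae (h : L2 F) : M.Lam h =ᵐ[volume] fun ξ => M.La ξ (h ξ) := mulOp_ae _ _ h

lemma G0_ae (h : L2 F) : M.G0 h =ᵐ[volume] fun ξ => M.G ξ (h ξ) := mulOp_ae _ _ h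

/-- The rotation operator on `L²`. -/
def rotOp (k : Fin 3) (θ : ℝ) : L2 F →L[ℂ] L2 F :=
  (spin (M.J k) θ).compLpL 2 volume ∘L
    (MeasureTheory.Lp.compMeasurePreservingₗᵢ ℂ (rot k (-θ))
      (rot k (-θ)).measurePreserving).toContinuousLinearMap

/-- The average over the cyclic group of order `N` with the character of sign `s`. -/
def avg (k : Fin 3) (N : ℕ) (s : ℝ) : L2 F →L[ℂ] L2 F :=
  ((N : ℂ)⁻¹) • ∑ j ∈ Finset.range N,
    Complex.exp (((-s * π * j / N : ℝ) : ℂ) * Complex.I) • M.rotOp k (2 * π * j / N)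

/-- The sector of high angular momentum. -/
def sector (k : Fin 3) (N : ℕ) : Submodule ℂ (L2 F) :=
  LinearMap.ker ((M.Lam - ContinuousLinearMap.id ℂ (L2 F) : L2 F →L[ℂ] L2 F) : L2 F →ₗ[ℂ] L2 F) ⊓
    (LinearMap.ker (M.avg k N 1 : L2 F →ₗ[ℂ] L2 F) ⊓
      LinearMap.ker (M.avg k N (-1) : L2 F →ₗ[ℂ] L2 F))

lemma mem_sector {k : Fin 3} {N : ℕ} {h : L2 F} :
    h ∈ M.sector k N ↔ M.Lam h = h ∧ M.avg k N 1 h = 0 ∧ M.avg k N (-1) h = 0 := by
  simp [sector, sub_eq_zero]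

/-- Test symbol with scalar parts `sp`, `sm`. -/
def sym0 (sp sm : E3 → ℝ) (e : F) (ξ : E3) : F :=
  sp ξ • M.Pp ξ e + (M.σ * sm ξ) • M.Pm ξ e

/-- Test vector centred at `x`. -/
def tv (x : E3) (sp sm : E3 → ℝ) (e : F) : L2 F :=
  toL2 fun ξ => wave x ξ • M.sym0 sp sm e ξ

/-- Fourier transforms of the span of eigenfunctions with a given energy. -/
def eig (e : ℝ) : Submodule ℂ (L2 F) :=
  Submodule.span ℂ {f : L2 F | IsEig M.T M.La e ((FT F).symm f)}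

/-- Fourier transform of the closed span of all counted eigenfunctions. -/
def eigAll : Submodule ℂ (L2 F) := (⨆ e ∈ M.I, M.eig e).topologicalClosure

instance : CompleteSpace M.eigAll := (Submodule.isClosed_topologicalClosure _).completeSpace_coe

/-- The orthogonal projection onto `eigAll`. -/
def P : L2 F →L[ℂ] L2 F := M.eigAll.starProjection

end Model

end Pool.Agent.Work.MP_0d9e46_mp
end
end

-- merged part: Pool.Agent.Work.MP_0d9e46_mp.ClsL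
section
/-! Calculus of the symbol class. -/

open MeasureTheory Filter Topology FourierTransform
open scoped Real ENNReal

noncomputable section

namespace Pool.Agent.Work.MP_0d9e46_mp

section basic

variable {A : Type} [NormedAddCommGroup A] [NormedSpace ℝ A] {κ κ' : E3 → A} {s : E3 → ℝ}
  {b b' K K' : ℝ} {ξ : E3}

lemma ClsL_congr (v : E3) (he : κ' =ᶠ[𝓝 ξ] κ) : D v κ' =ᶠ[𝓝 ξ] D v κ :=
  (he.fderiv (𝕜 := ℝ)).mono fun η h => by simp only [D, h]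

lemma ClsL_ev (h : ContDiffAt ℝ 2 κ ξ) : ∀ᶠ η in 𝓝 ξ, DifferentiableAt ℝ κ η :=
  (h.eventually (by simp)).mono fun _ hη => hη.differentiableAt (by norm_num)

lemma ClsL_diffD (h : ContDiffAt ℝ 2 κ ξ) (v : E3) : DifferentiableAt ℝ (D v κ) ξ :=
  ((h.fderiv_right (m := 1) (by norm_num)).differentiableAt (by norm_num)).clm_apply
    (differentiableAt_const v)

lemma ClsL_add (v : E3) (h : DifferentiableAt ℝ κ ξ) (h' : DifferentiableAt ℝ κ' ξ) :
    D v (fun η => κ η + κ' η) ξ = D v κ ξ + D v κ' ξ := by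
  simp only [D, fderiv_fun_add h h', add_apply]

lemma ClsL_smul (v : E3) (hs : DifferentiableAt ℝ s ξ) (h : DifferentiableAt ℝ κ ξ) :
    D v (fun η => s η • κ η) ξ = s ξ • D v κ ξ + D v s ξ • κ ξ := by
  simp only [D, fderiv_fun_smul hs h, add_apply,
    smul_apply, ContinuousLinearMap.smulRight_apply]

lemma ClsL_const (v : E3) (a : A) : D v (fun _ : E3 => a) = fun _ => 0 := by
  funext η
  simp [D]

lemma ClsL_comp (v : E3) {φ : ℝ → ℝ} {a : ℝ} (hφ : HasDerivAt φ a (s ξ))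
    (hs : DifferentiableAt ℝ s ξ) : D v (fun η => φ (s η)) ξ = a * D v s ξ := by
  have := (hφ.comp_hasFDerivAt ξ hs.hasFDerivAt).fderiv
  simp only [Function.comp_def] at this
  simp only [D, this, smul_apply, smul_eq_mul]

theorem ClsAt.nonneg (h : ClsAt κ b K ξ) : 0 ≤ b := (norm_nonneg _).trans h.h0

theorem ClsAt.mono (h : ClsAt κ b K ξ) (hb : b ≤ b') (hK0 : 0 ≤ K) (hK : K ≤ K') :
    ClsAt κ b' K' ξ :=
  ⟨h.cd, h.h0.trans hb,
    fun v hv => (h.h1 v hv).trans (mul_le_mul hK hb h.nonneg (hK0.trans hK)),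
    fun v hv => (h.h2 v hv).trans
      (mul_le_mul (pow_le_pow_left₀ hK0 hK 2) hb h.nonneg (sq_nonneg _))⟩

theorem ClsAt.congr (h : ClsAt κ b K ξ) (he : κ' =ᶠ[𝓝 ξ] κ) : ClsAt κ' b K ξ := by
  refine ⟨h.cd.congr_of_eventuallyEq he, he.eq_of_nhds ▸ h.h0, fun v hv => ?_, fun v hv => ?_⟩
  · rw [(ClsL_congr v he).eq_of_nhds]
    exact h.h1 v hv
  · rw [(ClsL_congr v (ClsL_congr v he)).eq_of_nhds]
    exact h.h2 v hv

theorem ClsAt.const (a : A) (hb : ‖a‖ ≤ b) (hK : 0 ≤ K) : ClsAt (fun _ => a) b K ξ := by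
  have hb0 := (norm_nonneg _).trans hb
  refine ⟨contDiffAt_const, hb, fun v _ => ?_, fun v _ => ?_⟩
  · rw [ClsL_const, norm_zero, mul_zero]
    positivity
  · rw [ClsL_const, ClsL_const, norm_zero, mul_zero]
    positivity

theorem ClsAt.of_zero (he : κ =ᶠ[𝓝 ξ] fun _ => 0) (hb : 0 ≤ b) (hK : 0 ≤ K) : ClsAt κ b K ξ :=
  (ClsAt.const (0 : A) (by simpa using hb) hK).congr he

theorem ClsAt.add (h : ClsAt κ b K ξ) (h' : ClsAt κ' b' K ξ) :
    ClsAt (fun η => κ η + κ' η) (b + b') K ξ := by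
  have e : ∀ v, D v (fun η => κ η + κ' η) =ᶠ[𝓝 ξ] fun η => D v κ η + D v κ' η := fun v => by
    filter_upwards [ClsL_ev h.cd, ClsL_ev h'.cd] with η a a' using ClsL_add v a a'
  refine ⟨h.cd.add h'.cd, (norm_add_le _ _).trans (add_le_add h.h0 h'.h0), fun v hv => ?_,
    fun v hv => ?_⟩
  · rw [(e v).eq_of_nhds, mul_add]
    refine (mul_le_mul_of_nonneg_left (norm_add_le _ _) (norm_nonneg _)).trans ?_
    rw [mul_add]
    exact add_le_add (h.h1 v hv) (h'.h1 v hv)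
  · rw [(ClsL_congr v (e v)).eq_of_nhds, ClsL_add v (ClsL_diffD h.cd v) (ClsL_diffD h'.cd v),
      mul_add]
    refine (mul_le_mul_of_nonneg_left (norm_add_le _ _) (sq_nonneg _)).trans ?_
    rw [mul_add]
    exact add_le_add (h.h2 v hv) (h'.h2 v hv)

theorem ClsAt.smul (hs : ClsAt s b K ξ) (h : ClsAt κ b' K' ξ) (hK : 0 ≤ K) (hK' : 0 ≤ K') :
    ClsAt (fun η => s η • κ η) (b * b') (K + K') ξ := by
  have e : ∀ v, D v (fun η => s η • κ η) =ᶠ[𝓝 ξ] fun η => s η • D v κ η + D v s η • κ η :=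
    fun v => by
      filter_upwards [ClsL_ev hs.cd, ClsL_ev h.cd] with η a a' using ClsL_smul v a a'
  have hb := hs.nonneg
  have hb' := h.nonneg
  have d1 := hs.cd.differentiableAt (by norm_num)
  have d2 := h.cd.differentiableAt (by norm_num)
  refine ⟨hs.cd.smul h.cd, ?_, fun v hv => ?_, fun v hv => ?_⟩
  · rw [norm_smul]
    exact mul_le_mul hs.h0 h.h0 (norm_nonneg _) hb
  · rw [(e v).eq_of_nhds]
    refine (mul_le_mul_of_nonneg_left (norm_add_le _ _) (norm_nonneg _)).trans ?_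
    rw [norm_smul, norm_smul]
    have a1 := mul_le_mul hs.h0 (h.h1 v hv) (by positivity) hb
    have a2 := mul_le_mul (hs.h1 v hv) h.h0 (norm_nonneg _) (by positivity)
    linarith
  · have d3 := ClsL_diffD hs.cd v
    have d4 := ClsL_diffD h.cd v
    rw [(ClsL_congr v (e v)).eq_of_nhds, ClsL_add v (d1.fun_smul d4) (d3.fun_smul d2),
      ClsL_smul v d1 d4, ClsL_smul v d3 d2]
    refine (mul_le_mul_of_nonneg_left ((norm_add_le _ _).trans
      (add_le_add (norm_add_le _ _) (norm_add_le _ _))) (sq_nonneg _)).trans ?_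
    simp only [norm_smul]
    have a1 := mul_le_mul hs.h0 (h.h2 v hv) (by positivity) hb
    have a2 := mul_le_mul (hs.h2 v hv) h.h0 (norm_nonneg _) (by positivity)
    have a3 := mul_le_mul (hs.h1 v hv) (h.h1 v hv) (by positivity) (by positivity)
    linarith

theorem ClsAt.const_smul (h : ClsAt κ b K ξ) (r : ℝ) :
    ClsAt (fun η => r • κ η) (|r| * b) K ξ := by
  have e : ∀ (v : E3) (κ : E3 → A), D v (fun η => r • κ η) = fun η => r • D v κ η := fun v κ => by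
    funext η
    have := congrFun (fderiv_const_smul_field (𝕜 := ℝ) (f := κ) r) η
    exact congrArg (fun L : E3 →L[ℝ] A => L v) this
  refine ⟨h.cd.const_smul r, ?_, fun v hv => ?_, fun v hv => ?_⟩
  · rw [norm_smul, Real.norm_eq_abs]
    exact mul_le_mul_of_nonneg_left h.h0 (abs_nonneg _)
  · rw [e, norm_smul, Real.norm_eq_abs, mul_left_comm, mul_left_comm K]
    exact mul_le_mul_of_nonneg_left (h.h1 v hv) (abs_nonneg _)
  · rw [e, e, norm_smul, Real.norm_eq_abs, mul_left_comm, mul_left_comm (K ^ 2)]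
    exact mul_le_mul_of_nonneg_left (h.h2 v hv) (abs_nonneg _)

theorem ClsAt.mul {s' : E3 → ℝ} (hs : ClsAt s b K ξ) (h : ClsAt s' b' K' ξ) (hK : 0 ≤ K)
    (hK' : 0 ≤ K') : ClsAt (fun η => s η * s' η) (b * b') (K + K') ξ :=
  hs.smul h hK hK'

theorem Cls.contDiff {b : E3 → ℝ} (h : Cls κ b K) : ContDiff ℝ 2 κ :=
  contDiff_iff_contDiffAt.2 fun ξ => (h ξ).cd

/-- composition with a function of one variable -/
theorem ClsAt.comp {u k : ℝ} (hs : ClsAt s u K ξ) (hK : 0 ≤ K) (hk : 0 ≤ k) {φ φ1 : ℝ → ℝ}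
    {φ2 : ℝ} (hφ : ContDiffAt ℝ 2 φ (s ξ)) (h1 : ∀ᶠ x in 𝓝 (s ξ), HasDerivAt φ (φ1 x) x)
    (h2 : HasDerivAt φ1 φ2 (s ξ)) (b0 : |φ (s ξ)| ≤ b) (b1 : u * |φ1 (s ξ)| ≤ k * b)
    (b2 : u ^ 2 * |φ2| ≤ k ^ 2 * b) : ClsAt (fun η => φ (s η)) b (K * (k + 1)) ξ := by
  have e : ∀ v, D v (fun η => φ (s η)) =ᶠ[𝓝 ξ] fun η => φ1 (s η) • D v s η := fun v => by
    filter_upwards [ClsL_ev hs.cd, hs.cd.continuousAt.eventually h1] with η a a'
      using ClsL_comp v a' a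
  have hb : 0 ≤ b := (abs_nonneg _).trans b0
  have hu := hs.nonneg
  have d1 := hs.cd.differentiableAt (by norm_num)
  refine ⟨hφ.comp ξ hs.cd, b0, fun v hv => ?_, fun v hv => ?_⟩
  · rw [(e v).eq_of_nhds, norm_smul, Real.norm_eq_abs, mul_left_comm]
    have a1 := mul_le_mul_of_nonneg_left (hs.h1 v hv) (abs_nonneg (φ1 (s ξ)))
    have a2 := mul_le_mul_of_nonneg_left b1 hK
    have a3 := mul_nonneg hK hb
    linarith
  · have d2 : DifferentiableAt ℝ (fun η => φ1 (s η)) ξ := h2.differentiableAt.comp ξ d1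
    rw [(ClsL_congr v (e v)).eq_of_nhds, ClsL_smul v d2 (ClsL_diffD hs.cd v), ClsL_comp v h2 d1]
    refine (mul_le_mul_of_nonneg_left (norm_add_le _ _) (sq_nonneg _)).trans ?_
    rw [norm_smul, norm_smul, norm_mul, Real.norm_eq_abs φ2, Real.norm_eq_abs (φ1 _)]
    have a1 := mul_le_mul_of_nonneg_left (hs.h2 v hv) (abs_nonneg (φ1 (s ξ)))
    have a2 := mul_le_mul_of_nonneg_left b1 (sq_nonneg K)
    have a3 := mul_le_mul_of_nonneg_left
      (pow_le_pow_left₀ (by positivity) (hs.h1 v hv) 2) (abs_nonneg φ2)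
    have a4 := mul_le_mul_of_nonneg_left b2 (sq_nonneg K)
    have a5 : 0 ≤ K ^ 2 * (k + 1) * b := by positivity
    linarith

end basic

lemma ClsL_sq (ξ : E3) : ClsAt (fun η : E3 => ‖η‖ ^ 2) (‖ξ‖ ^ 2) 2 ξ := by
  have e : ∀ v : E3, D v (fun η : E3 => ‖η‖ ^ 2) = fun η => 2 * inner ℝ η v := fun v => by
    funext η
    simp [D, fderiv_norm_sq_apply]
  refine ⟨contDiffAt_id.norm_sq ℝ, by simp, fun v hv => ?_, fun v hv => ?_⟩
  · rw [e, norm_mul, Real.norm_two]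
    have h1 := (norm_inner_le_norm (𝕜 := ℝ) ξ v).trans
      (mul_le_of_le_one_right (norm_nonneg _) hv)
    nlinarith [norm_nonneg ξ]
  · have h0 : D v (fun η : E3 => 2 * inner ℝ η v) ξ = 2 * inner ℝ v v := by
      have : HasFDerivAt (fun η : E3 => 2 * inner ℝ η v) ((2 : ℝ) • innerSL ℝ v) ξ := by
        have h := ((innerSL ℝ v).hasFDerivAt (x := ξ)).const_mul (2 : ℝ)
        simpa only [innerSL_apply_apply, real_inner_comm v] using h
      simp [D, this.fderiv]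
    rw [e, h0, norm_mul, Real.norm_two]
    have h1 := (norm_inner_le_norm (𝕜 := ℝ) v v).trans (mul_le_one₀ hv (norm_nonneg _) hv)
    nlinarith [sq_nonneg ‖ξ‖]

lemma ClsL_cut {φ : ℝ → ℝ} (hφ : ContDiff ℝ 2 φ) (hb : ∀ u, |φ u| ≤ 1) {a : ℝ}
    (hc : ∀ u, 2 ≤ u → φ u = a) : ∃ k : ℝ, 0 ≤ k ∧ ∀ (s : E3 → ℝ) (K : ℝ) (ξ : E3), 0 ≤ K →
      ClsAt s (s ξ) K ξ → ClsAt (fun η => φ (s η)) 1 (K * (k + 1)) ξ := by
  have c1 : ContDiff ℝ 1 (deriv φ) := hφ.deriv'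
  have c2 : Continuous (deriv (deriv φ)) := c1.continuous_deriv le_rfl
  obtain ⟨C1, hC1⟩ := isCompact_Icc.exists_bound_of_continuousOn
    (c1.continuous.continuousOn (s := Set.Icc (0 : ℝ) 2))
  obtain ⟨C2, hC2⟩ := isCompact_Icc.exists_bound_of_continuousOn
    (c2.continuousOn (s := Set.Icc (0 : ℝ) 2))
  have p1 : 0 ≤ C1 := (norm_nonneg _).trans (hC1 0 (by norm_num))
  have p2 : 0 ≤ C2 := (norm_nonneg _).trans (hC2 0 (by norm_num))
  have z1 : ∀ u, 2 < u → deriv φ u = 0 := fun u hu => by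
    have : φ =ᶠ[𝓝 u] fun _ => a := (lt_mem_nhds hu).mono fun x hx => hc x hx.le
    rw [this.deriv_eq, deriv_const]
  have z2 : ∀ u, 2 < u → deriv (deriv φ) u = 0 := fun u hu => by
    have : deriv φ =ᶠ[𝓝 u] fun _ => 0 := (lt_mem_nhds hu).mono z1
    rw [this.deriv_eq, deriv_const]
  refine ⟨2 * C1 + 2 * C2 + 1, by positivity, fun s K ξ hK hs => ?_⟩
  have hu := hs.nonneg
  refine hs.comp hK (by positivity) hφ.contDiffAt
    (.of_forall fun x => (hφ.differentiable (by norm_num) x).hasDerivAt)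
    (c1.differentiable (by norm_num) _).hasDerivAt (hb _) ?_ ?_
  · rcases le_or_gt (s ξ) 2 with h | h
    · have := mul_le_mul h (hC1 _ ⟨hu, h⟩) (norm_nonneg _) zero_le_two
      rw [Real.norm_eq_abs] at this
      linarith
    · rw [z1 _ h, abs_zero, mul_zero]
      positivity
  · rcases le_or_gt (s ξ) 2 with h | h
    · have := mul_le_mul (pow_le_pow_left₀ hu h 2) (hC2 _ ⟨hu, h⟩) (norm_nonneg _) (by norm_num)
      rw [Real.norm_eq_abs] at this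
      nlinarith
    · rw [z2 _ h, abs_zero, mul_zero]
      positivity

theorem chi_nonneg (ε : ℝ) (ξ : E3) : 0 ≤ chi ε ξ := Real.smoothTransition.nonneg _

theorem chi_le_one (ε : ℝ) (ξ : E3) : chi ε ξ ≤ 1 := Real.smoothTransition.le_one _

theorem chi_eq_one {ε : ℝ} (hε : 0 ≤ ε) {ξ : E3} (h : ε * ‖ξ‖ ≤ 1) : chi ε ξ = 1 := by
  refine Real.smoothTransition.one_of_one_le ?_
  have := pow_le_one₀ (n := 2) (by positivity) h
  rw [mul_pow] at this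
  linarith

theorem hasCompactSupport_chi {ε : ℝ} (hε : 0 < ε) : HasCompactSupport (chi ε) := by
  refine HasCompactSupport.intro (isCompact_closedBall (0 : E3) (2 / ε)) fun x hx => ?_
  rw [mem_closedBall_zero_iff, not_le, div_lt_iff₀ hε] at hx
  refine Real.smoothTransition.zero_of_nonpos ?_
  nlinarith

theorem cls_chi : ∃ K : ℝ, 0 ≤ K ∧ ∀ ε : ℝ, 0 < ε → Cls (chi ε) (fun _ => 1) K := by
  obtain ⟨k, hk, h⟩ := ClsL_cut (φ := fun u => Real.smoothTransition (2 - u)) (a := 0)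
    (Real.smoothTransition.contDiff.comp (contDiff_const.sub contDiff_id))
    (fun u => by
      rw [abs_of_nonneg (Real.smoothTransition.nonneg _)]
      exact Real.smoothTransition.le_one _)
    (fun u hu => Real.smoothTransition.zero_of_nonpos (by linarith))
  refine ⟨2 * (k + 1), by positivity, fun ε _ ξ => ?_⟩
  have := (ClsL_sq ξ).const_smul (ε ^ 2)
  rw [abs_of_nonneg (sq_nonneg ε)] at this
  exact h (fun η => ε ^ 2 * ‖η‖ ^ 2) 2 ξ zero_le_two this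

theorem cls_chi_sub : ∃ K : ℝ, 0 ≤ K ∧ ∀ ε ε' r : ℝ, 0 < ε → 0 < ε' → ε * r ≤ 1 → ε' * r ≤ 1 →
    Cls (fun ξ => chi ε ξ - chi ε' ξ) (fun ξ => if r ≤ ‖ξ‖ then 2 else 0) K := by
  obtain ⟨K, hK, h⟩ := cls_chi
  refine ⟨K, hK, fun ε ε' r hε hε' h1 h2 ξ => ?_⟩
  by_cases hr : r ≤ ‖ξ‖
  · simp only [if_pos hr]
    refine (((h ε hε ξ).add ((h ε' hε' ξ).const_smul (-1))).mono (by norm_num) hK le_rfl).congr
      (.of_forall fun η => ?_)
    simp [sub_eq_add_neg]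
  · simp only [if_neg hr]
    refine ClsAt.of_zero ?_ le_rfl hK
    filter_upwards [continuous_norm.continuousAt.eventually (gt_mem_nhds (not_le.1 hr))] with η hη
    rw [chi_eq_one hε.le ((mul_le_mul_of_nonneg_left hη.le hε.le).trans h1),
      chi_eq_one hε'.le ((mul_le_mul_of_nonneg_left hη.le hε'.le).trans h2), sub_self]

variable {F : Type} [NormedAddCommGroup F] [InnerProductSpace ℂ F] [CompleteSpace F] [FiniteDimensional ℂ F]

set_option linter.unusedSectionVars false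

namespace Model

variable (M : Model F)

theorem cls_t {R : ℝ} (hR : 0 < R) (ξ : E3) : ClsAt (M.t R) (M.t R ξ) 4 ξ := by
  have hc := M.c_pos
  obtain ⟨a, ha⟩ : ∃ a, a = 4 * π ^ 2 * M.c ^ 2 := ⟨_, rfl⟩
  have ha0 : 0 ≤ a := by rw [ha]; positivity
  have e : M.t R = fun η => R * (√(a * ‖η‖ ^ 2 + M.c ^ 4) - M.c ^ 2) := by
    funext η
    rw [t, E_eq, ha]
  have hE : √(a * ‖ξ‖ ^ 2 + M.c ^ 4) = M.E ξ := by rw [E_eq, ha]
  have hq : a * ‖ξ‖ ^ 2 = (M.E ξ - M.c ^ 2) * (M.E ξ + M.c ^ 2) := by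
    have := M.E_sq ξ
    rw [← ha] at this
    linarith
  have hp : 0 < a * ‖ξ‖ ^ 2 + M.c ^ 4 := by positivity
  have hs : ∀ x : ℝ, 0 < a * x + M.c ^ 4 →
      HasDerivAt (fun x => √(a * x + M.c ^ 4)) (a / (2 * √(a * x + M.c ^ 4))) x := fun x hx => by
    simpa using (((hasDerivAt_id x).const_mul a).add_const (M.c ^ 4)).sqrt hx.ne'
  have h0 := M.t_nonneg hR.le ξ
  have h1 := M.csq_le_E ξ
  have h2 := M.E_pos ξ
  have key := (ClsL_sq ξ).comp (k := 1) (b := M.t R ξ) zero_le_two zero_le_one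
    (φ := fun x => R * (√(a * x + M.c ^ 4) - M.c ^ 2))
    (φ1 := fun x => R * a / 2 * (√(a * x + M.c ^ 4))⁻¹)
    (φ2 := R * a / 2 * (-(a / (2 * √(a * ‖ξ‖ ^ 2 + M.c ^ 4))) / √(a * ‖ξ‖ ^ 2 + M.c ^ 4) ^ 2))
    (contDiffAt_const.mul ((ContDiffAt.sqrt (f := fun x : ℝ => a * x + M.c ^ 4) (by fun_prop)
      hp.ne').sub contDiffAt_const))
    (by
      have : ∀ᶠ x in 𝓝 (‖ξ‖ ^ 2), 0 < a * x + M.c ^ 4 :=
        (by fun_prop : ContinuousAt (fun x : ℝ => a * x + M.c ^ 4) (‖ξ‖ ^ 2)).eventually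
          (lt_mem_nhds hp)
      filter_upwards [this] with x hx
      refine (((hs x hx).sub_const _).const_mul R).congr_deriv ?_
      ring)
    (((hs _ hp).inv (Real.sqrt_pos.2 hp).ne').const_mul _)
    (by rw [hE]; exact (abs_of_nonneg h0).le)
    (by
      rw [hE, abs_of_nonneg (by positivity), one_mul, t]
      calc ‖ξ‖ ^ 2 * (R * a / 2 * (M.E ξ)⁻¹) = R * (a * ‖ξ‖ ^ 2 / (2 * M.E ξ)) := by
            field_simp
        _ ≤ _ := by
          refine mul_le_mul_of_nonneg_left ?_ hR.le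
          rw [hq, div_le_iff₀ (by positivity)]
          exact mul_le_mul_of_nonneg_left (by linarith) (by linarith))
    (by
      rw [hE, neg_div, mul_neg, abs_neg, abs_of_nonneg (by positivity), one_pow, one_mul, t]
      calc (‖ξ‖ ^ 2) ^ 2 * (R * a / 2 * (a / (2 * M.E ξ) / M.E ξ ^ 2))
          = R * ((a * ‖ξ‖ ^ 2) ^ 2 / (M.E ξ * (2 * M.E ξ) ^ 2)) := by
            field_simp
        _ ≤ _ := by
          refine mul_le_mul_of_nonneg_left ?_ hR.le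
          rw [hq, div_le_iff₀ (by positivity), mul_pow, sq (M.E ξ - M.c ^ 2), mul_assoc]
          refine mul_le_mul_of_nonneg_left ?_ (by linarith)
          exact mul_le_mul (by nlinarith) (pow_le_pow_left₀ (by positivity) (by linarith) 2)
            (sq_nonneg _) h2.le)
  rw [show (2 : ℝ) * (1 + 1) = 4 by norm_num] at key
  exact key.congr (.of_forall fun η => congrFun e η)

theorem cls_res {R m k : ℝ} {ξ : E3} (hR : 0 < R) (h1 : 0 < M.t R ξ + m) (hk : 1 ≤ k)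
    (h2 : M.t R ξ ≤ k * (M.t R ξ + m)) :
    ClsAt (fun η => (M.t R η + m)⁻¹) (M.t R ξ + m)⁻¹ (12 * k) ξ := by
  have h0 := M.t_nonneg hR.le ξ
  have hs : ∀ x : ℝ, 0 < x + m → HasDerivAt (fun x => (x + m)⁻¹) (-((x + m)⁻¹ ^ 2)) x :=
    fun x hx => by
      refine (((hasDerivAt_id x).add_const m).inv hx.ne').congr_deriv ?_
      simp only [id, inv_pow]
      ring
  have h3 : M.t R ξ * (M.t R ξ + m)⁻¹ ≤ k := by rwa [← div_eq_mul_inv, div_le_iff₀ h1]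
  have h4 : 0 < (M.t R ξ + m)⁻¹ := inv_pos.2 h1
  refine ((M.cls_t hR ξ).comp (k := 2 * k) (by norm_num) (by linarith)
    (φ := fun x => (x + m)⁻¹) (φ1 := fun x => -((x + m)⁻¹ ^ 2))
    (φ2 := 2 * (M.t R ξ + m)⁻¹ ^ 3) (ContDiffAt.inv (by fun_prop) h1.ne') ?_ ?_
    (abs_of_pos h4).le ?_ ?_).mono le_rfl (by linarith) (by linarith)
  · have : ∀ᶠ x in 𝓝 (M.t R ξ), 0 < x + m :=
      (by fun_prop : ContinuousAt (fun x : ℝ => x + m) (M.t R ξ)).eventually (lt_mem_nhds h1)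
    exact this.mono hs
  · refine ((hs _ h1).pow 2).neg.congr_deriv ?_
    generalize (M.t R ξ + m)⁻¹ = y
    norm_num
    ring
  · rw [abs_neg, abs_of_nonneg (sq_nonneg _)]
    have := mul_le_mul_of_nonneg_right h3 h4.le
    nlinarith
  · rw [abs_of_nonneg (by positivity)]
    have := mul_le_mul_of_nonneg_right (pow_le_pow_left₀ (by positivity) h3 2) h4.le
    nlinarith [mul_nonneg (sq_nonneg k) h4.le]

theorem cls_lin {R t₀ : ℝ} {ξ : E3} (hR : 0 < R) (h1 : |M.t R ξ - t₀| ≤ 1) (h2 : M.t R ξ ≤ 1) :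
    ClsAt (fun η => M.t R η - t₀) 1 4 ξ := by
  have h := (M.cls_t hR ξ).mono h2 (by norm_num) le_rfl
  have e : ∀ v, D v (fun η => M.t R η - t₀) = D v (M.t R) := fun v => by
    funext η
    simp only [D, fderiv_sub_const]
  refine ⟨h.cd.sub contDiffAt_const, h1, fun v hv => ?_, fun v hv => ?_⟩
  · rw [e]
    exact h.h1 v hv
  · rw [e]
    exact h.h2 v hv

theorem cls_cut {φ : ℝ → ℝ} (hφ : ContDiff ℝ 2 φ) (hb : ∀ u, |φ u| ≤ 1) {a : ℝ}
    (hc : ∀ u, 2 ≤ u → φ u = a) :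
    ∃ K : ℝ, 0 ≤ K ∧ ∀ R : ℝ, 0 < R → Cls (fun ξ => φ (M.t R ξ)) (fun _ => 1) K := by
  obtain ⟨k, hk, h⟩ := ClsL_cut hφ hb hc
  exact ⟨4 * (k + 1), by positivity, fun R hR ξ => h _ 4 ξ (by norm_num) (M.cls_t hR ξ)⟩

theorem cls_sym0 {sp sm : E3 → ℝ} {b K : ℝ} {ξ : E3} (hK : 0 ≤ K) (hp : ClsAt sp b K ξ)
    (hm : ClsAt sm b K ξ) (e : F) :
    ClsAt (M.sym0 sp sm e) (2 * b * ‖e‖) (K + M.KB) ξ := by
  have hKB := M.KB_nonneg
  have h0 : ClsAt (fun _ => e) ‖e‖ M.KB ξ := ClsAt.const e le_rfl hKB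
  have hh : ∀ u : F, (2⁻¹ : ℂ) • u = (2⁻¹ : ℝ) • u := fun u => by
    rw [← Complex.coe_smul]
    norm_num
  have h1 : ClsAt (fun η => M.Pp η e) ‖e‖ M.KB ξ := by
    refine (((h0.add (M.B_cls e ξ)).const_smul 2⁻¹).mono (le_of_eq ?_) hKB le_rfl).congr
      (.of_forall fun η => ?_)
    · rw [abs_of_pos (by norm_num)]
      ring
    · simp only [Pp, smul_apply, add_apply,
        ContinuousLinearMap.id_apply, hh]
  have h2 : ClsAt (fun η => M.Pm η e) ‖e‖ M.KB ξ := by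
    refine (((h0.add ((M.B_cls e ξ).const_smul (-1))).const_smul 2⁻¹).mono (le_of_eq ?_) hKB
      le_rfl).congr (.of_forall fun η => ?_)
    · rw [abs_of_pos (by norm_num), abs_neg, abs_one]
      ring
    · simp only [Pm, smul_apply, sub_apply,
        ContinuousLinearMap.id_apply, hh, neg_smul, one_smul, ← sub_eq_add_neg]
  have h3 : ClsAt (fun η => M.σ * sm η) b K ξ :=
    (hm.const_smul M.σ).mono (mul_le_of_le_one_left hm.nonneg M.abs_σ_le) hK le_rfl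
  exact ((hp.smul h1 hK hKB).add (h3.smul h2 hK hKB)).mono (le_of_eq (by ring))
    (add_nonneg hK hKB) le_rfl

/-- Comparison of the scaled kinetic energy with the momentum. -/
theorem norm_le_t {R : ℝ} (hR : 1 ≤ R) (ξ : E3) : ‖ξ‖ ≤ M.t R ξ + M.c := by
  have h0 := M.t_nonneg (zero_le_one.trans hR) ξ
  have hc := M.one_lt_c
  rcases le_total ‖ξ‖ M.c with h | h
  · linarith
  · have h1 : M.E ξ - M.c ^ 2 ≤ M.t R ξ :=
      le_mul_of_one_le_left (sub_nonneg.2 (M.csq_le_E ξ)) hR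
    have h2 := M.mul_norm_le_E ξ
    have h3 : 2 * 1 * M.c * ‖ξ‖ ≤ 2 * π * M.c * ‖ξ‖ := by
      have := Real.pi_gt_three
      gcongr
      linarith
    nlinarith

theorem inv_t_add_le {R a : ℝ} (hR : 1 ≤ R) (ha : 1 ≤ a) (ξ : E3) :
    (M.t R ξ + a)⁻¹ ≤ (M.c + 1) * a ^ (-(1 / 4) : ℝ) * (1 + ‖ξ‖) ^ (-(3 / 4) : ℝ) := by
  have h0 := M.t_nonneg (zero_le_one.trans hR) ξ
  have hc := M.c_pos
  have h1 := M.norm_le_t hR ξ
  have hn := norm_nonneg ξ
  have h2 : a + ‖ξ‖ ≤ (M.c + 1) * (M.t R ξ + a) := by nlinarith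
  have h3 : (a + ‖ξ‖) ^ (-(1 / 4) : ℝ) ≤ a ^ (-(1 / 4) : ℝ) :=
    Real.rpow_le_rpow_of_nonpos (by linarith) (by linarith) (by norm_num)
  have h4 : (a + ‖ξ‖) ^ (-(3 / 4) : ℝ) ≤ (1 + ‖ξ‖) ^ (-(3 / 4) : ℝ) :=
    Real.rpow_le_rpow_of_nonpos (by linarith) (by linarith) (by norm_num)
  have h5 : (a + ‖ξ‖) ^ (-(1 / 4) : ℝ) * (a + ‖ξ‖) ^ (-(3 / 4) : ℝ) = (a + ‖ξ‖)⁻¹ := by
    rw [← Real.rpow_add (by linarith), ← Real.rpow_neg_one]
    norm_num
  have h6 := mul_le_mul h3 h4 (by positivity) (by positivity)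
  rw [h5] at h6
  rw [mul_assoc]
  refine le_trans ?_ (mul_le_mul_of_nonneg_left h6 (by linarith))
  rw [← div_eq_mul_inv, le_div_iff₀ (by linarith), ← div_eq_inv_mul, div_le_iff₀ (by linarith)]
  exact h2

end Model

end Pool.Agent.Work.MP_0d9e46_mp
end
end
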