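import Pool.Agent.Work.MP_0d9e46_mp.Vop
import Pool.Agent.Work.MP_0d9e46_mp.ClsL

/-! Localisation of test vectors. -/

open MeasureTheory Filter Topology FourierTransform
open scoped Real ENNReal

noncomputable section

namespace Pool.Agent.Work.MP_0d9e46_mp

variable {F : Type} [NormedAddCommGroup F] [InnerProductSpace ℂ F] [CompleteSpace F]

namespace ErrAux

lemma ae_ne_zero : ∀ᵐ ξ : E3, ξ ≠ 0 := by
  have : (volume : Measure E3) {0} = 0 := measure_singleton 0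
  exact compl_mem_ae_iff.2 this

omit [CompleteSpace F] in
lemma contDiff_D {κ : E3 → F} (hκ : ContDiff ℝ 2 κ) (v : E3) : ContDiff ℝ 1 (D v κ) :=
  (hκ.fderiv_right (m := 1) (by norm_num)).clm_apply contDiff_const

omit [CompleteSpace F] in
lemma continuous_D {κ : E3 → F} (hκ : ContDiff ℝ 1 κ) (v : E3) : Continuous (D v κ) :=
  (hκ.continuous_fderiv (by norm_num)).clm_apply continuous_const

omit [CompleteSpace F] in
lemma supp_D {κ : E3 → F} (hs : HasCompactSupport κ) (v : E3) : HasCompactSupport (D v κ) :=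
  hs.fderiv_apply ℝ v

omit [CompleteSpace F] in
lemma bound1 {κ : E3 → F} {b : E3 → ℝ} {K : ℝ} (hK : 0 ≤ K) (hκ : Cls κ b K) {v : E3}
    (hv : ‖v‖ ≤ 1) :
    eLpNorm (D v κ) 2 volume ≤
      ENNReal.ofReal K * eLpNorm (fun ξ : E3 => b ξ / ‖ξ‖) 2 volume := by
  apply eLpNorm_le_mul_eLpNorm_of_ae_le_mul
  filter_upwards [ae_ne_zero] with ξ hξ
  have hp : 0 < ‖ξ‖ := norm_pos_iff.2 hξ
  have h1 := (hκ ξ).h1 v hv
  have h2 : ‖D v κ ξ‖ ≤ K * (b ξ / ‖ξ‖) := by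
    rw [← mul_div_assoc, le_div_iff₀ hp]; linarith
  exact h2.trans (mul_le_mul_of_nonneg_left (le_abs_self _) hK)

omit [CompleteSpace F] in
lemma bound2 {κ : E3 → F} {b : E3 → ℝ} {K : ℝ} (hκ : Cls κ b K) {v : E3}
    (hv : ‖v‖ ≤ 1) :
    eLpNorm (fun ξ : E3 => ‖ξ‖ • D v (D v κ) ξ) 2 volume ≤
      ENNReal.ofReal (K ^ 2) * eLpNorm (fun ξ : E3 => b ξ / ‖ξ‖) 2 volume := by
  apply eLpNorm_le_mul_eLpNorm_of_ae_le_mul
  filter_upwards [ae_ne_zero] with ξ hξ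
  have hp : 0 < ‖ξ‖ := norm_pos_iff.2 hξ
  have h1 := (hκ ξ).h2 v hv
  have h2 : ‖‖ξ‖ • D v (D v κ) ξ‖ ≤ K ^ 2 * (b ξ / ‖ξ‖) := by
    rw [norm_smul, norm_norm, ← mul_div_assoc, le_div_iff₀ hp]; linarith only [h1]
  exact h2.trans (mul_le_mul_of_nonneg_left (le_abs_self _) (sq_nonneg K))

lemma norm_fourierInv_D {κ : E3 → F} (hκ : ContDiff ℝ 1 κ) (hs : HasCompactSupport κ)
    (i : Fin 3) (y : E3) :
    ‖𝓕⁻ (D (EuclideanSpace.single i (1 : ℝ)) κ) y‖ = 2 * π * |y i| * ‖𝓕⁻ κ y‖ := by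
  rw [fourierInv_D hκ hs, norm_smul, norm_mul, Complex.norm_I, Complex.norm_real, mul_one,
    EuclideanSpace.inner_single_right, Real.norm_eq_abs]
  simp [abs_mul, abs_of_pos Real.pi_pos]

lemma norm_le_sum (y : E3) : ‖y‖ ≤ ∑ i, |y i| := by
  rw [EuclideanSpace.norm_eq, Fin.sum_univ_three, Fin.sum_univ_three]
  apply Real.sqrt_le_iff.2
  refine ⟨by positivity, ?_⟩
  simp only [Real.norm_eq_abs]
  have h0 := abs_nonneg (y 0)
  have h1 := abs_nonneg (y 1)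
  have h2 := abs_nonneg (y 2)
  linarith only [h0, h1, h2, mul_nonneg h0 h1, mul_nonneg h0 h2, mul_nonneg h1 h2]

lemma norm_sq_eq_sum (y : E3) : ‖y‖ ^ 2 = ∑ i, |y i| ^ 2 := by
  rw [EuclideanSpace.norm_sq_eq]; simp

lemma aesm_fourierInv {κ : E3 → F} (h1 : Integrable κ) (h2 : MemLp κ 2 volume) :
    AEStronglyMeasurable (𝓕⁻ κ) volume :=
  (Lp.aestronglyMeasurable _).congr (l1l2 h1 h2)

omit [InnerProductSpace ℂ F] [CompleteSpace F] in
lemma eLpNorm_sum3 {g : Fin 3 → E3 → F} (hg : ∀ i, AEStronglyMeasurable (g i) volume)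
    {C : ℝ≥0∞} (hC : ∀ i, eLpNorm (g i) 2 volume ≤ C) :
    eLpNorm (fun y => ∑ i, ‖g i y‖) 2 volume ≤ 3 * C := by
  have h : (fun y => ∑ i, ‖g i y‖) = ∑ i, fun y => ‖g i y‖ := by
    ext y; simp
  rw [h]
  refine (eLpNorm_sum_le (fun i _ => (hg i).norm) (by norm_num)).trans ?_
  simp only [eLpNorm_norm]
  refine (Finset.sum_le_sum fun i _ => hC i).trans ?_
  simp

lemma geom {x y : E3} (hx : x ≠ 0) (hy : y ≠ 0) :
    |1 - ‖x‖ * ‖y‖⁻¹| ≤ ‖x‖⁻¹ * (‖y - x‖ + ‖y‖⁻¹ * ‖y - x‖ ^ 2) := by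
  have hR : 0 < ‖x‖ := norm_pos_iff.2 hx
  have hY : 0 < ‖y‖ := norm_pos_iff.2 hy
  have h1 : |‖y‖ - ‖x‖| ≤ ‖y - x‖ := abs_norm_sub_norm_le y x
  have h2 : 1 - ‖x‖ * ‖y‖⁻¹ = (‖y‖ - ‖x‖) * ‖y‖⁻¹ := by field_simp
  have h3 : ‖x‖ ≤ ‖y‖ + ‖y - x‖ := by have := (abs_le.1 h1).1; linarith
  have hz := norm_nonneg (y - x)
  rw [h2, abs_mul, abs_of_pos (inv_pos.2 hY)]
  calc |‖y‖ - ‖x‖| * ‖y‖⁻¹ ≤ ‖y - x‖ * ‖y‖⁻¹ := by gcongr
    _ = ‖x‖⁻¹ * (‖y‖⁻¹ * (‖y - x‖ * ‖x‖)) := by field_simp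
    _ ≤ ‖x‖⁻¹ * (‖y‖⁻¹ * (‖y - x‖ * (‖y‖ + ‖y - x‖))) := by gcongr
    _ = ‖x‖⁻¹ * (‖y - x‖ + ‖y‖⁻¹ * ‖y - x‖ ^ 2) := by field_simp

/-- The majorant of the weights. -/
def g0 (ξ : E3) : ℝ := (1 + ‖ξ‖) ^ (-(3 / 4) : ℝ) / ‖ξ‖

lemma measurable_g0 : Measurable g0 := by unfold g0; fun_prop

lemma integrable_g0_sq : Integrable (fun ξ : E3 => g0 ξ ^ 2) := by
  have h := (integrable_fun_norm_addHaar (volume : Measure E3)
    (f := fun y : ℝ => ((1 + y) ^ (-(3 / 4) : ℝ) / y) ^ 2)).2 (by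
      have h1 : IntegrableOn (fun y : ℝ => (y + 1) ^ (-(3 / 2) : ℝ)) (Set.Ioi 0) :=
        integrableOn_add_rpow_Ioi_of_lt (by norm_num) (by norm_num)
      refine h1.congr_fun (fun y hy => ?_) measurableSet_Ioi
      have hy0 : 0 < y := hy
      simp only [finrank_euclideanSpace, Fintype.card_fin, smul_eq_mul]
      rw [div_pow, ← Real.rpow_natCast ((1 + y) ^ (-(3 / 4) : ℝ)), ← Real.rpow_mul (by linarith),
        add_comm y 1]
      norm_num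
      field_simp)
  exact h

lemma memLp_g0 : MemLp g0 2 volume :=
  (memLp_two_iff_integrable_sq measurable_g0.aestronglyMeasurable).2 integrable_g0_sq

lemma g0_nonneg (ξ : E3) : 0 ≤ g0 ξ := by unfold g0; positivity

lemma wt_eq (r : ℝ) : (fun ξ : E3 => wt r ξ / ‖ξ‖) = {ξ : E3 | r ≤ ‖ξ‖}.indicator g0 := by
  ext ξ
  by_cases h : r ≤ ‖ξ‖ <;> simp [wt, g0, Set.indicator, h]

lemma measurableSet_wt (r : ℝ) : MeasurableSet {ξ : E3 | r ≤ ‖ξ‖} :=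
  measurableSet_le measurable_const measurable_norm

lemma memLp_wt (r : ℝ) : MemLp (fun ξ : E3 => wt r ξ / ‖ξ‖) 2 volume := by
  rw [wt_eq]; exact memLp_g0.indicator (measurableSet_wt r)

end ErrAux

open ErrAux

theorem err_z {κ : E3 → F} {b : E3 → ℝ} {K : ℝ} (hK : 0 ≤ K) (hκ : Cls κ b K)
    (hs : HasCompactSupport κ) :
    eLpNorm (fun y : E3 => ‖y‖ • 𝓕⁻ κ y) 2 volume ≤
      ENNReal.ofReal K * eLpNorm (fun ξ : E3 => b ξ / ‖ξ‖) 2 volume := by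
  have hc2 := hκ.contDiff
  have hc1 : ContDiff ℝ 1 κ := hc2.of_le (by norm_num)
  set e : Fin 3 → E3 := fun i => EuclideanSpace.single i (1 : ℝ) with he
  have hen : ∀ i, ‖e i‖ ≤ 1 := fun i => by simp [he]
  have hi : ∀ i, Integrable (D (e i) κ) := fun i =>
    (continuous_D hc1 _).integrable_of_hasCompactSupport (supp_D hs _)
  have hm : ∀ i, MemLp (D (e i) κ) 2 volume := fun i =>
    (continuous_D hc1 _).memLp_of_hasCompactSupport (supp_D hs _)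
  have h1 := eLpNorm_sum3 (g := fun i => 𝓕⁻ (D (e i) κ)) (fun i => aesm_fourierInv (hi i) (hm i))
    (fun i => (eLpNorm_fourierInv (hi i) (hm i)).le.trans (bound1 hK hκ (hen i)))
  have h2 : eLpNorm (fun y : E3 => ‖y‖ • 𝓕⁻ κ y) 2 volume ≤
      ENNReal.ofReal (1 / 3) * eLpNorm (fun y => ∑ i, ‖𝓕⁻ (D (e i) κ) y‖) 2 volume := by
    apply eLpNorm_le_mul_eLpNorm_of_ae_le_mul
    refine .of_forall fun y => ?_
    simp only [he, norm_fourierInv_D hc1 hs]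
    rw [norm_smul, norm_norm, ← Finset.sum_mul, ← Finset.mul_sum, Real.norm_eq_abs,
      abs_of_nonneg (by positivity)]
    have h3 := norm_le_sum y
    have h4 : 0 ≤ ∑ i, |y i| := by positivity
    have h5 := Real.pi_gt_three
    have h6 := norm_nonneg (𝓕⁻ κ y)
    have h7 : ‖y‖ ≤ 1 / 3 * (2 * π * ∑ i, |y i|) := by linarith only [h3, h4, h5, mul_nonneg_of_nonpos_of_nonpos (Mathlib.Tactic.Linarith.sub_nonpos_of_le h4) (le_of_lt (Mathlib.Tactic.Linarith.sub_neg_of_lt h5))]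
    calc ‖y‖ * ‖𝓕⁻ κ y‖ ≤ (1 / 3 * (2 * π * ∑ i, |y i|)) * ‖𝓕⁻ κ y‖ := by gcongr
      _ = _ := by ring
  refine h2.trans ((mul_le_mul_right h1 _).trans ?_)
  rw [← mul_assoc]
  have : ENNReal.ofReal (1 / 3) * 3 = 1 := by
    rw [show (3 : ℝ≥0∞) = ENNReal.ofReal 3 by simp, ← ENNReal.ofReal_mul (by norm_num)]
    norm_num
  rw [this, one_mul]

theorem err_U [FiniteDimensional ℂ F] {κ : E3 → F} {b : E3 → ℝ} {K : ℝ} (hK : 1 ≤ K)
    (hκ : Cls κ b K) (hs : HasCompactSupport κ) {x : E3} (hx : x ≠ 0) :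
    eLpNorm (fun y : E3 => (1 - ‖x‖ * ‖y‖⁻¹) • 𝓕⁻ κ (y - x)) 2 volume ≤
      ENNReal.ofReal (2 * K ^ 2 / ‖x‖) * eLpNorm (fun ξ : E3 => b ξ / ‖ξ‖) 2 volume := by
  have hR : 0 < ‖x‖ := norm_pos_iff.2 hx
  have hc2 := hκ.contDiff
  have hc1 : ContDiff ℝ 1 κ := hc2.of_le (by norm_num)
  set Ξ := eLpNorm (fun ξ : E3 => b ξ / ‖ξ‖) 2 volume with hΞ
  set e : Fin 3 → E3 := fun i => EuclideanSpace.single i (1 : ℝ) with he
  have hen : ∀ i, ‖e i‖ ≤ 1 := fun i => by simp [he]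
  have hw : Continuous fun ξ : E3 => wave x ξ :=
    continuous_wave.comp (Continuous.prodMk continuous_const continuous_id)
  set u : Fin 3 → E3 → F := fun i ξ => wave x ξ • D (e i) (D (e i) κ) ξ with hu
  have huc : ∀ i, Continuous (u i) := fun i => hw.smul (continuous_D (contDiff_D hc2 _) _)
  have hus : ∀ i, HasCompactSupport (u i) := fun i =>
    (supp_D (supp_D hs _) _).smul_left (f := fun ξ : E3 => wave x ξ)
  have hi : ∀ i, Integrable (u i) := fun i => (huc i).integrable_of_hasCompactSupport (hus i)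
  have hm : ∀ i, MemLp (u i) 2 volume := fun i => (huc i).memLp_of_hasCompactSupport (hus i)
  have hn : AEStronglyMeasurable (fun y : E3 => ‖y‖⁻¹) volume :=
    measurable_norm.inv.aestronglyMeasurable
  have hb : ∀ i, eLpNorm (fun y : E3 => ‖y‖⁻¹ • 𝓕⁻ (u i) y) 2 volume ≤
      ENNReal.ofReal (4 * π) * (ENNReal.ofReal (K ^ 2) * Ξ) := fun i => by
    have h1 := hardy2 (toL2 (u i))
    have h2 : eLpNorm (fun y : E3 => ‖y‖⁻¹ • 𝓕⁻ (u i) y) 2 volume =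
        eLpNorm (fun y : E3 => ‖y‖⁻¹ • (FT F).symm (toL2 (u i)) y) 2 volume := by
      apply eLpNorm_congr_ae
      filter_upwards [l1l2 (hi i) (hm i)] with y hy
      rw [hy]
    have h3 : eLpNorm (fun ξ : E3 => ‖ξ‖ • toL2 (u i) ξ) 2 volume =
        eLpNorm (fun ξ : E3 => ‖ξ‖ • D (e i) (D (e i) κ) ξ) 2 volume := by
      apply eLpNorm_congr_norm_ae
      filter_upwards [toL2_ae (hm i)] with y hy
      rw [hy, hu]
      simp only [norm_smul, norm_wave, one_mul]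
    rw [h2]
    refine h1.trans (mul_le_mul_right ?_ _)
    rw [h3]
    exact bound2 hκ (hen i)
  have h1 := eLpNorm_sum3 (g := fun i y => ‖y‖⁻¹ • 𝓕⁻ (u i) y)
    (fun i => hn.smul (aesm_fourierInv (hi i) (hm i))) hb
  have hκi : Integrable κ := hc1.continuous.integrable_of_hasCompactSupport hs
  have hκm : MemLp κ 2 volume := hc1.continuous.memLp_of_hasCompactSupport hs
  have hz : AEStronglyMeasurable (fun y : E3 => ‖y‖ • 𝓕⁻ κ y) volume :=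
    measurable_norm.aestronglyMeasurable.smul (aesm_fourierInv hκi hκm)
  have hmp := measurePreserving_sub_right (volume : Measure E3) x
  have h2 : eLpNorm (fun y : E3 => ‖‖y - x‖ • 𝓕⁻ κ (y - x)‖) 2 volume ≤
      ENNReal.ofReal (K ^ 2) * Ξ := by
    rw [eLpNorm_norm]
    have := eLpNorm_comp_measurePreserving (p := 2) hz hmp
    refine (le_of_eq this).trans ((err_z (by linarith only [hK]) hκ hs).trans ?_)
    gcongr
    linarith only [hK, mul_nonneg_of_nonpos_of_nonpos (Mathlib.Tactic.Linarith.sub_nonpos_of_le hK) (Mathlib.Tactic.Linarith.sub_nonpos_of_le hK)]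
  have hA : AEStronglyMeasurable (fun y : E3 => ‖‖y - x‖ • 𝓕⁻ κ (y - x)‖) volume :=
    (hz.comp_measurePreserving hmp).norm
  have hB : AEStronglyMeasurable
      (fun y : E3 => (4 * π ^ 2)⁻¹ • ∑ i, ‖‖y‖⁻¹ • 𝓕⁻ (u i) y‖) volume := by
    exact (Finset.aestronglyMeasurable_fun_sum Finset.univ fun i _ =>
      (hn.smul (aesm_fourierInv (hi i) (hm i))).norm).const_smul (4 * π ^ 2)⁻¹
  have h3 : eLpNorm (fun y : E3 => (4 * π ^ 2)⁻¹ • ∑ i, ‖‖y‖⁻¹ • 𝓕⁻ (u i) y‖) 2 volume ≤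
      ENNReal.ofReal (K ^ 2) * Ξ := by
    have h4 : eLpNorm (fun y : E3 => (4 * π ^ 2)⁻¹ • ∑ i, ‖‖y‖⁻¹ • 𝓕⁻ (u i) y‖) 2 volume ≤
        ENNReal.ofReal ((4 * π ^ 2)⁻¹) *
          eLpNorm (fun y : E3 => ∑ i, ‖‖y‖⁻¹ • 𝓕⁻ (u i) y‖) 2 volume := by
      apply eLpNorm_le_mul_eLpNorm_of_ae_le_mul
      refine .of_forall fun y => ?_
      rw [norm_smul, Real.norm_eq_abs, abs_of_nonneg (by positivity)]
    refine h4.trans ((mul_le_mul_right h1 _).trans ?_)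
    rw [← mul_assoc, ← mul_assoc]
    refine mul_le_of_le_one_left' ?_
    rw [show (3 : ℝ≥0∞) = ENNReal.ofReal 3 by simp, ← ENNReal.ofReal_mul (by positivity),
      ← ENNReal.ofReal_mul (by positivity), ENNReal.ofReal_le_one]
    have h5 := Real.pi_gt_three
    rw [show (4 * π ^ 2)⁻¹ * 3 * (4 * π) = 3 / π by field_simp, div_le_one Real.pi_pos]
    exact h5.le
  have h4 : eLpNorm (fun y : E3 => (1 - ‖x‖ * ‖y‖⁻¹) • 𝓕⁻ κ (y - x)) 2 volume ≤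
      ENNReal.ofReal ‖x‖⁻¹ * eLpNorm ((fun y : E3 => ‖‖y - x‖ • 𝓕⁻ κ (y - x)‖) +
        fun y : E3 => (4 * π ^ 2)⁻¹ • ∑ i, ‖‖y‖⁻¹ • 𝓕⁻ (u i) y‖) 2 volume := by
    apply eLpNorm_le_mul_eLpNorm_of_ae_le_mul
    filter_upwards [ae_ne_zero] with y hy
    have h5 : ∀ i, ‖‖y‖⁻¹ • 𝓕⁻ (u i) y‖ =
        4 * π ^ 2 * ‖y‖⁻¹ * ‖𝓕⁻ κ (y - x)‖ * |(y - x) i| ^ 2 := fun i => by
      rw [norm_smul, hu]
      simp only [he]
      rw [fourierInv_wave, norm_fourierInv_D (contDiff_D hc2 _) (supp_D hs _),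
        norm_fourierInv_D hc1 hs, norm_inv, norm_norm]
      ring
    simp only [Pi.add_apply, h5]
    rw [← Finset.mul_sum, ← norm_sq_eq_sum, norm_smul, norm_smul, norm_norm, smul_eq_mul,
      Real.norm_eq_abs, Real.norm_eq_abs, abs_of_nonneg (a := _ + _) (by positivity)]
    have h6 := geom hx hy
    calc |1 - ‖x‖ * ‖y‖⁻¹| * ‖𝓕⁻ κ (y - x)‖
        ≤ (‖x‖⁻¹ * (‖y - x‖ + ‖y‖⁻¹ * ‖y - x‖ ^ 2)) * ‖𝓕⁻ κ (y - x)‖ := by gcongr
      _ = _ := by have := Real.pi_pos; field_simp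
  refine h4.trans ?_
  refine (mul_le_mul_right ((eLpNorm_add_le hA hB (by norm_num)).trans (add_le_add h2 h3)) _).trans
    (le_of_eq ?_)
  rw [← add_mul, ← mul_assoc, ← ENNReal.ofReal_add (sq_nonneg K) (sq_nonneg K),
    ← ENNReal.ofReal_mul (by positivity)]
  congr 2
  field_simp
  ring

theorem Xi_fin (r : ℝ) : eLpNorm (fun ξ : E3 => wt r ξ / ‖ξ‖) 2 volume ≠ ⊤ :=
  (memLp_wt r).eLpNorm_ne_top

theorem Xi_tendsto : Tendsto Xi atTop (𝓝 0) := by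
  have h1 : Xi = fun r => (∫ ξ : E3, ({ξ : E3 | r ≤ ‖ξ‖}.indicator g0 ξ) ^ 2) ^ (2⁻¹ : ℝ) := by
    ext r
    rw [Xi, (memLp_wt r).eLpNorm_eq_integral_rpow_norm (by norm_num) (by norm_num),
      ENNReal.toReal_ofReal (by positivity), ← wt_eq]
    simp [div_pow]
  have h2 : Tendsto (fun r : ℝ => ∫ ξ : E3, ({ξ : E3 | r ≤ ‖ξ‖}.indicator g0 ξ) ^ 2) atTop
      (𝓝 (∫ _ : E3, (0 : ℝ))) := by
    refine tendsto_integral_filter_of_dominated_convergence (fun ξ => g0 ξ ^ 2)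
      (.of_forall fun r => ?_) (.of_forall fun r => .of_forall fun ξ => ?_) integrable_g0_sq
      (.of_forall fun ξ => ?_)
    · exact ((measurable_g0.indicator (measurableSet_wt r)).pow_const 2).aestronglyMeasurable
    · by_cases h : r ≤ ‖ξ‖
      · simp [Set.indicator, h]
      · simp [Set.indicator, h, sq_nonneg]
    · refine tendsto_const_nhds.congr' ?_
      filter_upwards [eventually_gt_atTop ‖ξ‖] with r hr
      simp [Set.indicator, not_le.2 hr]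
  rw [h1]
  have h3 := h2.rpow_const (p := (2⁻¹ : ℝ)) (Or.inr (by norm_num))
  simpa using h3

end Pool.Agent.Work.MP_0d9e46_mp
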