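import Pool.Agent.Work.MP_0d9e46_mp.Ops

/-! The rotation operators and the sector. -/

open MeasureTheory Filter Topology FourierTransform
open scoped Real ENNReal

noncomputable section

namespace Pool.Agent.Work.MP_0d9e46_mp

variable {F : Type} [NormedAddCommGroup F] [InnerProductSpace ℂ F] [CompleteSpace F]
  [FiniteDimensional ℂ F]

section spin

variable {J : F →L[ℂ] F}

omit [CompleteSpace F] [FiniteDimensional ℂ F] in
lemma spin_apply (J : F →L[ℂ] F) (θ : ℝ) (u : F) :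
    spin J θ u = ((Real.cos (θ / 2) : ℝ) : ℂ) • u + ((Real.sin (θ / 2) : ℝ) : ℂ) • J u := by
  simp [spin]

omit [CompleteSpace F] [FiniteDimensional ℂ F] in
lemma spin_add (hJ : ∀ u, J (J u) = -u) (a b : ℝ) (u : F) :
    spin J (a + b) u = spin J a (spin J b u) := by
  simp only [spin_apply, map_add, map_smul, hJ, add_div, Real.cos_add, Real.sin_add]
  push_cast
  module

omit [CompleteSpace F] [FiniteDimensional ℂ F] in
lemma spin_zero (u : F) : spin J 0 u = u := by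
  simp [spin_apply]

omit [CompleteSpace F] [FiniteDimensional ℂ F] in
lemma spin_two_pi (u : F) : spin J (2 * π) u = -u := by
  simp [spin_apply]

omit [CompleteSpace F] [FiniteDimensional ℂ F] in
lemma spin_adj (hs : ∀ u v, inner ℂ (J u) v = -inner ℂ u (J v)) (θ : ℝ) (u v : F) :
    inner ℂ (spin J θ u) v = inner ℂ u (spin J (-θ) v) := by
  simp only [spin_apply, inner_add_left, inner_add_right, inner_smul_left, inner_smul_right,
    Complex.conj_ofReal, hs, neg_div, Real.cos_neg, Real.sin_neg]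
  push_cast
  ring

omit [CompleteSpace F] [FiniteDimensional ℂ F] in
lemma norm_spin (hs : ∀ u v, inner ℂ (J u) v = -inner ℂ u (J v)) (hJ : ∀ u, J (J u) = -u)
    (θ : ℝ) (u : F) : ‖spin J θ u‖ = ‖u‖ := by
  have h : inner ℂ (spin J θ u) (spin J θ u) = inner ℂ u u := by
    rw [spin_adj hs, ← spin_add hJ, neg_add_cancel, spin_zero]
  rw [@norm_eq_sqrt_re_inner ℂ, @norm_eq_sqrt_re_inner ℂ _ _ _ _ u, h]

omit [CompleteSpace F] [FiniteDimensional ℂ F] in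
lemma spin_split (hJ : ∀ u, J (J u) = -u) (θ : ℝ) (u : F) :
    (ContinuousLinearMap.id ℂ F - Complex.I • J)
        (Complex.exp (((-1 * (θ / 2) : ℝ) : ℂ) * Complex.I) • spin J θ u) +
      (ContinuousLinearMap.id ℂ F + Complex.I • J)
        (Complex.exp (((-(-1) * (θ / 2) : ℝ) : ℂ) * Complex.I) • spin J θ u) = (2 : ℂ) • u := by
  rw [Complex.exp_mul_I, Complex.exp_mul_I, ← Complex.ofReal_cos, ← Complex.ofReal_sin,
    ← Complex.ofReal_cos, ← Complex.ofReal_sin, neg_neg, one_mul, neg_one_mul, Real.cos_neg,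
    Real.sin_neg, spin_apply, Complex.ofReal_neg]
  have h : ((Real.sin (θ / 2) : ℝ) : ℂ) ^ 2 + ((Real.cos (θ / 2) : ℝ) : ℂ) ^ 2 = 1 := by
    exact_mod_cast Real.sin_sq_add_cos_sq (θ / 2)
  generalize ((Real.sin (θ / 2) : ℝ) : ℂ) = s at h ⊢
  generalize ((Real.cos (θ / 2) : ℝ) : ℂ) = c at h ⊢
  simp only [ContinuousLinearMap.sub_apply, ContinuousLinearMap.add_apply,
    ContinuousLinearMap.id_apply, ContinuousLinearMap.smul_apply, map_add, map_smul, hJ]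
  match_scalars
  · linear_combination 2 * h - 2 * s ^ 2 * Complex.I_sq
  · linear_combination (2 * c * s) * Complex.I_sq

end spin

omit [FiniteDimensional ℂ F] [InnerProductSpace ℂ F] [CompleteSpace F] in
lemma rot_int_norm_mul (f g : L2 F) :
    Integrable (fun y => ‖f y‖ * ‖g y‖) ∧ ∫ y, ‖f y‖ * ‖g y‖ ≤ ‖f‖ * ‖g‖ := by
  have hf := (Lp.memLp f).norm
  have hg := (Lp.memLp g).norm
  have hae : (fun y => inner ℝ (hf.toLp _ y) (hg.toLp _ y)) =ᵐ[volume]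
      fun y => ‖f y‖ * ‖g y‖ := by
    filter_upwards [hf.coeFn_toLp, hg.coeFn_toLp] with y h1 h2
    rw [h1, h2]
    simp [mul_comm]
  refine ⟨(L2.integrable_inner (𝕜 := ℝ) (hf.toLp _) (hg.toLp _)).congr hae, ?_⟩
  rw [← integral_congr_ae hae, ← L2.inner_def]
  refine (real_inner_le_norm _ _).trans (le_of_eq ?_)
  rw [Lp.norm_toLp, Lp.norm_toLp, eLpNorm_norm, eLpNorm_norm, Lp.norm_def, Lp.norm_def]

lemma ae_rot {p : E3 → Prop} (k : Fin 3) (θ : ℝ) (h : ∀ᵐ ξ : E3, p ξ) :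
    ∀ᵐ ξ : E3, p (rot k θ ξ) :=
  (rot k θ).measurePreserving.quasiMeasurePreserving.ae h

namespace Model

variable (M : Model F)

lemma rotOp_ae (k : Fin 3) (θ : ℝ) (v : L2 F) :
    M.rotOp k θ v =ᵐ[volume] fun ξ => spin (M.J k) θ (v (rot k (-θ) ξ)) := by
  have h1 := (spin (M.J k) θ).coeFn_compLpL
    (Lp.compMeasurePreserving (rot k (-θ)) (rot k (-θ)).measurePreserving v)
  have h2 := Lp.coeFn_compMeasurePreserving v (rot k (-θ)).measurePreserving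
  filter_upwards [h1, h2] with ξ h1 h2
  rw [h2] at h1
  exact h1

lemma rotOp_add (k : Fin 3) (a b : ℝ) (v : L2 F) :
    M.rotOp k (a + b) v = M.rotOp k a (M.rotOp k b v) := by
  apply Lp.ext
  filter_upwards [M.rotOp_ae k (a + b) v, M.rotOp_ae k a (M.rotOp k b v),
    ae_rot k (-a) (M.rotOp_ae k b v)] with ξ h1 h2 h3
  rw [h1, h2, h3, spin_add (M.J_sq k), ← rot_add, neg_add_rev]

lemma rotOp_zero (k : Fin 3) (v : L2 F) : M.rotOp k 0 v = v := by
  apply Lp.ext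
  filter_upwards [M.rotOp_ae k 0 v] with ξ h1
  rw [h1, neg_zero, rot_zero, spin_zero]

lemma rotOp_two_pi (k : Fin 3) (v : L2 F) : M.rotOp k (2 * π) v = -v := by
  apply Lp.ext
  filter_upwards [M.rotOp_ae k (2 * π) v, Lp.coeFn_neg v] with ξ h1 h2
  have h3 : rot k (-(2 * π)) ξ = ξ := by
    conv_lhs => rw [← rot_two_pi k ξ]
    exact rot_neg_rot k _ ξ
  rw [h1, h2, h3, spin_two_pi, Pi.neg_apply]

lemma norm_rotOp_ae (k : Fin 3) (θ : ℝ) (v : L2 F) :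
    ∀ᵐ ξ : E3, ‖M.rotOp k θ v ξ‖ = ‖v (rot k (-θ) ξ)‖ := by
  filter_upwards [M.rotOp_ae k θ v] with ξ h1
  rw [h1, norm_spin (M.J_skew k) (M.J_sq k)]

lemma norm_rotOp (k : Fin 3) (θ : ℝ) (v : L2 F) : ‖M.rotOp k θ v‖ = ‖v‖ := by
  rw [← Lp.norm_compMeasurePreserving v (rot k (-θ)).measurePreserving, Lp.norm_def, Lp.norm_def]
  congr 1
  apply eLpNorm_congr_norm_ae
  filter_upwards [M.norm_rotOp_ae k θ v,
    Lp.coeFn_compMeasurePreserving v (rot k (-θ)).measurePreserving] with ξ h1 h2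
  rw [h1, h2]; rfl

lemma rotOp_mul (k : Fin 3) (θ : ℝ) (T : L2 F →L[ℂ] L2 F) (m : E3 → F →L[ℂ] F)
    (hT : ∀ h : L2 F, T h =ᵐ[volume] fun ξ => m ξ (h ξ))
    (hm : ∀ ξ u, spin (M.J k) θ (m ξ u) = m (rot k θ ξ) (spin (M.J k) θ u)) (h : L2 F) :
    M.rotOp k θ (T h) = T (M.rotOp k θ h) := by
  apply Lp.ext
  filter_upwards [M.rotOp_ae k θ (T h), ae_rot k (-θ) (hT h), hT (M.rotOp k θ h),
    M.rotOp_ae k θ h] with ξ h1 h2 h3 h4
  rw [h1, h2, h3, h4, hm, rot_rot_neg]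

lemma rotOp_Lam (k : Fin 3) (θ : ℝ) (h : L2 F) :
    M.rotOp k θ (M.Lam h) = M.Lam (M.rotOp k θ h) :=
  M.rotOp_mul k θ M.Lam M.La M.Lam_ae (fun ξ u => by
    simp [La, Pp, Pm, M.J_cov]) h

lemma E_rot (k : Fin 3) (θ : ℝ) (ξ : E3) : M.E (rot k θ ξ) = M.E ξ := by
  rw [E_eq, E_eq, LinearIsometryEquiv.norm_map]

lemma rotOp_G0 (k : Fin 3) (θ : ℝ) (h : L2 F) :
    M.rotOp k θ (M.G0 h) = M.G0 (M.rotOp k θ h) :=
  M.rotOp_mul k θ M.G0 M.G M.G0_ae (fun ξ u => by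
    simp only [G, E_rot, ContinuousLinearMap.smul_apply, map_smul, M.J_cov]) h

lemma FT_symm_rotOp (k : Fin 3) (θ : ℝ) (h : L2 F) :
    (FT F).symm (M.rotOp k θ h) = M.rotOp k θ ((FT F).symm h) :=
  FT_symm_comp (spin (M.J k) θ) (rot k (-θ)) h

lemma rotOp_V (k : Fin 3) (θ : ℝ) (h : L2 F) :
    M.rotOp k θ (M.V h) = M.V (M.rotOp k θ h) := by
  apply (FT F).symm.injective
  rw [FT_symm_rotOp]
  apply Lp.ext
  have h0 := M.V_ae (M.rotOp k θ h)
  rw [← rotOp_G0, FT_symm_rotOp] at h0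
  filter_upwards [M.rotOp_ae k θ ((FT F).symm (M.V h)), ae_rot k (-θ) (M.V_ae h), h0,
    M.rotOp_ae k θ ((FT F).symm (M.G0 h))] with y h1 h2 h3 h4
  rw [h1, h2, h3, h4, LinearIsometryEquiv.norm_map, ContinuousLinearMap.map_smul_of_tower]

/-- The rotation operator twisted by a character. -/
def rotW (k : Fin 3) (s θ : ℝ) : L2 F →L[ℂ] L2 F :=
  Complex.exp (((-s * (θ / 2) : ℝ) : ℂ) * Complex.I) • M.rotOp k θ

lemma rotW_apply (k : Fin 3) (s θ : ℝ) (v : L2 F) :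
    M.rotW k s θ v = Complex.exp (((-s * (θ / 2) : ℝ) : ℂ) * Complex.I) • M.rotOp k θ v := rfl

lemma avg_apply (k : Fin 3) (N : ℕ) (s : ℝ) (v : L2 F) :
    M.avg k N s v = (N : ℂ)⁻¹ • ∑ j ∈ Finset.range N, M.rotW k s (2 * π * j / N) v := by
  simp only [avg, ContinuousLinearMap.smul_apply, ContinuousLinearMap.sum_apply, rotW_apply]
  congr 1
  refine Finset.sum_congr rfl fun j _ => ?_
  congr 4
  ring

lemma rotW_add (k : Fin 3) (s a b : ℝ) (v : L2 F) :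
    M.rotW k s (a + b) v = M.rotW k s a (M.rotW k s b v) := by
  simp only [rotW_apply, map_smul, smul_smul, ← Complex.exp_add, rotOp_add]
  congr 2
  push_cast
  ring

lemma rotW_zero (k : Fin 3) (s : ℝ) (v : L2 F) : M.rotW k s 0 v = v := by
  simp [rotW_apply, rotOp_zero]

lemma rotW_two_pi (k : Fin 3) {s : ℝ} (hs : s = 1 ∨ s = -1) (v : L2 F) :
    M.rotW k s (2 * π) v = v := by
  have h : Complex.exp (((-s * (2 * π / 2) : ℝ) : ℂ) * Complex.I) = -1 := by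
    rcases hs with rfl | rfl
    · rw [show (((-1 * (2 * π / 2) : ℝ) : ℂ) * Complex.I) = -(π * Complex.I) by push_cast; ring,
        Complex.exp_neg, Complex.exp_pi_mul_I]
      norm_num
    · rw [show (((-(-1) * (2 * π / 2) : ℝ) : ℂ) * Complex.I) = π * Complex.I by push_cast; ring,
        Complex.exp_pi_mul_I]
  rw [rotW_apply, h, rotOp_two_pi]
  simp

lemma norm_rotW (k : Fin 3) (s θ : ℝ) (v : L2 F) : ‖M.rotW k s θ v‖ = ‖v‖ := by
  rw [rotW_apply, norm_smul, Complex.norm_exp_ofReal_mul_I, one_mul, norm_rotOp]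

lemma inner_rotW (k : Fin 3) (s θ : ℝ) (u v : L2 F) :
    inner ℂ (M.rotW k s θ u) (M.rotW k s θ v) = inner ℂ u v :=
  LinearIsometry.inner_map_map
    ⟨(M.rotW k s θ : L2 F →ₗ[ℂ] L2 F), M.norm_rotW k s θ⟩ u v

lemma avg_comm (k : Fin 3) (N : ℕ) (s : ℝ) (T : L2 F →L[ℂ] L2 F)
    (hT : ∀ θ h, M.rotOp k θ (T h) = T (M.rotOp k θ h)) (h : L2 F) :
    M.avg k N s (T h) = T (M.avg k N s h) := by
  simp only [avg_apply, rotW_apply, map_smul, map_sum, hT]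

lemma rotOp_avg (k : Fin 3) (N : ℕ) (s θ : ℝ) (h : L2 F) :
    M.rotOp k θ (M.avg k N s h) = M.avg k N s (M.rotOp k θ h) :=
  (M.avg_comm k N s (M.rotOp k θ)
    (fun a h => by rw [← rotOp_add, ← rotOp_add, add_comm]) h).symm

lemma rotW_avg_one (k : Fin 3) {N : ℕ} (hN : 0 < N) {s : ℝ} (hs : s = 1 ∨ s = -1) (v : L2 F) :
    M.rotW k s (2 * π / N) (M.avg k N s v) = M.avg k N s v := by
  have hN' : (N : ℝ) ≠ 0 := by positivity
  rw [avg_apply, map_smul, map_sum]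
  congr 1
  have h1 := Finset.sum_range_succ (fun j : ℕ => M.rotW k s (2 * π * j / N) v) N
  have h2 := Finset.sum_range_succ' (fun j : ℕ => M.rotW k s (2 * π * j / N) v) N
  have h3 : M.rotW k s (2 * π * (N : ℕ) / N) v = M.rotW k s (2 * π * (0 : ℕ) / N) v := by
    rw [mul_div_assoc, div_self hN', mul_one, rotW_two_pi M k hs]
    simp [rotW_zero]
  rw [h1, h3] at h2
  rw [add_right_cancel h2]
  refine Finset.sum_congr rfl fun j _ => ?_
  rw [← rotW_add]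
  congr 2
  push_cast
  ring

lemma rotW_avg (k : Fin 3) {N : ℕ} (hN : 0 < N) {s : ℝ} (hs : s = 1 ∨ s = -1) (v : L2 F)
    (j : ℕ) : M.rotW k s (2 * π * j / N) (M.avg k N s v) = M.avg k N s v := by
  induction j with
  | zero => simp [rotW_zero]
  | succ j ih =>
    rw [show 2 * π * ((j + 1 : ℕ) : ℝ) / N = 2 * π * j / N + 2 * π / N by push_cast; ring,
      rotW_add, rotW_avg_one M k hN hs, ih]

lemma avg_avg (k : Fin 3) {N : ℕ} (hN : 0 < N) {s : ℝ} (hs : s = 1 ∨ s = -1) (v : L2 F) :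
    M.avg k N s (M.avg k N s v) = M.avg k N s v := by
  have hN' : (N : ℂ) ≠ 0 := by exact_mod_cast hN.ne'
  rw [avg_apply M k N s (M.avg k N s v)]
  simp only [rotW_avg M k hN hs, Finset.sum_const, Finset.card_range]
  rw [← Nat.cast_smul_eq_nsmul ℂ, smul_smul, inv_mul_cancel₀ hN', one_smul]

lemma inner_avg_avg (k : Fin 3) {N : ℕ} (hN : 0 < N) {s : ℝ} (hs : s = 1 ∨ s = -1) (v : L2 F) :
    inner ℂ (M.avg k N s v) (M.avg k N s v) = inner ℂ v (M.avg k N s v) := by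
  have hN' : (N : ℂ) ≠ 0 := by exact_mod_cast hN.ne'
  have h : ∀ j : ℕ, inner ℂ (M.rotW k s (2 * π * j / N) v) (M.avg k N s v) =
      inner ℂ v (M.avg k N s v) := fun j => by
    conv_lhs => rw [← rotW_avg M k hN hs v j]
    exact M.inner_rotW k s _ _ _
  conv_lhs => rw [avg_apply M k N s v, inner_smul_left, sum_inner, ← avg_apply M k N s v]
  simp only [h, Finset.sum_const, Finset.card_range, map_inv₀, Complex.conj_natCast, nsmul_eq_mul]
  rw [← mul_assoc, inv_mul_cancel₀ hN', one_mul]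

lemma norm_avg_sq (k : Fin 3) {N : ℕ} (hN : 0 < N) {s : ℝ} (hs : s = 1 ∨ s = -1) (v : L2 F) :
    ‖M.avg k N s v‖ ^ 2 ≤
      (N : ℝ)⁻¹ * ∑ j ∈ Finset.range N, ‖inner ℂ v (M.rotOp k (2 * π * j / N) v)‖ := by
  have h1 : ‖M.avg k N s v‖ ^ 2 = ‖inner ℂ v (M.avg k N s v)‖ := by
    rw [← inner_avg_avg M k hN hs, inner_self_eq_norm_sq_to_K]
    simp
  rw [h1, avg_apply, inner_smul_right, inner_sum, norm_mul, norm_inv, Complex.norm_natCast]
  gcongr
  refine (norm_sum_le _ _).trans (le_of_eq (Finset.sum_congr rfl fun j _ => ?_))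
  rw [rotW_apply, inner_smul_right, norm_mul, Complex.norm_exp_ofReal_mul_I, one_mul]

lemma norm_avg_le (k : Fin 3) {N : ℕ} (hN : 0 < N) (s : ℝ) (v : L2 F) :
    ‖M.avg k N s v‖ ≤ ‖v‖ := by
  have hN' : (N : ℝ) ≠ 0 := by positivity
  rw [avg_apply, norm_smul, norm_inv, Complex.norm_natCast]
  calc _ ≤ (N : ℝ)⁻¹ * ∑ j ∈ Finset.range N, ‖M.rotW k s (2 * π * j / N) v‖ := by
        gcongr; exact norm_sum_le _ _
    _ = ‖v‖ := by
        simp only [norm_rotW, Finset.sum_const, Finset.card_range, nsmul_eq_mul]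
        rw [← mul_assoc, inv_mul_cancel₀ hN', one_mul]

lemma avg_zero_ae (k : Fin 3) {N : ℕ} (hN : 0 < N) (s : ℝ) {h : L2 F} (h0 : M.avg k N s h = 0) :
    ∀ᵐ ξ : E3, ∑ j ∈ Finset.range N,
      Complex.exp (((-s * (2 * π * j / N / 2) : ℝ) : ℂ) * Complex.I) •
        spin (M.J k) (2 * π * j / N) (h (rot k (-(2 * π * j / N)) ξ)) = 0 := by
  have hN' : (N : ℂ)⁻¹ ≠ 0 := inv_ne_zero (by exact_mod_cast hN.ne')
  rw [avg_apply, smul_eq_zero_iff_right hN'] at h0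
  have h1 := Lp.coeFn_fun_finsetSum (Finset.range N) fun j : ℕ => M.rotW k s (2 * π * j / N) h
  rw [h0] at h1
  have h2 : ∀ᵐ ξ : E3, ∀ j : ℕ, M.rotW k s (2 * π * j / N) h ξ =
      Complex.exp (((-s * (2 * π * j / N / 2) : ℝ) : ℂ) * Complex.I) •
        spin (M.J k) (2 * π * j / N) (h (rot k (-(2 * π * j / N)) ξ)) := by
    refine ae_all_iff.2 fun j => ?_
    filter_upwards [Lp.coeFn_smul (Complex.exp (((-s * (2 * π * j / N / 2) : ℝ) : ℂ) * Complex.I))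
      (M.rotOp k (2 * π * j / N) h), M.rotOp_ae k (2 * π * j / N) h] with ξ h1 h2
    rw [rotW_apply, h1, Pi.smul_apply, h2]
  filter_upwards [h1, h2, Lp.coeFn_zero F 2 (volume : Measure E3)] with ξ h1 h2 h3
  rw [h3] at h1
  simp only [← h2]
  exact h1.symm

lemma plain_avg (k : Fin 3) {N : ℕ} (hN : 0 < N) {h : L2 F} (h1 : M.avg k N 1 h = 0)
    (h2 : M.avg k N (-1) h = 0) :
    ∀ᵐ ξ : E3, ∑ j ∈ Finset.range N, h (rot k (-(2 * π * j / N)) ξ) = 0 := by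
  filter_upwards [M.avg_zero_ae k hN 1 h1, M.avg_zero_ae k hN (-1) h2] with ξ e1 e2
  have e3 := congrArg (ContinuousLinearMap.id ℂ F - Complex.I • M.J k) e1
  have e4 := congrArg (ContinuousLinearMap.id ℂ F + Complex.I • M.J k) e2
  rw [map_sum, map_zero] at e3 e4
  have e5 : (2 : ℂ) • ∑ j ∈ Finset.range N, h (rot k (-(2 * π * j / N)) ξ) = 0 := by
    rw [Finset.smul_sum, ← add_zero (0 : F)]
    conv_rhs => rw [← e3]; arg 2; rw [e3, ← e4]
    rw [← Finset.sum_add_distrib]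
    exact Finset.sum_congr rfl fun j _ => (spin_split (M.J_sq k) _ _).symm
  exact (smul_eq_zero_iff_right two_ne_zero).1 e5

lemma overlap (k : Fin 3) (θ : ℝ) (x : E3) (v : L2 F) {Z : ℝ} (hZ : 0 ≤ Z)
    (hv : eLpNorm (fun y : E3 => ‖y - x‖ • (FT F).symm v y) 2 volume ≤ ENNReal.ofReal Z) :
    ‖rot k θ x - x‖ * ‖inner ℂ v (M.rotOp k θ v)‖ ≤ 2 * Z * ‖v‖ := by
  rw [← (FT F).symm.inner_map_map, FT_symm_rotOp, ← (FT F).symm.norm_map v]
  generalize (FT F).symm v = u at hv ⊢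
  have hm : MemLp (fun y : E3 => ‖y - x‖ • u y) 2 volume :=
    ⟨(by fun_prop : Continuous fun y : E3 => ‖y - x‖).aestronglyMeasurable.smul
      (Lp.aestronglyMeasurable _), hv.trans_lt ENNReal.ofReal_lt_top⟩
  have hw : ‖hm.toLp _‖ ≤ Z := by
    rw [Lp.norm_toLp]
    exact ENNReal.toReal_le_of_le_ofReal hZ hv
  have hwae := hm.coeFn_toLp
  generalize hm.toLp _ = w at hw hwae
  obtain ⟨i1, j1⟩ := rot_int_norm_mul w (M.rotOp k θ u)
  obtain ⟨i2, j2⟩ := rot_int_norm_mul u (M.rotOp k θ w)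
  rw [norm_rotOp] at j1 j2
  have hb : ∀ᵐ y : E3, ‖‖rot k θ x - x‖ • inner ℂ (u y) (M.rotOp k θ u y)‖ ≤
      ‖w y‖ * ‖M.rotOp k θ u y‖ + ‖u y‖ * ‖M.rotOp k θ w y‖ := by
    filter_upwards [hwae, ae_rot k (-θ) hwae, M.norm_rotOp_ae k θ u, M.norm_rotOp_ae k θ w]
      with y h1 h2 h3 h4
    have h5 : ‖rot k θ x - x‖ ≤ ‖y - x‖ + ‖rot k (-θ) y - x‖ := by
      have h6 : ‖rot k (-θ) y - x‖ = ‖rot k θ x - y‖ := by
        rw [← (rot k θ).norm_map, map_sub, rot_rot_neg, norm_sub_rev]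
      rw [h6, add_comm]
      exact norm_sub_le_norm_sub_add_norm_sub _ _ _
    have h7 := norm_inner_le_norm (𝕜 := ℂ) (u y) (M.rotOp k θ u y)
    rw [h4, h2, h1, norm_smul, norm_smul, norm_smul, norm_norm, norm_norm, norm_norm, ← h3]
    calc _ ≤ (‖y - x‖ + ‖rot k (-θ) y - x‖) * (‖u y‖ * ‖M.rotOp k θ u y‖) :=
          mul_le_mul h5 h7 (norm_nonneg _) (by positivity)
      _ = _ := by ring
  have h8 := norm_integral_le_of_norm_le (i1.add i2) hb
  rw [integral_smul, ← L2.inner_def, norm_smul, norm_norm, integral_add' i1 i2] at h8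
  have h9 := mul_le_mul_of_nonneg_right hw (norm_nonneg u)
  nlinarith

lemma norm_avg_small {δ : ℝ} (hδ : 0 < δ) :
    ∃ (N : ℕ) (C : ℝ), 0 < N ∧ 0 ≤ C ∧ ∀ x : E3, x ≠ 0 → ∀ k : Fin 3, ‖x‖ ≤ 2 * ‖gen k x‖ →
      ∀ (v : L2 F) (Z : ℝ), 0 ≤ Z →
      eLpNorm (fun y : E3 => ‖y - x‖ • (FT F).symm v y) 2 volume ≤ ENNReal.ofReal Z →
      ∀ s : ℝ, s = 1 ∨ s = -1 → ‖M.avg k N s v‖ ≤ δ * ‖v‖ + C * Z / ‖x‖ := by
  obtain ⟨N, hN⟩ := exists_nat_gt (δ ^ 2)⁻¹
  have hNr : (0 : ℝ) < N := lt_trans (by positivity) hN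
  have hN0 : 0 < N := by exact_mod_cast hNr
  have hNδ : (N : ℝ)⁻¹ ≤ δ ^ 2 := (inv_le_comm₀ hNr (by positivity)).2 hN.le
  set S : ℝ := (N : ℝ)⁻¹ * ∑ j ∈ Finset.range N, 4 / √(2 * (1 - Real.cos (2 * π * j / N)))
    with hS
  have hS0 : 0 ≤ S := by positivity
  refine ⟨N, S / (2 * δ), hN0, by positivity, fun x hx k hk v Z hZ hv s hs => ?_⟩
  have hx0 : 0 < ‖x‖ := norm_pos_iff.2 hx
  have hterm : ∀ j ∈ Finset.range N, ‖inner ℂ v (M.rotOp k (2 * π * j / N) v)‖ ≤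
      (if j = 0 then ‖v‖ ^ 2 else 0) +
        4 / √(2 * (1 - Real.cos (2 * π * j / N))) * (Z * ‖v‖ / ‖x‖) := by
    intro j hj
    split_ifs with h0
    · refine le_trans ?_ (le_add_of_nonneg_right (by positivity))
      refine (norm_inner_le_norm _ _).trans (le_of_eq ?_)
      rw [norm_rotOp, sq]
    · have hj0 : (0 : ℝ) < j := by exact_mod_cast Nat.pos_of_ne_zero h0
      have hjN : (j : ℝ) < N := by exact_mod_cast Finset.mem_range.1 hj
      have hp := Real.pi_pos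
      have ht0 : 0 < 2 * π * j / N := by positivity
      have ht1 : 2 * π * j / N < 2 * π := by
        rw [div_lt_iff₀ hNr]; gcongr
      have hc : 0 < 1 - Real.cos (2 * π * j / N) := by
        refine sub_pos.2 (lt_of_le_of_ne (Real.cos_le_one _) fun h => ht0.ne' ?_)
        exact (Real.cos_eq_one_iff_of_lt_of_lt (by linarith) ht1).1 h
      have hq : 0 < √(2 * (1 - Real.cos (2 * π * j / N))) := Real.sqrt_pos.2 (by positivity)
      have hd : ‖rot k (2 * π * j / N) x - x‖ =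
          √(2 * (1 - Real.cos (2 * π * j / N))) * ‖gen k x‖ := by
        rw [← Real.sqrt_sq (norm_nonneg (rot k (2 * π * j / N) x - x)), norm_rot_sub_sq,
          Real.sqrt_mul (by positivity), Real.sqrt_sq (norm_nonneg _)]
      have ho := M.overlap k (2 * π * j / N) x v hZ hv
      rw [hd] at ho
      generalize √(2 * (1 - Real.cos (2 * π * j / N))) = q at hq ho ⊢
      have ha := norm_nonneg (inner ℂ v (M.rotOp k (2 * π * j / N) v))
      generalize ‖inner ℂ v (M.rotOp k (2 * π * j / N) v)‖ = a at ha ho ⊢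
      rw [zero_add, div_mul_div_comm, le_div_iff₀ (by positivity)]
      have := mul_le_mul_of_nonneg_left hk (mul_nonneg ha hq.le)
      nlinarith
  have h1 := M.norm_avg_sq k hN0 hs v
  have h2 : ∑ j ∈ Finset.range N, ‖inner ℂ v (M.rotOp k (2 * π * j / N) v)‖ ≤
      ‖v‖ ^ 2 + (∑ j ∈ Finset.range N, 4 / √(2 * (1 - Real.cos (2 * π * j / N)))) *
        (Z * ‖v‖ / ‖x‖) := by
    refine (Finset.sum_le_sum hterm).trans (le_of_eq ?_)
    rw [Finset.sum_add_distrib, Finset.sum_mul, Finset.sum_ite_eq', if_pos (Finset.mem_range.2 hN0)]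
  have h3 : ‖M.avg k N s v‖ ^ 2 ≤ δ ^ 2 * ‖v‖ ^ 2 + S * (Z * ‖v‖ / ‖x‖) :=
    calc _ ≤ _ := h1
      _ ≤ _ := mul_le_mul_of_nonneg_left h2 (by positivity)
      _ = (N : ℝ)⁻¹ * ‖v‖ ^ 2 + S * (Z * ‖v‖ / ‖x‖) := by rw [hS]; ring
      _ ≤ _ := by gcongr
  refine le_of_sq_le_sq (h3.trans ?_) (by positivity)
  have e : (δ * ‖v‖ + S / (2 * δ) * Z / ‖x‖) ^ 2 =
      δ ^ 2 * ‖v‖ ^ 2 + S * (Z * ‖v‖ / ‖x‖) + (S / (2 * δ) * Z / ‖x‖) ^ 2 := by
    field_simp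
    ring
  rw [e]
  exact le_add_of_nonneg_right (sq_nonneg _)

theorem isClosed_sector (k : Fin 3) (N : ℕ) : IsClosed (M.sector k N : Set (L2 F)) := by
  have h : (M.sector k N : Set (L2 F)) =
      {h | M.Lam h = h} ∩ ({h | M.avg k N 1 h = 0} ∩ {h | M.avg k N (-1) h = 0}) := by
    ext h
    exact M.mem_sector
  rw [h]
  exact (isClosed_eq M.Lam.continuous continuous_id).inter
    ((isClosed_eq (M.avg k N 1).continuous continuous_const).inter
      (isClosed_eq (M.avg k N (-1)).continuous continuous_const))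

theorem G0_mem_sector {k : Fin 3} {N : ℕ} {h : L2 F} (hh : h ∈ M.sector k N) :
    M.G0 h ∈ M.sector k N := by
  obtain ⟨h1, h2, h3⟩ := M.mem_sector.1 hh
  refine M.mem_sector.2 ⟨?_, ?_, ?_⟩
  · rw [Lam_G0, h1]
  · rw [M.avg_comm k N _ M.G0 (M.rotOp_G0 k), h2, map_zero]
  · rw [M.avg_comm k N _ M.G0 (M.rotOp_G0 k), h3, map_zero]

theorem LamV_mem_sector {k : Fin 3} {N : ℕ} {h : L2 F} (hh : h ∈ M.sector k N) :
    M.Lam (M.V h) ∈ M.sector k N := by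
  obtain ⟨-, h2, h3⟩ := M.mem_sector.1 hh
  refine M.mem_sector.2 ⟨M.Lam_Lam _, ?_, ?_⟩
  · rw [M.avg_comm k N _ M.Lam (M.rotOp_Lam k), M.avg_comm k N _ M.V (M.rotOp_V k), h2, map_zero,
      map_zero]
  · rw [M.avg_comm k N _ M.Lam (M.rotOp_Lam k), M.avg_comm k N _ M.V (M.rotOp_V k), h3, map_zero,
      map_zero]

theorem norm_V_le_sector {k : Fin 3} {N : ℕ} (hN : 0 < N) {h : L2 F} (hh : h ∈ M.sector k N) :
    ‖M.V h‖ ≤ M.γ * ‖h‖ := by
  obtain ⟨-, h2, h3⟩ := M.mem_sector.1 (M.G0_mem_sector hh)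
  exact M.norm_V_le_of_avg k hN h (M.plain_avg k hN h2 h3)

theorem near_sector {η : ℝ} (hη : 0 < η) :
    ∃ (N : ℕ) (C : ℝ), 0 < N ∧ 0 ≤ C ∧ ∀ x : E3, x ≠ 0 → ∃ k : Fin 3, ∀ (v : L2 F) (Z : ℝ), 0 ≤ Z →
      M.Lam v = v →
      eLpNorm (fun y : E3 => ‖y - x‖ • (FT F).symm v y) 2 volume ≤ ENNReal.ofReal Z →
      ∃ s ∈ M.sector k N, ‖v - s‖ ≤ η * ‖v‖ + C * Z / ‖x‖ := by
  obtain ⟨N, C, hN, hC, H⟩ := M.norm_avg_small (δ := η / 3) (by positivity)
  refine ⟨N, 3 * C, hN, by positivity, fun x hx => ?_⟩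
  obtain ⟨k, hk⟩ := exists_axis x
  refine ⟨k, fun v Z hZ hv hb => ?_⟩
  have b1 := H x hx k hk v Z hZ hb 1 (Or.inl rfl)
  have b2 := H x hx k hk v Z hZ hb (-1) (Or.inr rfl)
  have hL : ∀ s h, M.Lam (M.avg k N s h) = M.avg k N s (M.Lam h) := fun s h =>
    (M.avg_comm k N s M.Lam (M.rotOp_Lam k) h).symm
  have hc : ∀ h, M.avg k N (-1) (M.avg k N 1 h) = M.avg k N 1 (M.avg k N (-1) h) := fun h =>
    M.avg_comm k N (-1) (M.avg k N 1) (fun θ h => M.rotOp_avg k N 1 θ h) h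
  refine ⟨(v - M.avg k N (-1) v) - M.avg k N 1 (v - M.avg k N (-1) v),
    M.mem_sector.2 ⟨?_, ?_, ?_⟩, ?_⟩
  · simp only [map_sub, hL, hv]
  · rw [map_sub (M.avg k N 1) (v - M.avg k N (-1) v), avg_avg M k hN (Or.inl rfl), sub_self]
  · have h0 : M.avg k N (-1) (v - M.avg k N (-1) v) = 0 := by
      rw [map_sub, avg_avg M k hN (Or.inr rfl), sub_self]
    rw [map_sub, hc, h0, map_zero, sub_self]
  · have e : v - (v - M.avg k N (-1) v - M.avg k N 1 (v - M.avg k N (-1) v)) =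
        M.avg k N (-1) v + M.avg k N 1 v - M.avg k N 1 (M.avg k N (-1) v) := by
      rw [map_sub]; abel
    have b3 := M.norm_avg_le k hN 1 (M.avg k N (-1) v)
    have b4 := norm_sub_le (M.avg k N (-1) v + M.avg k N 1 v) (M.avg k N 1 (M.avg k N (-1) v))
    have b5 := norm_add_le (M.avg k N (-1) v) (M.avg k N 1 v)
    have e2 : 3 * C * Z / ‖x‖ = 3 * (C * Z / ‖x‖) := by ring
    rw [e, e2]
    linarith

end Model

end Pool.Agent.Work.MP_0d9e46_mp
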