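import Pool.Agent.Work.MP_0d9e46_mp.Tv
import Mathlib
import Pool.Agent.Work.MP_0d9e46_mp.Rot

-- merged part: Pool.Agent.Work.MP_0d9e46_mp.High
section
/-! Test vectors of high free energy are almost orthogonal to all eigenfunctions. -/

open MeasureTheory Filter Topology FourierTransform
open scoped Real ENNReal

noncomputable section

namespace Pool.Agent.Work.MP_0d9e46_mp

section abel

variable {H : Type} [NormedAddCommGroup H] [InnerProductSpace ℂ H]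

theorem abel_aux (w y : ℝ → H) (Φ : ℝ → ℝ) (D : Set ℝ) (hΦ0 : ∀ a ∈ D, 0 ≤ Φ a)
    (hy : ∀ a ∈ D, ∀ b ∈ D, a ≤ b → ‖y a - y b‖ ≤ Φ b - Φ a) (s : Finset ℝ) :
    (∀ a ∈ s, a ∈ D) → (∀ a ∈ s, ∀ b ∈ s, a ≠ b → inner ℂ (w a) (w b) = 0) →
    ∀ m ∈ D, (∀ a ∈ s, a ≤ m) →
      ‖∑ a ∈ s, inner ℂ (w a) (y a - y m)‖ ≤ ‖∑ a ∈ s, w a‖ * Φ m := by
  classical
  induction s using Finset.induction_on_max with
  | empty => intro _ _ m _ _; simp
  | insert n s hn ih =>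
    intro hs ho m hm hle
    have hns : n ∉ s := fun h => lt_irrefl _ (hn n h)
    have hnD : n ∈ D := hs n (Finset.mem_insert_self _ _)
    have h1 := ih (fun a ha => hs a (Finset.mem_insert_of_mem ha))
      (fun a ha b hb => ho a (Finset.mem_insert_of_mem ha) b (Finset.mem_insert_of_mem hb))
      n hnD (fun a ha => (hn a ha).le)
    have h2 : ∑ a ∈ insert n s, inner ℂ (w a) (y a - y m) =
        ∑ a ∈ s, inner ℂ (w a) (y a - y n) + inner ℂ (∑ a ∈ insert n s, w a) (y n - y m) := by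
      rw [sum_inner, Finset.sum_insert hns, Finset.sum_insert hns, add_left_comm,
        ← Finset.sum_add_distrib]
      congr 1
      refine Finset.sum_congr rfl fun a _ => ?_
      rw [← inner_add_right]; congr 1; abel
    have h3 : ‖∑ a ∈ s, w a‖ ≤ ‖∑ a ∈ insert n s, w a‖ := by
      rw [Finset.sum_insert hns]
      have h0 : inner ℂ (w n) (∑ a ∈ s, w a) = 0 := by
        rw [inner_sum]
        exact Finset.sum_eq_zero fun a ha => ho n (Finset.mem_insert_self _ _) a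
          (Finset.mem_insert_of_mem ha) (hn a ha).ne'
      have := norm_add_sq_eq_norm_sq_add_norm_sq_of_inner_eq_zero _ _ h0
      apply le_of_sq_le_sq _ (norm_nonneg _) |>.trans le_rfl
      nlinarith [mul_self_nonneg ‖w n‖]
    have h4 := hy n hnD m hm (hle n (Finset.mem_insert_self _ _))
    have h5 := norm_inner_le_norm (𝕜 := ℂ) (∑ a ∈ insert n s, w a) (y n - y m)
    have h6 := hΦ0 n hnD
    rw [h2]
    refine (norm_add_le _ _).trans ?_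
    have h7 := norm_nonneg (∑ a ∈ insert n s, w a)
    nlinarith [mul_le_mul_of_nonneg_right h3 h6, mul_le_mul_of_nonneg_left h4 h7]

theorem abel_bound (w y : ℝ → H) (Φ : ℝ → ℝ) (D : Set ℝ) {B₁ B₂ : ℝ}
    (hΦ0 : ∀ a ∈ D, 0 ≤ Φ a) (hΦ1 : ∀ a ∈ D, Φ a ≤ B₂) (hy1 : ∀ a ∈ D, ‖y a‖ ≤ B₁)
    (hy : ∀ a ∈ D, ∀ b ∈ D, a ≤ b → ‖y a - y b‖ ≤ Φ b - Φ a) (s : Finset ℝ)
    (hs : ∀ a ∈ s, a ∈ D) (ho : ∀ a ∈ s, ∀ b ∈ s, a ≠ b → inner ℂ (w a) (w b) = 0) :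
    ‖∑ a ∈ s, inner ℂ (w a) (y a)‖ ≤ (B₁ + B₂) * ‖∑ a ∈ s, w a‖ := by
  rcases s.eq_empty_or_nonempty with rfl | hne
  · simp
  have hm := s.max'_mem hne
  have h1 := abel_aux w y Φ D hΦ0 hy s hs ho _ (hs _ hm) fun a ha => s.le_max' a ha
  have h2 : ∑ a ∈ s, inner ℂ (w a) (y a) = ∑ a ∈ s, inner ℂ (w a) (y a - y (s.max' hne)) +
      inner ℂ (∑ a ∈ s, w a) (y (s.max' hne)) := by
    rw [sum_inner, ← Finset.sum_add_distrib]
    refine Finset.sum_congr rfl fun a _ => ?_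
    rw [← inner_add_right, sub_add_cancel]
  have h3 := norm_inner_le_norm (𝕜 := ℂ) (∑ a ∈ s, w a) (y (s.max' hne))
  have h4 := norm_nonneg (∑ a ∈ s, w a)
  rw [h2]
  refine (norm_add_le _ _).trans ?_
  nlinarith [mul_le_mul_of_nonneg_left (hΦ1 _ (hs _ hm)) h4,
    mul_le_mul_of_nonneg_left (hy1 _ (hs _ hm)) h4]

end abel

lemma quarter {a a' : ℝ} (ha : 1 ≤ a) (h : a ≤ a') :
    (a' - a) * a'⁻¹ * a ^ (-(1 / 4) : ℝ) ≤ 4 * (a ^ (-(1 / 4) : ℝ) - a' ^ (-(1 / 4) : ℝ)) := by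
  have ha0 : 0 < a := by linarith
  have ha' : 0 < a' := by linarith
  have key : ∀ u : ℝ, 0 < u → (u ^ (-(1 / 4) : ℝ)) ^ 4 * u = 1 := fun u hu => by
    rw [← Real.rpow_natCast, ← Real.rpow_mul hu.le]
    norm_num
    rw [Real.rpow_neg_one, inv_mul_cancel₀ hu.ne']
  have hp := key a ha0
  have hq := key a' ha'
  have hqp : a' ^ (-(1 / 4) : ℝ) ≤ a ^ (-(1 / 4) : ℝ) :=
    Real.rpow_le_rpow_of_nonpos ha0 h (by norm_num)
  have hq0 : 0 < a' ^ (-(1 / 4) : ℝ) := Real.rpow_pos_of_pos ha' _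
  generalize a ^ (-(1 / 4) : ℝ) = p at *
  generalize a' ^ (-(1 / 4) : ℝ) = q at *
  have hp0 : 0 < p := by linarith
  have h1 : a'⁻¹ = q ^ 4 := (eq_inv_of_mul_eq_one_left hq).symm
  have h2 : (a' - a) * a'⁻¹ = a * (p ^ 4 - q ^ 4) := by
    rw [h1]; linear_combination hq - hp
  have h3 : p * (p ^ 3 + p ^ 2 * q + p * q ^ 2 + q ^ 3) ≤ 4 * p ^ 4 := by
    have : p ^ 3 + p ^ 2 * q + p * q ^ 2 + q ^ 3 ≤ p ^ 3 + p ^ 2 * p + p * p ^ 2 + p ^ 3 := by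
      gcongr
    nlinarith
  calc (a' - a) * a'⁻¹ * p = (p - q) * a * (p * (p ^ 3 + p ^ 2 * q + p * q ^ 2 + q ^ 3)) := by
        rw [h2]; ring
    _ ≤ (p - q) * a * (4 * p ^ 4) := by
        apply mul_le_mul_of_nonneg_left h3
        exact mul_nonneg (by linarith) ha0.le
    _ = 4 * (p - q) * (p ^ 4 * a) := by ring
    _ = _ := by rw [hp, mul_one]

variable {F : Type} [NormedAddCommGroup F] [InnerProductSpace ℂ F] [CompleteSpace F]
  [FiniteDimensional ℂ F]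

namespace Model

variable (M : Model F)

theorem norm_P_le {v : L2 F} {B : ℝ} (hB : 0 ≤ B)
    (h : ∀ (s : Finset ℝ) (w : ℝ → L2 F), (∀ e ∈ s, e ∈ M.I ∧ w e ∈ M.eig e) →
      ‖inner ℂ (∑ e ∈ s, w e) v‖ ≤ B * ‖∑ e ∈ s, w e‖) : ‖M.P v‖ ≤ B := by
  have h1 : ∀ f ∈ M.eigAll, ‖inner ℂ f v‖ ≤ B * ‖f‖ := by
    have hc : IsClosed {f : L2 F | ‖inner ℂ f v‖ ≤ B * ‖f‖} :=
      isClosed_le (by fun_prop) (by fun_prop)
    intro f hf
    refine closure_minimal (s := ((⨆ e ∈ M.I, M.eig e : Submodule ℂ (L2 F)) : Set (L2 F))) ?_ hc hf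
    intro g hg
    obtain ⟨w, hw, rfl⟩ := (Submodule.mem_iSup_iff_exists_finsupp _ _).1 hg
    refine h w.support w fun e he => ?_
    by_cases hI : e ∈ M.I
    · exact ⟨hI, by simpa [hI] using hw e⟩
    · exact absurd (by simpa [hI] using hw e) (Finsupp.mem_support_iff.1 he)
  have h2 := h1 (M.P v) (M.eigAll.starProjection_apply_mem v)
  have h3 : inner ℂ (M.P v) v = inner ℂ (M.P v) (M.P v) := by
    have := M.eigAll.starProjection_inner_eq_zero v (M.P v) (M.eigAll.starProjection_apply_mem v)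
    rw [inner_sub_left] at this
    rw [← inner_conj_symm, sub_eq_zero.1 this, inner_conj_symm]
    rfl
  rw [h3, inner_self_eq_norm_sq_to_K, norm_pow, RCLike.norm_ofReal, abs_norm] at h2
  rcases (norm_nonneg (M.P v)).eq_or_lt with h0 | h0
  · rw [← h0]; exact hB
  · nlinarith

lemma cls_mul_res {s : E3 → ℝ} {b K R m k ρ : ℝ} {ξ : E3} (hR : 0 < R) (hs : ClsAt s b K ξ)
    (hK : 0 ≤ K) (hk : 1 ≤ k) (hρ : 0 ≤ ρ)
    (good : (s =ᶠ[𝓝 ξ] fun _ => 0) ∨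
      (0 < M.t R ξ + m ∧ M.t R ξ ≤ k * (M.t R ξ + m) ∧ (M.t R ξ + m)⁻¹ ≤ ρ)) :
    ClsAt (fun η => s η * (M.t R η + m)⁻¹) (b * ρ) (K + 12 * k) ξ := by
  have hb : 0 ≤ b := (norm_nonneg _).trans hs.h0
  rcases good with h | ⟨h1, h2, h3⟩
  · refine ClsAt.of_zero ?_ (by positivity) (by positivity)
    filter_upwards [h] with η hη
    rw [hη, zero_mul]
  · exact (hs.mul (M.cls_res hR h1 hk h2) hK (by positivity)).mono
      (mul_le_mul_of_nonneg_left h3 hb) (by positivity) le_rfl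

lemma plus_good {θ t l : ℝ} (hθ : 0 < θ) (hθ1 : θ ≤ 1) (hl : l < 0) (ht : 1 + θ / 2 ≤ t) :
    0 < t + (-1 - l) ∧ t ≤ 3 / θ * (t + (-1 - l)) ∧
      (t + (-1 - l))⁻¹ ≤ 5 / θ * (t + (1 - l))⁻¹ := by
  have h0 : 0 < t + (-1 - l) := by linarith
  refine ⟨h0, ?_, ?_⟩
  · rw [div_mul_eq_mul_div, le_div_iff₀ hθ]; nlinarith
  · rw [← one_div, ← div_eq_mul_inv, div_div, div_le_div_iff₀ h0 (mul_pos hθ (by linarith))]
    nlinarith

lemma minus_good {θ t l Q : ℝ} (hθ : 0 < θ) (hθ1 : θ ≤ 1) (hl : l < 0) (ht : 0 ≤ t) (hQ : 1 ≤ Q) :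
    0 < t + max (2 * Q + 1 + l) (-1 - l) ∧ t ≤ 3 / θ * (t + max (2 * Q + 1 + l) (-1 - l)) ∧
      (t + max (2 * Q + 1 + l) (-1 - l))⁻¹ ≤ 5 / θ * (t + (1 - l))⁻¹ := by
  have h1 := le_max_left (2 * Q + 1 + l) (-1 - l)
  have h2 := le_max_right (2 * Q + 1 + l) (-1 - l)
  generalize max (2 * Q + 1 + l) (-1 - l) = m at *
  have h0 : 0 < t + m := by linarith
  refine ⟨h0, ?_, ?_⟩
  · rw [div_mul_eq_mul_div, le_div_iff₀ hθ]; nlinarith
  · rw [← one_div, ← div_eq_mul_inv, div_div, div_le_div_iff₀ h0 (mul_pos hθ (by linarith))]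
    nlinarith

/-- One resolvent factor, in the form used for both spectral halves. -/
lemma cls_one {s : E3 → ℝ} {K R θ r l m : ℝ} (hR : 1 ≤ R) (hθ : 0 < θ) (hθ1 : θ ≤ 1) (hK : 0 ≤ K)
    (hl : l < 0) (hs : Cls s (fun ξ => if r ≤ ‖ξ‖ then 2 else 0) K)
    (good : ∀ ξ, (s =ᶠ[𝓝 ξ] fun _ => 0) ∨ (0 < M.t R ξ + m ∧ M.t R ξ ≤ 3 / θ * (M.t R ξ + m) ∧
      (M.t R ξ + m)⁻¹ ≤ 5 / θ * (M.t R ξ + (1 - l))⁻¹)) :
    Cls (fun η => s η * (M.t R η + m)⁻¹)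
      (fun ξ => (10 / θ * (M.c + 1) * (1 - l) ^ (-(1 / 4) : ℝ)) * wt r ξ) (K + 12 * (3 / θ)) := by
  intro ξ
  have hc := M.c_pos
  have ht := M.t_nonneg (R := R) (by linarith) ξ
  have hk : 1 ≤ 3 / θ := by rw [le_div_iff₀ hθ]; linarith
  have h1 := M.cls_mul_res (by linarith) (hs ξ) hK hk
    (show 0 ≤ 5 / θ * (M.t R ξ + (1 - l))⁻¹ from
      mul_nonneg (by positivity) (inv_nonneg.2 (by linarith))) (good ξ)
  refine h1.mono ?_ (by positivity) le_rfl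
  have h2 := M.inv_t_add_le hR (show 1 ≤ 1 - l by linarith) ξ
  simp only [wt]
  split_ifs
  · calc 2 * (5 / θ * (M.t R ξ + (1 - l))⁻¹) ≤ 2 * (5 / θ * ((M.c + 1) *
          (1 - l) ^ (-(1 / 4) : ℝ) * (1 + ‖ξ‖) ^ (-(3 / 4) : ℝ))) := by gcongr
      _ = _ := by ring
  · simp

/-- The difference of two resolvent factors. -/
lemma cls_two {s : E3 → ℝ} {K R θ r l l' m m' : ℝ} (hR : 1 ≤ R) (hθ : 0 < θ) (hθ1 : θ ≤ 1)
    (hK : 0 ≤ K) (hl : l < 0) (hl' : l' ≤ l) (hm : |m - m'| ≤ l - l')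
    (hs : Cls s (fun ξ => if r ≤ ‖ξ‖ then 2 else 0) K)
    (good : ∀ ξ, (s =ᶠ[𝓝 ξ] fun _ => 0) ∨ ((0 < M.t R ξ + m ∧ M.t R ξ ≤ 3 / θ * (M.t R ξ + m) ∧
      (M.t R ξ + m)⁻¹ ≤ 5 / θ * (M.t R ξ + (1 - l))⁻¹) ∧
      (0 < M.t R ξ + m' ∧ M.t R ξ ≤ 3 / θ * (M.t R ξ + m') ∧
      (M.t R ξ + m')⁻¹ ≤ 5 / θ * (M.t R ξ + (1 - l'))⁻¹))) :
    Cls (fun η => s η * (M.t R η + m')⁻¹ - s η * (M.t R η + m)⁻¹)
      (fun ξ => (200 / θ ^ 2 * (M.c + 1) *
        ((1 - l) ^ (-(1 / 4) : ℝ) - (1 - l') ^ (-(1 / 4) : ℝ))) * wt r ξ)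
      (K + 12 * (3 / θ) + 12 * (3 / θ)) := by
  have hk : 1 ≤ 3 / θ := by rw [le_div_iff₀ hθ]; linarith
  have h1 := M.cls_one (m := m) hR hθ hθ1 hK hl hs fun ξ => (good ξ).imp_right And.left
  have he : (fun η => s η * (M.t R η + m')⁻¹ - s η * (M.t R η + m)⁻¹) =
      fun η => (m - m') • (s η * (M.t R η + m)⁻¹ * (M.t R η + m')⁻¹) := by
    funext η
    rcases good η with h | ⟨⟨h1, -, -⟩, ⟨h2, -, -⟩⟩
    · rw [h.eq_of_nhds]; simp
    · rw [smul_eq_mul]; field_simp; ring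
  rw [he]
  intro ξ
  have hc := M.c_pos
  have ht := M.t_nonneg (R := R) (by linarith) ξ
  have h2 := M.cls_mul_res (m := m') (ρ := 5 / θ * (1 - l')⁻¹) (show 0 < R by linarith) (h1 ξ)
    (by positivity) hk (mul_nonneg (by positivity) (inv_nonneg.2 (by linarith))) (by
      rcases good ξ with h | ⟨-, h1, h2, h3⟩
      · left
        filter_upwards [h] with η hη
        rw [hη, zero_mul]
      · refine Or.inr ⟨h1, h2, h3.trans ?_⟩
        exact mul_le_mul_of_nonneg_left (inv_anti₀ (by linarith) (by linarith)) (by positivity))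
  refine (h2.const_smul (m - m')).mono ?_ (by positivity) le_rfl
  have h3 := quarter (show 1 ≤ 1 - l by linarith) (show 1 - l ≤ 1 - l' by linarith)
  have h4 := wt_nonneg r ξ
  have h5 : 0 ≤ (1 - l) ^ (-(1 / 4) : ℝ) := Real.rpow_nonneg (by linarith) _
  have h6 : 0 ≤ (1 - l')⁻¹ := inv_nonneg.2 (by linarith)
  calc |m - m'| * (10 / θ * (M.c + 1) * (1 - l) ^ (-(1 / 4) : ℝ) * wt r ξ * (5 / θ * (1 - l')⁻¹))
      ≤ (l - l') * (10 / θ * (M.c + 1) * (1 - l) ^ (-(1 / 4) : ℝ) * wt r ξ *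
          (5 / θ * (1 - l')⁻¹)) := by gcongr
    _ = 50 / θ ^ 2 * (M.c + 1) * wt r ξ *
          ((1 - l' - (1 - l)) * (1 - l')⁻¹ * (1 - l) ^ (-(1 / 4) : ℝ)) := by ring
    _ ≤ 50 / θ ^ 2 * (M.c + 1) * wt r ξ *
          (4 * ((1 - l) ^ (-(1 / 4) : ℝ) - (1 - l') ^ (-(1 / 4) : ℝ))) := by gcongr
    _ = _ := by ring

theorem high {θ K : ℝ} (hθ : 0 < θ) (hθ1 : θ ≤ 1) (hK : 0 ≤ K) :
    ∃ C : ℝ, 0 ≤ C ∧ ∀ x : E3, 4 ≤ ‖x‖ → ∀ (r : ℝ) (sp sm : E3 → ℝ) (e : F),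
      Cls sp (fun ξ => if r ≤ ‖ξ‖ then 2 else 0) K →
      Cls sm (fun ξ => if r ≤ ‖ξ‖ then 2 else 0) K →
      HasCompactSupport sp → HasCompactSupport sm →
      (∀ ξ, M.t ‖x‖ ξ < 1 + θ / 2 → sp ξ = 0) →
      ‖M.P (M.tv x sp sm e)‖ ≤ C * Xi r * ‖e‖ / ‖x‖ := by
  have hc := M.one_lt_c
  have hKB := M.KB_nonneg
  set C₁ := 4 * (K + 12 * (3 / θ) + M.KB + 1) ^ 2 * (10 / θ * (M.c + 1)) with hC₁
  set C₂ := 4 * (K + 12 * (3 / θ) + 12 * (3 / θ) + M.KB + 1) ^ 2 * (200 / θ ^ 2 * (M.c + 1))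
    with hC₂
  have hC₁0 : 0 ≤ C₁ := by positivity
  have hC₂0 : 0 ≤ C₂ := by positivity
  refine ⟨C₁ + C₂, by positivity, fun x hx r sp sm e hp hm hp' hm' hz => ?_⟩
  have hx0 : x ≠ 0 := by rintro rfl; norm_num at hx
  set R := ‖x‖ with hR
  have hR1 : 1 ≤ R := by linarith
  have hR0 : 0 < R := by linarith
  have hXi := Xi_nonneg r
  have hQ : 1 ≤ R * M.c ^ 2 := one_le_mul_of_one_le_of_one_le hR1 (one_le_pow₀ hc.le)
  set Z := Xi r * ‖e‖ / R with hZ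
  have hZ0 : 0 ≤ Z := by positivity
  let lam : ℝ → ℝ := fun a => R * (a + M.sh - M.c ^ 2)
  let mm : ℝ → ℝ := fun l => max (2 * (R * M.c ^ 2) + 1 + l) (-1 - l)
  let rp : ℝ → E3 → ℝ := fun l η => sp η * (M.t R η + (-1 - l))⁻¹
  let rm : ℝ → E3 → ℝ := fun l η => (-1 : ℝ) • (sm η * (M.t R η + mm l)⁻¹)
  let y : ℝ → L2 F := fun a => M.U x (rp (lam a)) (rm (lam a)) e
  have hlam : ∀ a ∈ M.I, lam a < 0 := fun a ha => mul_neg_of_pos_of_neg hR0 (by linarith [ha.1])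
  have gp : ∀ ξ, (sp =ᶠ[𝓝 ξ] fun _ => 0) ∨ 1 + θ / 2 ≤ M.t R ξ := fun ξ => by
    rcases lt_or_ge (M.t R ξ) (1 + θ / 2) with h | h
    · left
      filter_upwards [(M.continuous_t R).continuousAt.eventually_lt continuousAt_const h] with η hη
      exact hz η hη
    · exact Or.inr h
  have gm := fun (l : ℝ) (hl : l < 0) (ξ : E3) =>
    minus_good hθ hθ1 hl (M.t_nonneg hR0.le ξ) hQ
  have cp : ∀ l, l < 0 → Cls (rp l)
      (fun ξ => (10 / θ * (M.c + 1) * (1 - l) ^ (-(1 / 4) : ℝ)) * wt r ξ) (K + 12 * (3 / θ)) :=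
    fun l hl =>
    M.cls_one hR1 hθ hθ1 hK hl hp fun ξ => (gp ξ).imp_right (plus_good hθ hθ1 hl)
  have cm : ∀ l, l < 0 → Cls (rm l)
      (fun ξ => (10 / θ * (M.c + 1) * (1 - l) ^ (-(1 / 4) : ℝ)) * wt r ξ) (K + 12 * (3 / θ)) :=
    fun l hl ξ => ((M.cls_one hR1 hθ hθ1 hK hl hm (fun ξ => Or.inr (gm l hl ξ)) ξ).const_smul
      (-1)).mono (by simp) (by positivity) le_rfl
  have sp1 : ∀ l, HasCompactSupport (rp l) := fun l => hp'.mul_right
  have sm1 : ∀ l, HasCompactSupport (rm l) := fun l =>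
    HasCompactSupport.intro hm'.isCompact fun ξ hξ => by
      simp [rm, image_eq_zero_of_notMem_tsupport hξ]
  have hq1 : ∀ l : ℝ, l < 0 → (1 - l) ^ (-(1 / 4) : ℝ) ≤ 1 := fun l hl =>
    Real.rpow_le_one_of_one_le_of_nonpos (by linarith) (by norm_num)
  have hq0 : ∀ l : ℝ, l < 0 → 0 ≤ (1 - l) ^ (-(1 / 4) : ℝ) := fun l hl =>
    Real.rpow_nonneg (by linarith) _
  have key : (C₁ + C₂) * Xi r * ‖e‖ / R = C₁ * Z + C₂ * Z := by rw [hZ]; ring
  rw [key]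
  refine M.norm_P_le (by positivity) fun s w hw => ?_
  have h1 : inner ℂ (∑ a ∈ s, w a) (M.tv x sp sm e) = -∑ a ∈ s, inner ℂ (w a) (y a) := by
    rw [sum_inner, ← Finset.sum_neg_distrib]
    refine Finset.sum_congr rfl fun a ha => ?_
    have hl := hlam a (hw a ha).1
    have h2 := M.step ((cp _ hl).nice (sp1 _)) ((cm _ hl).nice (sm1 _)) x e
      (M.rel_of_eig (hw a ha).2) (lam a)
    have h3 : ((R : ℝ) : ℂ) • ((a + M.sh : ℝ) : ℂ) • w a -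
        ((R * M.c ^ 2 + lam a : ℝ) : ℂ) • w a = 0 := by
      simp only [lam]; push_cast; module
    rw [← hR, h3, inner_zero_left, M.tv_congr x e (sp' := sp) (sm' := sm)] at h2
    · exact eq_neg_of_add_eq_zero_left h2
    · intro ξ
      rcases gp ξ with h | h
      · simp [rp, h.eq_of_nhds]
      · have := (plus_good hθ hθ1 hl h).1
        have h4 : M.t R ξ - 1 - lam a = M.t R ξ + (-1 - lam a) := by ring
        simp only [rp]
        rw [h4]; field_simp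
    · intro ξ
      rcases M.hσ with h | h
      · simp [h]
      · have h5 := (hw a ha).1.2 h
        have h6 : mm (lam a) = 2 * (R * M.c ^ 2) + 1 + lam a := by
          apply max_eq_left
          simp only [lam]; nlinarith only [h5, hR0, hR1, hQ]
        have h7 := (gm _ hl ξ).1
        change 0 < M.t R ξ + mm (lam a) at h7
        have h4 : -M.t R ξ - 2 * R * M.c ^ 2 - 1 - lam a = -(M.t R ξ + mm (lam a)) := by
          rw [h6]; ring
        simp only [rm, smul_eq_mul]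
        rw [h4]; field_simp
  rw [h1, norm_neg]
  refine abel_bound w y (fun a => C₂ * (1 - lam a) ^ (-(1 / 4) : ℝ) * Z) M.I
    (fun a ha => ?_) (fun a ha => ?_) (fun a ha => ?_) (fun a ha b hb hab => ?_) s
    (fun a ha => (hw a ha).1) (fun a ha b hb hab => M.eig_orth hab (hw a ha).2 (hw b hb).2)
  · have := hq0 _ (hlam a ha); positivity
  · have := hq1 _ (hlam a ha)
    calc C₂ * (1 - lam a) ^ (-(1 / 4) : ℝ) * Z ≤ C₂ * 1 * Z := by gcongr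
      _ = _ := by ring
  · have hl := hlam a ha
    have h2 := hq0 _ hl
    have h3 := hq1 _ hl
    refine (M.norm_U_le (by positivity) (by positivity) (cp _ hl) (cm _ hl) (sp1 _) (sm1 _) hx0
      e).trans ?_
    calc _ = C₁ * (1 - lam a) ^ (-(1 / 4) : ℝ) * Z := by rw [hC₁, hZ]; ring
      _ ≤ C₁ * 1 * Z := by gcongr
      _ = _ := by ring
  · have hl := hlam b hb
    have hl' := hlam a ha
    have hle : lam a ≤ lam b := mul_le_mul_of_nonneg_left (by linarith) hR0.le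
    have hA : 0 ≤ 200 / θ ^ 2 * (M.c + 1) *
        ((1 - lam b) ^ (-(1 / 4) : ℝ) - (1 - lam a) ^ (-(1 / 4) : ℝ)) :=
      mul_nonneg (by positivity) (sub_nonneg.2
        (Real.rpow_le_rpow_of_nonpos (by linarith) (by linarith) (by norm_num)))
    have c1 := M.cls_two (m := -1 - lam b) (m' := -1 - lam a) hR1 hθ hθ1 hK hl hle
      (by rw [abs_le]; constructor <;> linarith) hp
      fun ξ => (gp ξ).imp_right fun h => ⟨plus_good hθ hθ1 hl h, plus_good hθ hθ1 hl' h⟩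
    have c2 := M.cls_two (m := mm (lam b)) (m' := mm (lam a)) hR1 hθ hθ1 hK hl hle
      (by
        simp only [mm, abs_le, max_def]
        split_ifs <;> constructor <;> linarith) hm
      fun ξ => Or.inr ⟨gm _ hl ξ, gm _ hl' ξ⟩
    have c3 : Cls (fun η => rm (lam a) η - rm (lam b) η) (fun ξ => (200 / θ ^ 2 * (M.c + 1) *
        ((1 - lam b) ^ (-(1 / 4) : ℝ) - (1 - lam a) ^ (-(1 / 4) : ℝ))) * wt r ξ)
        (K + 12 * (3 / θ) + 12 * (3 / θ)) := fun ξ =>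
      (((c2 ξ).const_smul (-1)).mono (by simp) (by positivity) le_rfl).congr
        (.of_forall fun η => by simp only [rm, smul_eq_mul]; ring)
    have n1 := ((cp _ hl').nice (sp1 _)).sub ((cp _ hl).nice (sp1 _))
    have n2 := ((cm _ hl').nice (sm1 _)).sub ((cm _ hl).nice (sm1 _))
    have h2 := M.norm_U_le (by positivity) hA c1 c3 n1.supp n2.supp hx0 e
    have h3 := M.U_sub ((cp _ hl').nice (sp1 _)) ((cm _ hl').nice (sm1 _))
      ((cp _ hl).nice (sp1 _)) ((cm _ hl).nice (sm1 _)) x e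
    simp only [y]
    rw [← h3]
    refine h2.trans (le_of_eq ?_)
    rw [hC₂, hZ]; ring

end Model

end Pool.Agent.Work.MP_0d9e46_mp
end
end

-- merged part: Pool.Agent.Work.MP_0d9e46_mp.Sector
section
/-! Abstract spectral theory in an invariant subspace. -/

open Filter Topology

noncomputable section

namespace Pool.Agent.Work.MP_0d9e46_mp

variable {H : Type} [NormedAddCommGroup H] [InnerProductSpace ℂ H] [CompleteSpace H]
  {F : Type} [NormedAddCommGroup F] [NormedSpace ℂ F] [FiniteDimensional ℂ F]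

/-- Eigenvectors of `G⁻¹ - X G⁻¹` in `S` with eigenvalue strictly between `0` and `m`. -/
def EigS (S : Submodule ℂ H) (G X : H →L[ℂ] H) (m : ℝ) : Set H :=
  {f | ∃ e : ℝ, 0 < e ∧ e < m ∧ ∃ k ∈ S, f = G k ∧ k - X k = (e : ℂ) • f}

section aux

variable {E : Type} [NormedAddCommGroup E] [InnerProductSpace ℂ E]

theorem sec_re_le (f g : E) : (inner ℂ f g).re ≤ ‖f‖ * ‖g‖ :=
  (Complex.re_le_norm _).trans (norm_inner_le_norm f g)

theorem sec_re_self (f : E) : (inner ℂ f f).re = ‖f‖ ^ 2 := inner_self_eq_norm_sq (𝕜 := ℂ) f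

theorem sec_re_symm (f g : E) : (inner ℂ f g).re = (inner ℂ g f).re := inner_re_symm (𝕜 := ℂ) f g

theorem sec_re_smul_right (t : ℝ) (f g : E) :
    (inner ℂ f ((t : ℂ) • g)).re = t * (inner ℂ f g).re := by
  rw [inner_smul_right, Complex.re_ofReal_mul]

theorem sec_re_smul_left (t : ℝ) (f g : E) :
    (inner ℂ ((t : ℂ) • f) g).re = t * (inner ℂ f g).re := by
  rw [sec_re_symm, sec_re_smul_right, sec_re_symm]

theorem sec_norm_smul (t : ℝ) (f : E) : ‖(t : ℂ) • f‖ = |t| * ‖f‖ := by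
  rw [norm_smul, Complex.norm_real, Real.norm_eq_abs]

/-- Cauchy-Schwarz for a positive symmetric operator. -/
theorem sec_pos_bound (T : E →L[ℂ] E) (hs : ∀ f g, inner ℂ (T f) g = inner ℂ f (T g))
    (hp : ∀ f, 0 ≤ (inner ℂ f (T f)).re) (f : E) :
    ‖T f‖ ^ 2 ≤ (‖T‖ + 1) * (inner ℂ f (T f)).re := by
  have hM : 0 < ‖T‖ + 1 := by positivity
  set t : ℝ := (‖T‖ + 1)⁻¹ with ht
  have ht0 : 0 < t := inv_pos.2 hM
  have h1 := hp (f - (t : ℂ) • T f)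
  rw [map_sub, map_smul, inner_sub_left, inner_sub_right, inner_sub_right, Complex.sub_re,
    Complex.sub_re, Complex.sub_re, sec_re_smul_right, sec_re_smul_left, sec_re_smul_left,
    sec_re_smul_right, ← hs f (T f), sec_re_self] at h1
  have h2 : (inner ℂ (T f) (T (T f))).re ≤ (‖T‖ + 1) * ‖T f‖ ^ 2 := by
    have := sec_re_le (T f) (T (T f))
    have h3 := T.le_opNorm (T f)
    have h4 := mul_le_mul_of_nonneg_left h3 (norm_nonneg (T f))
    nlinarith [sq_nonneg ‖T f‖]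
  have h5 : t * (‖T‖ + 1) = 1 := inv_mul_cancel₀ hM.ne'
  have h6 : t * (t * (inner ℂ (T f) (T (T f))).re) ≤ t * ‖T f‖ ^ 2 := by
    refine mul_le_mul_of_nonneg_left ?_ ht0.le
    calc t * (inner ℂ (T f) (T (T f))).re ≤ t * ((‖T‖ + 1) * ‖T f‖ ^ 2) :=
          mul_le_mul_of_nonneg_left h2 ht0.le
      _ = ‖T f‖ ^ 2 := by rw [← mul_assoc, h5, one_mul]
  have h7 : t * ‖T f‖ ^ 2 ≤ (inner ℂ f (T f)).re := by linarith
  calc ‖T f‖ ^ 2 = (‖T‖ + 1) * (t * ‖T f‖ ^ 2) := by rw [← mul_assoc, mul_comm _ t, h5, one_mul]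
    _ ≤ _ := mul_le_mul_of_nonneg_left h7 hM.le

/-- Without eigenvalues above the essential bound `c` the operator is bounded by `c`. -/
theorem sec_form_le [CompleteSpace E] (N : E →L[ℂ] E) {c : ℝ}
    (hs : ∀ f g, inner ℂ (N f) g = inner ℂ f (N g))
    (hc : ∀ ε : ℝ, 0 < ε → ∃ (p : ℕ) (ℓ : E →L[ℂ] (Fin p → F)) (C : ℝ), 0 ≤ C ∧ ∀ d,
      (inner ℂ d (N d)).re ≤ (c + ε) * ‖d‖ ^ 2 + C * ‖ℓ d‖ * ‖d‖)
    (he : ∀ μ : ℝ, c < μ → ∀ f, N f = (μ : ℂ) • f → f = 0) (f0 : E) :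
    (inner ℂ f0 (N f0)).re ≤ c * ‖f0‖ ^ 2 := by
  by_contra hlt
  push Not at hlt
  let A : Set ℝ := {x | ∃ f : E, ‖f‖ = 1 ∧ (inner ℂ f (N f)).re = x}
  have hA : BddAbove A := by
    refine ⟨‖N‖, ?_⟩
    rintro _ ⟨f, hf, rfl⟩
    have h1 := sec_re_le f (N f)
    have h2 := N.le_opNorm f
    rw [hf] at h1 h2
    linarith
  have hmem : ∀ f : E, f ≠ 0 → (inner ℂ f (N f)).re / ‖f‖ ^ 2 ∈ A := by
    intro f hf
    have hf' : 0 < ‖f‖ := norm_pos_iff.2 hf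
    refine ⟨((‖f‖⁻¹ : ℝ) : ℂ) • f, ?_, ?_⟩
    · rw [sec_norm_smul, abs_of_pos (inv_pos.2 hf'), inv_mul_cancel₀ hf'.ne']
    · rw [map_smul, sec_re_smul_left, sec_re_smul_right]
      field_simp
  have hf0 : f0 ≠ 0 := by
    rintro rfl
    simp at hlt
  set μ := sSup A with hμ
  have hle : ∀ f : E, (inner ℂ f (N f)).re ≤ μ * ‖f‖ ^ 2 := by
    intro f
    by_cases hf : f = 0
    · simp [hf]
    · have hf' : 0 < ‖f‖ ^ 2 := pow_pos (norm_pos_iff.2 hf) 2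
      exact (div_le_iff₀ hf').1 (le_csSup hA (hmem f hf))
  have hcμ : c < μ := by
    have hf' : 0 < ‖f0‖ ^ 2 := pow_pos (norm_pos_iff.2 hf0) 2
    exact lt_of_mul_lt_mul_right (hlt.trans_le (hle f0)) hf'.le
  let T : E →L[ℂ] E := (μ : ℂ) • ContinuousLinearMap.id ℂ E - N
  have hT : ∀ f, T f = (μ : ℂ) • f - N f := fun f => rfl
  have hTre : ∀ f, (inner ℂ f (T f)).re = μ * ‖f‖ ^ 2 - (inner ℂ f (N f)).re := fun f => by
    rw [hT, inner_sub_right, Complex.sub_re, sec_re_smul_right, sec_re_self]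
  have hTs : ∀ f g, inner ℂ (T f) g = inner ℂ f (T g) := fun f g => by
    rw [hT, hT, inner_sub_left, inner_sub_right, hs, inner_smul_left, inner_smul_right,
      Complex.conj_ofReal]
  have hTp : ∀ f, 0 ≤ (inner ℂ f (T f)).re := fun f => by
    rw [hTre]
    linarith [hle f]
  obtain ⟨u, -, hu, huA⟩ := exists_seq_tendsto_sSup ⟨_, hmem f0 hf0⟩ hA
  choose f hf1 hf2 using huA
  have hT0 : Tendsto (fun n => T (f n)) atTop (𝓝 0) := by
    rw [tendsto_zero_iff_norm_tendsto_zero]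
    have h1 : Tendsto (fun n => (‖T‖ + 1) * (μ - u n)) atTop (𝓝 ((‖T‖ + 1) * (μ - μ))) :=
      (tendsto_const_nhds.sub hu).const_mul _
    rw [sub_self, mul_zero] at h1
    have h2 : Tendsto (fun n => ‖T (f n)‖ ^ 2) atTop (𝓝 0) := by
      refine squeeze_zero (fun n => sq_nonneg _) (fun n => ?_) h1
      have := sec_pos_bound T hTs hTp (f n)
      rwa [hTre, hf1, hf2, one_pow, mul_one] at this
    have h3 := h2.sqrt
    simpa only [Real.sqrt_sq (norm_nonneg _), Real.sqrt_zero] using h3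
  obtain ⟨p, ℓ, C, hC, hℓ⟩ := hc ((μ - c) / 2) (by linarith)
  have key : ∀ d, (μ - c) / 2 * ‖d‖ ≤ C * ‖ℓ d‖ + ‖T d‖ := by
    intro d
    by_cases hd : d = 0
    · simp [hd]
    · have hd' : 0 < ‖d‖ := norm_pos_iff.2 hd
      have h1 := hℓ d
      have h2 := hTre d
      have h3 := sec_re_le d (T d)
      refine le_of_mul_le_mul_right ?_ hd'
      nlinarith
  have hb : Bornology.IsBounded (Metric.closedBall (0 : Fin p → F) ‖ℓ‖) := Metric.isBounded_closedBall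
  have : ProperSpace (Fin p → F) := FiniteDimensional.proper_rclike ℂ (Fin p → F)
  obtain ⟨a, -, φ, hφ, ha⟩ := tendsto_subseq_of_bounded hb (x := fun n => ℓ (f n)) (fun n => by
    have := ℓ.le_opNorm (f n)
    rw [hf1, mul_one] at this
    simpa using this)
  have hT1 : Tendsto (fun n => T (f (φ n))) atTop (𝓝 0) := hT0.comp hφ.tendsto_atTop
  have hδ : 0 < (μ - c) / 2 := by linarith
  have hcau : CauchySeq (fun n => f (φ n)) := by
    rw [Metric.cauchySeq_iff]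
    intro ε hε
    have hη : 0 < (μ - c) / 2 * ε / (C + 2) := by positivity
    obtain ⟨n1, hn1⟩ := Metric.cauchySeq_iff.1 ha.cauchySeq _ hη
    obtain ⟨n2, hn2⟩ := Metric.cauchySeq_iff.1 hT1.cauchySeq _ hη
    refine ⟨max n1 n2, fun i hi j hj => ?_⟩
    have h1 := hn1 i (le_of_max_le_left hi) j (le_of_max_le_left hj)
    have h2 := hn2 i (le_of_max_le_right hi) j (le_of_max_le_right hj)
    have h3 := key (f (φ i) - f (φ j))
    rw [map_sub, map_sub] at h3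
    simp only [Function.comp_apply, dist_eq_norm] at h1 h2 ⊢
    set η := (μ - c) / 2 * ε / (C + 2) with hη'
    have h4 : η * (C + 2) = (μ - c) / 2 * ε := by
      rw [hη']
      field_simp
    have h5 := mul_le_mul_of_nonneg_left h1.le hC
    refine lt_of_mul_lt_mul_left ?_ hδ.le
    linarith
  obtain ⟨g, hg⟩ := cauchySeq_tendsto_of_complete hcau
  have hg1 : ‖g‖ = 1 := by
    have h1 := hg.norm
    simp only [hf1] at h1
    exact (tendsto_nhds_unique tendsto_const_nhds h1).symm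
  have hg2 : T g = 0 := tendsto_nhds_unique ((T.continuous.tendsto g).comp hg) hT1
  rw [hT, sub_eq_zero] at hg2
  rw [he μ hcμ g hg2.symm, norm_zero] at hg1
  exact zero_ne_one hg1

/-- Coercive operators are onto. -/
theorem sec_surj [CompleteSpace E] (W : E →L[ℂ] E) {c : ℝ} (hc : 0 < c)
    (h : ∀ f, c * ‖f‖ ^ 2 ≤ (inner ℂ f (W f)).re) : Function.Bijective W := by
  refine ContinuousLinearMap.isUnit_iff_bijective.1
    (ContinuousLinearMap.isUnit_of_forall_le_norm_inner_map W (c := ⟨c, hc.le⟩) hc fun f => ?_)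
  have h1 := h f
  rw [sec_re_symm] at h1
  calc ‖f‖ ^ 2 * c = c * ‖f‖ ^ 2 := mul_comm _ _
    _ ≤ _ := h1.trans (Complex.re_le_norm _)

/-- The resolvent estimate. -/
theorem sec_solve [CompleteSpace E] (N : E →L[ℂ] E) {m R ω : ℝ} (hm : 0 < m)
    (hN : ∀ f, (inner ℂ f (N f)).re ≤ m⁻¹ * ‖f‖ ^ 2) (hω : 0 < ω)
    (hωR : 2 * ω ≤ R * m) (h : E) :
    ∃ a, (R : ℂ) • a - ((R * m - ω : ℝ) : ℂ) • N a = h ∧ ω * ‖N a‖ ≤ ‖h‖ := by
  let W : E →L[ℂ] E := (R : ℂ) • ContinuousLinearMap.id ℂ E - ((R * m - ω : ℝ) : ℂ) • N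
  have hW : ∀ a, W a = (R : ℂ) • a - ((R * m - ω : ℝ) : ℂ) • N a := fun a => rfl
  have hmi : m * m⁻¹ = 1 := mul_inv_cancel₀ hm.ne'
  have hc : 0 < m⁻¹ := inv_pos.2 hm
  have hb := sec_surj W (c := ω * m⁻¹) (by positivity) fun f => by
    rw [hW, inner_sub_right, Complex.sub_re, sec_re_smul_right, sec_re_smul_right, sec_re_self]
    have h1 := mul_le_mul_of_nonneg_left (hN f) (show 0 ≤ R * m - ω by linarith)
    have h2 : (R * m - ω) * (m⁻¹ * ‖f‖ ^ 2) = R * ‖f‖ ^ 2 - ω * m⁻¹ * ‖f‖ ^ 2 := by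
      field_simp
    linarith
  obtain ⟨a, ha⟩ := hb.2 h
  refine ⟨a, ha, ?_⟩
  set y := ((m⁻¹ : ℝ) : ℂ) • a - N a with hy
  have hy0 : 0 ≤ (inner ℂ a y).re := by
    rw [hy, inner_sub_right, Complex.sub_re, sec_re_smul_right, sec_re_self]
    linarith [hN a]
  have hm' : (m : ℂ) ≠ 0 := by exact_mod_cast hm.ne'
  have e1 : h = ((ω * m⁻¹ : ℝ) : ℂ) • a + ((R * m - ω : ℝ) : ℂ) • y := by
    rw [← ha, hW, hy, smul_sub, smul_smul, ← add_sub_assoc, ← add_smul]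
    congr 2
    push_cast
    field_simp
    ring
  have e2 : (ω : ℂ) • N a = ((ω * m⁻¹ : ℝ) : ℂ) • a - (ω : ℂ) • y := by
    rw [hy, smul_sub, smul_smul, ← Complex.ofReal_mul]
    abel
  have e3 : ω * ‖N a‖ = ‖(ω : ℂ) • N a‖ := by rw [sec_norm_smul, abs_of_pos hω]
  rw [e3, e2]
  refine (pow_le_pow_iff_left₀ (norm_nonneg _) (norm_nonneg _) two_ne_zero).1 ?_
  rw [e1, norm_sub_sq (𝕜 := ℂ), norm_add_sq (𝕜 := ℂ)]
  simp only [RCLike.re_to_complex, sec_re_smul_left, sec_re_smul_right, sec_norm_smul, mul_pow,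
    sq_abs]
  have h1 : ω ^ 2 * ‖y‖ ^ 2 ≤ (R * m - ω) ^ 2 * ‖y‖ ^ 2 :=
    mul_le_mul_of_nonneg_right (pow_le_pow_left₀ hω.le (by linarith) 2) (sq_nonneg _)
  have h2 : 0 ≤ ω * m⁻¹ * (ω * (inner ℂ a y).re) := by positivity
  have h3 : 0 ≤ ω * m⁻¹ * ((R * m - ω) * (inner ℂ a y).re) :=
    mul_nonneg (by positivity) (mul_nonneg (by linarith) hy0)
  linarith

/-- The statement in the whole space. -/
theorem sec_top [CompleteSpace E] (G X : E →L[ℂ] E) {γ m : ℝ} (hγ0 : 0 ≤ γ) (hγ : γ < 1)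
    (hm : 0 < m) (hXn : ∀ h, ‖X h‖ ≤ γ * ‖h‖)
    (hGs : ∀ f g, inner ℂ (G f) g = inner ℂ f (G g)) (hGn : ∀ f, ‖G f‖ ≤ m⁻¹ * ‖f‖)
    (hsym : ∀ f g, inner ℂ (G f) (X g) = inner ℂ (X f) (G g))
    (hcomp : ∀ ε : ℝ, 0 < ε → ∃ (p : ℕ) (ℓ : E →L[ℂ] (Fin p → F)) (C : ℝ), ∀ f k,
      ‖inner ℂ (G f) (X k)‖ ≤ (ε * ‖f‖ + C * ‖ℓ f‖) * ‖k‖)
    {R ω : ℝ} (hω : 0 < ω) (hωR : 2 * ω ≤ R * m) {h : E}
    (horth : ∀ (e : ℝ) k, 0 < e → e < m → k - X k = (e : ℂ) • G k → inner ℂ (G k) h = 0) :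
    ∃ k, (∀ (e : ℝ) k', 0 < e → e < m → k' - X k' = (e : ℂ) • G k' → inner ℂ (G k') (G k) = 0) ∧
      ω * ‖G k‖ ≤ ‖h‖ ∧ (R : ℂ) • (k - X k) - ((R * m - ω : ℝ) : ℂ) • G k = h := by
  let U : E →L[ℂ] E := ContinuousLinearMap.id ℂ E - X
  have hU : ∀ k, U k = k - X k := fun k => rfl
  have hUb := sec_surj U (c := 1 - γ) (by linarith) fun f => by
    rw [hU, inner_sub_right, Complex.sub_re, sec_re_self]
    have h1 := sec_re_le f (X f)
    have h2 := mul_le_mul_of_nonneg_left (hXn f) (norm_nonneg f)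
    nlinarith
  let Ue : E ≃L[ℂ] E := ContinuousLinearEquiv.ofBijective U
    (LinearMap.ker_eq_bot.2 hUb.1) (LinearMap.range_eq_top.2 hUb.2)
  let V : E →L[ℂ] E := Ue.symm
  have hUV : ∀ d, V d - X (V d) = d := fun d => Ue.apply_symm_apply d
  have hVU : ∀ k, V (k - X k) = k := fun k => Ue.symm_apply_apply k
  have hVn : ∀ d, (1 - γ) * ‖V d‖ ≤ ‖d‖ := fun d => by
    have h1 : ‖V d‖ ≤ ‖V d - X (V d)‖ + ‖X (V d)‖ := norm_le_norm_sub_add _ _
    rw [hUV] at h1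
    linarith [hXn (V d)]
  let N : E →L[ℂ] E := G.comp V
  have hN : ∀ d, N d = G (V d) := fun d => rfl
  have hNs : ∀ f g, inner ℂ (N f) g = inner ℂ f (N g) := fun f g => by
    rw [hN, hN]
    conv_lhs => rw [← hUV g]
    conv_rhs => rw [← hUV f]
    rw [inner_sub_right, inner_sub_left, hsym, hGs]
  let K : Submodule ℂ E :=
    (Submodule.span ℂ {g | ∃ (e : ℝ) (k : E), 0 < e ∧ e < m ∧ k - X k = (e : ℂ) • G k ∧ G k = g})ᗮ
  have hK : ∀ f, f ∈ K ↔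
      ∀ (e : ℝ) k, 0 < e → e < m → k - X k = (e : ℂ) • G k → inner ℂ (G k) f = 0 := by
    intro f
    rw [Submodule.mem_orthogonal]
    constructor
    · exact fun h1 e k a1 a2 a3 => h1 _ (Submodule.subset_span ⟨e, k, a1, a2, a3, rfl⟩)
    · intro h1 u hu
      induction hu using Submodule.span_induction with
      | mem x hx =>
        obtain ⟨e, k, a1, a2, a3, rfl⟩ := hx
        exact h1 e k a1 a2 a3
      | zero => exact inner_zero_left _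
      | add x y _ _ a1 a2 => rw [inner_add_left, a1, a2, add_zero]
      | smul a x _ a1 => rw [inner_smul_left, a1, mul_zero]
  have hNK : ∀ f ∈ K, N f ∈ K := by
    intro f hf
    rw [hK] at hf ⊢
    intro e k a1 a2 a3
    have a4 : (e : ℂ) ≠ 0 := by exact_mod_cast a1.ne'
    have a5 : N (G k) = ((e⁻¹ : ℝ) : ℂ) • G k := by
      have a6 : G k = ((e⁻¹ : ℝ) : ℂ) • (k - X k) := by
        rw [a3, smul_smul, Complex.ofReal_inv, inv_mul_cancel₀ a4, one_smul]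
      conv_lhs => rw [a6]
      rw [map_smul, hN, hVU]
    rw [← hNs, a5, inner_smul_left, hf e k a1 a2 a3, mul_zero]
  let NK : K →L[ℂ] K := N.restrict hNK
  have hform := sec_form_le (F := F) NK (c := m⁻¹) (fun f g => hNs f g) ?_ ?_
  · obtain ⟨a, a1, a2⟩ := sec_solve NK hm hform hω hωR ⟨h, (hK h).2 horth⟩
    refine ⟨V a, (hK _).1 (hNK a a.2), a2, ?_⟩
    rw [hUV]
    exact congrArg Subtype.val a1
  · intro ε hε
    have hγ' : 0 < 1 - γ := by linarith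
    obtain ⟨p, ℓ, C, hℓ⟩ := hcomp (ε * (1 - γ)) (by positivity)
    refine ⟨p, ℓ.comp K.subtypeL, |C| / (1 - γ), by positivity, fun d => ?_⟩
    change (inner ℂ (d : E) (N d)).re ≤ (m⁻¹ + ε) * ‖(d : E)‖ ^ 2 +
      |C| / (1 - γ) * ‖ℓ (d : E)‖ * ‖(d : E)‖
    generalize (d : E) = d
    have h1 : N d = G d + G (X (V d)) := by
      rw [hN, ← map_add]
      congr 1
      conv_rhs => rw [← hUV d]
      rw [hUV, eq_comm, ← eq_sub_iff_add_eq, hUV]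
    rw [h1, inner_add_right, Complex.add_re, ← hGs d (X (V d))]
    have h2 := sec_re_le d (G d)
    have h3 := mul_le_mul_of_nonneg_left (hGn d) (norm_nonneg d)
    have h4 := (Complex.re_le_norm _).trans (hℓ d (V d))
    have h5 : ‖V d‖ ≤ ‖d‖ / (1 - γ) := (le_div_iff₀ hγ').2 (by linarith [hVn d])
    have h6 : (ε * (1 - γ) * ‖d‖ + C * ‖ℓ d‖) * ‖V d‖ ≤
        (ε * (1 - γ) * ‖d‖ + |C| * ‖ℓ d‖) * (‖d‖ / (1 - γ)) := by
      refine mul_le_mul ?_ h5 (norm_nonneg _) (by positivity)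
      have := mul_le_mul_of_nonneg_right (le_abs_self C) (norm_nonneg (ℓ d))
      linarith
    have h7 : (ε * (1 - γ) * ‖d‖ + |C| * ‖ℓ d‖) * (‖d‖ / (1 - γ)) =
        ε * ‖d‖ ^ 2 + |C| / (1 - γ) * ‖ℓ d‖ * ‖d‖ := by
      field_simp
    nlinarith
  · intro μ hμ f hf
    have hf' : N f = (μ : ℂ) • (f : E) := congrArg Subtype.val hf
    have hμ0 : 0 < μ := (inv_pos.2 hm).trans hμ
    have a4 : (μ : ℂ) ≠ 0 := by exact_mod_cast hμ0.ne'
    have a1 : G (((μ⁻¹ : ℝ) : ℂ) • V f) = f := by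
      rw [map_smul, ← hN, hf', smul_smul, Complex.ofReal_inv, inv_mul_cancel₀ a4, one_smul]
    have a2 := (hK f).1 f.2 μ⁻¹ (((μ⁻¹ : ℝ) : ℂ) • V f) (inv_pos.2 hμ0)
      (inv_lt_of_inv_lt₀ hm hμ) (by rw [a1, map_smul, ← smul_sub, hUV])
    rw [a1, inner_self_eq_zero] at a2
    exact Subtype.ext a2

end aux

theorem sector_abstract (S : Submodule ℂ H) (hS : IsClosed (S : Set H)) (G X : H →L[ℂ] H)
    {γ m : ℝ} (hγ0 : 0 ≤ γ) (hγ : γ < 1) (hm : 0 < m)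
    (hG : ∀ h ∈ S, G h ∈ S) (hX : ∀ h ∈ S, X h ∈ S) (hXn : ∀ h ∈ S, ‖X h‖ ≤ γ * ‖h‖)
    (hGs : ∀ f g, inner ℂ (G f) g = inner ℂ f (G g)) (hGn : ∀ f, ‖G f‖ ≤ m⁻¹ * ‖f‖)
    (hsym : ∀ f ∈ S, ∀ g ∈ S, inner ℂ (G f) (X g) = inner ℂ (X f) (G g))
    (hcomp : ∀ ε : ℝ, 0 < ε → ∃ (p : ℕ) (ℓ : H →L[ℂ] (Fin p → F)) (C : ℝ), ∀ f ∈ S, ∀ k ∈ S,
      ‖inner ℂ (G f) (X k)‖ ≤ (ε * ‖f‖ + C * ‖ℓ f‖) * ‖k‖)
    {R ω : ℝ} (hR : 0 < R) (hω : 0 < ω) (hωR : 2 * ω ≤ R * m) {h : H} (hh : h ∈ S)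
    (horth : ∀ g ∈ EigS S G X m, inner ℂ g h = 0) :
    ∃ f ∈ S, (∀ g ∈ EigS S G X m, inner ℂ g f = 0) ∧ ω * ‖f‖ ≤ ‖h‖ ∧
      ∃ k ∈ S, f = G k ∧ (R : ℂ) • (k - X k) - ((R * m - ω : ℝ) : ℂ) • f = h := by
  have : CompleteSpace S := hS.completeSpace_coe
  obtain ⟨k, h1, h2, h3⟩ := sec_top (F := F) (G.restrict hG) (X.restrict hX) hγ0 hγ hm
    (fun f => hXn f f.2) (fun f g => hGs f g) (fun f => hGn f) (fun f g => hsym f f.2 g g.2)
    (fun ε hε => by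
      obtain ⟨p, ℓ, C, hℓ⟩ := hcomp ε hε
      exact ⟨p, ℓ.comp S.subtypeL, C, fun f k => hℓ f f.2 k k.2⟩)
    hω hωR (h := ⟨h, hh⟩) (fun e k a1 a2 a3 =>
      horth _ ⟨e, a1, a2, k, k.2, rfl, congrArg Subtype.val a3⟩)
  refine ⟨G k, hG k k.2, ?_, h2, k, k.2, rfl, congrArg Subtype.val h3⟩
  rintro _ ⟨e, a1, a2, k', hk', rfl, a3⟩
  exact h1 e ⟨k', hk'⟩ a1 a2 (Subtype.ext a3)

end Pool.Agent.Work.MP_0d9e46_mp
end
end

-- merged part: Pool.Agent.Work.MP_0d9e46_mp.Low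
section
/-! Test vectors of low free energy lie almost in the span of the eigenfunctions. -/

open MeasureTheory Filter Topology FourierTransform
open scoped Real ENNReal

noncomputable section

namespace Pool.Agent.Work.MP_0d9e46_mp

variable {F : Type} [NormedAddCommGroup F] [InnerProductSpace ℂ F] [CompleteSpace F]
  [FiniteDimensional ℂ F]

namespace Model

variable (M : Model F)

/-- The eigenvectors found in the sector. -/
def eigSec (k : Fin 3) (N : ℕ) : Set (L2 F) := EigS (M.sector k N) M.G0 (M.Lam ∘L M.V) (M.c ^ 2)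

lemma eigSec_sector {k : Fin 3} {N : ℕ} {g : L2 F} (hg : g ∈ M.eigSec k N) : g ∈ M.sector k N := by
  obtain ⟨e, -, -, u, hu, rfl, -⟩ := hg
  exact M.G0_mem_sector hu

lemma eigSec_eigAll {k : Fin 3} {N : ℕ} {g : L2 F} (hg : g ∈ M.eigSec k N) : g ∈ M.eigAll := by
  obtain ⟨e, h0, h1, u, hu, rfl, h⟩ := hg
  have h2 := M.eig_of_pair (M.mem_sector.1 hu).1 h
  have h3 : e - M.sh ∈ M.I := ⟨by linarith, fun _ => by linarith⟩
  exact Submodule.le_topologicalClosure _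
    (Submodule.mem_iSup_of_mem (e - M.sh) (Submodule.mem_iSup_of_mem h3 h2))

lemma exists_resolvent {k : Fin 3} {N : ℕ} (hN : 0 < N) {R ω : ℝ} (hR : 0 < R) (hω : 0 < ω)
    (hωR : 2 * ω ≤ R * M.c ^ 2) {h : L2 F} (hh : h ∈ M.sector k N)
    (ho : ∀ g ∈ M.eigSec k N, inner ℂ g h = 0) :
    ∃ f ∈ M.sector k N, (∀ g ∈ M.eigSec k N, inner ℂ g f = 0) ∧ ω * ‖f‖ ≤ ‖h‖ ∧
      ∃ u, M.Rel f u ∧ (R : ℂ) • u - ((R * M.c ^ 2 + -ω : ℝ) : ℂ) • f = h := by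
  have hl : ∀ f ∈ M.sector k N, ∀ g, inner ℂ (M.G0 f) (M.Lam g) = inner ℂ (M.G0 f) g :=
    fun f hf g => by rw [← M.Lam_sa, (M.mem_sector.1 (M.G0_mem_sector hf)).1]
  obtain ⟨f, hf, h1, h2, u, hu, h3, h4⟩ := sector_abstract (F := F) (M.sector k N)
    (M.isClosed_sector k N) M.G0 (M.Lam ∘L M.V) M.γ_pos.le M.γ_lt (pow_pos M.c_pos 2)
    (fun h hh => M.G0_mem_sector hh) (fun h hh => M.LamV_mem_sector hh)
    (fun h hh => (M.norm_Lam_le _).trans (M.norm_V_le_sector hN hh)) M.G0_sa M.norm_G0_le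
    (fun f hf g hg => by
      rw [ContinuousLinearMap.comp_apply, ContinuousLinearMap.comp_apply, hl f hf, M.V_symm,
        M.Lam_sa, (M.mem_sector.1 (M.G0_mem_sector hg)).1])
    (fun ε hε => by
      obtain ⟨p, ℓ, C, h⟩ := M.compact_V hε
      refine ⟨p, ℓ, C, fun f hf g _ => ?_⟩
      rw [ContinuousLinearMap.comp_apply, hl f hf]
      exact h f g) hR hω hωR hh ho
  refine ⟨f, hf, h1, h2, u - M.Lam (M.V u), h3 ▸ M.rel_of_pair u, ?_⟩
  rw [← h4, ← sub_eq_add_neg]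
  rfl

lemma one_le_wt {R : ℝ} (hR : 1 ≤ R) {ξ : E3} (h : M.t R ξ ≤ 1) : 1 ≤ (2 + M.c) * wt 0 ξ := by
  have h1 := M.norm_le_t hR ξ
  have hc := M.c_pos
  have h2 : (2 + M.c) ^ (-1 : ℝ) ≤ (1 + ‖ξ‖) ^ (-(3 / 4) : ℝ) :=
    (Real.rpow_le_rpow_of_exponent_le (by linarith) (by norm_num)).trans
      (Real.rpow_le_rpow_of_nonpos (by positivity) (by linarith) (by norm_num))
  rw [wt, if_pos (norm_nonneg ξ)]
  rw [Real.rpow_neg_one] at h2
  calc 1 = (2 + M.c) * (2 + M.c)⁻¹ := (mul_inv_cancel₀ (by positivity)).symm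
    _ ≤ _ := by gcongr

lemma cls_pow {s : E3 → ℝ} {K R θ : ℝ} (hR : 1 ≤ R) (hθ : 0 < θ) (hθ1 : θ ≤ 1) (hK : 0 ≤ K)
    (hs : Cls s (fun _ => 1) K) (hz : ∀ ξ, 1 - θ / 2 < M.t R ξ → s ξ = 0) (i : ℕ) :
    Cls (fun ξ => (M.t R ξ - (1 - θ / 2) / 2) ^ i * s ξ) (fun ξ => (2 + M.c) * wt 0 ξ)
      (K + 4 * i) := by
  intro ξ
  have hc := M.c_pos
  have hw := wt_nonneg 0 ξ
  rcases lt_or_ge (1 - θ / 2) (M.t R ξ) with h | h
  · refine ClsAt.of_zero ?_ (by positivity) (by positivity)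
    filter_upwards [continuousAt_const.eventually_lt (M.continuous_t R).continuousAt h] with η hη
    rw [hz η hη, mul_zero]
  · have ht := M.t_nonneg (R := R) (by linarith) ξ
    have h1 : ClsAt (fun ξ => (M.t R ξ - (1 - θ / 2) / 2) ^ i * s ξ) 1 (K + 4 * i) ξ := by
      induction i with
      | zero => simpa using hs ξ
      | succ i ih =>
        have h2 := (M.cls_lin (t₀ := (1 - θ / 2) / 2) (ξ := ξ) (show 0 < R by linarith)
          (by rw [abs_le]; constructor <;> linarith) (by linarith)).mul ih (by norm_num)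
          (by positivity)
        refine (h2.mono (by norm_num) (by positivity) (le_of_eq ?_)).congr
          (.of_forall fun η => by ring)
        push_cast; ring
    exact h1.mono (M.one_le_wt hR (by linarith)) (by positivity) le_rfl

theorem low {θ K η : ℝ} (hθ : 0 < θ) (hθ1 : θ ≤ 1) (hK : 0 ≤ K) (hη : 0 < η) :
    ∃ C : ℝ, 0 ≤ C ∧ ∀ x : E3, 4 ≤ ‖x‖ → ∀ (s : E3 → ℝ) (e : F),
      Cls s (fun _ => 1) K → HasCompactSupport s →
      (∀ ξ, 1 - θ / 2 < M.t ‖x‖ ξ → s ξ = 0) →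
      ‖M.tv x s (fun _ => 0) e - M.P (M.tv x s (fun _ => 0) e)‖ ≤
        η * ‖M.tv x s (fun _ => 0) e‖ + C * ‖e‖ / ‖x‖ := by
  have hc := M.one_lt_c
  have hKB := M.KB_nonneg
  have hXi := Xi_nonneg 0
  set ω := (1 + θ / 2) / 2 with hω
  set t₀ := (1 - θ / 2) / 2 with ht₀
  have hω0 : 0 < ω := by rw [hω]; positivity
  have ht0 : 0 ≤ t₀ := by rw [ht₀]; linarith
  have hω2 : ω⁻¹ ≤ 2 := by rw [inv_le_comm₀ hω0 two_pos, hω]; linarith
  obtain ⟨n, hn⟩ := exists_pow_lt_of_lt_one (half_pos hη)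
    (show ω⁻¹ * t₀ < 1 by rw [inv_mul_lt_iff₀ hω0, hω, ht₀]; linarith)
  obtain ⟨N, Cn, hN, hCn, hnear⟩ := M.near_sector (show 0 < η / 4 by positivity)
  set A := 2 + M.c with hA
  have hA0 : 0 ≤ A := by rw [hA]; linarith
  set C₁ := 4 * (K + 4 * n + M.KB + 1) ^ 2 * A * Xi 0 with hC₁
  set C₂ := 2 * (K + 4 * (0 : ℕ) + M.KB) * A * Xi 0 with hC₂
  have hC₁0 : 0 ≤ C₁ := by positivity
  have hC₂0 : 0 ≤ C₂ := by positivity
  refine ⟨2 * Cn * C₂ + n * 2 ^ n * C₁, by positivity, fun x hx s e hs hs' hz => ?_⟩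
  have hx0 : x ≠ 0 := by rintro rfl; norm_num at hx
  have hR1 : 1 ≤ ‖x‖ := by linarith
  have hR0 : 0 < ‖x‖ := by linarith
  let si : ℕ → E3 → ℝ := fun i ξ => (M.t ‖x‖ ξ - t₀) ^ i * s ξ
  let v : ℕ → L2 F := fun i => M.tv x (si i) (fun _ => 0) e
  have cs : ∀ i, Cls (si i) (fun ξ => A * wt 0 ξ) (K + 4 * i) := M.cls_pow hR1 hθ hθ1 hK hs hz
  have ss : ∀ i, HasCompactSupport (si i) := fun i => hs'.mul_left
  have ns : ∀ i, Nice (si i) := fun i => (cs i).nice (ss i)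
  have c0 : ∀ K' : ℝ, 0 ≤ K' → Cls (fun _ : E3 => (0 : ℝ)) (fun ξ => A * wt 0 ξ) K' :=
    fun K' hK' ξ => ClsAt.const 0 (by have := wt_nonneg 0 ξ; rw [norm_zero]; positivity) hK'
  have hv0 : v 0 = M.tv x s (fun _ => 0) e := M.tv_congr x e (fun ξ => by simp [si]) fun _ => rfl
  set u := C₁ * ‖e‖ / ‖x‖ with hu
  have hu0 : 0 ≤ u := by positivity
  have hU : ∀ i, i ≤ n → ‖M.U x (si i) (fun _ => 0) e‖ ≤ u := fun i hi => by
    have hi' : (i : ℝ) ≤ n := by exact_mod_cast hi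
    have h1 : Cls (si i) (fun ξ => A * wt 0 ξ) (K + 4 * n) := fun ξ =>
      (cs i ξ).mono le_rfl (by positivity) (by linarith)
    exact M.norm_U_le (by positivity) hA0 h1 (c0 _ (by positivity)) (ss i)
      HasCompactSupport.zero hx0 e
  have hvn : ‖v n‖ ≤ t₀ ^ n * ‖v 0‖ := by
    refine M.norm_tv_le (ns 0) (ns n) (by positivity) (fun ξ => ?_) x e
    rcases lt_or_ge (1 - θ / 2) (M.t ‖x‖ ξ) with h | h
    · simp [si, hz ξ h]
    · have ht := M.t_nonneg hR0.le ξ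
      have h1 : |M.t ‖x‖ ξ - t₀| ≤ t₀ := by rw [abs_le, ht₀]; constructor <;> linarith
      simp only [si, pow_zero, one_mul, abs_mul, abs_pow]
      gcongr
  obtain ⟨k, hk⟩ := hnear x hx0
  have iter : ∀ m j : ℕ, j + m ≤ n → ∀ h ∈ M.sector k N,
      (∀ g ∈ M.eigSec k N, inner ℂ g h = 0) →
      ‖inner ℂ h (v j)‖ ≤ (ω⁻¹ ^ m * ‖v (j + m)‖ + m * 2 ^ m * u) * ‖h‖ := by
    intro m
    induction m with
    | zero =>
      intro j _ h _ _
      rw [pow_zero, Nat.cast_zero, zero_mul, zero_mul, add_zero, one_mul, mul_comm]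
      exact norm_inner_le_norm (𝕜 := ℂ) h (v j)
    | succ m ih =>
      intro j hj h hh ho
      obtain ⟨f, hf, hfo, hfn, w, hw, hwh⟩ := M.exists_resolvent hN hR0 hω0
        (by rw [hω]; nlinarith only [hx, hc, hθ1]) hh ho
      have h1 := M.step (ns j) Nice.zero x e hw (-ω)
      rw [hwh, M.tv_congr x e (sp' := si (j + 1)) (sm' := fun _ => 0)
        (fun ξ => by simp only [si, hω, ht₀]; ring) (fun ξ => by simp)] at h1
      have h2 := ih (j + 1) (by omega) f hf hfo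
      have h3 := norm_inner_le_norm (𝕜 := ℂ) f (M.U x (si j) (fun _ => 0) e)
      have h4 := hU j (by omega)
      have h5 : ‖f‖ ≤ ω⁻¹ * ‖h‖ := by rw [le_inv_mul_iff₀ hω0]; exact hfn
      have h6 : ‖f‖ ≤ 2 * ‖h‖ := h5.trans (mul_le_mul_of_nonneg_right hω2 (norm_nonneg _))
      have h7 : j + 1 + m = j + (m + 1) := by ring
      rw [h7] at h2
      have h8 : (1 : ℝ) ≤ 2 ^ m := one_le_pow₀ (by norm_num)
      change ‖inner ℂ h (M.tv x (si j) (fun _ => 0) e)‖ ≤ _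
      rw [← h1]
      refine (norm_add_le _ _).trans ?_
      have h9 : ‖inner ℂ f (M.U x (si j) (fun _ => 0) e)‖ ≤ 2 * ‖h‖ * u := h3.trans
        (mul_le_mul h6 h4 (norm_nonneg _) (mul_nonneg zero_le_two (norm_nonneg _)))
      have h10 : ω⁻¹ ^ m * ‖v (j + (m + 1))‖ * ‖f‖ ≤ ω⁻¹ ^ m * ‖v (j + (m + 1))‖ * (ω⁻¹ * ‖h‖) :=
        mul_le_mul_of_nonneg_left h5 (mul_nonneg (pow_nonneg (inv_nonneg.2 hω0.le) _) (norm_nonneg _))
      have h11 : m * 2 ^ m * u * ‖f‖ ≤ m * 2 ^ m * u * (2 * ‖h‖) := mul_le_mul_of_nonneg_left h6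
        (mul_nonneg (mul_nonneg (Nat.cast_nonneg _) (pow_nonneg zero_le_two _)) hu0)
      have h12 : 2 * ‖h‖ * u * 1 ≤ 2 * ‖h‖ * u * 2 ^ m := mul_le_mul_of_nonneg_left h8
        (mul_nonneg (mul_nonneg zero_le_two (norm_nonneg _)) hu0)
      push_cast
      rw [pow_succ, pow_succ]
      change ‖inner ℂ f (v (j + 1))‖ + _ ≤ _
      linarith only [h2, h9, h10, h11, h12]
  obtain ⟨s₀, hs₀, hd⟩ := hk (v 0) (C₂ * ‖e‖) (by positivity) (M.Lam_tv (ns 0) Nice.zero x e)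
    (M.loc_tv (by positivity) hA0 (cs 0) (c0 _ (by positivity)) (ss 0) HasCompactSupport.zero x e)
  let Ec : Submodule ℂ (L2 F) := (Submodule.span ℂ (M.eigSec k N)).topologicalClosure
  haveI : CompleteSpace Ec := (Submodule.isClosed_topologicalClosure _).completeSpace_coe
  have hE1 : Ec ≤ M.sector k N := Submodule.topologicalClosure_minimal _
    (Submodule.span_le.2 fun g hg => M.eigSec_sector hg) (M.isClosed_sector k N)
  have hE2 : Ec ≤ M.eigAll := Submodule.topologicalClosure_minimal _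
    (Submodule.span_le.2 fun g hg => M.eigSec_eigAll hg) (Submodule.isClosed_topologicalClosure _)
  set g := Ec.starProjection s₀ with hg
  have hgE : g ∈ Ec := Ec.starProjection_apply_mem s₀
  have hko : ∀ a ∈ Ec, inner ℂ a (s₀ - g) = 0 := fun a ha => by
    rw [← inner_conj_symm, Ec.starProjection_inner_eq_zero s₀ a ha, map_zero]
  have h1 := iter n 0 (by omega) (s₀ - g) ((M.sector k N).sub_mem hs₀ (hE1 hgE))
    fun a ha => hko a (Submodule.le_topologicalClosure _ (Submodule.subset_span ha))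
  rw [zero_add] at h1
  have h2 : ‖s₀ - g‖ ≤ ω⁻¹ ^ n * ‖v n‖ + n * 2 ^ n * u + ‖v 0 - s₀‖ := by
    have h3 : inner ℂ (s₀ - g) (s₀ - g) = inner ℂ (s₀ - g) (v 0) - inner ℂ (s₀ - g) (v 0 - s₀) := by
      have h4 : inner ℂ (s₀ - g) g = 0 := by rw [← inner_conj_symm, hko g hgE, map_zero]
      rw [← inner_sub_right, sub_sub_cancel, inner_sub_right (s₀ - g) s₀ g, h4, sub_zero]
    have h5 := norm_sub_le (inner ℂ (s₀ - g) (v 0)) (inner ℂ (s₀ - g) (v 0 - s₀))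
    have h6 := norm_inner_le_norm (𝕜 := ℂ) (s₀ - g) (v 0 - s₀)
    rw [← h3, inner_self_eq_norm_sq_to_K, norm_pow, RCLike.norm_ofReal, abs_norm] at h5
    rcases (norm_nonneg (s₀ - g)).eq_or_lt with h0 | h0
    · rw [← h0]
      exact add_nonneg (add_nonneg (mul_nonneg (pow_nonneg (inv_nonneg.2 hω0.le) _) (norm_nonneg _))
        (mul_nonneg (mul_nonneg (Nat.cast_nonneg _) (pow_nonneg zero_le_two _)) hu0)) (norm_nonneg _)
    · exact le_of_mul_le_mul_right (by linarith only [h1, h5, h6]) h0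
  have h3 : ‖v 0 - M.P (v 0)‖ ≤ ‖v 0 - g‖ := by
    rw [P, Submodule.starProjection_minimal]
    exact ciInf_le ⟨0, by rintro _ ⟨a, rfl⟩; exact norm_nonneg _⟩ (⟨g, hE2 hgE⟩ : M.eigAll)
  have h4 : ‖v 0 - g‖ ≤ ‖v 0 - s₀‖ + ‖s₀ - g‖ := norm_sub_le_norm_sub_add_norm_sub _ _ _
  have h5 : ω⁻¹ ^ n * ‖v n‖ ≤ η / 2 * ‖v 0‖ := by
    calc ω⁻¹ ^ n * ‖v n‖ ≤ ω⁻¹ ^ n * (t₀ ^ n * ‖v 0‖) :=
          mul_le_mul_of_nonneg_left hvn (pow_nonneg (inv_nonneg.2 hω0.le) _)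
      _ = (ω⁻¹ * t₀) ^ n * ‖v 0‖ := by rw [mul_pow, mul_assoc]
      _ ≤ _ := mul_le_mul_of_nonneg_right hn.le (norm_nonneg _)
  rw [← hv0]
  have h6 : (2 * Cn * C₂ + n * 2 ^ n * C₁) * ‖e‖ / ‖x‖ =
      2 * (Cn * (C₂ * ‖e‖) / ‖x‖) + n * 2 ^ n * u := by rw [hu]; ring
  rw [h6]
  linarith

end Model

end Pool.Agent.Work.MP_0d9e46_mp
end
end
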