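import Pool.Agent.Work.MP_0d9e46_mp.Vop

/-! Operator identities and the link with eigenfunctions. -/

open MeasureTheory Filter Topology FourierTransform
open scoped Real ENNReal

noncomputable section

namespace Pool.Agent.Work.MP_0d9e46_mp

variable {F : Type} [NormedAddCommGroup F] [InnerProductSpace ℂ F] [CompleteSpace F]
  [FiniteDimensional ℂ F]

set_option linter.unusedSectionVars false

namespace OpsAux

omit [FiniteDimensional ℂ F] in
lemma mulOp_sa {m : E3 → F →L[ℂ] F} (hm : MemLp m ⊤ volume)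
    (h : ∀ ξ u v, inner ℂ (m ξ u) v = inner ℂ u (m ξ v)) (f g : L2 F) :
    inner ℂ (mulOp m hm f) g = inner ℂ f (mulOp m hm g) := by
  rw [L2.inner_def, L2.inner_def]
  refine integral_congr_ae ?_
  filter_upwards [mulOp_ae m hm f, mulOp_ae m hm g] with ξ h1 h2
  rw [h1, h2, h]

/-- The symbol of the sharp cutoff to a ball. -/
def cut (F : Type) [NormedAddCommGroup F] [InnerProductSpace ℂ F] (r : ℝ) : E3 → F →L[ℂ] F :=
  (Metric.closedBall (0 : E3) r).indicator fun _ => ContinuousLinearMap.id ℂ F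

lemma memLp_ind {G : Type} [NormedAddCommGroup G] (c : G) (r : ℝ) :
    MemLp ((Metric.closedBall (0 : E3) r).indicator fun _ => c) ⊤ volume :=
  (memLp_top_const _).indicator measurableSet_closedBall

omit [FiniteDimensional ℂ F] [CompleteSpace F] in
lemma memLp_cut (r : ℝ) : MemLp (cut F r) ⊤ volume :=
  memLp_ind (G := F →L[ℂ] F) (ContinuousLinearMap.id ℂ F) r

omit [FiniteDimensional ℂ F] [CompleteSpace F] in
lemma cut_apply (r : ℝ) (h : E3 → F) (ξ : E3) :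
    cut F r ξ (h ξ) = (Metric.closedBall (0 : E3) r).indicator h ξ := by
  by_cases hξ : ξ ∈ Metric.closedBall (0 : E3) r <;> simp [cut, hξ]

/-- The sharp cutoff to a ball. -/
def Cut (r : ℝ) : L2 F →L[ℂ] L2 F := mulOp (cut F r) (memLp_cut r)

omit [FiniteDimensional ℂ F] in
lemma Cut_ae (r : ℝ) (h : L2 F) :
    Cut r h =ᵐ[volume] (Metric.closedBall (0 : E3) r).indicator h := by
  filter_upwards [mulOp_ae (cut F r) (memLp_cut r) h] with ξ h1
  rw [← cut_apply, ← h1]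
  rfl

omit [FiniteDimensional ℂ F] in
lemma Cut_sa (r : ℝ) (f g : L2 F) : inner ℂ (Cut r f) g = inner ℂ f (Cut r g) :=
  mulOp_sa _ (fun ξ u v => by
    by_cases hξ : ξ ∈ Metric.closedBall (0 : E3) r <;> simp [cut, hξ]) f g

omit [FiniteDimensional ℂ F] in
lemma norm_Cut_le (r : ℝ) (f : L2 F) : ‖Cut r f‖ ≤ ‖f‖ := by
  refine Lp.norm_le_norm_of_ae_le ?_
  filter_upwards [Cut_ae r f] with ξ h
  rw [h]
  exact norm_indicator_le_norm_self _ _

omit [FiniteDimensional ℂ F] in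
lemma norm_sub_Cut_le {r c : ℝ} (hc : 0 ≤ c) {f g : L2 F}
    (h : ∀ᵐ ξ : E3, r < ‖ξ‖ → ‖f ξ‖ ≤ c * ‖g ξ‖) : ‖f - Cut r f‖ ≤ c * ‖g‖ := by
  refine Lp.norm_le_mul_norm_of_ae_le_mul ?_
  filter_upwards [Cut_ae r f, Lp.coeFn_sub f (Cut r f), h] with ξ h1 h2 h3
  rw [h2, Pi.sub_apply, h1]
  by_cases hξ : ξ ∈ Metric.closedBall (0 : E3) r
  · rw [Set.indicator_of_mem hξ, sub_self, norm_zero]
    positivity
  · rw [Set.indicator_of_notMem hξ, sub_zero]
    exact h3 (by simpa using hξ)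

/-- A plane wave cut to a ball. -/
def cw (r : ℝ) (y : E3) : E3 → ℂ := (Metric.closedBall (0 : E3) r).indicator fun ξ =>
  Complex.exp (((2 * π * inner ℝ ξ y : ℝ) : ℂ) * Complex.I)

lemma memLp_cw (r : ℝ) (y : E3) : MemLp (cw r y) 2 volume := by
  rw [cw, memLp_indicator_iff_restrict measurableSet_closedBall]
  have : IsFiniteMeasure ((volume : Measure E3).restrict (Metric.closedBall (0 : E3) r)) :=
    isFiniteMeasure_restrict.2 measure_closedBall_lt_top.ne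
  refine MemLp.of_bound (Continuous.aestronglyMeasurable (by fun_prop)) 1 (.of_forall fun ξ => ?_)
  rw [Complex.norm_exp_ofReal_mul_I]

lemma norm_cw_zero (r : ℝ) {ξ : E3} (h : ξ ∈ Metric.closedBall (0 : E3) r) : ‖cw r 0 ξ‖ = 1 := by
  simp [cw, h]

lemma cw_lip (r : ℝ) (y y' : E3) :
    ‖toL2 (cw r y) - toL2 (cw r y')‖ ≤ 2 * π * r * ‖y - y'‖ * ‖toL2 (cw r 0)‖ := by
  refine Lp.norm_le_mul_norm_of_ae_le_mul ?_
  filter_upwards [toL2_ae (memLp_cw r y), toL2_ae (memLp_cw r y'), toL2_ae (memLp_cw r 0),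
    Lp.coeFn_sub (toL2 (cw r y)) (toL2 (cw r y'))] with ξ h1 h2 h3 h4
  rw [h4, Pi.sub_apply, h1, h2, h3]
  by_cases hξ : ξ ∈ Metric.closedBall (0 : E3) r
  · rw [norm_cw_zero r hξ, mul_one, cw, cw, Set.indicator_of_mem hξ, Set.indicator_of_mem hξ]
    have e : Complex.exp (((2 * π * inner ℝ ξ y : ℝ) : ℂ) * Complex.I) -
        Complex.exp (((2 * π * inner ℝ ξ y' : ℝ) : ℂ) * Complex.I) =
        Complex.exp (((2 * π * inner ℝ ξ y' : ℝ) : ℂ) * Complex.I) *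
          (Complex.exp (Complex.I * ((2 * π * inner ℝ ξ (y - y') : ℝ) : ℂ)) - 1) := by
      rw [mul_sub, mul_one, ← Complex.exp_add, inner_sub_right]
      congr 2
      push_cast
      ring
    rw [e, norm_mul, Complex.norm_exp_ofReal_mul_I, one_mul]
    refine Real.norm_exp_I_mul_ofReal_sub_one_le.trans ?_
    have h5 := norm_inner_le_norm (𝕜 := ℝ) ξ (y - y')
    have h6 : ‖ξ‖ ≤ r := by simpa using hξ
    rw [norm_mul, Real.norm_of_nonneg (by positivity : (0 : ℝ) ≤ 2 * π), mul_assoc (2 * π)]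
    exact mul_le_mul_of_nonneg_left (h5.trans (by gcongr)) (by positivity)
  · simp [cw, hξ]

/-- The pairing of a scalar and a vector valued function. -/
def pair : L2 ℂ →L[ℂ] L2 F →L[ℂ] F := (ContinuousLinearMap.lsmul ℂ ℂ).lpPairing volume 2 2

lemma bil_bound {A B C : Type} [NormedAddCommGroup A] [NormedSpace ℂ A] [NormedAddCommGroup B]
    [NormedSpace ℂ B] [NormedAddCommGroup C] [NormedSpace ℂ C] (P : A →L[ℂ] B →L[ℂ] C) :
    ∃ Cp : ℝ, 0 ≤ Cp ∧ ∀ a h, ‖P a h‖ ≤ Cp * ‖a‖ * ‖h‖ :=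
  ⟨‖P‖, P.opNorm_nonneg, fun a h => P.le_opNorm₂ a h⟩

omit [FiniteDimensional ℂ F] in
lemma pair_bound : ∃ Cp : ℝ, 0 ≤ Cp ∧ ∀ (a : L2 ℂ) (h : L2 F), ‖pair a h‖ ≤ Cp * ‖a‖ * ‖h‖ :=
  bil_bound (A := L2 ℂ) (B := L2 F) (C := F) pair

omit [FiniteDimensional ℂ F] in
lemma pair_cw (r : ℝ) (h : L2 F) :
    (FT F).symm (Cut r h) =ᵐ[volume] fun y => pair (toL2 (cw r y)) h := by
  rw [← toL2_eq (Cut_ae r h).symm]
  filter_upwards [l1l2 (integrable_trunc h r) (memLp_trunc h r)] with y hy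
  rw [hy, Real.fourierInv_eq', pair, ContinuousLinearMap.lpPairing_eq_integral]
  refine integral_congr_ae ?_
  filter_upwards [toL2_ae (memLp_cw r y)] with ξ h1
  rw [h1]
  by_cases hξ : ξ ∈ Metric.closedBall (0 : E3) r <;> simp [cw, hξ]

omit [FiniteDimensional ℂ F] in
/-- Localisation in space and in frequency is compact. -/
lemma compact_Cut {r ε : ℝ} (hr : 0 < r) (hε : 0 < ε) :
    ∃ (p : ℕ) (ℓ : L2 F →L[ℂ] (Fin p → F)) (C : ℝ), ∀ h : L2 F,
      ‖Cut r ((FT F).symm (Cut r h))‖ ≤ ε * ‖h‖ + C * ‖ℓ h‖ := by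
  obtain ⟨Cp, hCp, hb⟩ := pair_bound (F := F)
  set a := ‖toL2 (cw r 0)‖ with ha
  set K := Cp * (2 * π * r * a) * a + 1 with hK
  have hK0 : 0 < K := by positivity
  obtain ⟨t, ht, hcov⟩ := Metric.totallyBounded_iff.1
    (isCompact_closedBall (0 : E3) r).totallyBounded (ε / K) (by positivity)
  obtain ⟨p, z, -, hz⟩ := ht.fin_param
  refine ⟨p, ContinuousLinearMap.pi fun i => pair (toL2 (cw r (z i))), a, fun h => ?_⟩
  set l := ‖(ContinuousLinearMap.pi fun i => pair (toL2 (cw r (z i))) : L2 F →L[ℂ] (Fin p → F)) h‖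
    with hl
  have key : ‖Cut r ((FT F).symm (Cut r h))‖ ≤
      (Cp * (2 * π * r * (ε / K) * a) * ‖h‖ + l) * a := by
    refine Lp.norm_le_mul_norm_of_ae_le_mul ?_
    filter_upwards [Cut_ae r ((FT F).symm (Cut r h)), pair_cw r h, toL2_ae (memLp_cw r 0)]
      with y h1 h2 h3
    rw [h1, h3]
    by_cases hy : y ∈ Metric.closedBall (0 : E3) r
    · rw [Set.indicator_of_mem hy, h2, norm_cw_zero r hy, mul_one]
      obtain ⟨w, hw, hyw⟩ := Set.mem_iUnion₂.1 (hcov hy)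
      rw [← hz] at hw
      obtain ⟨i, rfl⟩ := hw
      have h4 : ‖pair (toL2 (cw r (z i))) h‖ ≤ l := norm_le_pi_norm
        ((ContinuousLinearMap.pi fun i => pair (toL2 (cw r (z i))) : L2 F →L[ℂ] (Fin p → F)) h) i
      have h5 : ‖y - z i‖ ≤ ε / K := by
        rw [← dist_eq_norm]; exact (Metric.mem_ball.1 hyw).le
      have h6 := hb (toL2 (cw r y) - toL2 (cw r (z i))) h
      rw [map_sub, sub_apply] at h6
      have h7 : ‖toL2 (cw r y) - toL2 (cw r (z i))‖ ≤ 2 * π * r * (ε / K) * a :=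
        (cw_lip r y (z i)).trans (by gcongr)
      have h8 := norm_le_norm_sub_add (pair (toL2 (cw r y)) h) (pair (toL2 (cw r (z i))) h)
      have h9 : Cp * ‖toL2 (cw r y) - toL2 (cw r (z i))‖ * ‖h‖ ≤
        Cp * (2 * π * r * (ε / K) * a) * ‖h‖ := by gcongr
      linarith
    · rw [Set.indicator_of_notMem hy, norm_zero]
      positivity
  refine key.trans ?_
  have h1 : (Cp * (2 * π * r * a) * a) / K ≤ 1 :=
    div_le_one_of_le₀ (by linarith) hK0.le
  calc _ = (Cp * (2 * π * r * a) * a) / K * (ε * ‖h‖) + a * l := by ring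
    _ ≤ 1 * (ε * ‖h‖) + a * l := by gcongr
    _ = _ := by rw [one_mul]

end OpsAux

open OpsAux

namespace Model

variable (M : Model F)

lemma o_La_apply (ξ : E3) (u : F) :
    M.La ξ u = (((1 + M.σ) / 2 : ℝ) : ℂ) • u + (((1 - M.σ) / 2 : ℝ) : ℂ) • M.B ξ u := by
  simp only [La, Pp, Pm, add_apply, smul_apply,
    sub_apply, ContinuousLinearMap.id_apply]
  push_cast
  module

lemma o_G_apply (ξ : E3) (u : F) : M.G ξ u = (((M.E ξ)⁻¹ : ℝ) : ℂ) • M.B ξ u := rfl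

lemma o_T_apply (ξ : E3) (u : F) : M.T ξ u = (M.E ξ : ℂ) • M.B ξ u - (M.sh : ℂ) • u := rfl

lemma o_La_sa (ξ : E3) (u v : F) : inner ℂ (M.La ξ u) v = inner ℂ u (M.La ξ v) := by
  simp only [o_La_apply, inner_add_left, inner_add_right, inner_smul_left, inner_smul_right,
    Complex.conj_ofReal, M.B_sa]

lemma o_G_sa (ξ : E3) (u v : F) : inner ℂ (M.G ξ u) v = inner ℂ u (M.G ξ v) := by
  simp only [o_G_apply, inner_smul_left, inner_smul_right, Complex.conj_ofReal, M.B_sa]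

lemma o_T_sa (ξ : E3) (u v : F) : inner ℂ (M.T ξ u) v = inner ℂ u (M.T ξ v) := by
  simp only [o_T_apply, inner_sub_left, inner_sub_right, inner_smul_left, inner_smul_right,
    Complex.conj_ofReal, M.B_sa]

lemma o_La_La (ξ : E3) (u : F) : M.La ξ (M.La ξ u) = M.La ξ u := by
  simp only [o_La_apply, map_add, map_smul, M.B_sq]
  rcases M.hσ with h | h <;> rw [h] <;> push_cast <;> module

lemma o_La_G (ξ : E3) (u : F) : M.La ξ (M.G ξ u) = M.G ξ (M.La ξ u) := by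
  simp only [o_La_apply, o_G_apply, map_add, map_smul, M.B_sq]
  module

lemma o_T_G (ξ : E3) (u : F) : M.T ξ (M.G ξ u) = u - (M.sh : ℂ) • M.G ξ u := by
  have : (M.E ξ : ℂ) ≠ 0 := Complex.ofReal_ne_zero.2 (M.E_pos ξ).ne'
  rw [o_T_apply, o_G_apply, map_smul, M.B_sq, smul_smul, Complex.ofReal_inv, mul_inv_cancel₀ this,
    one_smul]

lemma o_one_le_E (ξ : E3) : 1 ≤ M.E ξ := (one_le_pow₀ M.one_lt_c.le).trans (M.csq_le_E ξ)

lemma o_norm_le_E (ξ : E3) : ‖ξ‖ ≤ M.E ξ := by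
  refine le_trans (le_mul_of_one_le_left (norm_nonneg _) ?_) (M.mul_norm_le_E ξ)
  have := M.one_lt_c
  have := Real.two_le_pi
  nlinarith

lemma o_norm_G_apply_le (ξ : E3) (u : F) : ‖M.G ξ u‖ ≤ (M.E ξ)⁻¹ * ‖u‖ :=
  ((M.G ξ).le_opNorm _).trans (mul_le_mul_of_nonneg_right (M.norm_G_le' ξ) (norm_nonneg _))

theorem Lam_sa (f g : L2 F) : inner ℂ (M.Lam f) g = inner ℂ f (M.Lam g) :=
  mulOp_sa _ M.o_La_sa f g

theorem Lam_Lam (f : L2 F) : M.Lam (M.Lam f) = M.Lam f := by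
  refine Lp.ext ?_
  filter_upwards [M.Lam_ae f, M.Lam_ae (M.Lam f)] with ξ h1 h2
  rw [h2, h1, o_La_La]

theorem norm_Lam_le (f : L2 F) : ‖M.Lam f‖ ≤ ‖f‖ := by
  have h1 : ‖M.Lam f‖ * ‖M.Lam f‖ ≤ ‖f‖ * ‖M.Lam f‖ := by
    rw [← inner_self_eq_norm_mul_norm (𝕜 := ℂ), Lam_sa, Lam_Lam]
    exact (RCLike.re_le_norm _).trans (norm_inner_le_norm _ _)
  rcases (norm_nonneg (M.Lam f)).eq_or_lt with h | h
  · rw [← h]; exact norm_nonneg _
  · exact le_of_mul_le_mul_right h1 h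

theorem G0_sa (f g : L2 F) : inner ℂ (M.G0 f) g = inner ℂ f (M.G0 g) :=
  mulOp_sa _ M.o_G_sa f g

theorem Lam_G0 (f : L2 F) : M.Lam (M.G0 f) = M.G0 (M.Lam f) := by
  refine Lp.ext ?_
  filter_upwards [M.Lam_ae f, M.Lam_ae (M.G0 f), M.G0_ae f, M.G0_ae (M.Lam f)] with ξ h1 h2 h3 h4
  rw [h2, h3, h4, h1, o_La_G]

theorem norm_G0_le (f : L2 F) : ‖M.G0 f‖ ≤ (M.c ^ 2)⁻¹ * ‖f‖ := by
  refine Lp.norm_le_mul_norm_of_ae_le_mul ?_
  filter_upwards [M.G0_ae f] with ξ h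
  rw [h]
  exact ((M.G ξ).le_opNorm _).trans (mul_le_mul_of_nonneg_right (M.norm_G_le ξ) (norm_nonneg _))

lemma o_norm_G0_le_self (f : L2 F) : ‖M.G0 f‖ ≤ ‖f‖ :=
  (M.norm_G0_le f).trans (mul_le_of_le_one_left (norm_nonneg _)
    (inv_le_one_of_one_le₀ (one_le_pow₀ M.one_lt_c.le)))

lemma o_inner_V_right (f k : L2 F) : inner ℂ f (M.V k) =
    ∫ y : E3, ((‖y‖⁻¹ : ℝ) : ℂ) * inner ℂ ((FT F).symm f y) ((FT F).symm (M.G0 k) y) := by
  rw [← (FT F).symm.inner_map_map, L2.inner_def]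
  refine integral_congr_ae ?_
  filter_upwards [M.V_ae k] with y h
  rw [h, ← Complex.coe_smul, inner_smul_right]

lemma o_inner_V_left (f k : L2 F) : inner ℂ (M.V k) f =
    ∫ y : E3, ((‖y‖⁻¹ : ℝ) : ℂ) * inner ℂ ((FT F).symm (M.G0 k) y) ((FT F).symm f y) := by
  rw [← (FT F).symm.inner_map_map, L2.inner_def]
  refine integral_congr_ae ?_
  filter_upwards [M.V_ae k] with y h
  rw [h, ← Complex.coe_smul, inner_smul_left, Complex.conj_ofReal]

theorem V_symm (f g : L2 F) : inner ℂ (M.G0 f) (M.V g) = inner ℂ (M.V f) (M.G0 g) := by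
  rw [o_inner_V_right, o_inner_V_left]

theorem norm_V_le_of_avg (k : Fin 3) {N : ℕ} (hN : 0 < N) (h : L2 F)
    (h0 : ∀ᵐ ξ : E3, ∑ j ∈ Finset.range N, M.G0 h (rot k (-(2 * π * j / N)) ξ) = 0) :
    ‖M.V h‖ ≤ M.γ * ‖h‖ := by
  have h1 : eLpNorm (fun y : E3 => ‖y‖⁻¹ • (FT F).symm (M.G0 h) y) 2 volume ≤
      ENNReal.ofReal M.γ * eLpNorm h 2 volume := by
    refine (hardy1 k hN (M.G0 h) h0).trans ?_
    refine (mul_le_mul_right (M.eLpNorm_norm_G0 h) _).trans (le_of_eq ?_)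
    rw [← mul_assoc, ← ENNReal.ofReal_mul (by positivity)]
    congr 2
    field_simp
  rw [← (FT F).symm.norm_map, Lp.norm_def, eLpNorm_congr_ae (M.V_ae h), Lp.norm_def h]
  have := ENNReal.toReal_mono (ENNReal.mul_ne_top ENNReal.ofReal_ne_top (Lp.eLpNorm_ne_top h)) h1
  rwa [ENNReal.toReal_mul, ENNReal.toReal_ofReal M.γ_pos.le] at this

lemma o_inForm_G0 {k : L2 F} (hk : M.Lam k = k) : InForm M.La ((FT F).symm (M.G0 k)) := by
  rw [InForm, LinearIsometryEquiv.apply_symm_apply]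
  constructor
  · refine ((Lp.memLp k).integrable_norm_pow two_ne_zero).mono'
      (continuous_norm.aestronglyMeasurable.mul ((Lp.aestronglyMeasurable _).norm.pow 2)) ?_
    filter_upwards [M.G0_ae k] with ξ h
    rw [h, Real.norm_of_nonneg (by positivity)]
    have h1 := M.o_norm_G_apply_le ξ (k ξ)
    have h2 := M.E_pos ξ
    have h3 : (M.E ξ)⁻¹ ≤ 1 := inv_le_one_of_one_le₀ (M.o_one_le_E ξ)
    calc ‖ξ‖ * ‖M.G ξ (k ξ)‖ ^ 2 ≤ M.E ξ * ((M.E ξ)⁻¹ * ‖k ξ‖) ^ 2 := by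
          gcongr
          exact M.o_norm_le_E ξ
      _ = (M.E ξ)⁻¹ * ‖k ξ‖ ^ 2 := by field_simp
      _ ≤ _ := mul_le_of_le_one_left (by positivity) h3
  · filter_upwards [M.Lam_ae (M.G0 k)] with ξ h
    rw [← h, Lam_G0, hk]

lemma o_Lam_of_inForm {φ : L2 F} (h : InForm M.La φ) : M.Lam (FT F φ) = FT F φ := by
  refine Lp.ext ?_
  filter_upwards [M.Lam_ae (FT F φ), h.2] with ξ h1 h2
  rw [h1, h2]

lemma o_T_G0_ae (k : L2 F) :
    ∀ᵐ ξ : E3, M.T ξ (M.G0 k ξ) = (k - (M.sh : ℂ) • M.G0 k : L2 F) ξ := by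
  filter_upwards [M.G0_ae k, Lp.coeFn_sub k ((M.sh : ℂ) • M.G0 k),
    Lp.coeFn_smul (M.sh : ℂ) (M.G0 k)] with ξ h1 h2 h3
  rw [h2, Pi.sub_apply, h3, Pi.smul_apply, h1, o_T_G]

theorem rel_of_eig {e : ℝ} {f : L2 F} (hf : f ∈ M.eig e) :
    M.Rel f (((e + M.sh : ℝ) : ℂ) • f) := by
  intro φ hφ
  rw [inner_smul_left, Complex.conj_ofReal]
  induction hf using Submodule.span_induction with
  | mem f hf =>
    have h1 := hf.2 _ (M.o_inForm_G0 hφ)
    have h2 : (∫ ξ : E3, inner ℂ (M.G0 φ ξ) (M.T ξ (f ξ))) =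
        inner ℂ (φ - (M.sh : ℂ) • M.G0 φ) f := by
      rw [L2.inner_def]
      refine integral_congr_ae ?_
      filter_upwards [M.o_T_G0_ae φ] with ξ h
      rw [← o_T_sa, h]
    rw [LinearIsometryEquiv.apply_symm_apply, LinearIsometryEquiv.apply_symm_apply, h2,
      ← o_inner_V_left, LinearIsometryEquiv.inner_map_map, inner_sub_left, inner_smul_left,
      Complex.conj_ofReal] at h1
    have h3 : inner ℂ (φ - M.V φ) f = ((e + M.sh : ℝ) : ℂ) * inner ℂ (M.G0 φ) f := by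
      rw [inner_sub_left]
      push_cast
      linear_combination h1
    rw [← inner_conj_symm, h3, map_mul, Complex.conj_ofReal, inner_conj_symm]
  | zero => simp
  | add f g _ _ h1 h2 => rw [inner_add_left, inner_add_left, h1, h2, mul_add]
  | smul a f _ h1 => rw [inner_smul_left, inner_smul_left, h1, mul_left_comm]

theorem eig_orth {e e' : ℝ} (hne : e ≠ e') {f f' : L2 F} (hf : f ∈ M.eig e)
    (hf' : f' ∈ M.eig e') : inner ℂ f f' = 0 := by
  induction hf using Submodule.span_induction with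
  | mem f hf =>
    induction hf' using Submodule.span_induction with
    | mem f' hf' =>
      have h1 := congrArg (starRingEnd ℂ) (hf.2 _ hf'.1)
      have h2 := hf'.2 _ hf.1
      rw [map_sub, map_mul, ← integral_conj, ← integral_conj, Complex.conj_ofReal,
        inner_conj_symm] at h1
      simp only [map_mul, Complex.conj_ofReal, inner_conj_symm, o_T_sa] at h1
      rw [h1, LinearIsometryEquiv.inner_map_map] at h2
      exact (mul_eq_mul_right_iff.1 h2).resolve_left fun h => hne (Complex.ofReal_injective h)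
    | zero => simp
    | add f g _ _ h1 h2 => rw [inner_add_right, h1, h2, add_zero]
    | smul a f _ h1 => rw [inner_smul_right, h1, mul_zero]
  | zero => simp
  | add f g _ _ h1 h2 => rw [inner_add_left, h1, h2, add_zero]
  | smul a f _ h1 => rw [inner_smul_left, h1, mul_zero]

theorem Lam_of_eigAll {f : L2 F} (hf : f ∈ M.eigAll) : M.Lam f = f := by
  have : M.eigAll ≤ LinearMap.eqLocus (M.Lam : L2 F →ₗ[ℂ] L2 F) LinearMap.id := by
    refine Submodule.topologicalClosure_minimal _ (iSup₂_le fun e _ => ?_)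
      (isClosed_eq M.Lam.continuous continuous_id)
    refine Submodule.span_le.2 fun g hg => ?_
    have := M.o_Lam_of_inForm hg.1
    rwa [LinearIsometryEquiv.apply_symm_apply] at this
  exact this hf

theorem rel_of_pair (k : L2 F) : M.Rel (M.G0 k) (k - M.Lam (M.V k)) := by
  intro φ hφ
  rw [inner_sub_right, inner_sub_left, G0_sa, V_symm, Lam_sa, Lam_G0, hφ]

theorem eig_of_pair {k : L2 F} (hk : M.Lam k = k) {e : ℝ}
    (h : k - M.Lam (M.V k) = (e : ℂ) • M.G0 k) : M.G0 k ∈ M.eig (e - M.sh) := by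
  refine Submodule.subset_span ⟨M.o_inForm_G0 hk, fun φ hφ => ?_⟩
  have h2 : (∫ ξ : E3, inner ℂ (FT F φ ξ) (M.T ξ (M.G0 k ξ))) =
      inner ℂ (FT F φ) (k - (M.sh : ℂ) • M.G0 k) := by
    rw [L2.inner_def]
    refine integral_congr_ae ?_
    filter_upwards [M.o_T_G0_ae k] with ξ h
    rw [h]
  have h3 := M.o_inner_V_right (FT F φ) k
  rw [LinearIsometryEquiv.symm_apply_apply] at h3
  have h4 := congrArg (inner ℂ (FT F φ)) h
  rw [inner_sub_right, ← Lam_sa, M.o_Lam_of_inForm hφ, inner_smul_right] at h4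
  rw [LinearIsometryEquiv.apply_symm_apply, h2, ← h3, ← (FT F).inner_map_map φ,
    LinearIsometryEquiv.apply_symm_apply, inner_sub_right, inner_smul_right]
  push_cast
  linear_combination h4

theorem compact_V {ε : ℝ} (hε : 0 < ε) :
    ∃ (p : ℕ) (ℓ : L2 F →L[ℂ] (Fin p → F)) (C : ℝ), ∀ f k : L2 F,
      ‖inner ℂ (M.G0 f) (M.V k)‖ ≤ (ε * ‖f‖ + C * ‖ℓ f‖) * ‖k‖ := by
  set r := (ε / 5)⁻¹ with hr
  have hr0 : 0 < r := by positivity
  have hri : r⁻¹ = ε / 5 := inv_inv _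
  obtain ⟨p, ℓ, C, hC⟩ := compact_Cut (F := F) hr0 (ε := ε / 5) (by positivity)
  refine ⟨p, ℓ ∘L M.G0, 2 * C, fun f k => ?_⟩
  set u := (FT F).symm (M.G0 f) with hu
  set z := (FT F).symm (M.V k) with hz
  have hf := M.o_norm_G0_le_self f
  have hk := M.o_norm_G0_le_self k
  have hun : ‖u‖ ≤ ‖f‖ := by rwa [hu, LinearIsometryEquiv.norm_map]
  have hzn : ‖z‖ ≤ 2 * ‖k‖ := by
    rw [hz, LinearIsometryEquiv.norm_map]; exact M.norm_V_le k
  have h1 : ‖z - Cut r z‖ ≤ ε / 5 * ‖k‖ := by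
    refine (norm_sub_Cut_le (g := (FT F).symm (M.G0 k)) (c := ε / 5) (by positivity) ?_).trans ?_
    · filter_upwards [M.V_ae k] with y h hy
      rw [h, norm_smul, norm_inv, norm_norm, ← hri]
      gcongr
    · rw [LinearIsometryEquiv.norm_map]
      gcongr
  have h2 : ‖M.G0 f - Cut r (M.G0 f)‖ ≤ ε / 5 * ‖f‖ := by
    refine norm_sub_Cut_le (by positivity) ?_
    filter_upwards [M.G0_ae f] with ξ h hξ
    rw [h, ← hri]
    refine (M.o_norm_G_apply_le ξ _).trans ?_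
    gcongr
    exact hξ.le.trans (M.o_norm_le_E ξ)
  have h3 : ‖Cut r u‖ ≤ ε / 5 * ‖f‖ + (ε / 5 * ‖f‖ + C * ‖ℓ (M.G0 f)‖) := by
    have e : Cut r u = Cut r ((FT F).symm (M.G0 f - Cut r (M.G0 f))) +
        Cut r ((FT F).symm (Cut r (M.G0 f))) := by
      rw [← map_add, ← map_add, sub_add_cancel]
    rw [e]
    refine (norm_add_le _ _).trans (add_le_add ((norm_Cut_le _ _).trans ?_) ((hC _).trans ?_))
    · rwa [LinearIsometryEquiv.norm_map]
    · gcongr
  have h4 : inner ℂ (M.G0 f) (M.V k) = inner ℂ (Cut r u) z + inner ℂ u (z - Cut r z) := by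
    rw [Cut_sa, ← inner_add_right, add_sub_cancel, hu, hz, LinearIsometryEquiv.inner_map_map]
  have h5 : ‖inner ℂ (Cut r u) z‖ ≤
      (ε / 5 * ‖f‖ + (ε / 5 * ‖f‖ + C * ‖ℓ (M.G0 f)‖)) * (2 * ‖k‖) :=
    (norm_inner_le_norm _ _).trans
      (mul_le_mul h3 hzn (norm_nonneg _) ((norm_nonneg _).trans h3))
  have h6 : ‖inner ℂ u (z - Cut r z)‖ ≤ ‖f‖ * (ε / 5 * ‖k‖) :=
    (norm_inner_le_norm _ _).trans (mul_le_mul hun h1 (norm_nonneg _) (norm_nonneg _))
  rw [h4, ContinuousLinearMap.comp_apply]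
  refine (norm_add_le _ _).trans ((add_le_add h5 h6).trans (le_of_eq ?_))
  ring

end Model

end Pool.Agent.Work.MP_0d9e46_mp
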