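import Pool.Agent.Work.MP_0d9e46_mp.Tv
import Pool.Agent.Work.MP_0d9e46_mp.Low

-- merged part: Pool.Agent.Work.MP_0d9e46_mp.Vol
section
/-! Phase space volumes. -/

open MeasureTheory Filter Topology FourierTransform
open scoped Real ENNReal

noncomputable section

namespace Pool.Agent.Work.MP_0d9e46_mp

/-- The limiting scaled volume of `{t ≤ s}`. -/
def vv (s : ℝ) : ℝ := π * 4 / 3 * (s / (2 * π ^ 2)) ^ (3 / 2 : ℝ)

lemma continuous_vv : Continuous vv :=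
  continuous_const.mul ((continuous_id.div_const _).rpow_const fun _ => Or.inr (by norm_num))

lemma vv_one : vv 1 = √2 / (3 * π ^ 2) := by
  have hp := Real.pi_pos
  have h2 : √2 * √2 = 2 := Real.mul_self_sqrt (by norm_num)
  have h1 : (1 / (2 * π ^ 2) : ℝ) = (√2 / (2 * π)) ^ 2 := by
    rw [div_pow, Real.sq_sqrt (by norm_num)]; field_simp
  rw [vv, h1, ← Real.rpow_natCast, ← Real.rpow_mul (by positivity)]
  norm_num
  field_simp
  linear_combination 4 * h2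

lemma vol_ball {z : ℝ} (hz : 0 ≤ z) :
    volume {ξ : E3 | ‖ξ‖ ^ 2 ≤ z} = ENNReal.ofReal (π * 4 / 3 * z ^ (3 / 2 : ℝ)) := by
  have h1 : {ξ : E3 | ‖ξ‖ ^ 2 ≤ z} = Metric.closedBall 0 √z := by
    ext ξ
    rw [mem_closedBall_zero_iff, Set.mem_setOf_eq, Real.le_sqrt (norm_nonneg _) hz]
  rw [h1, EuclideanSpace.volume_closedBall_fin_three, ← ENNReal.ofReal_pow (Real.sqrt_nonneg _),
    ← ENNReal.ofReal_mul (by positivity)]
  congr 1
  rw [Real.sqrt_eq_rpow, ← Real.rpow_natCast, ← Real.rpow_mul hz]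
  norm_num
  ring

variable {F : Type} [NormedAddCommGroup F] [InnerProductSpace ℂ F] [CompleteSpace F]
  [FiniteDimensional ℂ F]

namespace Model

variable (M : Model F)

lemma t_le_iff {R s : ℝ} (hR : 0 < R) (hs : 0 ≤ s) (ξ : E3) :
    M.t R ξ ≤ s ↔ ‖ξ‖ ^ 2 ≤ (2 * s + s ^ 2 / (M.c ^ 2 * R)) / (4 * π ^ 2) / R := by
  have hc := M.c_pos
  have hp := Real.pi_pos
  have h1 : M.t R ξ ≤ s ↔ M.E ξ ≤ M.c ^ 2 + s / R := by
    rw [t, ← le_div_iff₀' hR, sub_le_iff_le_add']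
  have h2 : (2 * s + s ^ 2 / (M.c ^ 2 * R)) / (4 * π ^ 2) / R =
      ((M.c ^ 2 + s / R) ^ 2 - M.c ^ 4) / (4 * π ^ 2 * M.c ^ 2) := by
    field_simp; ring
  rw [h1, h2, le_div_iff₀ (by positivity), ← pow_le_pow_iff_left₀ (M.E_pos ξ).le (by positivity)
    two_ne_zero, M.E_sq]
  constructor <;> intro h <;> linarith

/-- The volume of a sublevel set of the scaled kinetic energy. -/
def vol (R s : ℝ) : ℝ := volume.real {ξ : E3 | M.t R ξ ≤ s}

lemma volume_t {R s : ℝ} (hR : 0 < R) (hs : 0 ≤ s) : volume {ξ : E3 | M.t R ξ ≤ s} =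
    ENNReal.ofReal (π * 4 / 3 *
      ((2 * s + s ^ 2 / (M.c ^ 2 * R)) / (4 * π ^ 2) / R) ^ (3 / 2 : ℝ)) := by
  have hc := M.c_pos
  rw [← vol_ball (by positivity)]
  congr 1
  ext ξ
  exact M.t_le_iff hR hs ξ

lemma vol_eq {R s : ℝ} (hR : 0 < R) (hs : 0 ≤ s) : R ^ (3 / 2 : ℝ) * M.vol R s =
    π * 4 / 3 * ((2 * s + s ^ 2 / (M.c ^ 2 * R)) / (4 * π ^ 2)) ^ (3 / 2 : ℝ) := by
  have hc := M.c_pos
  rw [vol, Measure.real, M.volume_t hR hs, ENNReal.toReal_ofReal (by positivity),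
    Real.div_rpow (by positivity) hR.le]
  have : R ^ (3 / 2 : ℝ) ≠ 0 := (Real.rpow_pos_of_pos hR _).ne'
  field_simp

lemma le_vol {R s : ℝ} (hR : 0 < R) (hs : 0 ≤ s) : vv s ≤ R ^ (3 / 2 : ℝ) * M.vol R s := by
  have hc := M.c_pos
  have hp := Real.pi_pos
  rw [M.vol_eq hR hs, vv]
  refine mul_le_mul_of_nonneg_left (Real.rpow_le_rpow (by positivity) ?_ (by norm_num))
    (by positivity)
  rw [div_le_div_iff₀ (by positivity) (by positivity)]
  have : 0 ≤ s ^ 2 / (M.c ^ 2 * R) * (2 * π ^ 2) := by positivity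
  nlinarith

lemma vol_le {R s θ : ℝ} (hθ : 0 < θ) (hR : 2 / θ ≤ R) (hs : 0 ≤ s) (hs2 : s ≤ 2) :
    R ^ (3 / 2 : ℝ) * M.vol R s ≤ vv (s + θ) := by
  have hc := M.one_lt_c
  have hp := Real.pi_pos
  have hR0 : 0 < R := lt_of_lt_of_le (by positivity) hR
  rw [M.vol_eq hR0 hs, vv]
  have h1 : s ^ 2 / (M.c ^ 2 * R) ≤ 2 * θ := by
    rw [div_le_iff₀ (by positivity)]
    rw [div_le_iff₀ hθ] at hR
    have h2 : 1 ≤ M.c ^ 2 := by nlinarith
    have h3 : R * θ * 1 ≤ R * θ * M.c ^ 2 := by gcongr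
    nlinarith
  refine mul_le_mul_of_nonneg_left (Real.rpow_le_rpow (by positivity) ?_ (by norm_num))
    (by positivity)
  rw [div_le_div_iff₀ (by positivity) (by positivity)]
  have : s ^ 2 / (M.c ^ 2 * R) * (2 * π ^ 2) ≤ 2 * θ * (2 * π ^ 2) := by gcongr
  nlinarith

lemma norm_le_one {R : ℝ} (hR : 4 ≤ R) {ξ : E3} (h : M.t R ξ ≤ 2) : ‖ξ‖ ≤ 1 := by
  have hc := M.one_lt_c
  have hp := Real.pi_gt_three
  have hR0 : 0 < R := by linarith
  rw [M.t_le_iff hR0 zero_le_two] at h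
  have h1 : (2 : ℝ) ^ 2 / (M.c ^ 2 * R) ≤ 1 := by
    rw [div_le_one (by positivity)]; nlinarith
  have h2 : (2 * 2 + 2 ^ 2 / (M.c ^ 2 * R)) / (4 * π ^ 2) / R ≤ 1 := by
    rw [div_div, div_le_one (by positivity)]; nlinarith
  exact (sq_le_one_iff₀ (norm_nonneg _)).1 (h.trans h2)

lemma measurableSet_t (R s : ℝ) : MeasurableSet {ξ : E3 | M.t R ξ ≤ s} :=
  (isClosed_le (M.continuous_t R) continuous_const).measurableSet

lemma integrable_ind {R s : ℝ} (hR : 0 < R) (hs : 0 ≤ s) :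
    Integrable ({ξ : E3 | M.t R ξ ≤ s}.indicator (1 : E3 → ℝ)) :=
  (integrable_indicator_iff (M.measurableSet_t R s)).2
    (integrableOn_const (by rw [M.volume_t hR hs]; exact ENNReal.ofReal_ne_top))

lemma integral_ind (R s : ℝ) :
    ∫ ξ, {ξ : E3 | M.t R ξ ≤ s}.indicator (1 : E3 → ℝ) ξ = M.vol R s :=
  integral_indicator_one (M.measurableSet_t R s)

end Model

lemma Nice.integrable_sq {s : E3 → ℝ} (h : Nice s) : Integrable fun ξ => s ξ ^ 2 := by
  apply (h.cont.pow 2).integrable_of_hasCompactSupport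
  refine HasCompactSupport.intro h.supp.isCompact fun ξ hξ => ?_
  simp [image_eq_zero_of_notMem_tsupport hξ]

lemma exists_params {k η : ℝ} (hη : 0 < η) : ∃ δ θ : ℝ, 0 < δ ∧ δ < 1 ∧ 0 < θ ∧ θ ≤ 1 ∧
    (1 + δ) * (k * vv (1 + θ + θ)) < k * vv 1 + η ∧
    (1 + δ) * (k * vv 1 - η) <
      (1 - δ) ^ 2 * (k * vv (1 - θ)) - 2 * (1 + δ⁻¹) * (k * (vv (1 + θ + θ) - vv (1 - θ))) := by
  have h1 : ∀ᶠ δ in 𝓝 (0 : ℝ), (1 + δ) * (k * vv 1) < k * vv 1 + η :=
    ContinuousAt.eventually_lt (by fun_prop) continuousAt_const (by simpa using hη)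
  have h2 : ∀ᶠ δ in 𝓝 (0 : ℝ), (1 + δ) * (k * vv 1 - η) < (1 - δ) ^ 2 * (k * vv 1) :=
    ContinuousAt.eventually_lt (by fun_prop) (by fun_prop) (by simpa using hη)
  have h3 : ∀ᶠ δ in 𝓝 (0 : ℝ), δ < 1 := eventually_lt_nhds one_pos
  obtain ⟨δ, ⟨⟨d1, d2⟩, d3⟩, d0⟩ :=
    ((((h1.and h2).and h3).filter_mono nhdsWithin_le_nhds).and
      (self_mem_nhdsWithin (a := (0 : ℝ)) (s := Set.Ioi 0))).exists
  have hv := continuous_vv
  have h4 : ∀ᶠ θ in 𝓝 (0 : ℝ), (1 + δ) * (k * vv (1 + θ + θ)) < k * vv 1 + η :=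
    ContinuousAt.eventually_lt (by fun_prop) continuousAt_const (by simpa using d1)
  have h5 : ∀ᶠ θ in 𝓝 (0 : ℝ), (1 + δ) * (k * vv 1 - η) <
      (1 - δ) ^ 2 * (k * vv (1 - θ)) - 2 * (1 + δ⁻¹) * (k * (vv (1 + θ + θ) - vv (1 - θ))) :=
    ContinuousAt.eventually_lt continuousAt_const (by fun_prop) (by simpa using d2)
  obtain ⟨θ, ⟨⟨t1, t2⟩, t3⟩, t0⟩ :=
    ((((h4.and h5).and h3).filter_mono nhdsWithin_le_nhds).and
      (self_mem_nhdsWithin (a := (0 : ℝ)) (s := Set.Ioi 0))).exists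
  exact ⟨δ, θ, d0, d3, t0, t3.le, t1, t2⟩

lemma add_sq_le' {δ : ℝ} (hδ : 0 < δ) (a b : ℝ) :
    (a + b) ^ 2 ≤ (1 + δ) * a ^ 2 + (1 + δ⁻¹) * b ^ 2 := by
  have h : δ * δ⁻¹ = 1 := mul_inv_cancel₀ hδ.ne'
  have h1 : 0 ≤ δ⁻¹ * (δ * a - b) ^ 2 := by positivity
  have h2 : δ⁻¹ * (δ * a - b) ^ 2 = δ * a ^ 2 - 2 * a * b + δ⁻¹ * b ^ 2 := by
    linear_combination (δ * a ^ 2 - 2 * a * b) * h
  linarith only [h1, h2]

end Pool.Agent.Work.MP_0d9e46_mp
end
end

-- merged part: Pool.Agent.Work.MP_0d9e46_mp.Asym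
section
/-! The two estimates on the projected regularised delta functions. -/

open MeasureTheory Filter Topology FourierTransform
open scoped Real ENNReal

noncomputable section

namespace Pool.Agent.Work.MP_0d9e46_mp

variable {F : Type} [NormedAddCommGroup F] [InnerProductSpace ℂ F] [CompleteSpace F]
  [FiniteDimensional ℂ F]

lemma nice_chi {ε : ℝ} (hε : 0 < ε) : Nice (chi ε) := by
  obtain ⟨K, -, h⟩ := cls_chi
  exact (h ε hε).nice (hasCompactSupport_chi hε)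

/-- Upper energy cutoff. -/
def hi (θ u : ℝ) : ℝ := Real.smoothTransition ((u - (1 + θ / 2)) * (2 / θ))

/-- Lower energy cutoff. -/
def lo (θ u : ℝ) : ℝ := Real.smoothTransition ((1 - θ / 2 - u) * (2 / θ))

lemma hi_zero {θ u : ℝ} (hθ : 0 < θ) (h : u ≤ 1 + θ / 2) : hi θ u = 0 :=
  Real.smoothTransition.zero_of_nonpos
    (mul_nonpos_of_nonpos_of_nonneg (by linarith only [h]) (by positivity))

lemma hi_one {θ u : ℝ} (hθ : 0 < θ) (h : 1 + θ ≤ u) : hi θ u = 1 :=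
  Real.smoothTransition.one_of_one_le (by
    rw [← mul_div_assoc, le_div_iff₀ hθ]; linarith only [h])

lemma lo_zero {θ u : ℝ} (hθ : 0 < θ) (h : 1 - θ / 2 ≤ u) : lo θ u = 0 :=
  Real.smoothTransition.zero_of_nonpos
    (mul_nonpos_of_nonpos_of_nonneg (by linarith only [h]) (by positivity))

lemma lo_one {θ u : ℝ} (hθ : 0 < θ) (h : u ≤ 1 - θ) : lo θ u = 1 :=
  Real.smoothTransition.one_of_one_le (by
    rw [← mul_div_assoc, le_div_iff₀ hθ]; linarith only [h])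

lemma hi_mem (θ u : ℝ) : 0 ≤ hi θ u ∧ hi θ u ≤ 1 :=
  ⟨Real.smoothTransition.nonneg _, Real.smoothTransition.le_one _⟩

lemma lo_mem (θ u : ℝ) : 0 ≤ lo θ u ∧ lo θ u ≤ 1 :=
  ⟨Real.smoothTransition.nonneg _, Real.smoothTransition.le_one _⟩

lemma contDiff_hi (θ : ℝ) : ContDiff ℝ 2 (hi θ) :=
  Real.smoothTransition.contDiff.comp (by fun_prop)

lemma contDiff_lo (θ : ℝ) : ContDiff ℝ 2 (lo θ) :=
  Real.smoothTransition.contDiff.comp (by fun_prop)

namespace Model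

variable (M : Model F)

lemma norm_P_apply_le (v : L2 F) : ‖M.P v‖ ≤ ‖v‖ := M.eigAll.norm_starProjection_apply_le v

lemma rk_nonneg : 0 ≤ M.rk := by
  rw [← M.tr 0]; positivity

theorem cauchy : ∃ R₀ : ℝ, ∀ δ : ℝ, 0 < δ → ∃ ε₀ : ℝ, 0 < ε₀ ∧ ∀ ε ε' : ℝ, 0 < ε → ε ≤ ε₀ →
    0 < ε' → ε' ≤ ε₀ → ∀ x : E3, R₀ ≤ ‖x‖ → ∀ a,
      ‖M.P (M.tv x (chi ε) (chi ε) (M.b a)) - M.P (M.tv x (chi ε') (chi ε') (M.b a))‖ ≤ δ := by
  obtain ⟨K, hK, hc⟩ := cls_chi_sub
  obtain ⟨C, hC, h⟩ := M.high one_pos le_rfl hK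
  refine ⟨4, fun δ hδ => ?_⟩
  have h1 : Tendsto (fun r => C * Xi r) atTop (𝓝 0) := by simpa using Xi_tendsto.const_mul C
  obtain ⟨r, hr1, hr2⟩ := ((h1.eventually_le_const hδ).and (eventually_ge_atTop (2 + M.c))).exists
  have hc0 := M.c_pos
  have hr0 : 0 < r := by linarith
  have he : ∀ ε : ℝ, ε ≤ r⁻¹ → ε * r ≤ 1 := fun ε hε => by
    calc ε * r ≤ r⁻¹ * r := by gcongr
      _ = 1 := inv_mul_cancel₀ hr0.ne'
  refine ⟨r⁻¹, inv_pos.2 hr0, fun ε ε' h0 hε h0' hε' x hx a => ?_⟩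
  have n := (nice_chi h0).sub (nice_chi h0')
  have h2 := h x hx r _ _ (M.b a) (hc ε ε' r h0 h0' (he _ hε) (he _ hε'))
    (hc ε ε' r h0 h0' (he _ hε) (he _ hε')) n.supp n.supp fun ξ hξ => by
      have h3 := M.norm_le_t (show 1 ≤ ‖x‖ by linarith only [hx]) ξ
      have h4 : ‖ξ‖ ≤ r := by linarith
      rw [chi_eq_one h0.le ((mul_le_mul_of_nonneg_left h4 h0.le).trans (he _ hε)),
        chi_eq_one h0'.le ((mul_le_mul_of_nonneg_left h4 h0'.le).trans (he _ hε')), sub_self]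
  rw [M.tv_sub (nice_chi h0) (nice_chi h0) (nice_chi h0') (nice_chi h0'), map_sub,
    M.b.norm_eq_one, mul_one] at h2
  refine h2.trans ((div_le_self (mul_nonneg hC (Xi_nonneg r)) (by linarith only [hx])).trans hr1)

/-- The two-sided estimate for fixed parameters. -/
lemma core_aux {δ θ : ℝ} (hδ : 0 < δ) (hδ1 : δ < 1) (hθ : 0 < θ) (hθ1 : θ ≤ 1) :
    ∃ C : ℝ, 0 ≤ C ∧ ∀ x : E3, 4 ≤ ‖x‖ → ∀ ε : ℝ, 0 < ε → ε ≤ 1 →
      ∑ a, ‖M.P (M.tv x (chi ε) (chi ε) (M.b a))‖ ^ 2 ≤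
        (1 + δ) * (M.rk * M.vol ‖x‖ (1 + θ)) + C / ‖x‖ ^ 2 ∧
      (1 - δ) ^ 2 * (M.rk * M.vol ‖x‖ (1 - θ)) ≤
        (1 + δ) * ∑ a, ‖M.P (M.tv x (chi ε) (chi ε) (M.b a))‖ ^ 2 +
          2 * (1 + δ⁻¹) * (M.rk * (M.vol ‖x‖ (1 + θ) - M.vol ‖x‖ (1 - θ))) + C / ‖x‖ ^ 2 := by
  obtain ⟨K₀, hK₀, c0⟩ := cls_chi
  obtain ⟨K₁, hK₁, c1⟩ := M.cls_cut (contDiff_hi θ)
    (fun u => by rw [abs_of_nonneg (hi_mem θ u).1]; exact (hi_mem θ u).2) (a := 1)
    fun u hu => hi_one hθ (by linarith)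
  obtain ⟨K₂, hK₂, c2⟩ := M.cls_cut (contDiff_lo θ)
    (fun u => by rw [abs_of_nonneg (lo_mem θ u).1]; exact (lo_mem θ u).2) (a := 0)
    fun u hu => lo_zero hθ (by linarith only [hδ, hδ1, hθ, hu])
  obtain ⟨C₁, hC₁, h1⟩ := M.high hθ hθ1 (add_nonneg hK₁ hK₀)
  obtain ⟨C₂, hC₂, h2⟩ := M.low hθ hθ1 (add_nonneg hK₂ hK₀) hδ
  have hXi := Xi_nonneg 0
  set C₃ := C₁ * Xi 0 + C₂ with hC₃
  have hC₃0 : 0 ≤ C₃ := by positivity
  refine ⟨2 * (1 + δ⁻¹) * (M.n * C₃ ^ 2), by positivity, fun x hx ε hε hε1 => ?_⟩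
  set R := ‖x‖ with hR
  have hR0 : 0 < R := by linarith only [hδ, hδ1, hx]
  have n0 := nice_chi hε
  let sh : E3 → ℝ := fun ξ => hi θ (M.t R ξ) * chi ε ξ
  let sl : E3 → ℝ := fun ξ => lo θ (M.t R ξ) * chi ε ξ
  have ch : Cls sh (fun _ => 1) (K₁ + K₀) := fun ξ =>
    ((c1 R hR0 ξ).mul (c0 ε hε ξ) hK₁ hK₀).mono (by norm_num) (by positivity) le_rfl
  have cl : Cls sl (fun _ => 1) (K₂ + K₀) := fun ξ =>
    ((c2 R hR0 ξ).mul (c0 ε hε ξ) hK₂ hK₀).mono (by norm_num) (by positivity) le_rfl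
  have nh : Nice sh := ch.nice n0.supp.mul_left
  have nl : Nice sl := cl.nice n0.supp.mul_left
  have ny := n0.sub nh
  have nd := ny.sub nl
  let X : Fin M.n → ℝ := fun a => ‖M.P (M.tv x (chi ε) (chi ε) (M.b a))‖
  let y : Fin M.n → ℝ := fun a => ‖M.tv x (fun ξ => chi ε ξ - sh ξ) (fun _ => 0) (M.b a)‖
  let z : Fin M.n → ℝ := fun a => ‖M.tv x sl (fun _ => 0) (M.b a)‖
  let d : Fin M.n → ℝ := fun a => ‖M.tv x (fun ξ => chi ε ξ - sh ξ - sl ξ) (fun _ => 0) (M.b a)‖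
  have e1 : ∀ e, M.tv x (fun ξ => chi ε ξ - sh ξ) (fun _ => 0) e =
      M.tv x (chi ε) (chi ε) e - M.tv x sh (chi ε) e := fun e => by
    rw [← M.tv_sub n0 n0 nh n0]
    exact M.tv_congr x e (fun _ => rfl) fun _ => by rw [sub_self]
  have e2 : ∀ e, M.tv x (fun ξ => chi ε ξ - sh ξ - sl ξ) (fun _ => 0) e =
      M.tv x (fun ξ => chi ε ξ - sh ξ) (fun _ => 0) e - M.tv x sl (fun _ => 0) e := fun e => by
    rw [← M.tv_sub ny Nice.zero nl Nice.zero]
    exact M.tv_congr x e (fun _ => rfl) fun _ => by rw [sub_self]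
  have b1 : ∀ a, ‖M.P (M.tv x sh (chi ε) (M.b a))‖ ≤ C₁ * Xi 0 / R := fun a => by
    have := h1 x hx 0 sh (chi ε) (M.b a)
      (fun ξ => (ch ξ).mono (by simp) (by positivity) le_rfl)
      (fun ξ => (c0 ε hε ξ).mono (by simp) hK₀ (by linarith)) nh.supp n0.supp
      fun ξ hξ => by simp only [sh]; rw [hi_zero hθ hξ.le, zero_mul]
    rwa [M.b.norm_eq_one, mul_one] at this
  have b2 : ∀ a, ‖M.tv x sl (fun _ => 0) (M.b a) - M.P (M.tv x sl (fun _ => 0) (M.b a))‖ ≤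
      δ * z a + C₂ / R := fun a => by
    have := h2 x hx sl (M.b a) cl nl.supp
      fun ξ hξ => by simp only [sl]; rw [lo_zero hθ hξ.le, zero_mul]
    rwa [M.b.norm_eq_one, mul_one] at this
  have hsum : C₃ / R = C₁ * Xi 0 / R + C₂ / R := by rw [hC₃, add_div]
  have p1 : 0 ≤ C₁ * Xi 0 / R := by positivity
  have p2 : 0 ≤ C₂ / R := by positivity
  have u1 : ∀ a, X a ≤ y a + C₃ / R := fun a => by
    have k1 : M.P (M.tv x (chi ε) (chi ε) (M.b a)) =
        M.P (M.tv x (fun ξ => chi ε ξ - sh ξ) (fun _ => 0) (M.b a)) +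
          M.P (M.tv x sh (chi ε) (M.b a)) := by rw [e1, map_sub, sub_add_cancel]
    have k2 := M.norm_P_apply_le (M.tv x (fun ξ => chi ε ξ - sh ξ) (fun _ => 0) (M.b a))
    have k3 := b1 a
    simp only [X, y]
    rw [k1]
    refine (norm_add_le _ _).trans ?_
    linarith
  have u2 : ∀ a, (1 - δ) * z a ≤ X a + (d a + C₃ / R) := fun a => by
    have k1 : M.tv x sl (fun _ => 0) (M.b a) =
        (M.tv x sl (fun _ => 0) (M.b a) - M.P (M.tv x sl (fun _ => 0) (M.b a))) +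
        (M.P (M.tv x (chi ε) (chi ε) (M.b a)) - M.P (M.tv x sh (chi ε) (M.b a)) -
          M.P (M.tv x (fun ξ => chi ε ξ - sh ξ - sl ξ) (fun _ => 0) (M.b a))) := by
      rw [e2, e1, map_sub, map_sub]; abel
    have k2 := M.norm_P_apply_le (M.tv x (fun ξ => chi ε ξ - sh ξ - sl ξ) (fun _ => 0) (M.b a))
    have k3 := b1 a
    have k4 := b2 a
    have k5 : z a ≤ _ := (congrArg norm k1).le.trans
      ((norm_add_le _ _).trans (add_le_add le_rfl ((norm_sub_le _ _).trans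
        (add_le_add (norm_sub_le _ _) le_rfl))))
    simp only [X, d]
    linarith
  have i1 := M.integrable_ind hR0 (show 0 ≤ 1 + θ by linarith only [hδ, hδ1, hθ])
  have i2 := M.integrable_ind hR0 (show 0 ≤ 1 - θ by linarith only [hθ1])
  have chi1 : ∀ ξ, M.t R ξ ≤ 1 + θ → chi ε ξ = 1 := fun ξ hξ =>
    chi_eq_one hε.le (mul_le_one₀ hε1 (norm_nonneg _) (M.norm_le_one hx (by linarith)))
  have s1 : ∑ a, y a ^ 2 ≤ M.rk * M.vol R (1 + θ) := by
    simp only [y]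
    rw [M.sum_norm_tv_sq ny, ← M.integral_ind]
    refine mul_le_mul_of_nonneg_left (integral_mono ny.integrable_sq i1 fun ξ => ?_) M.rk_nonneg
    by_cases hξ : M.t R ξ ≤ 1 + θ
    · have := hi_mem θ (M.t R ξ)
      simp only [sh, Set.indicator_of_mem (show ξ ∈ {ξ | M.t R ξ ≤ 1 + θ} from hξ), chi1 ξ hξ,
        Pi.one_apply]
      nlinarith only [this.1, this.2]
    · simp only [sh, Set.indicator_of_notMem (show ξ ∉ {ξ | M.t R ξ ≤ 1 + θ} from hξ),
        hi_one hθ (not_le.1 hξ).le]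
      simp
  have s2 : M.rk * M.vol R (1 - θ) ≤ ∑ a, z a ^ 2 := by
    simp only [z]
    rw [M.sum_norm_tv_sq nl, ← M.integral_ind]
    refine mul_le_mul_of_nonneg_left (integral_mono i2 nl.integrable_sq fun ξ => ?_) M.rk_nonneg
    by_cases hξ : M.t R ξ ≤ 1 - θ
    · simp only [sl, Set.indicator_of_mem (show ξ ∈ {ξ | M.t R ξ ≤ 1 - θ} from hξ),
        chi1 ξ (by linarith), Pi.one_apply, lo_one hθ hξ]
      norm_num
    · simp only [Set.indicator_of_notMem (show ξ ∉ {ξ | M.t R ξ ≤ 1 - θ} from hξ)]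
      positivity
  have s3 : ∑ a, d a ^ 2 ≤ M.rk * (M.vol R (1 + θ) - M.vol R (1 - θ)) := by
    simp only [d]
    rw [M.sum_norm_tv_sq nd, ← M.integral_ind, ← M.integral_ind, ← integral_sub i1 i2]
    refine mul_le_mul_of_nonneg_left (integral_mono nd.integrable_sq (i1.sub i2) fun ξ => ?_)
      M.rk_nonneg
    by_cases hξ : M.t R ξ ≤ 1 - θ
    · have hξ' : M.t R ξ ≤ 1 + θ := by linarith
      simp only [sl, sh, Set.indicator_of_mem (show ξ ∈ {ξ | M.t R ξ ≤ 1 - θ} from hξ),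
        Set.indicator_of_mem (show ξ ∈ {ξ | M.t R ξ ≤ 1 + θ} from hξ'),
        chi1 ξ hξ', Pi.one_apply, lo_one hθ hξ, hi_zero hθ (show M.t R ξ ≤ 1 + θ / 2 by linarith)]
      norm_num
    · rw [Set.indicator_of_notMem (show ξ ∉ {ξ | M.t R ξ ≤ 1 - θ} from hξ), sub_zero]
      by_cases hξ' : M.t R ξ ≤ 1 + θ
      · have k1 := hi_mem θ (M.t R ξ)
        have k2 := lo_mem θ (M.t R ξ)
        simp only [sl, sh, Set.indicator_of_mem (show ξ ∈ {ξ | M.t R ξ ≤ 1 + θ} from hξ'),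
          chi1 ξ hξ', Pi.one_apply]
        rcases le_total (M.t R ξ) 1 with k | k
        · rw [hi_zero hθ (by linarith only [k, hθ])]; nlinarith only [k2.1, k2.2]
        · rw [lo_zero hθ (by linarith only [k, hθ])]; nlinarith only [k1.1, k1.2]
      · simp only [sl, sh, Set.indicator_of_notMem (show ξ ∉ {ξ | M.t R ξ ≤ 1 + θ} from hξ'),
          hi_one hθ (not_le.1 hξ').le, lo_zero hθ (show 1 - θ / 2 ≤ M.t R ξ by linarith)]
        simp
  have hδ' : 0 < δ⁻¹ := inv_pos.2 hδ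
  have q0 : 2 * (1 + δ⁻¹) * (M.n * C₃ ^ 2) / R ^ 2 = 2 * (1 + δ⁻¹) * (M.n * (C₃ / R) ^ 2) := by
    rw [div_pow]; ring
  have q1 : 0 ≤ (1 + δ⁻¹) * (M.n * (C₃ / R) ^ 2) := by positivity
  rw [q0]
  constructor
  · have k1 : ∑ a, X a ^ 2 ≤ ∑ a, ((1 + δ) * y a ^ 2 + (1 + δ⁻¹) * (C₃ / R) ^ 2) :=
      Finset.sum_le_sum fun a _ =>
        (pow_le_pow_left₀ (norm_nonneg _) (u1 a) 2).trans (add_sq_le' hδ _ _)
    rw [Finset.sum_add_distrib, ← Finset.mul_sum, Finset.sum_const, Finset.card_univ,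
      Fintype.card_fin, nsmul_eq_mul] at k1
    have k2 := mul_le_mul_of_nonneg_left s1 (show 0 ≤ 1 + δ by linarith only [hδ, hδ1])
    change ∑ a, X a ^ 2 ≤ _
    linarith only [k1, k2, q1]
  · have k1 : ∑ a, (1 - δ) ^ 2 * z a ^ 2 ≤ ∑ a, ((1 + δ) * X a ^ 2 +
        (2 * (1 + δ⁻¹) * d a ^ 2 + 2 * (1 + δ⁻¹) * (C₃ / R) ^ 2)) :=
      Finset.sum_le_sum fun a _ => by
        rw [← mul_pow]
        refine (pow_le_pow_left₀ (mul_nonneg (by linarith only [hδ1]) (norm_nonneg _)) (u2 a) 2).trans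
          ((add_sq_le' hδ _ _).trans ?_)
        have : (d a + C₃ / R) ^ 2 ≤ 2 * d a ^ 2 + 2 * (C₃ / R) ^ 2 := by
          linarith only [sq_nonneg (d a - C₃ / R), sq_nonneg ((1 : ℝ) * d a - (1 : ℝ) * (C₃ / R))]
        linarith only [this, hδ, hδ1, hδ', mul_le_mul_of_nonneg_left this (show 0 ≤ 1 + δ⁻¹ by linarith)]
    rw [Finset.sum_add_distrib, Finset.sum_add_distrib, ← Finset.mul_sum, ← Finset.mul_sum,
      ← Finset.mul_sum, Finset.sum_const, Finset.card_univ, Fintype.card_fin, nsmul_eq_mul] at k1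
    have k2 := mul_le_mul_of_nonneg_left s2 (sq_nonneg (1 - δ))
    have k3 := mul_le_mul_of_nonneg_left s3 (show 0 ≤ 2 * (1 + δ⁻¹) by linarith only [hδ, hδ1, hδ'])
    change _ ≤ (1 + δ) * ∑ a, X a ^ 2 + _ + _
    linarith only [k1, k2, k3]

theorem core {η : ℝ} (hη : 0 < η) : ∃ R₁ : ℝ, ∀ x : E3, R₁ ≤ ‖x‖ → ∀ ε : ℝ, 0 < ε → ε ≤ 1 →
    |‖x‖ ^ (3 / 2 : ℝ) * ∑ a, ‖M.P (M.tv x (chi ε) (chi ε) (M.b a))‖ ^ 2 -
      M.rk * (√2 / (3 * π ^ 2))| ≤ η := by
  obtain ⟨δ, θ, hδ, hδ1, hθ, hθ1, p1, p2⟩ := exists_params (k := M.rk) (half_pos hη)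
  obtain ⟨C, hC, h⟩ := M.core_aux hδ hδ1 hθ hθ1
  have h1 : Tendsto (fun R : ℝ => C * R ^ (-(1 / 2) : ℝ)) atTop (𝓝 0) := by
    simpa using (tendsto_rpow_neg_atTop (show (0 : ℝ) < 1 / 2 by norm_num)).const_mul C
  obtain ⟨R₁, hR₁⟩ := eventually_atTop.1 (((h1.eventually_le_const (half_pos hη)).and
    (eventually_ge_atTop 4)).and (eventually_ge_atTop (2 / θ)))
  refine ⟨R₁, fun x hx ε hε hε1 => ?_⟩
  obtain ⟨⟨r1, r2⟩, r3⟩ := hR₁ _ hx
  obtain ⟨k1, k2⟩ := h x r2 ε hε hε1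
  have hR0 : 0 < ‖x‖ := by linarith only [hδ, hδ1, r2]
  have v1 := M.vol_le hθ r3 (show 0 ≤ 1 + θ by linarith only [hδ, hδ1, hθ]) (by linarith only [hθ1])
  have v2 := M.le_vol hR0 (show 0 ≤ 1 - θ by linarith only [hθ1])
  have hW : 0 < ‖x‖ ^ (3 / 2 : ℝ) := Real.rpow_pos_of_pos hR0 _
  have e1 : ‖x‖ ^ (3 / 2 : ℝ) * (C / ‖x‖ ^ 2) = C * ‖x‖ ^ (-(1 / 2) : ℝ) := by
    rw [show (-(1 / 2) : ℝ) = 3 / 2 - (2 : ℕ) by norm_num, Real.rpow_sub_natCast hR0.ne']
    ring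
  have hrk := M.rk_nonneg
  have hδ' : 0 < δ⁻¹ := inv_pos.2 hδ
  rw [← vv_one]
  generalize ∑ a, ‖M.P (M.tv x (chi ε) (chi ε) (M.b a))‖ ^ 2 = S at *
  generalize ‖x‖ ^ (3 / 2 : ℝ) = W at *
  have k3 := mul_le_mul_of_nonneg_left k1 hW.le
  have k4 := mul_le_mul_of_nonneg_left k2 hW.le
  have m1 := mul_le_mul_of_nonneg_left v1 hrk
  have m2 := mul_le_mul_of_nonneg_left v2 hrk
  rw [abs_le]
  constructor
  · have m3 := mul_le_mul_of_nonneg_left m2 (sq_nonneg (1 - δ))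
    have m4 := mul_le_mul_of_nonneg_left (sub_le_sub m1 m2) (show 0 ≤ 2 * (1 + δ⁻¹) by linarith only [hδ, hδ1, hδ'])
    have m5 : (1 + δ) * (M.rk * vv 1 - η) ≤ (1 + δ) * (W * S) := by
      first
        | linarith only [k4, m3, m4, e1, r1, p1, p2, mul_pos hδ hη, hη]
        | nlinarith
    have := le_of_mul_le_mul_left m5 (by linarith only [hδ, hδ1])
    linarith
  · have m3 := mul_le_mul_of_nonneg_left m1 (show 0 ≤ 1 + δ by linarith only [hδ, hδ1])
    first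
      | linarith only [k3, m3, e1, r1, p1, p2]
      | nlinarith

end Model

end Pool.Agent.Work.MP_0d9e46_mp
end
end

-- merged part: Pool.Agent.Work.MP_0d9e46_mp.Point
section
/-! Passage to the pointwise density. -/

open MeasureTheory Filter Topology FourierTransform
open scoped Real ENNReal

noncomputable section

namespace Pool.Agent.Work.MP_0d9e46_mp

namespace Point

section abstract

variable {X : Type} [NormedAddCommGroup X] [InnerProductSpace ℂ X]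

lemma mem_clos_image (e : X ≃ₗᵢ[ℂ] X) (s : Set X) {x : X}
    (hx : x ∈ (Submodule.span ℂ s).topologicalClosure) :
    e x ∈ (Submodule.span ℂ (e '' s)).topologicalClosure := by
  refine map_mem_closure (f := e) (s := (Submodule.span ℂ s : Set X))
    (t := (Submodule.span ℂ (e '' s) : Set X)) e.continuous hx fun y hy => ?_
  exact Submodule.apply_mem_span_image_of_mem_span (e.toLinearEquiv : X →ₗ[ℂ] X) hy

lemma mem_clos_image_iff (e : X ≃ₗᵢ[ℂ] X) (s : Set X) (x : X) :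
    x ∈ (Submodule.span ℂ (e '' s)).topologicalClosure ↔
      e.symm x ∈ (Submodule.span ℂ s).topologicalClosure := by
  constructor
  · intro h
    have := mem_clos_image e.symm _ h
    rwa [← Set.image_comp, show (e.symm ∘ e : X → X) = id from funext e.symm_apply_apply,
      Set.image_id] at this
  · intro h
    simpa using mem_clos_image e s h

/-- Parseval identity in the closed span of an orthonormal family. -/
lemma parseval [CompleteSpace X] {ι : Type} {f : ι → X} (hf : Orthonormal ℂ f) {x : X}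
    (hx : x ∈ (Submodule.span ℂ (Set.range f)).topologicalClosure) :
    HasSum (fun j => ‖inner ℂ x (f j)‖ ^ 2) (‖x‖ ^ 2) := by
  set K := (Submodule.span ℂ (Set.range f)).topologicalClosure with hK
  have : CompleteSpace K := (Submodule.isClosed_topologicalClosure _).completeSpace_coe
  have hm : ∀ j, f j ∈ K := fun j =>
    Submodule.le_topologicalClosure _ (Submodule.subset_span ⟨j, rfl⟩)
  let f' : ι → K := fun j => ⟨f j, hm j⟩
  have hf' : Orthonormal ℂ f' := K.subtypeₗᵢ.orthonormal_comp_iff.1 hf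
  have hsp : ⊤ ≤ (Submodule.span ℂ (Set.range f')).topologicalClosure := by
    intro y _
    change y ∈ closure (Submodule.span ℂ (Set.range f') : Set K)
    rw [closure_subtype]
    have e : Subtype.val '' (Submodule.span ℂ (Set.range f') : Set K) =
        (Submodule.span ℂ (Set.range f) : Set X) := by
      have := Submodule.map_span K.subtype (Set.range f')
      rw [← Set.range_comp] at this
      exact congrArg (fun p : Submodule ℂ X => (p : Set X)) this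
    rw [e]
    exact y.2
  have h1 := (HilbertBasis.mk hf' hsp).hasSum_inner_mul_inner ⟨x, hx⟩ ⟨x, hx⟩
  rw [HilbertBasis.coe_mk] at h1
  have h2 := Complex.hasSum_re h1
  convert h2 using 1
  · funext j
    change _ = (inner ℂ x (f j) * inner ℂ (f j) x).re
    rw [← inner_conj_symm (f j) x, Complex.mul_conj, Complex.ofReal_re, Complex.normSq_eq_norm_sq]
  · change _ = (inner ℂ x x).re
    rw [← RCLike.re_to_complex, ← @norm_sq_eq_re_inner ℂ]

end abstract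

lemma nice_chi {ε : ℝ} (hε : 0 < ε) : Nice (chi ε) :=
  ⟨Real.smoothTransition.continuous.comp (by fun_prop), hasCompactSupport_chi hε⟩

variable {F : Type} [NormedAddCommGroup F] [InnerProductSpace ℂ F] [CompleteSpace F]

omit [CompleteSpace F] in
lemma memLp_chi (ε : ℝ) (f : L2 F) : MemLp (fun ξ => chi ε ξ • f ξ) 2 volume := by
  have hc : Continuous (chi ε) := Real.smoothTransition.continuous.comp (by fun_prop)
  refine (Lp.memLp f).of_le (hc.aestronglyMeasurable.smul (Lp.aestronglyMeasurable f))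
    (.of_forall fun ξ => ?_)
  rw [norm_smul, Real.norm_of_nonneg (chi_nonneg ε ξ)]
  exact mul_le_of_le_one_left (norm_nonneg _) (chi_le_one ε ξ)

omit [CompleteSpace F] in
lemma integrable_chi {ε : ℝ} (hε : 0 < ε) (f : L2 F) : Integrable fun ξ => chi ε ξ • f ξ := by
  have h1 : MemLp (chi ε) 2 volume :=
    (nice_chi hε).cont.memLp_of_hasCompactSupport (nice_chi hε).supp
  exact memLp_one_iff_integrable.1 (MemLp.smul (𝕜 := ℝ) (r := 1) (Lp.memLp f) h1)

lemma continuous_chi {ε : ℝ} (hε : 0 < ε) (f : L2 F) :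
    Continuous (𝓕⁻ fun ξ => chi ε ξ • f ξ) := by
  refine (contDiff_fourierInv (integrable_chi hε f) ?_).continuous
  obtain ⟨r, hr⟩ := (hasCompactSupport_chi hε).isCompact.isBounded.subset_closedBall (0 : E3)
  refine ⟨r, fun ξ hξ => ?_⟩
  have : chi ε ξ = 0 := by
    by_contra h
    have := hr (subset_tsupport _ h)
    rw [mem_closedBall_zero_iff] at this
    linarith
  rw [this, zero_smul]

lemma chi_tendsto (f : L2 F) :
    Tendsto (fun n : ℕ => toL2 fun ξ => chi (1 / ((n : ℝ) + 1)) ξ • f ξ) atTop (𝓝 f) := by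
  have h := trunc_tendsto f
  rw [tendsto_iff_norm_sub_tendsto_zero] at h ⊢
  refine squeeze_zero (fun _ => norm_nonneg _) (fun n => ?_) h
  refine Lp.norm_le_norm_of_ae_le ?_
  filter_upwards [Lp.coeFn_sub (toL2 fun ξ => chi (1 / ((n : ℝ) + 1)) ξ • f ξ) f,
    Lp.coeFn_sub (toL2 ((Metric.closedBall (0 : E3) n).indicator f)) f,
    toL2_ae (memLp_chi (1 / ((n : ℝ) + 1)) f), toL2_ae (memLp_trunc f n)] with ξ h1 h2 h3 h4
  rw [h1, h2, Pi.sub_apply, Pi.sub_apply, h3, h4]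
  by_cases hξ : ξ ∈ Metric.closedBall (0 : E3) n
  · have h5 : chi (1 / ((n : ℝ) + 1)) ξ = 1 := by
      refine chi_eq_one (by positivity) ?_
      rw [mem_closedBall_zero_iff] at hξ
      rw [one_div, inv_mul_le_iff₀ (by positivity)]
      linarith only [hξ]
    rw [h5, one_smul, sub_self, norm_zero]
    exact norm_nonneg _
  · rw [Set.indicator_of_notMem hξ, zero_sub, norm_neg]
    have e : chi (1 / ((n : ℝ) + 1)) ξ • f ξ - f ξ = -((1 - chi (1 / ((n : ℝ) + 1)) ξ) • f ξ) := by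
      rw [sub_smul, one_smul, neg_sub]
    have a1 := chi_nonneg (1 / ((n : ℝ) + 1)) ξ
    have a2 := chi_le_one (1 / ((n : ℝ) + 1)) ξ
    rw [e, norm_neg, norm_smul, Real.norm_of_nonneg (by linarith only [a2])]
    exact mul_le_of_le_one_left (norm_nonneg _) (by linarith only [a1])

/-- Along a subsequence the regularised inverse transforms converge almost everywhere. -/
lemma exists_subseq (f : L2 F) : ∃ ns : ℕ → ℕ, StrictMono ns ∧ ∀ᵐ x : E3,
    Tendsto (fun k => 𝓕⁻ (fun ξ => chi (1 / ((ns k : ℝ) + 1)) ξ • f ξ) x) atTop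
      (𝓝 ((FT F).symm f x)) := by
  have h1 := ((FT F).symm.continuous.tendsto f).comp (chi_tendsto f)
  obtain ⟨ns, hns, h2⟩ := (tendstoInMeasure_of_tendsto_Lp h1).exists_seq_tendsto_ae
  refine ⟨ns, hns, ?_⟩
  have h3 : ∀ᵐ x : E3, ∀ n : ℕ, (FT F).symm (toL2 fun ξ => chi (1 / ((n : ℝ) + 1)) ξ • f ξ) x =
      𝓕⁻ (fun ξ => chi (1 / ((n : ℝ) + 1)) ξ • f ξ) x :=
    ae_all_iff.2 fun n => l1l2 (integrable_chi (by positivity) f) (memLp_chi _ f)
  filter_upwards [h2, h3] with x h2 h3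
  exact h2.congr fun k => h3 (ns k)

variable [FiniteDimensional ℂ F] (M : Model F)

omit [CompleteSpace F] in
lemma La_sa (ξ : E3) (u v : F) : inner ℂ (M.La ξ u) v = inner ℂ u (M.La ξ v) := by
  simp only [Model.La, Model.Pp, Model.Pm, add_apply,
    smul_apply, sub_apply, ContinuousLinearMap.id_apply,
    inner_add_left, inner_add_right, inner_smul_left, inner_smul_right, inner_sub_left,
    inner_sub_right, M.B_sa, Complex.conj_ofReal, map_inv₀, map_ofNat]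

omit [CompleteSpace F] in
lemma sym0_eq (s : E3 → ℝ) (e : F) (ξ : E3) : M.sym0 s s e ξ = s ξ • M.La ξ e := by
  simp only [Model.sym0, Model.La, add_apply, smul_apply,
    smul_add, Complex.coe_smul, smul_smul, mul_comm]

lemma inner_tv {ε : ℝ} (hε : 0 < ε) (x : E3) (e : F) {f : L2 F} (hf : M.Lam f = f) :
    inner ℂ (M.tv x (chi ε) (chi ε) e) f = inner ℂ e (𝓕⁻ (fun ξ => chi ε ξ • f ξ) x) := by
  have hi : Integrable fun ξ : E3 =>
      Complex.exp (((2 * π * inner ℝ ξ x : ℝ) : ℂ) * Complex.I) • (chi ε ξ • f ξ) := by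
    refine (integrable_chi hε f).mono
      ((Continuous.aestronglyMeasurable (by fun_prop)).smul (integrable_chi hε f).1)
      (.of_forall fun ξ => ?_)
    rw [norm_smul, Complex.norm_exp_ofReal_mul_I, one_mul]
  rw [Real.fourierInv_eq', ← integral_inner hi, L2.inner_def]
  refine integral_congr_ae ?_
  have h1 := M.Lam_ae f
  rw [hf] at h1
  filter_upwards [M.tv_ae (nice_chi hε) (nice_chi hε) x e, h1] with ξ h2 h3
  rw [h2, sym0_eq, inner_smul_left, inner_smul_right, ← Complex.coe_smul, ← Complex.coe_smul,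
    inner_smul_left, inner_smul_right, La_sa, ← h3, Complex.conj_ofReal, wave, ← Complex.exp_conj]
  congr 2
  simp only [map_mul, Complex.conj_ofReal, Complex.conj_I]
  push_cast
  ring

lemma eigAll_eq : M.eigAll = (Submodule.span ℂ
    (FT F '' {ψ : L2 F | ∃ E ∈ M.I, IsEig M.T M.La E ψ})).topologicalClosure := by
  unfold Model.eigAll Model.eig
  congr 1
  rw [← Submodule.span_iUnion₂]
  congr 1
  ext f
  simp only [Set.mem_iUnion, Set.mem_ofPred_eq, Set.mem_image, exists_prop]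
  constructor
  · rintro ⟨e, he, h⟩
    exact ⟨_, ⟨e, he, h⟩, (FT F).apply_symm_apply f⟩
  · rintro ⟨ψ, ⟨e, he, h⟩, rfl⟩
    exact ⟨e, he, by rwa [(FT F).symm_apply_apply]⟩

end Point

open Point

variable {F : Type} [NormedAddCommGroup F] [InnerProductSpace ℂ F] [CompleteSpace F]
  [FiniteDimensional ℂ F]

theorem Model.densityLimit (M : Model F) (q : ℝ) :
    DensityLimit q (eigSpace M.T M.La M.I) (q * (M.rk * (√2 / (3 * π ^ 2)))) := by
  intro ι ψ hψ hspan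
  let f : ι → L2 F := fun j => FT F (ψ j)
  have hf : Orthonormal ℂ f := (FT F).toLinearIsometry.orthonormal_comp_iff.2 hψ
  have hall : M.eigAll = (Submodule.span ℂ (Set.range f)).topologicalClosure := by
    have e : Set.range f = FT F '' Set.range ψ := Set.range_comp (FT F) ψ
    ext h
    rw [eigAll_eq, e, mem_clos_image_iff, mem_clos_image_iff, hspan]
    rfl
  have fm : ∀ j, f j ∈ M.eigAll := fun j => by
    rw [hall]
    exact Submodule.le_topologicalClosure _ (Submodule.subset_span ⟨j, rfl⟩)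
  obtain ⟨R₀, hR₀⟩ := M.cauchy
  let g : ℕ → E3 → Fin M.n → L2 F := fun n x a =>
    M.P (M.tv x (chi (1 / ((n : ℝ) + 1))) (chi (1 / ((n : ℝ) + 1))) (M.b a))
  have gc : ∀ δ : ℝ, 0 < δ → ∃ N : ℕ, ∀ n, N ≤ n → ∀ m, N ≤ m → ∀ x : E3, R₀ ≤ ‖x‖ → ∀ a,
      ‖g n x a - g m x a‖ ≤ δ := by
    intro δ hδ
    obtain ⟨ε₀, h0, h1⟩ := hR₀ δ hδ
    obtain ⟨N, hN⟩ := exists_nat_one_div_lt h0
    have h2 : ∀ n : ℕ, N ≤ n → 1 / ((n : ℝ) + 1) ≤ ε₀ := fun n hn =>
      (Nat.one_div_le_one_div hn).trans hN.le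
    exact ⟨N, fun n hn m hm x hx a =>
      h1 _ _ (by positivity) (h2 n hn) (by positivity) (h2 m hm) x hx a⟩
  let G : E3 → Fin M.n → L2 F := fun x a => limUnder atTop fun n => g n x a
  have gG : ∀ x : E3, R₀ ≤ ‖x‖ → ∀ a, Tendsto (fun n => g n x a) atTop (𝓝 (G x a)) := by
    intro x hx a
    refine CauchySeq.tendsto_limUnder (Metric.cauchySeq_iff.2 fun δ hδ => ?_)
    obtain ⟨N, hN⟩ := gc (δ / 2) (by positivity)
    refine ⟨N, fun m hm n hn => ?_⟩
    rw [dist_eq_norm]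
    exact (hN m hm n hn x hx a).trans_lt (by linarith only [hδ])
  have gu : ∀ δ : ℝ, 0 < δ → ∃ N : ℕ, ∀ n, N ≤ n → ∀ x : E3, R₀ ≤ ‖x‖ → ∀ a,
      ‖g n x a - G x a‖ ≤ δ := by
    intro δ hδ
    obtain ⟨N, hN⟩ := gc δ hδ
    refine ⟨N, fun n hn x hx a => ?_⟩
    refine le_of_tendsto ((tendsto_const_nhds.sub (gG x hx a)).norm) ?_
    filter_upwards [eventually_ge_atTop N] with m hm using hN n hn m hm x hx a
  have Gm : ∀ x : E3, R₀ ≤ ‖x‖ → ∀ a, G x a ∈ M.eigAll := fun x hx a =>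
    (Submodule.isClosed_topologicalClosure _).mem_of_tendsto (gG x hx a)
      (.of_forall fun n => Submodule.starProjection_apply_mem _ _)
  have gf : ∀ n x a j, inner ℂ (g n x a) (f j) =
      inner ℂ (M.b a) (𝓕⁻ (fun ξ => chi (1 / ((n : ℝ) + 1)) ξ • f j ξ) x) := by
    intro n x a j
    rw [← inner_tv M (by positivity) x (M.b a) (M.Lam_of_eigAll (fm j))]
    simp only [g, Model.P]
    rw [Submodule.inner_starProjection_left_eq_right,
      Submodule.starProjection_eq_self_iff.2 (fm j)]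
  let φ : ι → E3 → F := fun j x => ∑ a, inner ℂ (G x a) (f j) • M.b a
  have hs : ∀ x : E3, R₀ ≤ ‖x‖ → HasSum (fun j => ‖φ j x‖ ^ 2) (∑ a, ‖G x a‖ ^ 2) := by
    intro x hx
    have h1 := hasSum_sum (s := Finset.univ) fun a _ => parseval hf (hall ▸ Gm x hx a)
    convert h1 using 2 with j
    rw [← M.b.sum_sq_norm_inner_right]
    refine Finset.sum_congr rfl fun a _ => ?_
    rw [M.b.orthonormal.inner_right_fintype]
  refine ⟨R₀, φ, fun j => ?_, fun j => ?_, fun x hx => (hs x hx.le).summable, ?_⟩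
  · refine continuousOn_finsetSum _ fun a _ => ContinuousOn.smul ?_ continuousOn_const
    refine TendstoUniformlyOn.continuousOn (F := fun n x => inner ℂ (g n x a) (f j))
      (p := atTop) ?_ ?_
    · refine Metric.tendstoUniformlyOn_iff.2 fun δ hδ => ?_
      obtain ⟨N, hN⟩ := gu (δ / 2) (by positivity)
      filter_upwards [eventually_ge_atTop N] with n hn x hx
      rw [dist_comm, dist_eq_norm, ← inner_sub_left]
      refine (norm_inner_le_norm _ _).trans_lt ?_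
      rw [hf.1 j, mul_one]
      exact (hN n hn x (le_of_lt hx) a).trans_lt (by linarith only [hδ])
    · refine Frequently.of_forall fun n => ?_
      simp only [gf]
      exact (continuous_const.inner (continuous_chi (by positivity) (f j))).continuousOn
  · obtain ⟨ns, hns, h1⟩ := exists_subseq (f j)
    filter_upwards [h1] with x h1 hx
    have h2 : Tendsto (fun n : ℕ => 𝓕⁻ (fun ξ => chi (1 / ((n : ℝ) + 1)) ξ • f j ξ) x) atTop
        (𝓝 (φ j x)) := by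
      have h3 : Tendsto (fun n : ℕ => ∑ a, inner ℂ (g n x a) (f j) • M.b a) atTop (𝓝 (φ j x)) :=
        tendsto_finsetSum _ fun a _ => ((gG x hx.le a).inner tendsto_const_nhds).smul_const _
      refine h3.congr fun n => ?_
      simp only [gf]
      exact M.b.sum_repr' _
    have h4 := tendsto_nhds_unique (h2.comp hns.tendsto_atTop) h1
    rw [h4]
    simp only [f, LinearIsometryEquiv.symm_apply_apply]
  · have far : ∀ R : ℝ, ∀ᶠ x : E3 in cocompact E3, R ≤ ‖x‖ := fun R =>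
      (tendsto_norm_cocompact_atTop (E := E3)).eventually (eventually_ge_atTop R)
    have h1 : Tendsto (fun x : E3 => ‖x‖ ^ (3 / 2 : ℝ) * ∑ a, ‖G x a‖ ^ 2) (cocompact E3)
        (𝓝 (M.rk * (√2 / (3 * π ^ 2)))) := by
      refine Metric.tendsto_nhds.2 fun η hη => ?_
      obtain ⟨R₁, hR₁⟩ := M.core (η := η / 2) (by positivity)
      filter_upwards [far R₀, far R₁] with x h0 h1
      have h2 : Tendsto (fun n : ℕ => |‖x‖ ^ (3 / 2 : ℝ) * ∑ a, ‖g n x a‖ ^ 2 -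
          M.rk * (√2 / (3 * π ^ 2))|) atTop
          (𝓝 |‖x‖ ^ (3 / 2 : ℝ) * ∑ a, ‖G x a‖ ^ 2 - M.rk * (√2 / (3 * π ^ 2))|) :=
        (((tendsto_finsetSum _ fun a _ => (gG x h0 a).norm.pow 2).const_mul _).sub_const _).abs
      rw [Real.dist_eq]
      refine (le_of_tendsto' h2 fun n => hR₁ x h1 _ (by positivity) ?_).trans_lt (by linarith)
      rw [div_le_one (by positivity)]
      linarith [Nat.cast_nonneg (α := ℝ) n]
    refine (h1.const_mul q).congr' ?_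
    filter_upwards [far R₀] with x h0
    rw [(hs x h0).tsum_eq]
    ring

end Pool.Agent.Work.MP_0d9e46_mp
end
end
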