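import Mathlib

/-!
Definitions for the statement on the large-distance behaviour of relativistic hydrogenic densities.
Fourier convention of Mathlib: the transform of `ψ` is `∫ exp(-2πi x·ξ) ψ(x) dx`, so that the
momentum operator `-i∇` acts as multiplication by `p = 2πξ`.
-/

open MeasureTheory Filter Topology
open scoped Real

noncomputable section

namespace Pool.Agent.Work.MP_0d9e46_mp

section general

variable {X F : Type} [NormedAddCommGroup X] [InnerProductSpace ℝ X] [FiniteDimensional ℝ X]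
  [MeasurableSpace X] [BorelSpace X] [NormedAddCommGroup F] [InnerProductSpace ℂ F]
  [CompleteSpace F]

/-- The unitary Fourier transform of a square integrable function. -/
def hat (ψ : Lp F 2 (volume : Measure X)) : X → F := Lp.fourierTransformₗᵢ X F ψ

/-- The form domain: `ψ` lies in the Sobolev space of order one half and in the range of the
Fourier multiplier `Λ` (a projection). -/
def FormDom (Λ : X → F → F) (ψ : Lp F 2 (volume : Measure X)) : Prop :=
  Integrable (fun ξ : X => ‖ξ‖ * ‖hat ψ ξ‖ ^ 2) ∧ ∀ᵐ ξ : X, Λ ξ (hat ψ ξ) = hat ψ ξ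

/-- `ψ` solves the eigenvalue equation with energy `E` for the operator given by the form of the
Fourier multiplier `T` minus `1/|x|` on the form domain `FormDom Λ`. -/
def Eigen (T Λ : X → F → F) (E : ℝ) (ψ : Lp F 2 (volume : Measure X)) : Prop :=
  FormDom Λ ψ ∧ ∀ φ : Lp F 2 (volume : Measure X), FormDom Λ φ →
    (∫ ξ : X, inner ℂ (hat φ ξ) (T ξ (hat ψ ξ))) -
      (∫ y : X, ((‖y‖⁻¹ : ℝ) : ℂ) * inner ℂ (φ y) (ψ y)) = (E : ℂ) * inner ℂ φ ψ

/-- The closed span of all eigenfunctions with energy in `I`. -/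
def eigenSpan (T Λ : X → F → F) (I : Set ℝ) : Submodule ℂ (Lp F 2 (volume : Measure X)) :=
  (Submodule.span ℂ {ψ | ∃ E ∈ I, Eigen T Λ E ψ}).topologicalClosure

/-- For every orthonormal basis `ψ j` of the closed span of the eigenfunctions with energy in `I`,
the `ψ j` have versions `φ j` that are continuous outside one ball, the density `q ∑ |φ j x|²`
converges there, and `|x|^(3/2)` times the density tends to `L` as `|x| → ∞`. -/
def DensityTendsto (T Λ : X → F → F) (I : Set ℝ) (q L : ℝ) : Prop :=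
  ∀ (ι : Type) (ψ : ι → Lp F 2 (volume : Measure X)), Orthonormal ℂ ψ →
    (Submodule.span ℂ (Set.range ψ)).topologicalClosure = eigenSpan T Λ I →
    ∃ (R₀ : ℝ) (φ : ι → X → F),
      (∀ j, ContinuousOn (φ j) {x | R₀ < ‖x‖}) ∧
      (∀ j, ∀ᵐ x : X, R₀ < ‖x‖ → φ j x = ψ j x) ∧
      (∀ x : X, R₀ < ‖x‖ → Summable fun j => ‖φ j x‖ ^ 2) ∧
      Tendsto (fun x : X => ‖x‖ ^ (3 / 2 : ℝ) * (q * ∑' j, ‖φ j x‖ ^ 2)) (cocompact X) (𝓝 L)

end general

/-- Physical space. -/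
abbrev E3 : Type := EuclideanSpace ℝ (Fin 3)

/-- Spinor space. -/
abbrev C4 : Type := EuclideanSpace ℂ (Fin 4)

/-- The free relativistic energy `√(γ⁻² |p|² + γ⁻⁴)` at momentum `p = 2πξ`. -/
def En (γ : ℝ) (ξ : E3) : ℝ := √(γ⁻¹ ^ 2 * ‖(2 * π) • ξ‖ ^ 2 + γ⁻¹ ^ 4)

/-- The Dirac matrices `α₁, α₂, α₃` in the standard representation. -/
def alpha : Fin 3 → Matrix (Fin 4) (Fin 4) ℂ :=
  ![!![0, 0, 0, 1; 0, 0, 1, 0; 0, 1, 0, 0; 1, 0, 0, 0],
    !![0, 0, 0, -Complex.I; 0, 0, Complex.I, 0; 0, -Complex.I, 0, 0; Complex.I, 0, 0, 0],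
    !![0, 0, 1, 0; 0, 0, 0, -1; 1, 0, 0, 0; 0, -1, 0, 0]]

/-- The Dirac matrix `β` in the standard representation. -/
def beta : Matrix (Fin 4) (Fin 4) ℂ := !![1, 0, 0, 0; 0, 1, 0, 0; 0, 0, -1, 0; 0, 0, 0, -1]

/-- The symbol `γ⁻¹ α·p + γ⁻² β` of the free Dirac operator at momentum `p = 2πξ`. -/
def diracM (γ : ℝ) (ξ : E3) : Matrix (Fin 4) (Fin 4) ℂ :=
  ∑ i : Fin 3, ((γ⁻¹ * (2 * π * ξ i) : ℝ) : ℂ) • alpha i + ((γ⁻¹ ^ 2 : ℝ) : ℂ) • beta

/-- The symbol of the projection onto the positive spectral subspace of the free Dirac operator. -/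
def posM (γ : ℝ) (ξ : E3) : Matrix (Fin 4) (Fin 4) ℂ :=
  (2⁻¹ : ℂ) • (1 + (((En γ ξ)⁻¹ : ℝ) : ℂ) • diracM γ ξ)

/-- A matrix valued symbol acting on spinors. -/
def act (A : E3 → Matrix (Fin 4) (Fin 4) ℂ) (ξ : E3) (u : C4) : C4 :=
  WithLp.toLp 2 ((A ξ).mulVec u.ofLp)

end Pool.Agent.Work.MP_0d9e46_mp
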