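import Pool.Agent.Work.MP_0d9e46_mp.Ops
import Pool.Agent.Work.MP_0d9e46_mp.Err

/-! Test vectors. -/

open MeasureTheory Filter Topology FourierTransform
open scoped Real ENNReal

noncomputable section

namespace Pool.Agent.Work.MP_0d9e46_mp

/-- Continuous with compact support. -/
structure Nice (s : E3 → ℝ) : Prop where
  cont : Continuous s
  supp : HasCompactSupport s

theorem Nice.zero : Nice fun _ => 0 := ⟨continuous_const, HasCompactSupport.zero⟩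

theorem Nice.mul_left {s g : E3 → ℝ} (h : Nice s) (hg : Continuous g) :
    Nice fun ξ => g ξ * s ξ := ⟨hg.mul h.cont, h.supp.mul_left⟩

theorem Nice.sub {s s' : E3 → ℝ} (h : Nice s) (h' : Nice s') : Nice fun ξ => s ξ - s' ξ :=
  ⟨h.cont.sub h'.cont, by
    refine HasCompactSupport.intro (h.supp.isCompact.union h'.supp.isCompact) fun ξ hξ => ?_
    rw [Set.mem_union, not_or] at hξ
    simp [image_eq_zero_of_notMem_tsupport hξ.1, image_eq_zero_of_notMem_tsupport hξ.2]⟩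

theorem Cls.nice {s b : E3 → ℝ} {K : ℝ} (h : Cls s b K) (hs : HasCompactSupport s) : Nice s :=
  ⟨h.contDiff.continuous, hs⟩

theorem Xi_nonneg (r : ℝ) : 0 ≤ Xi r := ENNReal.toReal_nonneg

theorem wt_nonneg (r : ℝ) (ξ : E3) : 0 ≤ wt r ξ := by
  unfold wt; split_ifs <;> positivity

theorem eLpNorm_wt (A r : ℝ) (hA : 0 ≤ A) :
    eLpNorm (fun ξ : E3 => A * wt r ξ / ‖ξ‖) 2 volume = ENNReal.ofReal (A * Xi r) := by
  have h1 : (fun ξ : E3 => A * wt r ξ / ‖ξ‖) = A • fun ξ : E3 => wt r ξ / ‖ξ‖ := by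
    funext ξ; simp [mul_div_assoc]
  rw [h1, eLpNorm_const_smul, Xi, ENNReal.ofReal_mul hA, ENNReal.ofReal_toReal (Xi_fin r),
    Real.enorm_eq_ofReal hA]

variable {F : Type} [NormedAddCommGroup F] [InnerProductSpace ℂ F] [CompleteSpace F]
  [FiniteDimensional ℂ F]

namespace Model

variable (M : Model F) {sp sm sp' sm' : E3 → ℝ}

lemma Pp_apply (ξ : E3) (u : F) : M.Pp ξ u = (2⁻¹ : ℂ) • (u + M.B ξ u) := by simp [Pp]

lemma Pm_apply (ξ : E3) (u : F) : M.Pm ξ u = (2⁻¹ : ℂ) • (u - M.B ξ u) := by simp [Pm]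

lemma B_Pp (ξ : E3) (u : F) : M.B ξ (M.Pp ξ u) = M.Pp ξ u := by
  rw [Pp_apply, map_smul, map_add, M.B_sq, add_comm]

lemma B_Pm (ξ : E3) (u : F) : M.B ξ (M.Pm ξ u) = -M.Pm ξ u := by
  rw [Pm_apply, map_smul, map_sub, M.B_sq, ← smul_neg, neg_sub]

lemma σ_mul_σ : M.σ * M.σ = M.σ := by rcases M.hσ with h | h <;> simp [h]

lemma sym0_eq (sp sm : E3 → ℝ) (e : F) (ξ : E3) :
    M.sym0 sp sm e ξ = (sp ξ : ℂ) • M.Pp ξ e + ((M.σ * sm ξ : ℝ) : ℂ) • M.Pm ξ e := by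
  rw [sym0, Complex.coe_smul, Complex.coe_smul]

lemma B_sym0 (sp sm : E3 → ℝ) (e : F) (ξ : E3) :
    M.B ξ (M.sym0 sp sm e ξ) = (sp ξ : ℂ) • M.Pp ξ e - ((M.σ * sm ξ : ℝ) : ℂ) • M.Pm ξ e := by
  rw [sym0_eq, map_add, map_smul, map_smul, B_Pp, B_Pm, smul_neg, sub_eq_add_neg]

lemma La_sym0 (sp sm : E3 → ℝ) (e : F) (ξ : E3) :
    M.La ξ (M.sym0 sp sm e ξ) = M.sym0 sp sm e ξ := by
  have h : (M.σ : ℂ) * (M.σ : ℂ) = M.σ := by exact_mod_cast M.σ_mul_σ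
  have h1 : M.La ξ (M.sym0 sp sm e ξ) =
      M.Pp ξ (M.sym0 sp sm e ξ) + (M.σ : ℂ) • M.Pm ξ (M.sym0 sp sm e ξ) := by simp [La]
  rw [h1, M.Pp_apply ξ (M.sym0 sp sm e ξ), M.Pm_apply ξ (M.sym0 sp sm e ξ), B_sym0, sym0_eq]
  push_cast
  match_scalars
  · ring
  · linear_combination (sm ξ : ℂ) * h

lemma G_sym0 (sp sm : E3 → ℝ) (e : F) (ξ : E3) :
    M.G ξ (M.sym0 (fun ξ => M.E ξ * sp ξ) (fun ξ => -M.E ξ * sm ξ) e ξ) = M.sym0 sp sm e ξ := by
  have h : ((M.E ξ : ℂ))⁻¹ * (M.E ξ : ℂ) = 1 :=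
    inv_mul_cancel₀ (by exact_mod_cast (M.E_pos ξ).ne')
  rw [G, ContinuousLinearMap.smul_apply, B_sym0, sym0_eq]
  push_cast
  match_scalars
  · linear_combination (sp ξ : ℂ) * h
  · linear_combination (M.σ : ℂ) * (sm ξ : ℂ) * h

lemma continuous_sym0 (hp : Continuous sp) (hm : Continuous sm) (e : F) :
    Continuous (M.sym0 sp sm e) :=
  (hp.smul (M.continuous_Pp.clm_apply continuous_const)).add
    ((continuous_const.mul hm).smul (M.continuous_Pm.clm_apply continuous_const))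

lemma supp_sym0 (hp : HasCompactSupport sp) (hm : HasCompactSupport sm) (e : F) :
    HasCompactSupport (M.sym0 sp sm e) := by
  refine HasCompactSupport.intro (hp.isCompact.union hm.isCompact) fun ξ hξ => ?_
  rw [Set.mem_union, not_or] at hξ
  simp [sym0, image_eq_zero_of_notMem_tsupport hξ.1, image_eq_zero_of_notMem_tsupport hξ.2]

lemma continuous_wsym (hp : Nice sp) (hm : Nice sm) (x : E3) (e : F) :
    Continuous fun ξ => wave x ξ • M.sym0 sp sm e ξ :=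
  (continuous_wave.comp (Continuous.prodMk_right x)).smul (M.continuous_sym0 hp.cont hm.cont e)

lemma supp_wsym (hp : Nice sp) (hm : Nice sm) (x : E3) (e : F) :
    HasCompactSupport fun ξ => wave x ξ • M.sym0 sp sm e ξ :=
  (M.supp_sym0 hp.supp hm.supp e).smul_left

lemma memLp_wsym (hp : Nice sp) (hm : Nice sm) (x : E3) (e : F) :
    MemLp (fun ξ => wave x ξ • M.sym0 sp sm e ξ) 2 volume :=
  (M.continuous_wsym hp hm x e).memLp_of_hasCompactSupport (M.supp_wsym hp hm x e)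

lemma integrable_wsym (hp : Nice sp) (hm : Nice sm) (x : E3) (e : F) :
    Integrable (fun ξ => wave x ξ • M.sym0 sp sm e ξ) :=
  (M.continuous_wsym hp hm x e).integrable_of_hasCompactSupport (M.supp_wsym hp hm x e)

theorem tv_ae (hp : Nice sp) (hm : Nice sm) (x : E3) (e : F) :
    M.tv x sp sm e =ᵐ[volume] fun ξ => wave x ξ • M.sym0 sp sm e ξ :=
  toL2_ae (M.memLp_wsym hp hm x e)

theorem tv_congr (x : E3) (e : F) (hp : ∀ ξ, sp ξ = sp' ξ)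
    (hm : ∀ ξ, M.σ * sm ξ = M.σ * sm' ξ) : M.tv x sp sm e = M.tv x sp' sm' e := by
  unfold tv sym0
  simp only [hp, hm]

theorem tv_sub (hp : Nice sp) (hm : Nice sm) (hp' : Nice sp') (hm' : Nice sm') (x : E3) (e : F) :
    M.tv x (fun ξ => sp ξ - sp' ξ) (fun ξ => sm ξ - sm' ξ) e =
      M.tv x sp sm e - M.tv x sp' sm' e := by
  apply toL2_eq
  filter_upwards [Lp.coeFn_sub (M.tv x sp sm e) (M.tv x sp' sm' e), M.tv_ae hp hm x e,
    M.tv_ae hp' hm' x e] with ξ h1 h2 h3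
  rw [h1, Pi.sub_apply, h2, h3, sym0_eq, sym0_eq, sym0_eq]
  push_cast
  module

lemma nice_E (hp : Nice sp) : Nice fun ξ => M.E ξ * sp ξ := hp.mul_left M.continuous_E

lemma nice_nE (hp : Nice sp) : Nice fun ξ => -M.E ξ * sp ξ := hp.mul_left M.continuous_E.neg

theorem U_sub (hp : Nice sp) (hm : Nice sm) (hp' : Nice sp') (hm' : Nice sm') (x : E3) (e : F) :
    M.U x (fun ξ => sp ξ - sp' ξ) (fun ξ => sm ξ - sm' ξ) e =
      M.U x sp sm e - M.U x sp' sm' e := by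
  have h1 : M.tv x (fun ξ => M.E ξ * (sp ξ - sp' ξ)) (fun ξ => -M.E ξ * (sm ξ - sm' ξ)) e =
      M.tv x (fun ξ => M.E ξ * sp ξ) (fun ξ => -M.E ξ * sm ξ) e -
        M.tv x (fun ξ => M.E ξ * sp' ξ) (fun ξ => -M.E ξ * sm' ξ) e := by
    rw [← M.tv_sub (M.nice_E hp) (M.nice_nE hm) (M.nice_E hp') (M.nice_nE hm')]
    exact M.tv_congr x e (fun ξ => by ring) (fun ξ => by ring)
  simp only [U]
  rw [h1, M.tv_sub hp hm hp' hm', map_sub, smul_sub]
  abel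

theorem Lam_tv (hp : Nice sp) (hm : Nice sm) (x : E3) (e : F) :
    M.Lam (M.tv x sp sm e) = M.tv x sp sm e := by
  apply Lp.ext
  filter_upwards [M.Lam_ae (M.tv x sp sm e), M.tv_ae hp hm x e] with ξ h1 h2
  rw [h1, h2, map_smul, La_sym0]

lemma G0_tv (hp : Nice sp) (hm : Nice sm) (x : E3) (e : F) :
    M.G0 (M.tv x (fun ξ => M.E ξ * sp ξ) (fun ξ => -M.E ξ * sm ξ) e) = M.tv x sp sm e := by
  apply Lp.ext
  filter_upwards [M.G0_ae (M.tv x (fun ξ => M.E ξ * sp ξ) (fun ξ => -M.E ξ * sm ξ) e),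
    M.tv_ae hp hm x e, M.tv_ae (M.nice_E hp) (M.nice_nE hm) x e] with ξ h1 h2 h3
  rw [h1, h2, h3, map_smul, G_sym0]

lemma continuous_t (R : ℝ) : Continuous (M.t R) :=
  continuous_const.mul (M.continuous_E.sub continuous_const)

theorem step (hp : Nice sp) (hm : Nice sm) (x : E3) (e : F) {f h : L2 F} (hr : M.Rel f h)
    (w : ℝ) :
    inner ℂ f (M.tv x (fun ξ => (M.t ‖x‖ ξ - 1 - w) * sp ξ)
        (fun ξ => (-M.t ‖x‖ ξ - 2 * ‖x‖ * M.c ^ 2 - 1 - w) * sm ξ) e) +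
      inner ℂ f (M.U x sp sm e) =
      inner ℂ (((‖x‖ : ℝ) : ℂ) • h - ((‖x‖ * M.c ^ 2 + w : ℝ) : ℂ) • f) (M.tv x sp sm e) := by
  set φ := M.tv x (fun ξ => M.E ξ * sp ξ) (fun ξ => -M.E ξ * sm ξ) e with hφ
  set v := M.tv x sp sm e with hv
  have h1 := hr φ (M.Lam_tv (M.nice_E hp) (M.nice_nE hm) x e)
  rw [hφ, M.G0_tv hp hm, ← hφ, ← hv, inner_sub_right] at h1
  have hc := M.continuous_t ‖x‖
  have h2 : M.tv x (fun ξ => (M.t ‖x‖ ξ - 1 - w) * sp ξ)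
      (fun ξ => (-M.t ‖x‖ ξ - 2 * ‖x‖ * M.c ^ 2 - 1 - w) * sm ξ) e =
      ((‖x‖ : ℝ) : ℂ) • φ - ((‖x‖ * M.c ^ 2 + 1 + w : ℝ) : ℂ) • v := by
    apply toL2_eq
    filter_upwards [Lp.coeFn_sub (((‖x‖ : ℝ) : ℂ) • φ) (((‖x‖ * M.c ^ 2 + 1 + w : ℝ) : ℂ) • v),
      Lp.coeFn_smul ((‖x‖ : ℝ) : ℂ) φ, Lp.coeFn_smul ((‖x‖ * M.c ^ 2 + 1 + w : ℝ) : ℂ) v,
      M.tv_ae hp hm x e, M.tv_ae (M.nice_E hp) (M.nice_nE hm) x e] with ξ k1 k2 k3 k4 k5
    rw [k1, Pi.sub_apply, k2, k3, Pi.smul_apply, Pi.smul_apply, hφ, hv, k4, k5, sym0_eq, sym0_eq,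
      sym0_eq]
    simp only [t]
    push_cast
    module
  rw [h2, U, ← hφ, ← hv]
  simp only [inner_sub_right, inner_smul_right, inner_sub_left, inner_smul_left,
    Complex.conj_ofReal]
  rw [← h1]
  push_cast
  ring

lemma FT_symm_tv (hp : Nice sp) (hm : Nice sm) (x : E3) (e : F) :
    (FT F).symm (M.tv x sp sm e) =ᵐ[volume] fun y => 𝓕⁻ (M.sym0 sp sm e) (y - x) := by
  filter_upwards [l1l2 (M.integrable_wsym hp hm x e) (M.memLp_wsym hp hm x e)] with y hy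
  rw [tv, hy, fourierInv_wave]

lemma FT_symm_U (hp : Nice sp) (hm : Nice sm) (x : E3) (e : F) :
    (FT F).symm (M.U x sp sm e) =ᵐ[volume]
      fun y => (1 - ‖x‖ * ‖y‖⁻¹) • 𝓕⁻ (M.sym0 sp sm e) (y - x) := by
  set φ := M.tv x (fun ξ => M.E ξ * sp ξ) (fun ξ => -M.E ξ * sm ξ) e with hφ
  have h1 := M.V_ae φ
  rw [hφ, M.G0_tv hp hm, ← hφ] at h1
  rw [U, ← hφ, map_sub, map_smul]
  filter_upwards [Lp.coeFn_sub ((FT F).symm (M.tv x sp sm e))
    (((‖x‖ : ℝ) : ℂ) • (FT F).symm (M.V φ)), Lp.coeFn_smul ((‖x‖ : ℝ) : ℂ) ((FT F).symm (M.V φ)),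
    h1, M.FT_symm_tv hp hm x e] with y k1 k2 k3 k4
  rw [k1, Pi.sub_apply, k2, Pi.smul_apply, k3, k4, Complex.coe_smul, sub_smul, one_smul,
    mul_smul]

lemma cls_sym0_wt {A K r : ℝ} (hK : 0 ≤ K) (hp : Cls sp (fun ξ => A * wt r ξ) K)
    (hm : Cls sm (fun ξ => A * wt r ξ) K) (e : F) :
    Cls (M.sym0 sp sm e) (fun ξ => (2 * A * ‖e‖) * wt r ξ) (K + M.KB) := fun ξ =>
  (M.cls_sym0 hK (hp ξ) (hm ξ) e).mono (le_of_eq (by ring)) (add_nonneg hK M.KB_nonneg) le_rfl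

theorem norm_U_le {A K r : ℝ} (hK : 0 ≤ K) (hA : 0 ≤ A) (hp : Cls sp (fun ξ => A * wt r ξ) K)
    (hm : Cls sm (fun ξ => A * wt r ξ) K) (hp' : HasCompactSupport sp)
    (hm' : HasCompactSupport sm) {x : E3} (hx : x ≠ 0) (e : F) :
    ‖M.U x sp sm e‖ ≤ 4 * (K + M.KB + 1) ^ 2 * A * Xi r * ‖e‖ / ‖x‖ := by
  have hKB := M.KB_nonneg
  have hXi := Xi_nonneg r
  have h1 : Cls (M.sym0 sp sm e) (fun ξ => (2 * A * ‖e‖) * wt r ξ) (K + M.KB + 1) := fun ξ =>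
    (M.cls_sym0_wt hK hp hm e ξ).mono le_rfl (by positivity) (by linarith)
  have h2 := err_U (by linarith) h1 (M.supp_sym0 hp' hm' e) hx
  rw [eLpNorm_wt _ _ (by positivity), ← ENNReal.ofReal_mul (by positivity),
    ← eLpNorm_congr_ae (M.FT_symm_U (hp.nice hp') (hm.nice hm') x e)] at h2
  rw [← (FT F).symm.norm_map, Lp.norm_def]
  refine (ENNReal.toReal_le_of_le_ofReal (by positivity) h2).trans (le_of_eq ?_)
  ring

theorem loc_tv {A K r : ℝ} (hK : 0 ≤ K) (hA : 0 ≤ A) (hp : Cls sp (fun ξ => A * wt r ξ) K)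
    (hm : Cls sm (fun ξ => A * wt r ξ) K) (hp' : HasCompactSupport sp)
    (hm' : HasCompactSupport sm) (x : E3) (e : F) :
    eLpNorm (fun y : E3 => ‖y - x‖ • (FT F).symm (M.tv x sp sm e) y) 2 volume ≤
      ENNReal.ofReal (2 * (K + M.KB) * A * Xi r * ‖e‖) := by
  have hKB := M.KB_nonneg
  have hXi := Xi_nonneg r
  have h1 := M.cls_sym0_wt hK hp hm e
  have h2 := err_z (by positivity) h1 (M.supp_sym0 hp' hm' e)
  rw [eLpNorm_wt _ _ (by positivity), ← ENNReal.ofReal_mul (by positivity)] at h2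
  have h3 : (fun y : E3 => ‖y - x‖ • (FT F).symm (M.tv x sp sm e) y) =ᵐ[volume]
      (fun y : E3 => ‖y‖ • 𝓕⁻ (M.sym0 sp sm e) y) ∘ fun y => y - x := by
    filter_upwards [M.FT_symm_tv (hp.nice hp') (hm.nice hm') x e] with y hy
    rw [hy]; rfl
  have hi : Integrable (M.sym0 sp sm e) :=
    h1.contDiff.continuous.integrable_of_hasCompactSupport (M.supp_sym0 hp' hm' e)
  have hc : Continuous (𝓕⁻ (M.sym0 sp sm e)) := by
    obtain ⟨r, hr⟩ := (M.supp_sym0 hp' hm' e).isCompact.isBounded.subset_closedBall (0 : E3)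
    refine (contDiff_fourierInv hi ⟨r, fun ξ hξ => ?_⟩).continuous
    apply image_eq_zero_of_notMem_tsupport
    intro h
    have := hr h
    rw [mem_closedBall_zero_iff] at this
    linarith
  have hc' : Continuous (fun y : E3 => ‖y‖ • 𝓕⁻ (M.sym0 sp sm e) y) := continuous_norm.smul hc
  rw [eLpNorm_congr_ae h3, eLpNorm_comp_measurePreserving
    hc'.aestronglyMeasurable (measurePreserving_sub_right volume x)]
  refine h2.trans (le_of_eq ?_)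
  congr 1; ring

lemma norm_tv_sq (hp : Nice sp) (x : E3) (e : F) :
    ‖M.tv x sp (fun _ => 0) e‖ ^ 2 = ∫ ξ, sp ξ ^ 2 * ‖M.Pp ξ e‖ ^ 2 := by
  rw [← @inner_self_eq_norm_sq ℂ, L2.inner_def, ← integral_re (L2.integrable_inner _ _)]
  apply integral_congr_ae
  filter_upwards [M.tv_ae hp Nice.zero x e] with ξ hξ
  rw [inner_self_eq_norm_sq, hξ, norm_smul, norm_wave, one_mul]
  simp [sym0, norm_smul, mul_pow]

lemma integrable_sq_Pp (hp : Nice sp) (e : F) :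
    Integrable fun ξ => sp ξ ^ 2 * ‖M.Pp ξ e‖ ^ 2 := by
  apply Continuous.integrable_of_hasCompactSupport
  · exact (hp.cont.pow 2).mul ((M.continuous_Pp.clm_apply continuous_const).norm.pow 2)
  · refine HasCompactSupport.intro hp.supp.isCompact fun ξ hξ => ?_
    simp [image_eq_zero_of_notMem_tsupport hξ]

theorem sum_norm_tv_sq (hp : Nice sp) (x : E3) :
    ∑ a, ‖M.tv x sp (fun _ => 0) (M.b a)‖ ^ 2 = M.rk * ∫ ξ, sp ξ ^ 2 := by
  simp only [M.norm_tv_sq hp]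
  rw [← integral_finsetSum _ fun a _ => M.integrable_sq_Pp hp (M.b a), ← integral_const_mul]
  congr 1
  funext ξ
  rw [← Finset.mul_sum, ← M.tr ξ, mul_comm]
  simp only [Pp_apply]

theorem norm_tv_le (hp : Nice sp) (hp' : Nice sp') {ρ : ℝ} (hρ : 0 ≤ ρ)
    (h : ∀ ξ, |sp' ξ| ≤ ρ * |sp ξ|) (x : E3) (e : F) :
    ‖M.tv x sp' (fun _ => 0) e‖ ≤ ρ * ‖M.tv x sp (fun _ => 0) e‖ := by
  apply Lp.norm_le_mul_norm_of_ae_le_mul
  filter_upwards [M.tv_ae hp Nice.zero x e, M.tv_ae hp' Nice.zero x e] with ξ h1 h2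
  rw [h1, h2, norm_smul, norm_smul, norm_wave, one_mul, one_mul]
  simp only [sym0, mul_zero, zero_smul, add_zero, norm_smul, Real.norm_eq_abs]
  rw [← mul_assoc]
  exact mul_le_mul_of_nonneg_right (h ξ) (norm_nonneg _)

end Model

end Pool.Agent.Work.MP_0d9e46_mp
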