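import Pool.Agent.Work.MP_0d9e46_mp.Rot0

-- merged part: Pool.Agent.Work.MP_0d9e46_mp.Hardy
section
/-! Hardy inequalities: constant two in general, constant one for vanishing orbit average. -/

open MeasureTheory Filter Topology FourierTransform
open scoped Real ENNReal

noncomputable section

namespace Pool.Agent.Work.MP_0d9e46_mp

variable {F : Type} [NormedAddCommGroup F] [InnerProductSpace ℂ F] [CompleteSpace F]

namespace HardyAux

lemma lint_weight : ∫⁻ t in Set.Ioi (1 : ℝ), ENNReal.ofReal (t ^ (-(3 / 2) : ℝ)) = 2 := by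
  have hi : IntegrableOn (fun t : ℝ => t ^ (-(3 / 2) : ℝ)) (Set.Ioi 1) :=
    integrableOn_Ioi_rpow_of_lt (by norm_num) one_pos
  rw [← ofReal_integral_eq_lintegral_ofReal hi, integral_Ioi_rpow_of_lt (by norm_num) one_pos]
  · norm_num
  · filter_upwards [ae_restrict_mem measurableSet_Ioi] with t ht
    exact Real.rpow_nonneg (zero_le_one.trans (le_of_lt ht)) _

lemma weighted_cs {g : ℝ → ℝ≥0∞} (hg : Measurable g) :
    (∫⁻ t in Set.Ioi (1 : ℝ), g t) ^ (2 : ℝ) ≤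
      2 * ∫⁻ t in Set.Ioi (1 : ℝ), ENNReal.ofReal (t ^ (3 / 2 : ℝ)) * g t ^ (2 : ℝ) := by
  have h := ENNReal.lintegral_mul_le_Lp_mul_Lq (volume.restrict (Set.Ioi (1 : ℝ)))
    Real.HolderConjugate.two_two
    (f := fun t => ENNReal.ofReal (t ^ (-(3 / 4) : ℝ)))
    (g := fun t => ENNReal.ofReal (t ^ (3 / 4 : ℝ)) * g t) (by fun_prop) (by fun_prop)
  have e1 : ∫⁻ t in Set.Ioi (1 : ℝ), ((fun t => ENNReal.ofReal (t ^ (-(3 / 4) : ℝ))) *
      fun t => ENNReal.ofReal (t ^ (3 / 4 : ℝ)) * g t) t = ∫⁻ t in Set.Ioi (1 : ℝ), g t := by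
    refine setLIntegral_congr_fun measurableSet_Ioi fun t ht => ?_
    have ht0 : 0 < t := one_pos.trans ht
    simp only [Pi.mul_apply]
    rw [← mul_assoc, ← ENNReal.ofReal_mul (Real.rpow_nonneg ht0.le _), ← Real.rpow_add ht0]
    simp
  have e2 : ∫⁻ t in Set.Ioi (1 : ℝ), ENNReal.ofReal (t ^ (-(3 / 4) : ℝ)) ^ (2 : ℝ) = 2 := by
    rw [← lint_weight]
    refine setLIntegral_congr_fun measurableSet_Ioi fun t ht => ?_
    have ht0 : 0 < t := one_pos.trans ht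
    rw [ENNReal.ofReal_rpow_of_nonneg (Real.rpow_nonneg ht0.le _) (by norm_num),
      ← Real.rpow_mul ht0.le]
    norm_num
  have e3 : ∫⁻ t in Set.Ioi (1 : ℝ), (ENNReal.ofReal (t ^ (3 / 4 : ℝ)) * g t) ^ (2 : ℝ) =
      ∫⁻ t in Set.Ioi (1 : ℝ), ENNReal.ofReal (t ^ (3 / 2 : ℝ)) * g t ^ (2 : ℝ) := by
    refine setLIntegral_congr_fun measurableSet_Ioi fun t ht => ?_
    have ht0 : 0 < t := one_pos.trans ht
    rw [ENNReal.mul_rpow_of_nonneg _ _ (by norm_num),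
      ENNReal.ofReal_rpow_of_nonneg (Real.rpow_nonneg ht0.le _) (by norm_num),
      ← Real.rpow_mul ht0.le]
    norm_num
  rw [e1, e2, e3] at h
  refine (ENNReal.rpow_le_rpow h (by norm_num : (0 : ℝ) ≤ 2)).trans (le_of_eq ?_)
  rw [ENNReal.mul_rpow_of_nonneg _ _ (by norm_num), ← ENNReal.rpow_mul, ← ENNReal.rpow_mul]
  norm_num

lemma lint_scale {G : E3 → ℝ≥0∞} (hG : Measurable G) {t : ℝ} (ht : 0 < t) :
    ∫⁻ y : E3, G (t • y) = ENNReal.ofReal (t ^ (-3 : ℝ)) * ∫⁻ y, G y := by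
  have h := Measure.map_addHaar_smul (volume : Measure E3) ht.ne'
  rw [← lintegral_map hG (measurable_const_smul t), h, lintegral_smul_measure]
  congr 2
  simp only [finrank_euclideanSpace, Fintype.card_fin]
  rw [abs_of_pos (by positivity), Real.rpow_neg ht.le]
  norm_cast

lemma ray_avg {g : E3 → ℝ≥0∞} (hg : Measurable g) :
    ∫⁻ y : E3, (∫⁻ t in Set.Ioi (1 : ℝ), g (t • y)) ^ (2 : ℝ) ≤ 4 * ∫⁻ y, g y ^ (2 : ℝ) := by
  calc ∫⁻ y : E3, (∫⁻ t in Set.Ioi (1 : ℝ), g (t • y)) ^ (2 : ℝ)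
      ≤ ∫⁻ y : E3, 2 * ∫⁻ t in Set.Ioi (1 : ℝ),
          ENNReal.ofReal (t ^ (3 / 2 : ℝ)) * g (t • y) ^ (2 : ℝ) :=
        lintegral_mono fun y => weighted_cs (g := fun t => g (t • y)) (by fun_prop)
    _ = 2 * ∫⁻ t in Set.Ioi (1 : ℝ), ∫⁻ y : E3,
          ENNReal.ofReal (t ^ (3 / 2 : ℝ)) * g (t • y) ^ (2 : ℝ) := by
        rw [lintegral_const_mul' _ _ (by simp), lintegral_lintegral_swap]
        exact Measurable.aemeasurable (by fun_prop)
    _ = 2 * ∫⁻ t in Set.Ioi (1 : ℝ),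
          ENNReal.ofReal (t ^ (-(3 / 2) : ℝ)) * ∫⁻ y, g y ^ (2 : ℝ) := by
        congr 1
        refine setLIntegral_congr_fun measurableSet_Ioi fun t ht => ?_
        have ht0 : 0 < t := one_pos.trans ht
        rw [lintegral_const_mul' _ _ (by simp),
          lint_scale (G := fun y => g y ^ (2 : ℝ)) (by fun_prop) ht0, ← mul_assoc,
          ← ENNReal.ofReal_mul (Real.rpow_nonneg ht0.le _), ← Real.rpow_add ht0]
        norm_num
    _ = 4 * ∫⁻ y, g y ^ (2 : ℝ) := by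
        rw [lintegral_mul_const _ (by fun_prop), lint_weight, ← mul_assoc]
        norm_num

omit [CompleteSpace F] in
lemma ray_bound {u : E3 → F} (hu : ContDiff ℝ 1 u) (h0 : Tendsto u (cocompact E3) (𝓝 0))
    (y : E3) : ‖‖y‖⁻¹ • u y‖ₑ ≤ ∫⁻ t in Set.Ioi (1 : ℝ), ‖fderiv ℝ u (t • y)‖ₑ := by
  rcases eq_or_ne y 0 with rfl | hy
  · simp
  have hd : ∀ t : ℝ, HasDerivAt (fun t : ℝ => u (t • y)) (fderiv ℝ u (t • y) y) t := fun t => by
    have h1 : HasDerivAt (fun t : ℝ => t • y) y t := by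
      simpa using (hasDerivAt_id t).smul_const y
    exact ((hu.differentiable one_ne_zero) _).hasFDerivAt.comp_hasDerivAt t h1
  have hc : ContDiff ℝ 1 fun t : ℝ => u (t • y) := hu.comp (by fun_prop)
  set B := (∫⁻ t in Set.Ioi (1 : ℝ), ‖fderiv ℝ u (t • y)‖ₑ) with hB
  have hT : ∀ T : ℝ, 1 ≤ T → ‖u (T • y) - u y‖ₑ ≤ B * ‖y‖ₑ := fun T hT => by
    have := enorm_sub_le_lintegral_deriv_of_contDiffOn_Icc (hc.contDiffOn (s := Set.Icc 1 T)) hT
    simp only [one_smul] at this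
    refine this.trans ?_
    rw [hB, ← lintegral_mul_const' _ _ (by simp), ← Measure.restrict_congr_set Ioc_ae_eq_Icc]
    refine (lintegral_mono fun t => ?_).trans (lintegral_mono_set Set.Ioc_subset_Ioi_self)
    rw [(hd t).deriv]
    exact ContinuousLinearMap.le_opENorm _ _
  have hlim : Tendsto (fun T : ℝ => ‖u (T • y) - u y‖ₑ) atTop (𝓝 ‖(0 : F) - u y‖ₑ) := by
    refine (Tendsto.sub_const (h0.comp ?_) _).enorm
    rw [← Metric.cobounded_eq_cocompact, ← comap_norm_atTop, tendsto_comap_iff]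
    have : Tendsto (fun T : ℝ => T * ‖y‖) atTop atTop :=
      tendsto_id.atTop_mul_const (norm_pos_iff.2 hy)
    refine this.congr' ?_
    filter_upwards [eventually_ge_atTop 0] with T hT
    simp [norm_smul, abs_of_nonneg hT]
  have h2 : ‖u y‖ₑ ≤ B * ‖y‖ₑ := by
    have := le_of_tendsto hlim ((eventually_ge_atTop 1).mono hT)
    simpa using this
  have hy' : ‖y‖ₑ ≠ 0 := by simpa using hy
  rw [enorm_smul, enorm_inv (norm_ne_zero_iff.2 hy), enorm_norm, mul_comm, ← div_eq_mul_inv]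
  exact ENNReal.div_le_of_le_mul h2

omit [CompleteSpace F] in
lemma hardy_fun2 {u : E3 → F} (hu : ContDiff ℝ 1 u) (h0 : Tendsto u (cocompact E3) (𝓝 0)) :
    ∫⁻ y : E3, ‖‖y‖⁻¹ • u y‖ₑ ^ (2 : ℝ) ≤ 4 * ∫⁻ y, ‖fderiv ℝ u y‖ₑ ^ (2 : ℝ) := by
  have hm : Measurable fun y => ‖fderiv ℝ u y‖ₑ :=
    (hu.continuous_fderiv one_ne_zero).enorm.measurable
  refine le_trans (lintegral_mono fun y => ?_) (ray_avg hm)
  exact ENNReal.rpow_le_rpow (ray_bound hu h0 y) (by norm_num)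

lemma wirtinger_scalar {f f' : ℝ → ℂ} (hd : ∀ s, HasDerivAt f (f' s) s) (hc : Continuous f')
    (hp : f (2 * π) = f 0) (h0 : ∫ s in (0 : ℝ)..2 * π, f s = 0) :
    ∫ s in (0 : ℝ)..2 * π, ‖f s‖ ^ 2 ≤ ∫ s in (0 : ℝ)..2 * π, ‖f' s‖ ^ 2 := by
  have hab : (0 : ℝ) < 2 * π := by positivity
  have hfc : Continuous f := continuous_iff_continuousAt.2 fun s => (hd s).continuousAt
  have hL : ∀ {g : ℝ → ℂ}, Continuous g → MemLp g 2 (volume.restrict (Set.Ioc 0 (2 * π))) :=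
    fun {g} hg => by
      obtain ⟨C, hC⟩ := isCompact_Icc.exists_bound_of_continuousOn
        (hg.continuousOn (s := Set.Icc 0 (2 * π)))
      refine MemLp.of_bound hg.aestronglyMeasurable C ?_
      filter_upwards [ae_restrict_mem measurableSet_Ioc] with s hs
      exact hC s (Set.Ioc_subset_Icc_self hs)
  have h1 := hasSum_sq_fourierCoeffOn hab (hL hfc)
  have h2 := hasSum_sq_fourierCoeffOn hab (hL hc)
  have h3 : ∀ n : ℤ, ‖fourierCoeffOn hab f n‖ ^ 2 ≤ ‖fourierCoeffOn hab f' n‖ ^ 2 := fun n => by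
    rcases eq_or_ne n 0 with rfl | hn
    · rw [fourierCoeffOn_eq_integral]
      simp [h0]
    · rw [fourierCoeffOn_of_hasDerivAt hab hn (fun x _ => hd x) (hc.intervalIntegrable _ _), hp]
      gcongr
      have hn1 : (1 : ℝ) ≤ |(n : ℝ)| := by exact_mod_cast Int.one_le_abs hn
      have hπ := Real.pi_pos
      simp only [sub_self, mul_zero, zero_sub, norm_mul, norm_neg, norm_div, norm_one,
        Complex.ofReal_zero, sub_zero, Complex.norm_real, Complex.norm_I, Complex.norm_intCast,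
        Real.norm_eq_abs, Complex.norm_ofNat, abs_of_pos hπ, mul_one, abs_two]
      rw [← mul_assoc]
      refine mul_le_of_le_one_left (norm_nonneg _) ?_
      rw [div_mul_eq_mul_div, one_mul, div_le_one (by positivity)]
      nlinarith
  have h4 := hasSum_le h3 h1 h2
  simp only [sub_zero, smul_eq_mul] at h4
  exact le_of_mul_le_mul_left h4 (inv_pos.2 hab)

lemma wirtinger [FiniteDimensional ℂ F] {f f' : ℝ → F} (hd : ∀ s, HasDerivAt f (f' s) s)
    (hc : Continuous f') (hp : f (2 * π) = f 0) (h0 : ∫ s in (0 : ℝ)..2 * π, f s = 0) :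
    ∫ s in (0 : ℝ)..2 * π, ‖f s‖ ^ 2 ≤ ∫ s in (0 : ℝ)..2 * π, ‖f' s‖ ^ 2 := by
  have hfc : Continuous f := continuous_iff_continuousAt.2 fun s => (hd s).continuousAt
  let b := stdOrthonormalBasis ℂ F
  have hs : ∀ {g : ℝ → F}, Continuous g → ∫ s in (0 : ℝ)..2 * π, ‖g s‖ ^ 2 =
      ∑ a, ∫ s in (0 : ℝ)..2 * π, ‖inner ℂ (b a) (g s)‖ ^ 2 := fun {g} hg => by
    rw [← intervalIntegral.integral_finsetSum]
    · simp_rw [b.sum_sq_norm_inner_right]
    · intro a _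
      exact Continuous.intervalIntegrable (by fun_prop) _ _
  rw [hs hfc, hs hc]
  refine Finset.sum_le_sum fun a _ => ?_
  refine wirtinger_scalar (f := fun s => inner ℂ (b a) (f s)) (f' := fun s => inner ℂ (b a) (f' s))
    (fun s => ?_) (by fun_prop) (by simp only [hp]) ?_
  · exact ((innerSL ℂ (b a)).restrictScalars ℝ).hasFDerivAt.comp_hasDerivAt s (hd s)
  · have := (innerSL ℂ (b a)).intervalIntegral_comp_comm (hfc.intervalIntegrable (μ := volume)
      0 (2 * π))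
    rw [h0, map_zero] at this
    exact this

lemma continuous_rot (k : Fin 3) : Continuous fun p : E3 × ℝ => rot k p.2 p.1 := by
  have : (fun p : E3 × ℝ => rot k p.2 p.1) = fun p : E3 × ℝ =>
      p.1 + Real.sin p.2 • gen k p.1 + (1 - Real.cos p.2) • gen k (gen k p.1) := by
    funext p; simp [rot_apply, rotL]
  rw [this]
  fun_prop

lemma continuous_rot_left (k : Fin 3) (y : E3) : Continuous fun s : ℝ => rot k s y :=
  continuous_iff_continuousAt.2 fun s => (hasDerivAt_rot k y s).continuousAt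

lemma rot_avg (k : Fin 3) {A : E3 → ℝ≥0∞} (hA : Measurable A) :
    ∫⁻ y : E3, ∫⁻ s in Set.Ioc 0 (2 * π), A (rot k s y) = ENNReal.ofReal (2 * π) * ∫⁻ y, A y := by
  rw [lintegral_lintegral_swap]
  · have : ∀ s : ℝ, ∫⁻ y : E3, A (rot k s y) = ∫⁻ y, A y := fun s =>
      (rot k s).measurePreserving.lintegral_comp hA
    simp_rw [this]
    rw [lintegral_const, mul_comm]
    simp
  · exact (hA.comp (continuous_rot k).measurable).aemeasurable

omit [CompleteSpace F] in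
lemma orbit_mean {u : E3 → F} (hu : Continuous u) (k : Fin 3) {N : ℕ} (hN : 0 < N)
    (h0 : ∀ y, ∑ j ∈ Finset.range N, u (rot k (-(2 * π * j / N)) y) = 0) (y : E3) :
    ∫ s in (0 : ℝ)..2 * π, u (rot k s y) = 0 := by
  have hc : Continuous fun s : ℝ => u (rot k s y) :=
    hu.comp (continuous_rot_left k y)
  have hp : Function.Periodic (fun s : ℝ => u (rot k s y)) (2 * π) := fun s => by
    simp only [rot_add, rot_two_pi]
  have h1 : ∀ c : ℝ, ∫ s in (0 : ℝ)..2 * π, u (rot k (-c) (rot k s y)) =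
      ∫ s in (0 : ℝ)..2 * π, u (rot k s y) := fun c => by
    simp_rw [← rot_add]
    rw [intervalIntegral.integral_comp_add_left (fun s => u (rot k s y)) (-c)]
    have := hp.intervalIntegral_add_eq (-c) 0
    simpa using this
  have h2 : ∑ j ∈ Finset.range N, ∫ s in (0 : ℝ)..2 * π,
      u (rot k (-(2 * π * j / N)) (rot k s y)) = 0 := by
    rw [← intervalIntegral.integral_finsetSum]
    · simp [h0]
    · intro j _
      exact Continuous.intervalIntegrable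
        (hu.comp ((rot k (-(2 * π * j / N))).continuous.comp (continuous_rot_left k y))) _ _
  simp_rw [h1] at h2
  rw [Finset.sum_const, Finset.card_range, ← Nat.cast_smul_eq_nsmul ℝ, smul_eq_zero] at h2
  exact h2.resolve_left (Nat.cast_ne_zero.2 hN.ne')

lemma lint_sq {g : ℝ → ℝ} (hg : Continuous g) (h0 : ∀ s, 0 ≤ g s) :
    ∫⁻ s in Set.Ioc 0 (2 * π), ENNReal.ofReal (g s) ^ (2 : ℝ) =
      ENNReal.ofReal (∫ s in (0 : ℝ)..2 * π, g s ^ 2) := by
  rw [intervalIntegral.integral_of_le (by positivity), ofReal_integral_eq_lintegral_ofReal]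
  · refine lintegral_congr fun s => ?_
    rw [ENNReal.ofReal_rpow_of_nonneg (h0 s) (by norm_num)]
    norm_num
  · exact (Continuous.integrableOn_Icc (by fun_prop)).mono_set Set.Ioc_subset_Icc_self
  · exact .of_forall fun s => sq_nonneg _

lemma hardy_fun1 [FiniteDimensional ℂ F] {u : E3 → F} (hu : ContDiff ℝ 1 u) (k : Fin 3) {N : ℕ}
    (hN : 0 < N) (h0 : ∀ y, ∑ j ∈ Finset.range N, u (rot k (-(2 * π * j / N)) y) = 0) :
    ∫⁻ y : E3, ‖‖y‖⁻¹ • u y‖ₑ ^ (2 : ℝ) ≤ ∫⁻ y, ‖fderiv ℝ u y‖ₑ ^ (2 : ℝ) := by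
  have hD := hu.continuous_fderiv one_ne_zero
  have hm : Measurable fun y => ‖fderiv ℝ u y‖ₑ ^ (2 : ℝ) :=
    hD.enorm.measurable.pow_const _
  have hm' : Measurable fun y : E3 => ‖‖y‖⁻¹ • u y‖ₑ ^ (2 : ℝ) := by
    simp_rw [enorm_smul]
    exact ((measurable_norm.inv.enorm).mul hu.continuous.enorm.measurable).pow_const _
  have hπ : ENNReal.ofReal (2 * π) ≠ 0 := by
    simpa using Real.pi_pos
  rw [← ENNReal.mul_le_mul_iff_right hπ ENNReal.ofReal_ne_top, ← rot_avg k hm, ← rot_avg k hm']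
  refine lintegral_mono fun y => ?_
  have hr := continuous_rot_left k y
  have hw := wirtinger (f := fun s => u (rot k s y))
    (f' := fun s => fderiv ℝ u (rot k s y) (gen k (rot k s y)))
    (fun s => ((hu.differentiable one_ne_zero) _).hasFDerivAt.comp_hasDerivAt s
      (hasDerivAt_rot k y s)) ((hD.comp hr).clm_apply ((gen k).continuous.comp hr))
    (by simp only [rot_two_pi, rot_zero]) (orbit_mean hu.continuous k hN h0 y)
  simp_rw [← ofReal_norm]
  simp_rw [norm_smul, LinearIsometryEquiv.norm_map]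
  rw [lint_sq (g := fun s => ‖‖y‖⁻¹‖ * ‖u (rot k s y)‖)
      (continuous_const.mul (hu.continuous.comp hr).norm) (fun s => by positivity),
    lint_sq (g := fun s => ‖fderiv ℝ u (rot k s y)‖) (hD.comp hr).norm (fun s => by positivity)]
  refine ENNReal.ofReal_le_ofReal ?_
  simp_rw [mul_pow]
  rw [intervalIntegral.integral_const_mul]
  refine (mul_le_mul_of_nonneg_left hw (by positivity)).trans ?_
  rw [← intervalIntegral.integral_const_mul]
  refine intervalIntegral.integral_mono_on (by positivity) ?_ ?_ fun s _ => ?_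
  · exact Continuous.intervalIntegrable (continuous_const.mul
      (((hD.comp hr).clm_apply ((gen k).continuous.comp hr)).norm.pow 2)) _ _
  · exact Continuous.intervalIntegrable ((hD.comp hr).norm.pow 2) _ _
  · rw [← mul_pow]
    gcongr
    have h1 : ‖gen k (rot k s y)‖ ≤ ‖y‖ := by
      simpa using norm_gen_le k (rot k s y)
    have h2 := (fderiv ℝ u (rot k s y)).le_opNorm (gen k (rot k s y))
    rw [norm_inv, norm_norm]
    refine inv_mul_le_of_le_mul₀ (norm_nonneg _) (norm_nonneg _) ?_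
    rw [mul_comm]
    exact h2.trans (by gcongr)

omit [CompleteSpace F] in
lemma opNorm_sq_le (L : E3 →L[ℝ] F) :
    ‖L‖ ^ 2 ≤ ∑ i : Fin 3, ‖L (EuclideanSpace.single i (1 : ℝ))‖ ^ 2 := by
  set S := ∑ i : Fin 3, ‖L (EuclideanSpace.single i (1 : ℝ))‖ ^ 2 with hS
  have hS0 : 0 ≤ S := Finset.sum_nonneg fun i _ => sq_nonneg _
  have : ‖L‖ ≤ √S := by
    refine L.opNorm_le_bound (Real.sqrt_nonneg _) fun v => ?_
    have hv : v = ∑ i : Fin 3, v i • EuclideanSpace.single i (1 : ℝ) := by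
      ext j; fin_cases j <;> simp [Fin.sum_univ_three]
    have h1 : ‖L v‖ ≤ ∑ i : Fin 3, ‖L (EuclideanSpace.single i (1 : ℝ))‖ * ‖v i‖ := by
      conv_lhs => rw [hv, map_sum]
      refine (norm_sum_le _ _).trans (le_of_eq (Finset.sum_congr rfl fun i _ => ?_))
      rw [map_smul, norm_smul, mul_comm]
    rw [EuclideanSpace.norm_eq v]
    exact h1.trans (Real.sum_mul_le_sqrt_mul_sqrt _ _ _)
  calc ‖L‖ ^ 2 ≤ √S ^ 2 := by gcongr
    _ = S := Real.sq_sqrt hS0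

omit [InnerProductSpace ℂ F] [CompleteSpace F] in
lemma eLpNorm_sq (f : E3 → F) : eLpNorm f 2 volume ^ (2 : ℝ) = ∫⁻ x, ‖f x‖ₑ ^ (2 : ℝ) := by
  simpa using eLpNorm_nnreal_pow_eq_lintegral (f := f) (μ := volume) (p := 2) two_ne_zero

lemma enorm_rpow_two {A : Type} [NormedAddCommGroup A] (a : A) :
    ‖a‖ₑ ^ (2 : ℝ) = ENNReal.ofReal (‖a‖ ^ 2) := by
  rw [← ofReal_norm, ENNReal.ofReal_rpow_of_nonneg (norm_nonneg _) (by norm_num)]
  norm_num

lemma grad_bound {κ : E3 → F} (h1 : Integrable κ) (h2 : MemLp κ 2 volume)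
    (hs : ∃ r : ℝ, ∀ ξ, r < ‖ξ‖ → κ ξ = 0) :
    ∫⁻ y, ‖fderiv ℝ (𝓕⁻ κ) y‖ₑ ^ (2 : ℝ) ≤
      ENNReal.ofReal (2 * π) ^ (2 : ℝ) * ∫⁻ ξ : E3, ‖‖ξ‖ • κ ξ‖ₑ ^ (2 : ℝ) := by
  set e : Fin 3 → E3 := fun i => EuclideanSpace.single i (1 : ℝ) with he
  set m : Fin 3 → E3 → F :=
    fun i ξ => (((2 * π * inner ℝ ξ (e i) : ℝ) : ℂ) * Complex.I) • κ ξ with hm
  have hnorm : ∀ i ξ, ‖m i ξ‖ = 2 * π * |ξ i| * ‖κ ξ‖ := fun i ξ => by
    simp [hm, he, norm_smul, abs_of_pos Real.pi_pos, EuclideanSpace.inner_single_right]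
  have hmeas : ∀ i, AEStronglyMeasurable (m i) volume := fun i =>
    (Continuous.aestronglyMeasurable (by fun_prop)).smul h1.aestronglyMeasurable
  obtain ⟨r, hr⟩ := hs
  have hle : ∀ i ξ, ‖m i ξ‖ ≤ (2 * π * r) * ‖κ ξ‖ := fun i ξ => by
    rw [hnorm]
    rcases lt_or_ge r ‖ξ‖ with h | h
    · simp [hr ξ h]
    · have : |ξ i| ≤ r := (PiLp.norm_apply_le ξ i).trans h
      have := Real.pi_pos
      gcongr
  have hm2 : ∀ i, MemLp (m i) 2 volume := fun i => h2.of_le_mul (hmeas i) (.of_forall (hle i))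
  have hm1 : ∀ i, Integrable (m i) := fun i => memLp_one_iff_integrable.1
    ((memLp_one_iff_integrable.2 h1).of_le_mul (hmeas i) (.of_forall (hle i)))
  have hD := (contDiff_fourierInv h1 ⟨r, hr⟩).continuous_fderiv one_ne_zero
  calc ∫⁻ y, ‖fderiv ℝ (𝓕⁻ κ) y‖ₑ ^ (2 : ℝ)
      ≤ ∫⁻ y, ∑ i, ‖D (e i) (𝓕⁻ κ) y‖ₑ ^ (2 : ℝ) := by
        refine lintegral_mono fun y => ?_
        simp only [enorm_rpow_two]
        rw [← ENNReal.ofReal_sum_of_nonneg fun i _ => sq_nonneg _]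
        exact ENNReal.ofReal_le_ofReal (opNorm_sq_le _)
    _ = ∑ i, ∫⁻ y, ‖D (e i) (𝓕⁻ κ) y‖ₑ ^ (2 : ℝ) :=
        lintegral_finsetSum _ fun i _ =>
          (hD.clm_apply continuous_const).enorm.measurable.pow_const _
    _ = ∑ i, ∫⁻ ξ, ‖m i ξ‖ₑ ^ (2 : ℝ) := by
        refine Finset.sum_congr rfl fun i _ => ?_
        rw [← eLpNorm_sq, ← eLpNorm_sq, D_fourierInv h1 ⟨r, hr⟩,
          eLpNorm_fourierInv (hm1 i) (hm2 i)]
    _ = ∫⁻ ξ, ∑ i, ‖m i ξ‖ₑ ^ (2 : ℝ) :=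
        (lintegral_finsetSum' _ fun i _ => (hmeas i).enorm.pow_const _).symm
    _ = ENNReal.ofReal (2 * π) ^ (2 : ℝ) * ∫⁻ ξ : E3, ‖‖ξ‖ • κ ξ‖ₑ ^ (2 : ℝ) := by
        rw [← lintegral_const_mul' _ _
          (ENNReal.rpow_ne_top_of_nonneg (by norm_num) ENNReal.ofReal_ne_top)]
        refine lintegral_congr fun ξ => ?_
        simp only [enorm_rpow_two]
        rw [← ENNReal.ofReal_sum_of_nonneg fun i _ => sq_nonneg _,
          ENNReal.ofReal_rpow_of_nonneg (by positivity) (by norm_num),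
          ← ENNReal.ofReal_mul (by positivity)]
        congr 1
        have hξ : ‖ξ‖ ^ 2 = ξ 0 ^ 2 + ξ 1 ^ 2 + ξ 2 ^ 2 := by
          rw [EuclideanSpace.norm_sq_eq]; simp [Fin.sum_univ_three]
        simp only [hnorm, Fin.sum_univ_three, norm_smul, norm_norm, mul_pow, sq_abs, hξ,
          Real.rpow_two]
        ring

lemma hardy_limit (h : L2 F) {c : ℝ≥0∞}
    (hc : ∀ n : ℕ, ∫⁻ y : E3, ‖‖y‖⁻¹ • 𝓕⁻ ((Metric.closedBall (0 : E3) n).indicator h) y‖ₑ ^ (2 : ℝ)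
      ≤ c ^ (2 : ℝ) *
        ∫⁻ y, ‖fderiv ℝ (𝓕⁻ ((Metric.closedBall (0 : E3) n).indicator h)) y‖ₑ ^ (2 : ℝ)) :
    eLpNorm (fun y : E3 => ‖y‖⁻¹ • (FT F).symm h y) 2 volume ≤
      c * ENNReal.ofReal (2 * π) * eLpNorm (fun ξ : E3 => ‖ξ‖ • h ξ) 2 volume := by
  set κ : ℕ → E3 → F := fun n => (Metric.closedBall (0 : E3) n).indicator h with hκ
  have hb : ∀ n, eLpNorm (fun y : E3 => ‖y‖⁻¹ • (FT F).symm (toL2 (κ n)) y) 2 volume ≤
      c * ENNReal.ofReal (2 * π) * eLpNorm (fun ξ : E3 => ‖ξ‖ • h ξ) 2 volume := fun n => by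
    have e1 : (fun y : E3 => ‖y‖⁻¹ • (FT F).symm (toL2 (κ n)) y) =ᵐ[volume]
        fun y : E3 => ‖y‖⁻¹ • 𝓕⁻ (κ n) y := by
      filter_upwards [l1l2 (integrable_trunc h n) (memLp_trunc h n)] with y hy
      rw [hy]
    rw [eLpNorm_congr_ae e1, ← ENNReal.rpow_le_rpow_iff (z := 2) two_pos,
      ENNReal.mul_rpow_of_nonneg _ _ zero_le_two, ENNReal.mul_rpow_of_nonneg _ _ zero_le_two,
      eLpNorm_sq, eLpNorm_sq, mul_assoc]
    refine (hc n).trans (mul_le_mul_right ?_ _)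
    refine (grad_bound (integrable_trunc h n) (memLp_trunc h n) ⟨n, fun ξ hξ => ?_⟩).trans
      (mul_le_mul_right (lintegral_mono fun ξ => ?_) _)
    · exact Set.indicator_of_notMem (by simpa using hξ) _
    · refine ENNReal.rpow_le_rpow ?_ zero_le_two
      rw [enorm_smul, enorm_smul]
      exact mul_le_mul_right (enorm_indicator_le_enorm_self _ _) _
  have ht : Tendsto (fun n => (FT F).symm (toL2 (κ n))) atTop (𝓝 ((FT F).symm h)) :=
    ((FT F).symm.continuous.tendsto h).comp (trunc_tendsto h)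
  obtain ⟨ns, -, hns⟩ := (tendstoInMeasure_of_tendsto_Lp ht).exists_seq_tendsto_ae
  refine (Lp.eLpNorm_lim_le_liminf_eLpNorm
    (f := fun n (y : E3) => ‖y‖⁻¹ • (FT F).symm (toL2 (κ (ns n))) y) (fun n => ?_) _ ?_).trans ?_
  · exact measurable_norm.inv.aestronglyMeasurable.smul (Lp.aestronglyMeasurable _)
  · filter_upwards [hns] with y hy
    exact hy.const_smul _
  · exact liminf_le_of_frequently_le' (.of_forall fun n => hb (ns n))

omit [InnerProductSpace ℂ F] [CompleteSpace F] in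
lemma trunc_supp (h : L2 F) (n : ℕ) :
    ∃ r : ℝ, ∀ ξ, r < ‖ξ‖ → (Metric.closedBall (0 : E3) n).indicator h ξ = 0 :=
  ⟨n, fun ξ hξ => Set.indicator_of_notMem (by simpa using hξ) _⟩

end HardyAux

open HardyAux

theorem hardy2 [FiniteDimensional ℂ F] (h : L2 F) :
    eLpNorm (fun y : E3 => ‖y‖⁻¹ • (FT F).symm h y) 2 volume ≤
      ENNReal.ofReal (4 * π) * eLpNorm (fun ξ : E3 => ‖ξ‖ • h ξ) 2 volume := by
  have e : ENNReal.ofReal (4 * π) = 2 * ENNReal.ofReal (2 * π) := by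
    rw [show 4 * π = 2 * (2 * π) by ring, ENNReal.ofReal_mul zero_le_two]
    simp
  rw [e]
  refine hardy_limit h fun n => ?_
  have := hardy_fun2 (contDiff_fourierInv (integrable_trunc h n) (trunc_supp h n))
    (tendsto_fourierInv _)
  convert this using 2
  norm_num

theorem hardy1 [FiniteDimensional ℂ F] (k : Fin 3) {N : ℕ} (hN : 0 < N) (h : L2 F)
    (h0 : ∀ᵐ ξ : E3, ∑ j ∈ Finset.range N, h (rot k (-(2 * π * j / N)) ξ) = 0) :
    eLpNorm (fun y : E3 => ‖y‖⁻¹ • (FT F).symm h y) 2 volume ≤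
      ENNReal.ofReal (2 * π) * eLpNorm (fun ξ : E3 => ‖ξ‖ • h ξ) 2 volume := by
  rw [← one_mul (ENNReal.ofReal (2 * π))]
  refine hardy_limit h fun n => ?_
  rw [ENNReal.one_rpow, one_mul]
  refine hardy_fun1 (contDiff_fourierInv (integrable_trunc h n) (trunc_supp h n)) k hN fun y => ?_
  set κ : E3 → F := (Metric.closedBall (0 : E3) n).indicator h with hκ
  have hi : ∀ θ : ℝ, Integrable (κ ∘ rot k θ) := fun θ =>
    ((rot k θ).measurePreserving.integrable_comp (integrable_trunc h n).aestronglyMeasurable).2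
      (integrable_trunc h n)
  simp_rw [← Real.fourierInv_comp_linearIsometry, Real.fourierInv_eq]
  rw [← integral_finsetSum]
  · refine integral_eq_zero_of_ae ?_
    filter_upwards [h0] with ξ hξ
    rw [← Finset.smul_sum]
    have : ∑ j ∈ Finset.range N, (κ ∘ rot k (-(2 * π * j / N))) ξ = 0 := by
      by_cases hb : ‖ξ‖ ≤ n
      · rw [← hξ]
        refine Finset.sum_congr rfl fun j _ => ?_
        exact Set.indicator_of_mem (by simpa using hb) _
      · refine Finset.sum_eq_zero fun j _ => ?_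
        exact Set.indicator_of_notMem (by simpa using hb) _
    rw [this, smul_zero, Pi.zero_apply]
  · intro j _
    refine (hi (-(2 * π * j / N))).mono ?_ (.of_forall fun ξ => by simp)
    exact (Continuous.aestronglyMeasurable (by fun_prop)).smul (hi _).aestronglyMeasurable

end Pool.Agent.Work.MP_0d9e46_mp
end
end

-- merged part: Pool.Agent.Work.MP_0d9e46_mp.Vop
section
/-! The bounded operator `V G₀` on the Fourier side. -/

open MeasureTheory Filter Topology FourierTransform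
open scoped Real ENNReal

noncomputable section

namespace Pool.Agent.Work.MP_0d9e46_mp

variable {F : Type} [NormedAddCommGroup F] [InnerProductSpace ℂ F] [CompleteSpace F]
  [FiniteDimensional ℂ F]

namespace Model

variable (M : Model F)

lemma eLpNorm_norm_G0 (h : L2 F) :
    eLpNorm (fun ξ : E3 => ‖ξ‖ • M.G0 h ξ) 2 volume ≤
      ENNReal.ofReal (M.γ / (2 * π)) * eLpNorm h 2 volume := by
  apply eLpNorm_le_mul_eLpNorm_of_ae_le_mul
  filter_upwards [M.G0_ae h] with ξ hξ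
  have h1 := M.mul_norm_le_E ξ
  have h2 := M.E_pos ξ
  have h3 : ‖M.G ξ (h ξ)‖ ≤ (M.E ξ)⁻¹ * ‖h ξ‖ :=
    ((M.G ξ).le_opNorm _).trans (mul_le_mul_of_nonneg_right (M.norm_G_le' ξ) (norm_nonneg _))
  have h4 : ‖ξ‖ * (M.E ξ)⁻¹ ≤ M.γ / (2 * π) := by
    rw [← div_eq_mul_inv, div_le_div_iff₀ h2 (by positivity)]
    have h5 : M.γ * M.c = 1 := mul_inv_cancel₀ M.γ_pos.ne'
    have := mul_le_mul_of_nonneg_left h1 M.γ_pos.le
    calc ‖ξ‖ * (2 * π) = (M.γ * M.c) * (‖ξ‖ * (2 * π)) := by rw [h5, one_mul]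
      _ = M.γ * (2 * π * M.c * ‖ξ‖) := by ring
      _ ≤ _ := this
  rw [hξ, norm_smul, norm_norm]
  calc ‖ξ‖ * ‖M.G ξ (h ξ)‖ ≤ ‖ξ‖ * ((M.E ξ)⁻¹ * ‖h ξ‖) := by gcongr
    _ = (‖ξ‖ * (M.E ξ)⁻¹) * ‖h ξ‖ := by ring
    _ ≤ _ := by gcongr

lemma eLpNorm_V_le (h : L2 F) :
    eLpNorm (fun y : E3 => ‖y‖⁻¹ • (FT F).symm (M.G0 h) y) 2 volume ≤
      ENNReal.ofReal 2 * eLpNorm h 2 volume := by
  refine (hardy2 (M.G0 h)).trans ?_
  refine (mul_le_mul_right (M.eLpNorm_norm_G0 h) _).trans ?_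
  rw [← mul_assoc, ← ENNReal.ofReal_mul (by positivity)]
  gcongr
  have := M.γ_lt
  have hp := Real.pi_pos
  calc 4 * π * (M.γ / (2 * π)) = 2 * M.γ := by field_simp; ring
    _ ≤ 2 := by linarith

lemma memLp_V (h : L2 F) : MemLp (fun y : E3 => ‖y‖⁻¹ • (FT F).symm (M.G0 h) y) 2 volume :=
  ⟨(measurable_norm.inv).aestronglyMeasurable.smul (Lp.aestronglyMeasurable _),
    (M.eLpNorm_V_le h).trans_lt
      (ENNReal.mul_lt_top ENNReal.ofReal_lt_top (Lp.eLpNorm_lt_top h))⟩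

/-- The operator `V G₀` as a linear map. -/
def Vl : L2 F →ₗ[ℂ] L2 F where
  toFun h := FT F (toL2 fun y : E3 => ‖y‖⁻¹ • (FT F).symm (M.G0 h) y)
  map_add' h k := by
    rw [← map_add]
    congr 1
    apply toL2_eq
    filter_upwards [Lp.coeFn_add (toL2 fun y : E3 => ‖y‖⁻¹ • (FT F).symm (M.G0 h) y)
      (toL2 fun y : E3 => ‖y‖⁻¹ • (FT F).symm (M.G0 k) y), toL2_ae (M.memLp_V h),
      toL2_ae (M.memLp_V k), Lp.coeFn_add ((FT F).symm (M.G0 h)) ((FT F).symm (M.G0 k))]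
      with y h1 h2 h3 h4
    rw [h1, Pi.add_apply, h2, h3, map_add, map_add, h4, Pi.add_apply, smul_add]
  map_smul' a h := by
    rw [RingHom.id_apply, ← map_smul]
    congr 1
    apply toL2_eq
    filter_upwards [Lp.coeFn_smul a (toL2 fun y : E3 => ‖y‖⁻¹ • (FT F).symm (M.G0 h) y),
      toL2_ae (M.memLp_V h), Lp.coeFn_smul a ((FT F).symm (M.G0 h))] with y h1 h2 h3
    rw [h1, Pi.smul_apply, h2, map_smul, map_smul, h3, Pi.smul_apply, smul_comm]

lemma norm_Vl_le (h : L2 F) : ‖M.Vl h‖ ≤ 2 * ‖h‖ := by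
  change ‖FT F (toL2 fun y : E3 => ‖y‖⁻¹ • (FT F).symm (M.G0 h) y)‖ ≤ _
  rw [LinearIsometryEquiv.norm_map, norm_toL2 (M.memLp_V h), Lp.norm_def h]
  have := ENNReal.toReal_mono (ENNReal.mul_ne_top ENNReal.ofReal_ne_top (Lp.eLpNorm_ne_top h))
    (M.eLpNorm_V_le h)
  rwa [ENNReal.toReal_mul, ENNReal.toReal_ofReal zero_le_two] at this

/-- The operator `V G₀`. -/
def V : L2 F →L[ℂ] L2 F := M.Vl.mkContinuous 2 M.norm_Vl_le

lemma norm_V_le (h : L2 F) : ‖M.V h‖ ≤ 2 * ‖h‖ := M.norm_Vl_le h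

lemma V_ae (h : L2 F) :
    (FT F).symm (M.V h) =ᵐ[volume] fun y : E3 => ‖y‖⁻¹ • (FT F).symm (M.G0 h) y := by
  have : M.V h = FT F (toL2 fun y : E3 => ‖y‖⁻¹ • (FT F).symm (M.G0 h) y) := rfl
  rw [this, LinearIsometryEquiv.symm_apply_apply]
  exact toL2_ae (M.memLp_V h)

/-- The weak form of `E B f - V f = h`. -/
def Rel (f h : L2 F) : Prop :=
  ∀ φ : L2 F, M.Lam φ = φ → inner ℂ f (φ - M.V φ) = inner ℂ h (M.G0 φ)

/-- The test vector multiplied by `1 - ‖x‖ / ‖y‖`. -/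
def U (x : E3) (sp sm : E3 → ℝ) (e : F) : L2 F :=
  M.tv x sp sm e -
    ((‖x‖ : ℝ) : ℂ) • M.V (M.tv x (fun ξ => M.E ξ * sp ξ) (fun ξ => -M.E ξ * sm ξ) e)

end Model

end Pool.Agent.Work.MP_0d9e46_mp
end
end
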